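import Pool.Agent.SQH.Defs
import Pool.Agent.SQG.Sqb

/-!
# SQH module Bas: the pieces of a dissection
-/

set_option autoImplicit false

open AddMonoidAlgebra Filter Topology

namespace Pool.Agent.SQH

open Pool.Agent.SQG

theorem sq_bdd : Bornology.IsBounded sq := by
  have h1 : sq ⊆ Set.Icc (0 : ℝ) 1 ×ˢ Set.Icc (0 : ℝ) 1 := fun z hz => ⟨hz.1, hz.2⟩
  exact (isCompact_Icc.prod isCompact_Icc).isBounded.subset h1

theorem mv_image_open {U : Set V} (hU : IsOpen U) (g : O2) (c : V) : IsOpen (mv g c '' U) :=
  (mvH g c).isOpen_image.2 hU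

theorem mv_image_closure (g : O2) (c : V) (U : Set V) : mv g c '' closure U = closure (mv g c '' U) :=
  (mvH g c).image_closure U

theorem mv_image_conn {U : Set V} (hU : IsPreconnected U) (g : O2) (c : V) : IsPreconnected (mv g c '' U) :=
  hU.image _ (continuous_mv g c).continuousOn

theorem til_closure {p : ℕ} {U : Set V} {g : Fin p → O2} {c : Fin p → V} (hT : Til p U g c) :
    ⋃ i, closure (mv (g i) (c i) '' U) = sq := by
  rw [← hT.cover]
  exact Set.iUnion_congr fun i => (mv_image_closure (g i) (c i) U).symm

theorem til_sub {p : ℕ} {U : Set V} {g : Fin p → O2} {c : Fin p → V} (hT : Til p U g c) (i : Fin p) :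
    mv (g i) (c i) '' U ⊆ sq := by
  rw [← til_closure hT]
  exact subset_closure.trans (Set.subset_iUnion (fun i => closure (mv (g i) (c i) '' U)) i)

theorem til_bdd {p : ℕ} {U : Set V} {g : Fin p → O2} {c : Fin p → V} (hT : Til p U g c) (i : Fin p) :
    Bornology.IsBounded (mv (g i) (c i) '' U) := sq_bdd.subset (til_sub hT i)

theorem mv_bdd {U : Set V} (hU : Bornology.IsBounded U) (g : O2) (c : V) : Bornology.IsBounded (mv g c '' U) := by
  have h1 : IsCompact (mv g c '' closure U) := hU.isCompact_closure.image (continuous_mv g c)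
  exact h1.isBounded.subset (Set.image_mono subset_closure)

theorem act_eq_mv (h : O2) (U : Set V) : act h '' U = mv h 0 '' U := by
  refine Set.image_congr fun z _ => ?_
  simp [mv]

theorem act_mv_image (h g : O2) (c : V) (U : Set V) : act h '' (mv g c '' U) = mv (h * g) (act h c) '' U := by
  rw [← Set.image_comp]
  refine Set.image_congr fun z _ => ?_
  simp only [Function.comp, mv, map_add, act_mul]

end Pool.Agent.SQH
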