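import Pool.Agent.SQH.Gzb
import Pool.Agent.SQH.Bas
import Pool.Agent.SQG.Gpt
import Pool.Agent.SQG.FDefs

/-!
# SQH module Adj: the adjugate of the system applied to the indicator functions

PROOF. Let `M = mm p ρ g c` with `ρ h = act (h : O2)`, `D = DD = M.det`, `u h = ind (act (h : O2) '' U)` and
`b h = ind (act (h : O2) '' sqo)` for `h : Γ`.  By `gpt`, for each `h`, for `z` outside the frontiers of the open sets
`act h '' (mv (g i) (c i) '' U)` and of `act h '' sqo` (`gz_fr`, `gz_all`, `gz_and`):
`∑ i, u (h * g i) (z - act h (c i)) = b h z`, and the left side is `∑ k, cv (M h k) (u k) z`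
(`M h k = ∑ i, if h * g i = k then single (act h (c i)) 1 else 0`, `cv_sum`, `cv_single`; exchange sums).  So
`Gz (fun z => ∀ h, ∑ k, cv (M h k) (u k) z = b h z)`.  Apply `cv (M.adjugate 1 h)` and sum over `h` (`gz_cv`,
`cv` of a finite sum of functions is the sum: prove it), `cv_mul`: `∑ k, cv ((M.adjugate * M) 1 k) (u k) z =
∑ h, cv (M.adjugate 1 h) (b h) z`, and `M.adjugate * M = D • 1` (`Matrix.adjugate_mul`), so the left side is
`cv D (u 1) z` with `u 1 = ind (act 1 '' U) = ind U`.  `Y h = M.adjugate 1 h`.  (`DD`, `mm` are defined with classical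
decidability: `unfold DD`; `Matrix.det` for two instances of `DecidableEq`: `Subsingleton.elim`.)
-/

set_option autoImplicit false

open AddMonoidAlgebra Filter Topology

namespace Pool.Agent.SQH

open Pool.Agent.SQG

private theorem cv_fsum {κ : Type} (s : Finset κ) (X : AddMonoidAlgebra ℤ V) (v : κ → V → ℤ) (z : V) :
    cv X (fun y => ∑ k ∈ s, v k y) z = ∑ k ∈ s, cv X (v k) z := by
  unfold cv Finsupp.sum
  simp only [Finset.mul_sum]
  exact Finset.sum_comm

private theorem act_open (h : O2) {W : Set V} (hW : IsOpen W) : IsOpen (act h '' W) := by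
  rw [act_eq_mv]
  exact mv_image_open hW h 0

theorem adj {p : ℕ} (Γ : Subgroup O2) [Fintype Γ] (g : Fin p → Γ) (c : Fin p → V) {U : Set V}
    (hT : Til p U (fun i => (g i : O2)) c) :
    ∃ Y : Γ → AddMonoidAlgebra ℤ V, Gz (fun z =>
      cv (DD p (fun h : Γ => act (h : O2)) g c) (ind U) z = ∑ k, cv (Y k) (ind (act (k : O2) '' sqo)) z) := by
  classical
  set M : Matrix Γ Γ (AddMonoidAlgebra ℤ V) := mm p (fun h : Γ => act (h : O2)) g c with hM
  have hMe : ∀ h k, M h k = ∑ i, if h * g i = k then single (act (h : O2) (c i)) 1 else 0 := by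
    intro h k
    rw [hM]
    unfold mm
    refine Finset.sum_congr rfl fun i _ => ?_
    split_ifs <;> rfl
  have hD : DD p (fun h : Γ => act (h : O2)) g c = M.det := by
    unfold DD
    rw [hM]
    congr 1
  refine ⟨fun k => M.adjugate 1 k, ?_⟩
  rw [hD]
  -- the relation
  have h1 : ∀ h : Γ, Gz (fun z => (∑ k, cv (M h k) (ind (act (k : O2) '' U)) z) =
      ind (act (h : O2) '' sqo) z) := by
    intro h
    have h2 : Gz (fun z => (∀ i, z ∉ frontier (act (h : O2) '' (mv (g i) (c i) '' U))) ∧
        z ∉ frontier (act (h : O2) '' sqo)) :=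
      gz_and (gz_all fun i => gz_fr (act_open _ (mv_image_open hT.opn _ _))) (gz_fr (act_open _ isOpen_sqo))
    refine gz_mono h2 fun z hz => ?_
    have h3 := gpt hT (h : O2) z hz.1 hz.2
    rw [← h3]
    have h4 : ∀ k : Γ, cv (M h k) (ind (act (k : O2) '' U)) z =
        ∑ i, if h * g i = k then ind (act (k : O2) '' U) (z - act (h : O2) (c i)) else 0 := by
      intro k
      rw [hMe, cv_sum]
      refine Finset.sum_congr rfl fun i _ => ?_
      split_ifs
      · rw [cv_single, one_mul]
      · rw [cv_zero]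
    rw [Finset.sum_congr rfl fun k _ => h4 k, Finset.sum_comm]
    refine Finset.sum_congr rfl fun i _ => ?_
    rw [Finset.sum_ite_eq Finset.univ (h * g i), if_pos (Finset.mem_univ _), Subgroup.coe_mul]
  have h5 : Gz (fun z => ∀ h : Γ, cv (M.adjugate 1 h)
      (fun y => ∑ k, cv (M h k) (ind (act (k : O2) '' U)) y) z =
      cv (M.adjugate 1 h) (ind (act (h : O2) '' sqo)) z) :=
    gz_all fun h => gz_cv _ (h1 h)
  refine gz_mono h5 fun z hz => ?_
  rw [← Finset.sum_congr rfl fun h _ => hz h]
  have h6 : ∀ h : Γ, cv (M.adjugate 1 h) (fun y => ∑ k, cv (M h k) (ind (act (k : O2) '' U)) y) z =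
      ∑ k, cv (M.adjugate 1 h * M h k) (ind (act (k : O2) '' U)) z := by
    intro h
    rw [cv_fsum]
    refine Finset.sum_congr rfl fun k _ => ?_
    rw [cv_mul]
  rw [Finset.sum_congr rfl fun h _ => h6 h, Finset.sum_comm]
  have h7 : ∀ k : Γ, ∑ h, cv (M.adjugate 1 h * M h k) (ind (act (k : O2) '' U)) z =
      if k = 1 then cv M.det (ind U) z else 0 := by
    intro k
    rw [← cv_sum]
    have h8 : ∑ h, M.adjugate 1 h * M h k = (M.adjugate * M) 1 k := (Matrix.mul_apply).symm
    rw [h8, Matrix.adjugate_mul, Matrix.smul_apply, Matrix.one_apply]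
    by_cases hk : k = 1
    · subst hk
      rw [if_pos rfl, if_pos rfl, smul_eq_mul, mul_one]
      have h9 : act ((1 : Γ) : O2) '' U = U := by
        rw [Subgroup.coe_one]
        have : (act (1 : O2) : V → V) = id := by
          funext y
          exact act_one y
        rw [this, Set.image_id]
      rw [h9]
    · rw [if_neg (Ne.symm hk), if_neg hk, smul_zero, cv_zero]
  rw [Finset.sum_congr rfl fun k _ => h7 k, Finset.sum_ite_eq' Finset.univ (1 : Γ), if_pos (Finset.mem_univ _)]

end Pool.Agent.SQH
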