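import Pool.Agent.SQH.Defs

/-!
# SQH module Bbr: the corner function of the square and the quarter turn

PROOF. `Ax (qt * h) ↔ Ax h` (`(qt * h).a = - h.b`, `(qt * h).b = h.a`).  If not `Ax h` both terms are `0`.  If `Ax h`:
`gm qt⁻¹ (single (shf (qt * h)) 1 * qq ℤ (1, 0) (0, 1)) = single (act qt⁻¹ (shf (qt * h))) 1 *
((single (0, -1) 1 - 1) * (single (1, 0) 1 - 1))` (`act_qt_inv`), and
`single (0, -1) 1 - 1 = - single (0, -1) 1 * (single (0, 1) 1 - 1)`.  So it remains
`act qt⁻¹ (shf (qt * h)) + (0, -1) = shf h`, i.e. with `(a, b) = (h.a, h.b)`, `(qt * h).a = -b`, `(qt * h).b = a`,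
`(qt * h).t = h.t = t`: `shf (qt * h) = (min (-b) 0 + min (-(t * a)) 0, min a 0 + min (t * (-b)) 0)`, apply
`act_qt_inv`: `(min a 0 + min (-(t * b)) 0, -(min (-b) 0 + min (-(t * a)) 0) - 1)`, and
`shf h = (min a 0 + min (-(t * b)) 0, min b 0 + min (t * a) 0)`.  The second coordinates agree because
`-(min (-b) 0) = max b 0`, `min b 0 - max b 0 = -|b|`..., i.e. `min b 0 + min (-b) 0 + min (t * a) 0 + min (-(t * a)) 0
= -|b| - |a| = -1` (`t = ± 1`, one of `a, b` is `0` and the other `± 1`: do the finitely many cases).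
-/

set_option autoImplicit false

open AddMonoidAlgebra Filter Topology

namespace Pool.Agent.SQH

open Pool.Agent.SQG

private theorem bbr_ax (h : O2) : Ax (qt * h) ↔ Ax h := by
  unfold Ax
  simp only [O2.mul_a, O2.mul_b, qt_a, qt_b, qt_t]
  constructor
  · intro h1; linarith
  · intro h1; linarith

private theorem bbr_min (x : ℝ) : min x 0 + min (-x) 0 = -|x| := by
  rcases le_total 0 x with h | h
  · rw [min_eq_right h, min_eq_left (neg_nonpos.2 h), abs_of_nonneg h]; ring
  · rw [min_eq_left h, min_eq_right (neg_nonneg.2 h), abs_of_nonpos h]; ring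

private theorem bbr_shf (h : O2) (hx : Ax h) : act qt⁻¹ (shf (qt * h)) + ((0, -1) : V) = shf h := by
  have ht : |h.t| = 1 := by
    have h1 := h.t_sq
    have h2 : |h.t| * |h.t| = 1 := by rw [← abs_mul, h1, abs_one]
    nlinarith [abs_nonneg h.t]
  have hab : |h.b| + |h.t * h.a| = 1 := by
    have h1 : h.a ^ 2 + h.b ^ 2 = 1 := by
      have := h.h
      nlinarith [this]
    have h2 : |h.a| ^ 2 = h.a ^ 2 := sq_abs _
    have h3 : |h.b| ^ 2 = h.b ^ 2 := sq_abs _
    rw [abs_mul, ht, one_mul]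
    have h4 : |h.a| * |h.b| = 0 := by rw [← abs_mul, hx, abs_zero]
    have h5 : (|h.b| + |h.a|) ^ 2 = 1 := by nlinarith
    nlinarith [abs_nonneg h.a, abs_nonneg h.b]
  have e1 := bbr_min h.b
  have e2 := bbr_min (h.t * h.a)
  rw [act_qt_inv]
  unfold shf
  simp only [O2.mul_a, O2.mul_b, O2.mul_t, qt_a, qt_b, qt_t]
  ext
  · simp only [Prod.fst_add, one_mul, zero_mul, mul_zero]
    ring_nf
  · simp only [Prod.snd_add, one_mul, zero_mul, mul_zero]
    ring_nf
    ring_nf at e1 e2
    linarith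

theorem bb_qt (h : O2) : BB h + gm qt⁻¹ (BB (qt * h)) = 0 := by
  by_cases hx : Ax h
  · have hx' : Ax (qt * h) := (bbr_ax h).2 hx
    unfold BB
    rw [if_pos hx, if_pos hx', map_mul, gm_single]
    have e1 : gm qt⁻¹ (qq ℤ ((1, 0) : V) (0, 1))
        = (single ((0, -1) : V) (1 : ℤ) - 1) * (single ((1, 0) : V) (1 : ℤ) - 1) := by
      unfold qq
      rw [map_mul, map_sub, map_sub, map_one, gm_single, gm_single, act_qt_inv, act_qt_inv]
      simp
    have e2 : single ((0, -1) : V) (1 : ℤ) - 1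
        = -(single ((0, -1) : V) (1 : ℤ) * (single ((0, 1) : V) (1 : ℤ) - 1)) := by
      rw [mul_sub, single_mul_single, mul_one, mul_one]
      have : ((0, -1) : V) + (0, 1) = 0 := by ext <;> simp
      rw [this, ← AddMonoidAlgebra.one_def]
      ring
    have e3 : single (act qt⁻¹ (shf (qt * h))) (1 : ℤ) * single ((0, -1) : V) (1 : ℤ) = single (shf h) 1 := by
      rw [single_mul_single, mul_one, bbr_shf h hx]
    rw [e1, e2]
    unfold qq
    rw [← e3]
    ring
  · have hx' : ¬ Ax (qt * h) := fun h1 => hx ((bbr_ax h).1 h1)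
    unfold BB
    rw [if_neg hx, if_neg hx']
    simp

end Pool.Agent.SQH
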