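import Pool.Agent.SQH.Rwz
import Pool.Agent.SQG.Tbm

/-!
# SQH module Clz: column sums vanish off the frontier

PROOF. Let `W' = act qt '' W` and `X' = - gm qt X`, so `X'.coeff (act qt w) = - X.coeff w` (`gm_coeff_act`); as
`act qt` is surjective, `hX.ver` says `∀ w', Crn (ind W') w' (X'.coeff w')`.  `W'` is open (image under the
homeomorphism `mvH qt 0`, or preimage under `act qt⁻¹`), bounded (image of a bounded set under a linear map:
e.g. `|(act qt z).1| = |z.2|`), and `tb_act hB qt`.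
`col_tot`: `row_tot` for `W'`, `X'`, `c`: `0 = sm (fun w => w.2 = c) X' = - sm (fun w => (act qt w).2 = c) X`
(`sm_neg`, `sm_gm`), and `(act qt w).2 = w.1` (`act_qt`).
`col_off`: `(c, x) ∉ frontier W` so `act qt (c, x) = (-x, c) ∉ frontier W'` (homeomorphism).  `row_off` for `W'` at
`(-x, c)`: `sm (fun w => w.1 = c ∧ -x < -w.2) X = 0`; `row_at`: `X.coeff (c, x) = 0`.  Subtract from `col_tot`:
`sm (w.1 = c) X = sm (w.1 = c ∧ x < w.2) X + sm (w.1 = c ∧ w.2 < x) X + (the term at (c, x))` (write all as sums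
over the support with `if`, `Finset.sum_add_distrib`).
-/

set_option autoImplicit false

open AddMonoidAlgebra Filter Topology

namespace Pool.Agent.SQH

open Pool.Agent.SQG

private theorem Clz_mv : (mvH qt 0 : V → V) = act qt := by
  funext z
  show act qt z + 0 = act qt z
  rw [add_zero]

private theorem Clz_open {W : Set V} (hW : IsOpen W) : IsOpen (act qt '' W) := by
  have h1 := (mvH qt 0).isOpenMap W hW
  rwa [Clz_mv] at h1

private theorem Clz_fr (W : Set V) : act qt '' frontier W = frontier (act qt '' W) := by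
  have h1 := (mvH qt 0).image_frontier W
  rwa [Clz_mv] at h1

private theorem Clz_bdd {W : Set V} (hb : Bornology.IsBounded W) : Bornology.IsBounded (act qt '' W) := by
  obtain ⟨R, hR⟩ := hb.subset_closedBall (0 : V)
  refine (Metric.isBounded_closedBall (x := (0 : V)) (r := R)).subset ?_
  rintro _ ⟨z, hz, rfl⟩
  have h1 := hR hz
  rw [Metric.mem_closedBall, dist_zero_right, Prod.norm_def] at h1
  rw [Metric.mem_closedBall, dist_zero_right, Prod.norm_def, act_qt]
  refine max_le ?_ ?_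
  · rw [norm_neg]
    exact le_trans (le_max_right _ _) h1
  · exact le_trans (le_max_left _ _) h1

private theorem Clz_cor {W : Set V} {X : AddMonoidAlgebra ℤ V} (hX : Cor W X) (w : V) :
    Crn (ind (act qt '' W)) w ((-gm qt X).coeff w) := by
  have h1 := hX.ver (act qt⁻¹ w)
  rw [act_act_inv] at h1
  have h2 : (-gm qt X).coeff w = -(X.coeff (act qt⁻¹ w)) := by
    rw [coeff_neg, Finsupp.neg_apply, gm_coeff]
  rw [h2]
  exact h1

private theorem Clz_act {X : AddMonoidAlgebra ℤ V} (w : V) : (-gm qt X).coeff (act qt w) = -(X.coeff w) := by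
  rw [coeff_neg, Finsupp.neg_apply, gm_coeff_act]

private theorem Clz_split (X : AddMonoidAlgebra ℤ V) (x c : ℝ) (h : X.coeff (c, x) = 0) :
    sm (fun w => w.1 = c) X = sm (fun w => w.1 = c ∧ x < w.2) X + sm (fun w => w.1 = c ∧ w.2 < x) X := by
  classical
  unfold sm Finsupp.sum
  rw [← Finset.sum_add_distrib]
  refine Finset.sum_congr rfl fun w _ => ?_
  beta_reduce
  by_cases h1 : w.1 = c
  · rcases lt_trichotomy x w.2 with h2 | h2 | h2
    · rw [if_pos h1, if_pos ⟨h1, h2⟩, if_neg fun h3 => lt_asymm h2 h3.2, add_zero]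
    · have h3 : X.coeff w = 0 := by
        have h4 : w = (c, x) := Prod.ext h1 h2.symm
        rw [h4]
        exact h
      rw [h3, ite_self, ite_self, ite_self, add_zero]
    · rw [if_pos h1, if_neg fun h3 => lt_asymm h2 h3.2, if_pos ⟨h1, h2⟩, zero_add]
  · rw [if_neg h1, if_neg fun h3 => h1 h3.1, if_neg fun h3 => h1 h3.1, add_zero]

private theorem Clz_tot {W : Set V} {T : Finset (ℝ × ℝ × ℝ)} {C : Set V} (hW : IsOpen W) (hB : TB W T C)
    (hb : Bornology.IsBounded W) {X : AddMonoidAlgebra ℤ V} (hX : Cor W X) (c : ℝ) :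
    sm (fun w => w.1 = c) X = 0 := by
  have h1 := row_tot (Clz_open hW) (tb_act hB qt) (Clz_bdd hb) (Clz_cor hX) c
  rw [sm_neg, sm_gm, neg_eq_zero] at h1
  rw [← h1]
  refine sm_congr fun w _ => ?_
  rw [act_qt]

theorem col_off {W : Set V} {T : Finset (ℝ × ℝ × ℝ)} {C : Set V} (hW : IsOpen W) (hB : TB W T C)
    (hb : Bornology.IsBounded W) {X : AddMonoidAlgebra ℤ V} (hX : Cor W X) (x c : ℝ)
    (h : ((c, x) : V) ∉ frontier W) : sm (fun w => w.1 = c ∧ x < w.2) X = 0 := by
  have h1 : ((-x, c) : V) ∉ frontier (act qt '' W) := by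
    rw [← Clz_fr]
    rintro ⟨z, hz, hz2⟩
    rw [act_qt] at hz2
    have h3 := Prod.mk.inj hz2
    have h4 : z = (c, x) := Prod.ext h3.2 (neg_injective h3.1)
    rw [h4] at hz
    exact h hz
  have h2 := row_off (Clz_open hW) (tb_act hB qt) (Clz_bdd hb) (Clz_cor hX) (-x) c h1
  rw [sm_neg, sm_gm, neg_eq_zero] at h2
  have h3 : sm (fun w => w.1 = c ∧ w.2 < x) X = 0 := by
    rw [← h2]
    refine sm_congr fun w _ => ?_
    rw [act_qt]
    constructor
    · rintro ⟨h4, h5⟩
      exact ⟨h4, neg_lt_neg h5⟩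
    · rintro ⟨h4, h5⟩
      exact ⟨h4, lt_of_neg_lt_neg h5⟩
  have h4 : X.coeff (c, x) = 0 := by
    have h5 := row_at (Clz_open hW) (Clz_cor hX) (-x, c) h1
    have h6 : ((-x, c) : V) = act qt (c, x) := by rw [act_qt]
    rw [h6, Clz_act, neg_eq_zero] at h5
    exact h5
  have h5 := Clz_split X x c h4
  rw [Clz_tot hW hB hb hX c, h3, add_zero] at h5
  exact h5.symm

theorem col_tot {W : Set V} {T : Finset (ℝ × ℝ × ℝ)} {C : Set V} (hW : IsOpen W) (hB : TB W T C)
    (hb : Bornology.IsBounded W) {X : AddMonoidAlgebra ℤ V} (hX : Cor W X) (c : ℝ) :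
    sm (fun w => w.1 = c) X = 0 :=
  Clz_tot hW hB hb hX c

end Pool.Agent.SQH
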