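import Pool.Agent.SQH.Defs
import Pool.Agent.SQG.Cal

/-!
# SQH module Crc: the corner values of a convolution

PROOF. Induction on `Y` (`AddMonoidAlgebra.induction_linear`): `0`: `cv 0 u = 0` (`cv_zero`), all mixed differences are
`0`.  Sum: `cv_add`, `add_mul`, `coeff_add`, and corner values are additive (`crn_sum` or directly: `md` is additive).
`single v a`: `cv (single v a) u z = a * u (z - v)` (`cv_single`), `(single v a * X).coeff w = a * X.coeff (w - v)`
(`AddMonoidAlgebra.coeff_single_mul_apply`), `crn_shift (h (w - v))` and multiplication by the constant `a`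
(`md (a * u) = a * md u`).
-/

set_option autoImplicit false

open AddMonoidAlgebra Filter Topology

namespace Pool.Agent.SQH

open Pool.Agent.SQG

theorem Crc_add {u v : V → ℤ} {w : V} {k l : ℤ} (h : Crn u w k) (h' : Crn v w l) :
    Crn (fun z => u z + v z) w (k + l) := by
  refine (h.and h').mono fun a ha => (ha.1.and ha.2).mono fun b hb => ?_
  have h1 : md (fun z => u z + v z) w a b = md u w a b + md v w a b := by
    unfold md
    ring
  rw [h1, hb.1, hb.2]

theorem Crc_mul {u : V → ℤ} {w : V} {k : ℤ} (a : ℤ) (h : Crn u w k) :
    Crn (fun z => a * u z) w (a * k) := by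
  refine h.mono fun x hx => hx.mono fun y hy => ?_
  have h1 : md (fun z => a * u z) w x y = a * md u w x y := by
    unfold md
    ring
  rw [h1, hy]

theorem Crc_zero (w : V) : Crn (fun _ => 0) w 0 := by
  refine Filter.Eventually.of_forall fun x => Filter.Eventually.of_forall fun y => ?_
  unfold md
  ring

theorem crn_cv (Y : AddMonoidAlgebra ℤ V) {u : V → ℤ} {X : AddMonoidAlgebra ℤ V} (h : ∀ w, Crn u w (X.coeff w))
    (w : V) : Crn (cv Y u) w ((Y * X).coeff w) := by
  induction Y using AddMonoidAlgebra.induction_linear generalizing w with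
  | zero =>
    have h1 : cv (0 : AddMonoidAlgebra ℤ V) u = fun _ => 0 := funext fun z => cv_zero u z
    have h2 : ((0 : AddMonoidAlgebra ℤ V) * X).coeff w = 0 := by simp
    rw [h1, h2]
    exact Crc_zero w
  | add x y hx hy =>
    have h1 : cv (x + y) u = fun z => cv x u z + cv y u z := funext fun z => cv_add x y u z
    rw [h1, add_mul, coeff_add, Finsupp.add_apply]
    exact Crc_add (hx w) (hy w)
  | single v a =>
    have h1 : cv (single v a) u = fun z => a * u (z - v) := funext fun z => cv_single v a u z
    have h2 : (single v a * X).coeff w = a * X.coeff (w - v) := by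
      have h3 := AddMonoidAlgebra.coeff_single_mul_apply X a v w
      rw [h3, neg_add_eq_sub]
    rw [h1, h2]
    exact Crc_mul a (crn_shift (h (w - v)))

end Pool.Agent.SQH
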