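import Pool.Agent.SQH.Bas
import Pool.Agent.SQG.Cal

/-!
# SQH module Cvr: the corner functions of all images

PROOF. `(single v 1 * F k).coeff w = (F k).coeff (w - v)` (`AddMonoidAlgebra.coeff_single_mul_apply`).
`hor`: `ind (mv k v '' U) z = ind (act k '' U) (z - v)`, so `crn_shift (hF k (w - v))`.
`ver`: `act qt '' (mv k v '' U) = mv (qt * k) (act qt v) '' U` (`act_mv_image`), so
`ind (..) z = ind (act (qt * k) '' U) (z - act qt v)`, and `crn_shift (hF (qt * k) (act qt w - act qt v))`.  The value: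
`- (F k).coeff (w - v) = - (VV F k).coeff (w - v) = (gm qt⁻¹ (F (qt * k))).coeff (w - v) =
(F (qt * k)).coeff (act qt (w - v))` (`gm_coeff`, `inv_inv`).
-/

set_option autoImplicit false

open AddMonoidAlgebra Filter Topology

namespace Pool.Agent.SQH

open Pool.Agent.SQG

private theorem Cvr_ind (k : O2) (v : V) (U : Set V) :
    (ind (mv k v '' U)) = fun z => ind (act k '' U) (z - v) := by
  classical
  funext z
  have h1 : z ∈ mv k v '' U ↔ z - v ∈ act k '' U := by
    rw [mem_mv_image, mem_act_image]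
  unfold ind
  by_cases hz : z - v ∈ act k '' U
  · rw [if_pos hz, if_pos (h1.2 hz)]
  · rw [if_neg hz, if_neg fun h2 => hz (h1.1 h2)]

private theorem Cvr_coeff (X : AddMonoidAlgebra ℤ V) (v w : V) :
    ((single v (1 : ℤ)) * X).coeff w = X.coeff (w - v) := by
  rw [AddMonoidAlgebra.coeff_single_mul_apply, one_mul]
  congr 1
  abel

theorem cor_of {U : Set V} {F : O2 → AddMonoidAlgebra ℤ V}
    (hF : ∀ h w, Crn (ind (act h '' U)) w ((F h).coeff w)) (hV : ∀ h, F h = VV F h) (k : O2) (v : V) :
    Cor (mv k v '' U) (single v 1 * F k) := by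
  refine ⟨fun w => ?_, fun w => ?_⟩
  · rw [Cvr_ind, Cvr_coeff]
    exact crn_shift (hF k (w - v))
  · have h1 : -((single v (1 : ℤ) * F k).coeff w) = (F (qt * k)).coeff (act qt w - act qt v) := by
      rw [Cvr_coeff, hV k]
      unfold VV
      rw [AddMonoidAlgebra.coeff_neg, Finsupp.neg_apply, neg_neg, gm_coeff, inv_inv, map_sub]
    rw [h1, act_mv_image, Cvr_ind]
    exact crn_shift (hF (qt * k) (act qt w - act qt v))

end Pool.Agent.SQH
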