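import Pool.Agent.SQH.Defs

/-!
# SQH module Mea: area

PROOF. `vol_mv`: `mv g c '' S` is the translate by `c` of `act g '' S` (`MeasureTheory.measure_preimage_add_right` or
`Measure.addHaar` lemmas; `volume` on `ℝ × ℝ` is an additive Haar measure, translation invariant) and
`volume (act g '' S) = ENNReal.ofReal |det| * volume S` by `MeasureTheory.Measure.addHaar_image_linearMap` for the
linear map `z ↦ act g z` (`LinearMap` built by hand from the formula `act_apply`, or `Matrix.toLin'`-like with
`Module.Basis.finTwoProd ℝ`); its determinant is `g.a * (g.t * g.a) - (-(g.t * g.b)) * g.b = g.t`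
(`LinearMap.det_toLin`/`LinearMap.det_eq_det_toMatrix..`), of absolute value `1` (`g.t_sq`).  (See also
Pool/Agent/SQR for a similar computation, e.g. `grep -rn addHaar_image Pool/Agent/SQR`; other ways are fine.)
`vol_eq`: `volume S' < ⊤` (`Bornology.IsBounded.measure_lt_top`), `volume (S ∪ O) = volume S + volume O`
(`MeasureTheory.measure_union`, `O` is measurable) `≤ volume S' = volume S`, so `volume O = 0` and `O = ∅`
(`IsOpen.measure_eq_zero_iff`).
-/

set_option autoImplicit false

open AddMonoidAlgebra Filter Topology

namespace Pool.Agent.SQH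

open Pool.Agent.SQG

theorem vol_mv (g : O2) (c : V) (S : Set V) :
    MeasureTheory.volume (mv g c '' S) = MeasureTheory.volume S := by
  have h1 : mv g c '' S = (fun z => c + z) '' (act g '' S) := by
    rw [← Set.image_comp]
    refine Set.image_congr fun z _ => ?_
    simp only [mv, Function.comp, add_comm]
  have h2 : MeasureTheory.volume ((fun z => c + z) '' (act g '' S)) = MeasureTheory.volume (act g '' S) := by
    rw [Set.image_add_left]
    exact MeasureTheory.measure_preimage_add _ _ _
  have h3 : (act g : V → V) = Matrix.toLin (Module.Basis.finTwoProd ℝ) (Module.Basis.finTwoProd ℝ)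
      !![g.a, -(g.t * g.b); g.b, g.t * g.a] := by
    funext z
    rw [Matrix.toLin_finTwoProd_apply, act_apply]
    ext
    · simp only
      ring
    · rfl
  have h4 : LinearMap.det (Matrix.toLin (Module.Basis.finTwoProd ℝ) (Module.Basis.finTwoProd ℝ)
      !![g.a, -(g.t * g.b); g.b, g.t * g.a]) = g.t := by
    rw [LinearMap.det_toLin, Matrix.det_fin_two_of]
    linear_combination g.t * g.h
  have h5 : |g.t| = 1 := by
    have h6 := g.t_sq
    rw [← abs_mul_abs_self] at h6
    nlinarith [abs_nonneg g.t]
  rw [h1, h2, h3, MeasureTheory.Measure.addHaar_image_linearMap, h4, h5]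
  simp

theorem vol_eq {S S' O : Set V} (hS' : Bornology.IsBounded S') (hv : MeasureTheory.volume S = MeasureTheory.volume S')
    (hss : S ⊆ S') (hO : IsOpen O) (hO1 : O ⊆ S') (hO2 : Disjoint O S) : O = ∅ := by
  have h1 : MeasureTheory.volume S' < ⊤ := hS'.measure_lt_top
  have h2 : MeasureTheory.volume (S ∪ O) = MeasureTheory.volume S + MeasureTheory.volume O :=
    MeasureTheory.measure_union hO2.symm hO.measurableSet
  have h3 : MeasureTheory.volume S + MeasureTheory.volume O ≤ MeasureTheory.volume S := by
    rw [← h2]
    exact (MeasureTheory.measure_mono (Set.union_subset hss hO1)).trans_eq hv.symm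
  have h4 : MeasureTheory.volume S ≠ ⊤ := by
    rw [hv]
    exact h1.ne
  have h5 : MeasureTheory.volume O = 0 := by
    have h6 : MeasureTheory.volume S + MeasureTheory.volume O ≤ MeasureTheory.volume S + 0 := by
      rw [add_zero]
      exact h3
    exact le_antisymm ((ENNReal.add_le_add_iff_left h4).1 h6) bot_le
  exact hO.measure_eq_zero_iff _ |>.1 h5

end Pool.Agent.SQH
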