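import Pool.Agent.SQH.Otd
import Pool.Agent.SQH.Mea
import Pool.Agent.SQH.Bas

/-!
# SQH module Hol: no piece lies in a hole of another piece

PROOF. Write `A = mv (g j) (c j) '' U`, `W = mv (g l) (c l) '' U`: open, preconnected (Bas), disjoint (`hT.disj`),
contained in `sq`, bounded (`til_bdd`).  By `out_dich` `A ⊆ Out W` (done) or `A` is disjoint from `Out W`.  In the
second case `Out W ⊆ Out A` (`out_sub`), i.e. `(Out A)ᶜ ⊆ (Out W)ᶜ`, and the two complements have the same volume:
`(Out (mv g c '' U))ᶜ = mv g c '' (Out U)ᶜ` (`out_mv`, `mv g c` is bijective: `Set.image_compl_eq`), `vol_mv`.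
`O = W ∩ Out A` is open, contained in `(Out W)ᶜ` (`out_disj`, `subset_closure`) and disjoint from `(Out A)ᶜ`, so it is
empty by `vol_eq` (`out_bdd`).  So `W` is disjoint from `Out A`, `Out A ⊆ Out W` (`out_sub`), `Out W = Out A`, a
contradiction by `out_eq` (`nice_mv hN`).
-/

set_option autoImplicit false

open AddMonoidAlgebra Filter Topology

namespace Pool.Agent.SQH

open Pool.Agent.SQG

private theorem hol_vol (U : Set V) (g : O2) (c : V) :
    MeasureTheory.volume (Out (mv g c '' U))ᶜ = MeasureTheory.volume (Out U)ᶜ := by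
  have hb : Function.Bijective (mv g c) := (mvH g c).bijective
  rw [out_mv, ← Set.image_compl_eq hb, vol_mv]

theorem hol {N : ℕ} {U : Set V} {g : Fin N → O2} {c : Fin N → V} (hT : Til N U g c) (hc : IsPreconnected U)
    (hN : Nice U) (j l : Fin N) (hjl : j ≠ l) : mv (g j) (c j) '' U ⊆ Out (mv (g l) (c l) '' U) := by
  have hAo : IsOpen (mv (g j) (c j) '' U) := mv_image_open hT.opn _ _
  have hWo : IsOpen (mv (g l) (c l) '' U) := mv_image_open hT.opn _ _
  have hAc : IsPreconnected (mv (g j) (c j) '' U) := mv_image_conn hc _ _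
  have hd : Disjoint (mv (g j) (c j) '' U) (mv (g l) (c l) '' U) := hT.disj j l hjl
  rcases out_dich hAo hAc hd with h | h
  · exact h
  · exfalso
    have h1 : Out (mv (g l) (c l) '' U) ⊆ Out (mv (g j) (c j) '' U) := out_sub h
    have h2 : (Out (mv (g j) (c j) '' U))ᶜ ⊆ (Out (mv (g l) (c l) '' U))ᶜ := Set.compl_subset_compl.2 h1
    have hv : MeasureTheory.volume (Out (mv (g j) (c j) '' U))ᶜ
        = MeasureTheory.volume (Out (mv (g l) (c l) '' U))ᶜ := by
      rw [hol_vol, hol_vol]
    have hO : mv (g l) (c l) '' U ∩ Out (mv (g j) (c j) '' U) = ∅ := by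
      refine vol_eq (out_bdd (til_bdd hT l)) hv h2 (hWo.inter (isOpen_out _)) ?_ ?_
      · rintro z ⟨hz, -⟩ hz2
        exact Set.disjoint_left.1 (out_disj _) hz2 (subset_closure hz)
      · rw [Set.disjoint_left]
        rintro z ⟨-, hz⟩ hz2
        exact hz2 hz
    have h3 : Disjoint (mv (g l) (c l) '' U) (Out (mv (g j) (c j) '' U)) := Set.disjoint_iff_inter_eq_empty.2 hO
    exact out_eq hAo hd (nice_mv hN _ _) (Set.Subset.antisymm h1 (out_sub h3))

end Pool.Agent.SQH
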