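import Pool.Agent.SQH.Otb
import Pool.Agent.SQH.Bas
import Pool.Agent.SQG.Tbm
import Pool.Agent.SQG.Loc
import Pool.Agent.SQG.Hlf

/-!
# SQH module Npt: a piece at the lower side of the square

PROOF. `npt`: let `U i = mv (g i) (c i) '' U`.  `tb_mv` and `loc` (for `t = 0`) give finite sets `X i`; choose
`t ∈ (0, 1)` outside their union (`Set.Ioo 0 1` is infinite).  `loc` gives `ε i > 0` for each `i`; let `ε` be smaller
than all `ε i`, `t`, `1 - t` (finite minimum; `N = 0` is impossible as `sq` is not empty, or just take `min`).  The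
point `(t, ε / 2)` is in `sq`, so by `til_closure` in `closure (U i)` for some `i`, and not in `frontier (U i)` (such
points of the box have second coordinate `0`), so it is in `U i` (open, `IsOpen.frontier_eq`).  By `half` (with `τ = 1`)
`ind (U i)` is constant on the half box, so it is `1` there.
`nice_npt`: `B` is the open box `|z.1 - t| < ε, |z.2| < ε` (convex, or a product of intervals: preconnected),
`L = {z | z.2 = 0}` (empty interior: near each of its points there are points with `z.2 ≠ 0`).  `B` meets `W` at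
`(t, ε / 2)` and `Out W` at `(t, -ε / 2)` (`out_sq`); a point of `B` with `z.2 > 0` is in `W`, one with `z.2 < 0` is not
in `sq`, so in `Out W`.
-/

set_option autoImplicit false

open AddMonoidAlgebra Filter Topology

namespace Pool.Agent.SQH

open Pool.Agent.SQG

theorem npt {N : ℕ} {U : Set V} {g : Fin N → O2} {c : Fin N → V} (hT : Til N U g c) {T : Finset (ℝ × ℝ × ℝ)}
    {C : Set V} (hB : TB U T C) :
    ∃ (i : Fin N) (t ε : ℝ), 0 < ε ∧ ∀ x y : ℝ, |x - t| < ε → 0 < y → y < ε → ((x, y) : V) ∈ mv (g i) (c i) '' U := by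
  classical
  have h1 : ∀ i : Fin N, ∃ X : Set ℝ, X.Finite ∧ ∀ x, x ∉ X → ∃ ε > 0, ∀ z : V, |z.1 - x| < ε → |z.2 - 0| < ε →
      z ∈ frontier (mv (g i) (c i) '' U) → z.2 = 0 := by
    intro i
    obtain ⟨T', C', hB'⟩ := tb_mv hB (g i) (c i)
    obtain ⟨X, hX, hX2⟩ := loc hB' 0
    refine ⟨X, hX, fun x hx => ?_⟩
    obtain ⟨ε, hε, h2⟩ := hX2 x hx
    exact ⟨ε, hε, fun z h3 h4 h5 => (h2 z h3 h4 h5).1⟩
  choose X hX hX2 using h1
  have h2 : (⋃ i, X i).Finite := Set.finite_iUnion hX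
  obtain ⟨t, ht, ht2⟩ := (Set.Ioo_infinite (show (0 : ℝ) < 1 by norm_num)).exists_notMem_finite h2
  have h3 : ∀ i : Fin N, ∃ ε > 0, ∀ z : V, |z.1 - t| < ε → |z.2 - 0| < ε →
      z ∈ frontier (mv (g i) (c i) '' U) → z.2 = 0 := fun i =>
    hX2 i t fun h => ht2 (Set.mem_iUnion.2 ⟨i, h⟩)
  choose ε hε hε2 using h3
  obtain ⟨δ, hδ, hδ1, hδ2⟩ : ∃ δ : ℝ, 0 < δ ∧ δ < 1 ∧ ∀ i, δ ≤ ε i := by
    rcases isEmpty_or_nonempty (Fin N) with he | he
    · exact ⟨1 / 2, by norm_num, by norm_num, fun i => he.elim i⟩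
    · obtain ⟨i0, hi0⟩ := Finite.exists_min ε
      refine ⟨min (ε i0) (1 / 2), lt_min (hε i0) (by norm_num), ?_, fun i => (min_le_left _ _).trans (hi0 i)⟩
      exact (min_le_right _ _).trans_lt (by norm_num)
  have h4 : ((t, δ / 2) : V) ∈ sq := by
    refine ⟨⟨ht.1.le, ht.2.le⟩, ⟨?_, ?_⟩⟩
    · show 0 ≤ δ / 2
      linarith
    · show δ / 2 ≤ 1
      linarith
  rw [← til_closure hT] at h4
  obtain ⟨i, hi⟩ := Set.mem_iUnion.1 h4
  have hU : IsOpen (mv (g i) (c i) '' U) := mv_image_open hT.opn _ _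
  have h5 : ((t, δ / 2) : V) ∉ frontier (mv (g i) (c i) '' U) := by
    intro h6
    have h7 := hε2 i (t, δ / 2) (by simpa using hε i) (by
      rw [sub_zero, abs_of_pos (by show (0 : ℝ) < δ / 2; linarith)]
      have h8 := hδ2 i
      show δ / 2 < ε i
      linarith) h6
    have h9 : δ / 2 = 0 := h7
    linarith
  have h6 : ((t, δ / 2) : V) ∈ mv (g i) (c i) '' U := by
    rw [hU.frontier_eq] at h5
    by_contra h7
    exact h5 ⟨hi, h7⟩
  refine ⟨i, t, δ, hδ, fun x y hx hy hy2 => ?_⟩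
  obtain ⟨n, hn⟩ := half hU 0 t (ε i) (hε2 i) 1 (Or.inl rfl)
  have h7 := hn t (δ / 2) (by simpa using hε i) (by linarith) (by
    have h8 := hδ2 i
    linarith)
  have h8 := hn x y (hx.trans_le (hδ2 i)) hy (hy2.trans_le (hδ2 i))
  simp only [zero_add, one_mul] at h7 h8
  rw [← h7] at h8
  unfold ind at h8
  rw [if_pos h6] at h8
  by_contra h9
  rw [if_neg h9] at h8
  exact absurd h8 (by norm_num)

theorem nice_npt {W : Set V} (hq : W ⊆ sq) (t ε : ℝ) (hε : 0 < ε)
    (hn : ∀ x y : ℝ, |x - t| < ε → 0 < y → y < ε → ((x, y) : V) ∈ W) : Nice W := by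
  refine ⟨Set.Ioo (t - ε) (t + ε) ×ˢ Set.Ioo (-ε) ε, {z | z.2 = 0}, isOpen_Ioo.prod isOpen_Ioo,
    isPreconnected_Ioo.prod isPreconnected_Ioo, ?_, ?_, ?_, ?_⟩
  · refine ⟨(t, ε / 2), ⟨⟨?_, ?_⟩, ⟨?_, ?_⟩⟩, hn t (ε / 2) (by simpa using hε) (by linarith) (by linarith)⟩
    · show t - ε < t
      linarith
    · show t < t + ε
      linarith
    · show -ε < ε / 2
      linarith
    · show ε / 2 < ε
      linarith
  · refine ⟨(t, -(ε / 2)), ⟨⟨?_, ?_⟩, ⟨?_, ?_⟩⟩, out_sq hq _ ?_⟩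
    · show t - ε < t
      linarith
    · show t < t + ε
      linarith
    · show -ε < -(ε / 2)
      linarith
    · show -(ε / 2) < ε
      linarith
    · intro h
      have h1 : 0 ≤ -(ε / 2) := h.2.1
      linarith
  · rw [Set.eq_empty_iff_forall_notMem]
    intro z hz
    rw [mem_interior_iff_mem_nhds, Metric.mem_nhds_iff] at hz
    obtain ⟨r, hr, h1⟩ := hz
    have h2 : ((z.1, z.2 + r / 2) : V) ∈ Metric.ball z r := by
      rw [Metric.mem_ball, Prod.dist_eq, max_lt_iff]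
      refine ⟨by simpa using hr, ?_⟩
      show dist (z.2 + r / 2) z.2 < r
      rw [Real.dist_eq, add_sub_cancel_left, abs_of_pos (by linarith)]
      linarith
    have h3 : z.2 + r / 2 = 0 := h1 h2
    have h4 : z.2 = 0 := h1 (Metric.mem_ball_self hr)
    linarith
  · rintro z ⟨hz1, hz2⟩
    rcases lt_trichotomy z.2 0 with h | h | h
    · left
      right
      refine out_sq hq z fun h1 => ?_
      have h2 : 0 ≤ z.2 := h1.2.1
      linarith
    · right
      exact h
    · left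
      left
      exact hn z.1 z.2 (abs_lt.2 ⟨by linarith [hz1.1], by linarith [hz1.2]⟩) h hz2.2

end Pool.Agent.SQH
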