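import Pool.Agent.SQH.Defs

/-!
# SQH module Otb: basic facts on the outside

PROOF. `isOpen_out`: `Out W` is the union of the sets `K` (each `K` is contained in `Out W`).
`out_disj`: immediate.
`out_mv`: `mvH g c` is a homeomorphism with `⇑(mvH g c) = mv g c` (`rfl`); it maps open/preconnected sets to such
(`Homeomorph.isOpen_image`, `IsPreconnected.image`), closures to closures (`Homeomorph.image_closure`), disjoint sets
to disjoint sets, and a set is bounded iff its image is (`ℝ × ℝ` is proper: `Bornology.IsBounded K ↔` its closure is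
compact, `Metric.isBounded_iff_..`/`IsBounded.isCompact_closure`, `IsCompact.image`; or: `mv g c` maps the box
`|z.1|, |z.2| ≤ R` into a box, as `|g.a|, |g.b|, |g.t| ≤ 1`).  Prove `mv g c '' Out W ⊆ Out (mv g c '' W)` for all
`g, c, W` and apply it to the inverse `mv g⁻¹ (-(act g⁻¹ c))` (`mv_inv_mv`, `mv_mv_inv`) for the other inclusion.
`out_sq`: `z ∉ sq` lies in one of the four open half planes `z.1 < 0`, `1 < z.1`, `z.2 < 0`, `1 < z.2`, which are
convex (so preconnected), unbounded and disjoint from the closed set `sq ⊇ closure W`.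
`out_bdd`: `W` is contained in a box `|z.1| ≤ R, |z.2| ≤ R`; as before every point outside the box is in `Out W`.
`nice_mv`: take `mv g c '' B`, `mv g c '' L`; `interior` commutes with the homeomorphism (`Homeomorph.image_interior`).
-/

set_option autoImplicit false

open AddMonoidAlgebra Filter Topology

namespace Pool.Agent.SQH

open Pool.Agent.SQG

theorem isOpen_out (W : Set V) : IsOpen (Out W) :=
  isOpen_iff_forall_mem_open.2 fun _ ⟨K, hKo, hKp, hx, hKb, hKd⟩ =>
    ⟨K, fun _ hy => ⟨K, hKo, hKp, hy, hKb, hKd⟩, hKo, hx⟩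

theorem out_disj (W : Set V) : Disjoint (Out W) (closure W) :=
  Set.disjoint_left.2 fun _ ⟨_, _, _, hx, _, hKd⟩ hxW => Set.disjoint_left.1 hKd hx hxW

private theorem Otb_bdd {U : Set V} (hU : Bornology.IsBounded U) (g : O2) (c : V) :
    Bornology.IsBounded (mv g c '' U) := by
  have h1 : IsCompact (mv g c '' closure U) := hU.isCompact_closure.image (continuous_mv g c)
  exact h1.isBounded.subset (Set.image_mono subset_closure)

private theorem Otb_inv (g : O2) (c : V) (U : Set V) : mv g⁻¹ (-(act g⁻¹ c)) '' (mv g c '' U) = U := by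
  rw [← Set.image_comp]
  have h1 : (mv g⁻¹ (-(act g⁻¹ c)) ∘ mv g c) = id := funext fun z => mv_inv_mv g c z
  rw [h1, Set.image_id]

private theorem Otb_inv2 (g : O2) (c : V) (U : Set V) : mv g c '' (mv g⁻¹ (-(act g⁻¹ c)) '' U) = U := by
  rw [← Set.image_comp]
  have h1 : (mv g c ∘ mv g⁻¹ (-(act g⁻¹ c))) = id := funext fun z => mv_mv_inv g c z
  rw [h1, Set.image_id]

private theorem Otb_sub (g : O2) (c : V) (W : Set V) : mv g c '' Out W ⊆ Out (mv g c '' W) := by
  rintro _ ⟨x, ⟨K, hKo, hKp, hx, hKb, hKd⟩, rfl⟩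
  refine ⟨mv g c '' K, (mvH g c).isOpen_image.2 hKo, hKp.image _ (continuous_mv g c).continuousOn,
    Set.mem_image_of_mem _ hx, fun hb => hKb ?_, ?_⟩
  · have h1 := Otb_bdd hb g⁻¹ (-(act g⁻¹ c))
    rwa [Otb_inv] at h1
  · have h1 : closure (mv g c '' W) = mv g c '' closure W := ((mvH g c).image_closure W).symm
    rw [h1]
    exact Set.disjoint_image_of_injective (mvH g c).injective hKd

theorem out_mv (g : O2) (c : V) (W : Set V) : Out (mv g c '' W) = mv g c '' Out W := by
  refine Set.Subset.antisymm ?_ (Otb_sub g c W)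
  have h1 := Otb_sub g⁻¹ (-(act g⁻¹ c)) (mv g c '' W)
  rw [Otb_inv] at h1
  have h2 := Set.image_mono (f := mv g c) h1
  rwa [Otb_inv2] at h2

private theorem Otb_half (f : V →L[ℝ] ℝ) (e : V) (he : f e = 1) (r : ℝ) {W : Set V}
    (hW : ∀ w ∈ closure W, f w ≤ r) {z : V} (hz : r < f z) : z ∈ Out W := by
  refine ⟨f ⁻¹' Set.Ioi r, isOpen_Ioi.preimage f.continuous, ?_, hz, fun hb => ?_, ?_⟩
  · exact ((convex_Ioi r).linear_preimage f.toLinearMap).isPreconnected
  · have h1 : Bornology.IsBounded (f '' (f ⁻¹' Set.Ioi r)) := f.lipschitz.isBounded_image hb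
    obtain ⟨M, hM⟩ := h1.bddAbove
    have h2 : f ((max M r + 1) • e) = max M r + 1 := by
      rw [map_smul, he, smul_eq_mul, mul_one]
    have h3 : max M r + 1 ∈ f '' (f ⁻¹' Set.Ioi r) := by
      refine ⟨(max M r + 1) • e, ?_, h2⟩
      show r < f ((max M r + 1) • e)
      rw [h2]
      have := le_max_right M r
      linarith
    have h4 := hM h3
    have := le_max_left M r
    linarith
  · refine Set.disjoint_left.2 fun x hx hxW => ?_
    have h1 : r < f x := hx
    exact absurd (hW x hxW) (not_le.2 h1)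

private theorem Otb_box {a b c d : ℝ} {W : Set V} (hW : ∀ w ∈ closure W, (a ≤ w.1 ∧ w.1 ≤ b) ∧ (c ≤ w.2 ∧ w.2 ≤ d))
    (z : V) (hz : ¬ ((a ≤ z.1 ∧ z.1 ≤ b) ∧ (c ≤ z.2 ∧ z.2 ≤ d))) : z ∈ Out W := by
  by_cases h1 : z.1 < a
  · refine Otb_half (-ContinuousLinearMap.fst ℝ ℝ ℝ) (-1, 0) (by simp) (-a) (fun w hw => ?_) ?_
    · have := (hW w hw).1.1
      simp only [neg_apply, ContinuousLinearMap.coe_fst']
      linarith
    · simp only [neg_apply, ContinuousLinearMap.coe_fst']
      linarith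
  by_cases h2 : b < z.1
  · refine Otb_half (ContinuousLinearMap.fst ℝ ℝ ℝ) (1, 0) (by simp) b (fun w hw => ?_) ?_
    · exact (hW w hw).1.2
    · exact h2
  by_cases h3 : z.2 < c
  · refine Otb_half (-ContinuousLinearMap.snd ℝ ℝ ℝ) (0, -1) (by simp) (-c) (fun w hw => ?_) ?_
    · have := (hW w hw).2.1
      simp only [neg_apply, ContinuousLinearMap.coe_snd']
      linarith
    · simp only [neg_apply, ContinuousLinearMap.coe_snd']
      linarith
  by_cases h4 : d < z.2
  · refine Otb_half (ContinuousLinearMap.snd ℝ ℝ ℝ) (0, 1) (by simp) d (fun w hw => ?_) ?_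
    · exact (hW w hw).2.2
    · exact h4
  exact absurd ⟨⟨not_lt.1 h1, not_lt.1 h2⟩, ⟨not_lt.1 h3, not_lt.1 h4⟩⟩ hz

private theorem Otb_closed (a b c d : ℝ) :
    IsClosed {z : V | (a ≤ z.1 ∧ z.1 ≤ b) ∧ (c ≤ z.2 ∧ z.2 ≤ d)} := by
  refine IsClosed.inter (IsClosed.inter ?_ ?_) (IsClosed.inter ?_ ?_)
  · exact isClosed_le continuous_const continuous_fst
  · exact isClosed_le continuous_fst continuous_const
  · exact isClosed_le continuous_const continuous_snd
  · exact isClosed_le continuous_snd continuous_const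

theorem out_sq {W : Set V} (h : W ⊆ sq) (z : V) (hz : z ∉ sq) : z ∈ Out W := by
  have h1 : closure W ⊆ sq := closure_minimal h (Otb_closed 0 1 0 1)
  exact Otb_box (fun w hw => h1 hw) z hz

theorem out_bdd {W : Set V} (hb : Bornology.IsBounded W) : Bornology.IsBounded (Out W)ᶜ := by
  obtain ⟨R, hR⟩ := hb.subset_closedBall 0
  have h1 : W ⊆ {z : V | (-R ≤ z.1 ∧ z.1 ≤ R) ∧ (-R ≤ z.2 ∧ z.2 ≤ R)} := by
    intro z hz
    have h2 : ‖z‖ ≤ R := by simpa using hR hz
    have h3 : |z.1| ≤ R := (norm_fst_le z).trans h2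
    have h4 : |z.2| ≤ R := (norm_snd_le z).trans h2
    exact ⟨abs_le.1 h3, abs_le.1 h4⟩
  have h2 : closure W ⊆ {z : V | (-R ≤ z.1 ∧ z.1 ≤ R) ∧ (-R ≤ z.2 ∧ z.2 ≤ R)} :=
    closure_minimal h1 (Otb_closed (-R) R (-R) R)
  refine (Metric.isBounded_closedBall (x := (0 : V)) (r := R)).subset fun z hz => ?_
  have h3 : (-R ≤ z.1 ∧ z.1 ≤ R) ∧ (-R ≤ z.2 ∧ z.2 ≤ R) := by
    by_contra h4
    exact hz (Otb_box (fun w hw => h2 hw) z h4)
  rw [mem_closedBall_zero_iff, Prod.norm_def]
  exact max_le (abs_le.2 h3.1) (abs_le.2 h3.2)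

theorem nice_mv {W : Set V} (h : Nice W) (g : O2) (c : V) : Nice (mv g c '' W) := by
  obtain ⟨B, L, hBo, hBp, ⟨x, hxB, hxW⟩, ⟨y, hyB, hyO⟩, hL, hsub⟩ := h
  refine ⟨mv g c '' B, mv g c '' L, (mvH g c).isOpen_image.2 hBo, hBp.image _ (continuous_mv g c).continuousOn,
    ⟨mv g c x, Set.mem_image_of_mem _ hxB, Set.mem_image_of_mem _ hxW⟩,
    ⟨mv g c y, Set.mem_image_of_mem _ hyB, ?_⟩, ?_, ?_⟩
  · rw [out_mv]
    exact Set.mem_image_of_mem _ hyO
  · have h1 : interior (mv g c '' L) = mv g c '' interior L := ((mvH g c).image_interior L).symm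
    rw [h1, hL, Set.image_empty]
  · rw [out_mv, ← Set.image_union, ← Set.image_union]
    exact Set.image_mono hsub

end Pool.Agent.SQH
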