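import Pool.Agent.SQH.Phc
import Pool.Agent.SQH.Otb

/-!
# SQH module Phn: the cumulative function is one on a piece at the lower side

PROOF. `row` at `(t, 0)` with `m = 1`, `n = 0`: the points `(t + a, b)` are in `W` for small `a, b > 0` (`hn`), and
`(t + a, -b) ∉ W` as `W ⊆ sq`.  So `sm (fun w => w.2 = 0 ∧ t < w.1) X = -1`.  Choose `s` with `0 < s < ε` smaller than
all `|w.2|`, `w` in the support of `X` with `w.2 ≠ 0`.  Then `ph X (t, -s) - ph X (t, s)` is the sum over the `w` in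
the support with `t < w.1`, `-s < w.2 ≤ s`, i.e. `w.2 = 0`: it is `-1`.  `(t, -s) ∉ sq`, so it is in `Out W`
(`out_sq`) and `ph X (t, -s) = 0` (`ph_out`).  So `ph X (t, s) = 1`, `(t, s) ∈ W`, and `ph_conn` for `O = W`
(`W` is open, so disjoint from its frontier).
-/

set_option autoImplicit false

open AddMonoidAlgebra Filter Topology

namespace Pool.Agent.SQH

open Pool.Agent.SQG

private theorem Phn_diff (A B : V → Prop) (X : AddMonoidAlgebra ℤ V) (h : ∀ w, B w → A w) :
    sm A X = sm B X + sm (fun w => A w ∧ ¬ B w) X := by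
  classical
  unfold sm Finsupp.sum
  rw [← Finset.sum_add_distrib]
  refine Finset.sum_congr rfl fun w _ => ?_
  beta_reduce
  by_cases hb : B w
  · rw [if_pos hb, if_pos (h w hb), if_neg (fun hh => hh.2 hb), add_zero]
  · by_cases ha : A w
    · rw [if_pos ha, if_neg hb, if_pos ⟨ha, hb⟩, zero_add]
    · rw [if_neg ha, if_neg hb, if_neg (fun hh => ha hh.1), add_zero]

private theorem Phn_eps (s : Finset V) : ∃ e > (0 : ℝ), ∀ w ∈ s, w.2 ≠ 0 → e ≤ |w.2| := by
  classical
  induction s using Finset.induction_on with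
  | empty => exact ⟨1, one_pos, fun w hw => absurd hw (Finset.notMem_empty w)⟩
  | insert a s ha ih =>
    obtain ⟨e, he, h1⟩ := ih
    by_cases h2 : a.2 = 0
    · refine ⟨e, he, fun w hw hw2 => ?_⟩
      rcases Finset.mem_insert.1 hw with rfl | hw
      · exact absurd h2 hw2
      · exact h1 w hw hw2
    · refine ⟨min e |a.2|, lt_min he (abs_pos.2 h2), fun w hw hw2 => ?_⟩
      rcases Finset.mem_insert.1 hw with rfl | hw
      · exact min_le_right _ _
      · exact (min_le_left _ _).trans (h1 w hw hw2)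

theorem ph_one {W : Set V} {T : Finset (ℝ × ℝ × ℝ)} {C : Set V} (hW : IsOpen W) (hc : IsPreconnected W)
    (hB : TB W T C) (hb : Bornology.IsBounded W) {X : AddMonoidAlgebra ℤ V} (hX : Cor W X) (hq : W ⊆ sq)
    (t ε : ℝ) (hε : 0 < ε) (hn : ∀ x y : ℝ, |x - t| < ε → 0 < y → y < ε → ((x, y) : V) ∈ W) :
    ∀ x ∈ W, ph X x = 1 := by
  have hm : ∀ᶠ a in 𝓝[>] (0 : ℝ), ∀ᶠ b in 𝓝[>] (0 : ℝ), ind W (t + a, 0 + b) = 1 := by
    filter_upwards [Ioo_mem_nhdsGT hε] with a ha
    filter_upwards [Ioo_mem_nhdsGT hε] with b hb2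
    have h1 : ((t + a, 0 + b) : V) ∈ W := by
      refine hn _ _ ?_ ?_ ?_
      · rw [add_sub_cancel_left, abs_of_pos ha.1]
        exact ha.2
      · rw [zero_add]
        exact hb2.1
      · rw [zero_add]
        exact hb2.2
    unfold ind
    exact if_pos h1
  have hn2 : ∀ᶠ a in 𝓝[>] (0 : ℝ), ∀ᶠ b in 𝓝[>] (0 : ℝ), ind W (t + a, 0 - b) = 0 := by
    filter_upwards with a
    filter_upwards [self_mem_nhdsWithin] with b hb2
    have h1 : ((t + a, 0 - b) : V) ∉ W := by
      intro h2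
      have h3 : (0 : ℝ) ≤ 0 - b := (hq h2).2.1
      have h4 : (0 : ℝ) < b := hb2
      linarith
    unfold ind
    exact if_neg h1
  have h0 := row hW hB hb X hX.hor t 0 1 0 hm hn2
  obtain ⟨e, he, h1⟩ := Phn_eps X.coeff.support
  obtain ⟨s, hs⟩ : ∃ s, s = min e ε / 2 := ⟨_, rfl⟩
  have hmin : 0 < min e ε := lt_min he hε
  have hs0 : 0 < s := by rw [hs]; linarith
  have hse : s < e := by
    have := min_le_left e ε
    rw [hs]; linarith
  have hsε : s < ε := by
    have := min_le_right e ε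
    rw [hs]; linarith
  have h2 : ph X (t, -s) = ph X (t, s) + (0 - 1) := by
    rw [← h0]
    unfold ph
    rw [Phn_diff (fun w => t < w.1 ∧ -s < w.2) (fun w => t < w.1 ∧ s < w.2) X
      (fun w hw => ⟨hw.1, by have h5 : s < w.2 := hw.2; linarith⟩)]
    congr 1
    refine sm_congr fun w hw => ?_
    constructor
    · rintro ⟨h3, h4⟩
      refine ⟨?_, h3.1⟩
      by_contra h5
      have h6 := h1 w (Finsupp.mem_support_iff.2 hw) h5
      have h7 : -s < w.2 := h3.2
      have h8 : ¬ s < w.2 := fun hh => h4 ⟨h3.1, hh⟩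
      have h9 : |w.2| ≤ s := abs_le.2 ⟨h7.le, not_lt.1 h8⟩
      linarith
    · rintro ⟨h3, h4⟩
      have h5 : w.2 = 0 := h3
      refine ⟨⟨h4, ?_⟩, ?_⟩
      · rw [h5]
        linarith
      · rintro ⟨_, h7⟩
        rw [h5] at h7
        linarith
  have h3 : ((t, -s) : V) ∉ sq := by
    intro hh
    have h4 : (0 : ℝ) ≤ -s := hh.2.1
    linarith
  rw [ph_out hW hB hb hX _ (out_sq hq _ h3)] at h2
  have h4 : ((t, s) : V) ∈ W := hn t s (by rw [sub_self, abs_zero]; exact hε) hs0 hsε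
  intro x hx
  rw [ph_conn hW hB hb hX hW hc (disjoint_frontier_iff_isOpen.2 hW).symm x hx _ h4]
  linarith

end Pool.Agent.SQH
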