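import Pool.Agent.SQH.Phv
import Pool.Agent.SQH.Bas

/-!
# SQH module Rct: rectilinear pieces

PROOF. `rec1`: `S` is the set of all `w.1` and `w.2`, `w ∈ X.coeff.support`.  Let `x ∈ frontier (U i)` with `x.1 ∉ S`,
`x.2 ∉ S`.  By `ph_loc` there is a box `B` around `x` with `ph X = ph X x` on `B`.  `B` is a neighbourhood of `x`, which
is in the closure of `U i`, so `B` meets `U i` and `ph X = 1` on `B`.  So `B` is disjoint from the `U l`, `l ≠ i`, hence
(`B` open) from their closures, and `B ⊆ sq` (`h2`).  By `til_closure` `B ⊆ closure (U i)`, so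
`x ∈ interior (closure (U i)) ⊆ U i` (transport `hT.reg` by the homeomorphism `mvH (g i) (c i)`:
`Homeomorph.image_interior`, `Homeomorph.image_closure`), but `U i` is open and disjoint from its frontier.
`rec2`: `frontier (mv k v '' W) = mv k v '' frontier W` (`(mvH k v).image_frontier`), and for `Ax k`: `k.a = 0` or
`k.b = 0`, so `(mv k v z).1` is `k.a * z.1 + v.1` (if `k.b = 0`) or `-(k.t * k.b) * z.2 + v.1` (if `k.a = 0`), and
similarly the second coordinate: `S'` is the union of the images of `S` under the four maps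
`s ↦ k.a * s + v.1`, `s ↦ -(k.t * k.b) * s + v.1`, `s ↦ k.b * s + v.2`, `s ↦ k.t * k.a * s + v.2`.
-/

set_option autoImplicit false

open AddMonoidAlgebra Filter Topology

namespace Pool.Agent.SQH

open Pool.Agent.SQG

theorem rec1 {N : ℕ} {U : Set V} {g : Fin N → O2} {c : Fin N → V} (hT : Til N U g c) (i : Fin N)
    (X : AddMonoidAlgebra ℤ V) (h1 : ∀ x ∈ mv (g i) (c i) '' U, ph X x = 1)
    (h0 : ∀ l, l ≠ i → ∀ x ∈ mv (g l) (c l) '' U, ph X x = 0) (h2 : ∀ x, x ∉ sq → ph X x = 0) :
    ∃ S : Finset ℝ, frontier (mv (g i) (c i) '' U) ⊆ {z | z.1 ∈ S ∨ z.2 ∈ S} := by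
  classical
  refine ⟨X.coeff.support.image Prod.fst ∪ X.coeff.support.image Prod.snd, ?_⟩
  intro x hx
  by_contra hcon
  rw [Set.mem_ofPred_eq, not_or] at hcon
  obtain ⟨hc1, hc2⟩ := hcon
  obtain ⟨ε, hε, hloc⟩ := ph_loc X x (by
    intro w hw
    have hw2 : w ∈ X.coeff.support := Finsupp.mem_support_iff.2 hw
    constructor
    · intro h
      exact hc1 (Finset.mem_union_left _ (Finset.mem_image.2 ⟨w, hw2, h⟩))
    · intro h
      exact hc2 (Finset.mem_union_right _ (Finset.mem_image.2 ⟨w, hw2, h⟩)))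
  have hB : ∀ y ∈ Metric.ball x ε, ph X y = ph X x := by
    intro y hy
    rw [Metric.mem_ball, Prod.dist_eq, max_lt_iff, Real.dist_eq, Real.dist_eq] at hy
    exact hloc y hy.1 hy.2
  have hxc : x ∈ closure (mv (g i) (c i) '' U) := frontier_subset_closure hx
  have hval : ph X x = 1 := by
    obtain ⟨y, hy, hyU⟩ := mem_closure_iff.1 hxc _ Metric.isOpen_ball (Metric.mem_ball_self hε)
    rw [← hB y hy]
    exact h1 y hyU
  have hsub : Metric.ball x ε ⊆ closure (mv (g i) (c i) '' U) := by
    intro y hy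
    have hysq : y ∈ sq := by
      by_contra h
      have h3 := h2 y h
      rw [hB y hy, hval] at h3
      exact one_ne_zero h3
    rw [← til_closure hT] at hysq
    obtain ⟨l, hl⟩ := Set.mem_iUnion.1 hysq
    by_cases hli : l = i
    · rw [hli] at hl
      exact hl
    · exfalso
      obtain ⟨w, hw, hwU⟩ := mem_closure_iff.1 hl _ Metric.isOpen_ball hy
      have h3 := h0 l hli w hwU
      rw [hB w hw, hval] at h3
      exact one_ne_zero h3
  have hint : x ∈ interior (closure (mv (g i) (c i) '' U)) :=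
    interior_maximal hsub Metric.isOpen_ball (Metric.mem_ball_self hε)
  have himg : interior (closure (mv (g i) (c i) '' U)) = mv (g i) (c i) '' interior (closure U) := by
    rw [← mv_image_closure]
    exact ((mvH (g i) (c i)).image_interior (closure U)).symm
  rw [himg] at hint
  have hxU : x ∈ mv (g i) (c i) '' U := Set.image_mono hT.reg hint
  rw [(mv_image_open hT.opn (g i) (c i)).frontier_eq] at hx
  exact hx.2 hxU

theorem rec2 {W : Set V} {S : Finset ℝ} (h : frontier W ⊆ {z | z.1 ∈ S ∨ z.2 ∈ S}) (k : O2) (hk : Ax k) (v : V) :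
    ∃ S' : Finset ℝ, frontier (mv k v '' W) ⊆ {z | z.1 ∈ S' ∨ z.2 ∈ S'} := by
  classical
  refine ⟨(S.image (fun s => k.a * s + v.1) ∪ S.image (fun s => -(k.t * k.b) * s + v.1)) ∪
    (S.image (fun s => k.b * s + v.2) ∪ S.image (fun s => k.t * k.a * s + v.2)), ?_⟩
  have hfr : frontier (mv k v '' W) = mv k v '' frontier W := ((mvH k v).image_frontier W).symm
  rw [hfr]
  rintro _ ⟨z, hz, rfl⟩
  have hz2 : z.1 ∈ S ∨ z.2 ∈ S := h hz
  have e1 : (mv k v z).1 = k.a * z.1 - k.t * k.b * z.2 + v.1 := by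
    rw [mv, act_apply]
    rfl
  have e2 : (mv k v z).2 = k.b * z.1 + k.t * k.a * z.2 + v.2 := by
    rw [mv, act_apply]
    rfl
  show (mv k v z).1 ∈ _ ∨ (mv k v z).2 ∈ _
  rcases mul_eq_zero.1 hk with ha | hb
  · rcases hz2 with hz2 | hz2
    · right
      refine Finset.mem_union_right _ (Finset.mem_union_left _ (Finset.mem_image.2 ⟨z.1, hz2, ?_⟩))
      rw [e2, ha]
      ring
    · left
      refine Finset.mem_union_left _ (Finset.mem_union_right _ (Finset.mem_image.2 ⟨z.2, hz2, ?_⟩))
      rw [e1, ha]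
      ring
  · rcases hz2 with hz2 | hz2
    · left
      refine Finset.mem_union_left _ (Finset.mem_union_left _ (Finset.mem_image.2 ⟨z.1, hz2, ?_⟩))
      rw [e1, hb]
      ring
    · right
      refine Finset.mem_union_right _ (Finset.mem_union_right _ (Finset.mem_image.2 ⟨z.2, hz2, ?_⟩))
      rw [e2, hb]
      ring

end Pool.Agent.SQH
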