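import Pool.Agent.SQH.Bbr

/-!
# SQH module Zzr: horizontal and vertical corner functions agree

PROOF. Apply `hR` to `Z h = F h - VV F h`.  Finiteness: `{h | Z h ≠ 0}` is contained in the union of `{h | F h ≠ 0}`
and of its preimage under `h ↦ qt * h` (injective).  Relation: `single (act h (c i)) 1 * VV F (h * g i) =
- gm qt⁻¹ (single (act (qt * h) (c i)) 1 * F (qt * h * g i))` (`gm` is a ring homomorphism, `gm_single`,
`act qt⁻¹ (act (qt * h) v) = act h v` by `act_mul`, `act_inv_act`), so the sum of these is `- gm qt⁻¹ (BB (qt * h))`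
(`D.rel (qt * h)`), and `∑ .. * Z .. = BB h + gm qt⁻¹ (BB (qt * h)) = 0` (`bb_qt`).
-/

set_option autoImplicit false

open AddMonoidAlgebra Filter Topology

namespace Pool.Agent.SQH

open Pool.Agent.SQG

theorem zzr_fin {F : O2 → AddMonoidAlgebra ℤ V} (hF : {h | F h ≠ 0}.Finite) :
    {h | F h - VV F h ≠ 0}.Finite := by
  have h1 : ({h | F h ≠ 0} ∪ (fun h => qt * h) ⁻¹' {h | F h ≠ 0}).Finite :=
    hF.union (hF.preimage (mul_right_injective qt).injOn)
  refine h1.subset fun h hh => ?_
  by_contra hc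
  rw [Set.mem_union, not_or, Set.mem_preimage, Set.mem_setOf_eq, Set.mem_setOf_eq, not_not, not_not] at hc
  refine hh ?_
  rw [VV, hc.1, hc.2, map_zero, neg_zero, sub_zero]

theorem zzr_term (F : O2 → AddMonoidAlgebra ℤ V) (h k : O2) (v : V) :
    single (act h v) 1 * VV F (h * k) = -(gm qt⁻¹ (single (act (qt * h) v) 1 * F (qt * h * k))) := by
  rw [VV, map_mul, gm_single, act_mul qt h v, act_inv_act, mul_neg, mul_assoc qt h k]

theorem fv {p : ℕ} {g : Fin p → O2} {c : Fin p → V} {F : O2 → AddMonoidAlgebra ℤ V} (D : Dat p g c F)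
    (hR : Reg p g c) (h : O2) : F h = VV F h := by
  have hrel : ∀ h, ∑ i, single (act h (c i)) 1 * (F (h * g i) - VV F (h * g i)) = 0 := by
    intro h
    have h1 : ∑ i, single (act h (c i)) 1 * (F (h * g i) - VV F (h * g i)) =
        ∑ i, single (act h (c i)) 1 * F (h * g i) +
          gm qt⁻¹ (∑ i, single (act (qt * h) (c i)) 1 * F (qt * h * g i)) := by
      rw [map_sum, ← Finset.sum_add_distrib]
      refine Finset.sum_congr rfl fun i _ => ?_
      rw [mul_sub, zzr_term, sub_neg_eq_add]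
    rw [h1, D.rel h, D.rel (qt * h)]
    exact bb_qt h
  exact sub_eq_zero.mp (hR (fun h => F h - VV F h) (zzr_fin D.fin) hrel h)

end Pool.Agent.SQH
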