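import Pool.Agent.SQH.Geh
import Pool.Agent.SQH.Zzr
import Pool.Agent.SQH.Cvr
import Pool.Agent.SQH.Rct
import Pool.Agent.SQH.Hol
import Pool.Agent.SQH.Npt
import Pool.Agent.SQH.Phn

/-!
# SQH module Cre: the linear parts are symmetries of the square

PROOF. `F` from `geh`, `hV : ∀ h, F h = VV F h` from `fv`.  `U i = mv (g i) (c i) '' U`.  `npt` gives the piece `i` at the
lower side; `nice_npt` (with `til_sub`) gives `Nice (U i)`, and by `nice_mv` `Nice U` (`U` is the image of `U i` under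
the inverse motion, `mv_inv_mv`).  `X k v = single v 1 * F k`, `Cor (mv k v '' U) (X k v)` by `cor_of`.
`ph (X (g i) (c i)) x = 1` for `x ∈ U i` (`ph_one`).  So `ph (F (g i)) y = 1` for `y ∈ act (g i) '' U` (`ph_shift`).
Let `j` be any index, `h = g i * (g j)⁻¹`, `x0 ∈ U` (nonempty) and `x = act h (mv (g j) (c j) x0) =
mv (g i) (act h (c j)) x0`.  `D.rel h`: `∑ l, ph (single (act h (c l)) 1 * F (h * g l)) x = ph (BB h) x` (`ph_sum`).
The term `l = j` is `ph (F (g i)) (x - act h (c j)) = 1`.  For `l ≠ j`: `mv (g j) (c j) x0 ∈ Out (U l)` (`hol`), so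
`x ∈ act h '' Out (U l) = Out (act h '' U l) = Out (mv (h * g l) (act h (c l)) '' U)` (`act_eq_mv`, `out_mv`,
`act_mv_image`), and `ph (..) x = 0` by `ph_out` (`cor_of`, `tb_mv`, `mv_bdd`).  So `ph (BB h) x = 1`, `BB h ≠ 0` and
`Ax h`.  For two indices `j, k`: `g j * (g k)⁻¹ = (g i * (g j)⁻¹)⁻¹ * (g i * (g k)⁻¹)` and `Ax` is closed under products
and inverses.  The second part: `rec1` with `X = X (g i) (c i)`: `ph_one`; for `l ≠ i` `U l ⊆ Out (U i)` (`hol`) and
`ph_out`; for `x ∉ sq` `out_sq` and `ph_out`.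
-/

set_option autoImplicit false

open AddMonoidAlgebra Filter Topology

namespace Pool.Agent.SQH

open Pool.Agent.SQG

theorem ax_mul {h k : O2} (hh : Ax h) (hk : Ax k) : Ax (h * k) := by
  unfold Ax at *
  rw [O2.mul_a, O2.mul_b]
  rcases mul_eq_zero.1 hh with h1 | h1 <;> rcases mul_eq_zero.1 hk with h2 | h2 <;> rw [h1, h2] <;> ring

theorem ax_inv {h : O2} (hh : Ax h) : Ax h⁻¹ := by
  unfold Ax at *
  rw [O2.inv_a, O2.inv_b]
  linear_combination (-h.t) * hh

private theorem Cre_back (h : O2) (v : V) (U : Set V) :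
    mv h⁻¹ (-(act h⁻¹ v)) '' (mv h v '' U) = U := by
  have h1 : mv h⁻¹ (-(act h⁻¹ v)) ∘ mv h v = id := funext fun z => mv_inv_mv h v z
  rw [← Set.image_comp, h1, Set.image_id]

theorem core {N : ℕ} {U : Set V} {g : Fin N → O2} {c : Fin N → V} (hT : Til N U g c) (hc : IsConnected U)
    {T : Finset (ℝ × ℝ × ℝ)} {C : Set V} (hB : TB U T C) (hR : Reg N g c) :
    (∀ i j, Ax (g i * (g j)⁻¹)) ∧ ∃ i, ∃ S : Finset ℝ, frontier (mv (g i) (c i) '' U) ⊆ {z | z.1 ∈ S ∨ z.2 ∈ S} := by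
  classical
  obtain ⟨F, D, hF⟩ := geh hT hB
  have hV : ∀ h, F h = VV F h := fv D hR
  obtain ⟨i, t, ε, hε, hn⟩ := npt hT hB
  have hpc : IsPreconnected U := hc.isPreconnected
  have hNi : Nice (mv (g i) (c i) '' U) := nice_npt (til_sub hT i) t ε hε hn
  have hN : Nice U := by
    have h1 := nice_mv hNi (g i)⁻¹ (-(act (g i)⁻¹ (c i)))
    rwa [Cre_back] at h1
  have hUb : Bornology.IsBounded U := by
    have h1 := mv_bdd (til_bdd hT i) (g i)⁻¹ (-(act (g i)⁻¹ (c i)))
    rwa [Cre_back] at h1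
  obtain ⟨Ti, Ci, hBi⟩ := tb_mv hB (g i) (c i)
  have hXi : Cor (mv (g i) (c i) '' U) (single (c i) 1 * F (g i)) := cor_of hF hV (g i) (c i)
  have hWi : IsOpen (mv (g i) (c i) '' U) := mv_image_open hT.opn _ _
  have hone : ∀ x ∈ mv (g i) (c i) '' U, ph (single (c i) 1 * F (g i)) x = 1 :=
    ph_one hWi (mv_image_conn hpc _ _) hBi (til_bdd hT i) hXi (til_sub hT i) t ε hε hn
  have hone' : ∀ u ∈ U, ph (F (g i)) (act (g i) u) = 1 := by
    intro u hu
    have h1 := hone (mv (g i) (c i) u) ⟨u, hu, rfl⟩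
    rw [ph_shift] at h1
    unfold mv at h1
    rwa [add_sub_cancel_right] at h1
  have hax : ∀ j, Ax (g i * (g j)⁻¹) := by
    intro j
    obtain ⟨x0, hx0⟩ := hc.nonempty
    obtain ⟨h, hh⟩ : ∃ h : O2, h = g i * (g j)⁻¹ := ⟨_, rfl⟩
    rw [← hh]
    by_contra hno
    have hBB : BB h = 0 := by
      unfold BB
      rw [if_neg hno]
    have h1 : ∑ l, ph (single (act h (c l)) 1 * F (h * g l)) (act h (mv (g j) (c j) x0)) = 0 := by
      rw [← ph_sum, D.rel h, hBB, ph_zero]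
    have h2 : ∀ l, l ≠ j → ph (single (act h (c l)) 1 * F (h * g l)) (act h (mv (g j) (c j) x0)) = 0 := by
      intro l hl
      have h3 : mv (g j) (c j) x0 ∈ Out (mv (g l) (c l) '' U) :=
        hol hT hpc hN j l (Ne.symm hl) ⟨x0, hx0, rfl⟩
      have h4 : act h (mv (g j) (c j) x0) ∈ Out (mv (h * g l) (act h (c l)) '' U) := by
        rw [← act_mv_image, act_eq_mv, out_mv, ← act_eq_mv]
        exact ⟨_, h3, rfl⟩
      obtain ⟨T', C', hB'⟩ := tb_mv hB (h * g l) (act h (c l))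
      exact ph_out (mv_image_open hT.opn _ _) hB' (mv_bdd hUb _ _) (cor_of hF hV _ _) _ h4
    rw [Finset.sum_eq_single j (fun l _ hl => h2 l hl) (fun h => absurd (Finset.mem_univ j) h)] at h1
    have h5 : h * g j = g i := by rw [hh, inv_mul_cancel_right]
    have h6 : act h (mv (g j) (c j) x0) - act h (c j) = act (g i) x0 := by
      unfold mv
      rw [map_add, add_sub_cancel_right, ← act_mul, h5]
    rw [ph_shift, h5, h6, hone' x0 hx0] at h1
    exact one_ne_zero h1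
  refine ⟨fun j k => ?_, i, ?_⟩
  · have h1 : g j * (g k)⁻¹ = (g i * (g j)⁻¹)⁻¹ * (g i * (g k)⁻¹) := by group
    rw [h1]
    exact ax_mul (ax_inv (hax j)) (hax k)
  · refine rec1 hT i (single (c i) 1 * F (g i)) hone ?_ ?_
    · intro l hl x hx
      exact ph_out hWi hBi (til_bdd hT i) hXi x (hol hT hpc hN l i hl hx)
    · intro x hx
      exact ph_out hWi hBi (til_bdd hT i) hXi x (out_sq (til_sub hT i) x hx)

end Pool.Agent.SQH
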