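import Pool.Agent.SQH.Defs
import Pool.Agent.SQG.Tbm
import Pool.Agent.SQG.Sqb

/-!
# SQH module Lcb: functions which are locally constant off finitely many lines

PROOF. `lc_shift`: the translate of a line is a line (`Ln (a, b, γ)` shifted by `v` is
`Ln (a, b, γ + a * v.1 + b * v.2)`), `T' = T.image ..`; use continuity of `z ↦ z - v`.
`lc_add`: `T ∪ T'`.  `lc_cv`: by `AddMonoidAlgebra.induction_linear` on `Y` (`cv_zero`, `cv_add`, `cv_single`;
`cv (single v a) u z = a * u (z - v)`), or from the finite sum over the support.  `lc_sum`: induction.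
`lc_ind`: if `TB W T ∅` and `W` is open then `ind W` is constant near every point off the lines of `T` (which is not in
`frontier W`): it is in the open set `W` or in the open complement of `closure W`.
`lc_sq`: `lc_ind` for `act k '' sqo` and `tb_act tb_sqo k` (`act k '' ∅ = ∅`).
-/

set_option autoImplicit false

open AddMonoidAlgebra Filter Topology

namespace Pool.Agent.SQH

open Pool.Agent.SQG

/-- `u` is locally constant off finitely many lines. -/
def Lc (u : V → ℤ) : Prop :=
  ∃ T : Finset (ℝ × ℝ × ℝ), (∀ l ∈ T, Nd l) ∧ ∀ z, (∀ l ∈ T, z ∉ Ln l) → ∀ᶠ y in 𝓝 z, u y = u z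

theorem lc_shift {u : V → ℤ} (h : Lc u) (v : V) : Lc (fun z => u (z - v)) := by
  classical
  obtain ⟨T, hT, hu⟩ := h
  refine ⟨T.image fun l => (l.1, l.2.1, l.2.2 + l.1 * v.1 + l.2.1 * v.2), ?_, ?_⟩
  · intro l hl
    rw [Finset.mem_image] at hl
    obtain ⟨l', hl', rfl⟩ := hl
    exact hT l' hl'
  · intro z hz
    have h1 : ∀ l ∈ T, z - v ∉ Ln l := by
      intro l hl hzl
      refine hz _ (Finset.mem_image_of_mem _ hl) ?_
      have h2 : l.1 * (z - v).1 + l.2.1 * (z - v).2 = l.2.2 := hzl
      show l.1 * z.1 + l.2.1 * z.2 = l.2.2 + l.1 * v.1 + l.2.1 * v.2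
      simp only [Prod.fst_sub, Prod.snd_sub] at h2
      linarith
    have h2 := hu (z - v) h1
    have h3 : Tendsto (fun y : V => y - v) (𝓝 z) (𝓝 (z - v)) := by
      have h4 : Continuous fun y : V => y - v := by fun_prop
      exact h4.tendsto z
    exact h3.eventually h2

theorem lc_add {u v : V → ℤ} (h : Lc u) (h' : Lc v) : Lc (fun z => u z + v z) := by
  classical
  obtain ⟨T, hT, hu⟩ := h
  obtain ⟨T', hT', hv⟩ := h'
  refine ⟨T ∪ T', ?_, ?_⟩
  · intro l hl
    rcases Finset.mem_union.1 hl with h | h
    · exact hT l h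
    · exact hT' l h
  · intro z hz
    have h1 := hu z fun l hl => hz l (Finset.mem_union_left _ hl)
    have h2 := hv z fun l hl => hz l (Finset.mem_union_right _ hl)
    refine (h1.and h2).mono fun y hy => ?_
    show u y + v y = u z + v z
    rw [hy.1, hy.2]

theorem Lcb_const (a : ℤ) : Lc (fun _ => a) := by
  refine ⟨∅, ?_, ?_⟩
  · intro l hl
    exact absurd hl (Finset.notMem_empty l)
  · intro z _
    exact Filter.Eventually.of_forall fun y => rfl

theorem Lcb_mul (a : ℤ) {u : V → ℤ} (h : Lc u) : Lc (fun z => a * u z) := by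
  obtain ⟨T, hT, hu⟩ := h
  refine ⟨T, hT, fun z hz => (hu z hz).mono fun y hy => ?_⟩
  show a * u y = a * u z
  rw [hy]

theorem lc_sum {ι : Type} (s : Finset ι) (u : ι → V → ℤ) (h : ∀ i ∈ s, Lc (u i)) : Lc (fun z => ∑ i ∈ s, u i z) := by
  classical
  induction s using Finset.induction_on with
  | empty =>
    simp only [Finset.sum_empty]
    exact Lcb_const 0
  | insert a s ha ih =>
    simp only [Finset.sum_insert ha]
    exact lc_add (h a (Finset.mem_insert_self a s)) (ih fun i hi => h i (Finset.mem_insert_of_mem hi))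

theorem lc_cv (Y : AddMonoidAlgebra ℤ V) {u : V → ℤ} (h : Lc u) : Lc (cv Y u) := by
  induction Y using AddMonoidAlgebra.induction_linear with
  | zero =>
    have h1 : cv (0 : AddMonoidAlgebra ℤ V) u = fun _ => 0 := funext fun z => cv_zero u z
    rw [h1]
    exact Lcb_const 0
  | add x y hx hy =>
    have h1 : cv (x + y) u = fun z => cv x u z + cv y u z := funext fun z => cv_add x y u z
    rw [h1]
    exact lc_add hx hy
  | single v a =>
    have h1 : cv (single v a) u = fun z => a * u (z - v) := funext fun z => cv_single v a u z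
    rw [h1]
    exact Lcb_mul a (lc_shift h v)

theorem lc_ind {W : Set V} (hW : IsOpen W) {T : Finset (ℝ × ℝ × ℝ)} (h : TB W T ∅) : Lc (ind W) := by
  refine ⟨T, h.nd, fun z hz => ?_⟩
  have h1 : z ∉ frontier W := by
    intro hf
    rcases h.fr hf with h2 | h2
    · exact h2
    · simp only [Set.mem_iUnion] at h2
      obtain ⟨l, hl, hzl⟩ := h2
      exact hz l hl hzl
  by_cases hzW : z ∈ W
  · refine Filter.mem_of_superset (hW.mem_nhds hzW) fun y hy => ?_
    show ind W y = ind W z
    unfold ind
    rw [if_pos hy, if_pos hzW]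
  · have h2 : z ∉ closure W := by
      intro hc
      apply h1
      rw [frontier, hW.interior_eq]
      exact ⟨hc, hzW⟩
    have h3 : (closure W)ᶜ ∈ 𝓝 z := isClosed_closure.isOpen_compl.mem_nhds h2
    refine Filter.mem_of_superset h3 fun y hy => ?_
    show ind W y = ind W z
    have hyW : y ∉ W := fun h => hy (subset_closure h)
    unfold ind
    rw [if_neg hyW, if_neg hzW]

theorem lc_sq (k : O2) : Lc (ind (act k '' sqo)) := by
  have h1 : act k '' sqo = mvH k 0 '' sqo := by
    refine Set.image_congr fun z _ => ?_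
    show act k z = act k z + 0
    rw [add_zero]
  have h2 : IsOpen (act k '' sqo) := by
    rw [h1]
    exact (mvH k 0).isOpenMap sqo isOpen_sqo
  have h3 := tb_act tb_sqo k
  rw [Set.image_empty] at h3
  exact lc_ind h2 h3

end Pool.Agent.SQH
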