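import Pool.Agent.SQH.Gzb
import Pool.Agent.SQH.Lcb

/-!
# SQH module Crl: the corner values of a function which vanishes at most points

PROOF. Let `T` be the lines of `hL`.  Off the lines of `T` the function `u` is `0`: near such a point it is constant,
and by `gz_ex` it is `0` at some points near.  It remains: for all small `α > 0`, for all small `β > 0` (depending on
`α`), the four points `(x.1 ± α, x.2 ± β)` are off the lines of `T`.  For `l ∈ T` with `l.2.1 = 0` (so `l.1 ≠ 0`, `Nd`)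
the line consists of the points with `z.1 = l.2.2 / l.1`: it is avoided if `x.1 ± α` is not this number, true for all
small `α > 0`.  For `l ∈ T` with `l.2.1 ≠ 0` and given `α`, the points of the line with first coordinate `x.1 ± α` have
second coordinate `(l.2.2 - l.1 * (x.1 ± α)) / l.2.1`, which is different from `x.2 ± β` for all small `β > 0` (for a
fixed number `r`, `∀ᶠ β in 𝓝[>] 0, x.2 + β ≠ r` and `x.2 - β ≠ r`).  Finite intersections of eventual statements:
`Filter.eventually_all_finset`.  Compare Pool/Agent/SQG/Crz.lean (`Crz_small`).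
-/

set_option autoImplicit false

open AddMonoidAlgebra Filter Topology

namespace Pool.Agent.SQH

open Pool.Agent.SQG

private theorem Crl_ne (x r : ℝ) : ∀ᶠ a in 𝓝[>] (0 : ℝ), x + a ≠ r ∧ x - a ≠ r := by
  have h1 : (({r - x, x - r} : Set ℝ) \ {0}).Finite :=
    (Set.toFinite ({r - x, x - r} : Set ℝ)).subset Set.sdiff_subset
  have h2 : ((({r - x, x - r} : Set ℝ) \ {0})ᶜ : Set ℝ) ∈ 𝓝 (0 : ℝ) :=
    h1.isClosed.isOpen_compl.mem_nhds (by simp)
  filter_upwards [mem_nhdsWithin_of_mem_nhds h2, self_mem_nhdsWithin] with a ha ha0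
  have ha1 : a ≠ 0 := ne_of_gt ha0
  constructor
  · intro h
    exact ha ⟨Or.inl (by linarith), ha1⟩
  · intro h
    refine ha ⟨Or.inr ?_, ha1⟩
    show a = x - r
    linarith

private theorem Crl_line (l : ℝ × ℝ × ℝ) (hl : Nd l) (x : V) :
    ∀ᶠ a in 𝓝[>] (0 : ℝ), ∀ᶠ b in 𝓝[>] (0 : ℝ),
      (x.1 + a, x.2 + b) ∉ Ln l ∧ (x.1 + a, x.2 - b) ∉ Ln l ∧ (x.1 - a, x.2 + b) ∉ Ln l ∧
        (x.1 - a, x.2 - b) ∉ Ln l := by
  by_cases h0 : l.2.1 = 0
  · have h1 : l.1 ≠ 0 := by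
      rcases hl with h | h
      · exact h
      · exact absurd h0 h
    have key : ∀ y z : ℝ, y ≠ l.2.2 / l.1 → (y, z) ∉ Ln l := by
      intro y z hy hz
      have h2 : l.1 * y + l.2.1 * z = l.2.2 := hz
      apply hy
      rw [eq_div_iff h1]
      rw [h0] at h2
      linarith
    filter_upwards [Crl_ne x.1 (l.2.2 / l.1)] with a ha
    exact Filter.Eventually.of_forall fun b =>
      ⟨key _ _ ha.1, key _ _ ha.1, key _ _ ha.2, key _ _ ha.2⟩
  · have key : ∀ y z : ℝ, z ≠ (l.2.2 - l.1 * y) / l.2.1 → (y, z) ∉ Ln l := by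
      intro y z hy hz
      have h2 : l.1 * y + l.2.1 * z = l.2.2 := hz
      apply hy
      rw [eq_div_iff h0]
      linarith
    refine Filter.Eventually.of_forall fun a => ?_
    filter_upwards [Crl_ne x.2 ((l.2.2 - l.1 * (x.1 + a)) / l.2.1),
      Crl_ne x.2 ((l.2.2 - l.1 * (x.1 - a)) / l.2.1)] with b hb hb'
    exact ⟨key _ _ hb.1, key _ _ hb.2, key _ _ hb'.1, key _ _ hb'.2⟩

theorem crn_lc {u : V → ℤ} (hL : Lc u) (h : Gz (fun z => u z = 0)) (x : V) : Crn u x 0 := by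
  obtain ⟨T, hT, hu⟩ := hL
  have hz : ∀ z : V, (∀ l ∈ T, z ∉ Ln l) → u z = 0 := by
    intro z hzl
    obtain ⟨O, hO, hOo, hzO⟩ := eventually_nhds_iff.1 (hu z hzl)
    obtain ⟨y, hy, hy0⟩ := gz_ex h hOo ⟨z, hzO⟩
    rw [← hO y hy]
    exact hy0
  have hall : ∀ᶠ a in 𝓝[>] (0 : ℝ), ∀ l ∈ T, ∀ᶠ b in 𝓝[>] (0 : ℝ),
      (x.1 + a, x.2 + b) ∉ Ln l ∧ (x.1 + a, x.2 - b) ∉ Ln l ∧ (x.1 - a, x.2 + b) ∉ Ln l ∧
        (x.1 - a, x.2 - b) ∉ Ln l :=
    (Filter.eventually_all_finset T).2 fun l hl => Crl_line l (hT l hl) x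
  unfold Crn
  filter_upwards [hall] with a ha
  filter_upwards [(Filter.eventually_all_finset T).2 ha] with b hb
  unfold md
  rw [hz _ fun l hl => (hb l hl).1, hz _ fun l hl => (hb l hl).2.1, hz _ fun l hl => (hb l hl).2.2.1,
    hz _ fun l hl => (hb l hl).2.2.2]
  ring

end Pool.Agent.SQH
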