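import Pool.Agent.SQG.Defs

/-!
# SQH: definitions

`qt` is the quarter turn.  `gm h` is the ring endomorphism of the group ring of the plane induced by `act h`.
`VV F` are the vertical corner functions which belong to the horizontal corner functions `F`.
`Reg`: the sum of the `p` isometries is no zero divisor of the group ring of the group of isometries.
`InjZ`: the sum of the linear parts is no zero divisor over `ℤ`.
`Cor W X`: the horizontal and the vertical corner function of `W` are both `X`.
`sm Q X` is the sum of the coefficients of `X` at the points with `Q`; `ph X x` the sum over the open quadrant with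
the corner `x`.
`Out W`: the union of the unbounded open connected sets which miss the closure of `W`.
`Gz Q`: the property `Q` holds outside a closed set without interior points.
`cv X u`: the convolution.
-/

set_option autoImplicit false

open AddMonoidAlgebra Filter Topology

noncomputable section

namespace Pool.Agent.SQH

open Pool.Agent.SQG

/-- The quarter turn `(x, y) ↦ (-y, x)`. -/
def qt : O2 := ⟨0, 1, 1, by norm_num⟩

@[simp] theorem qt_a : qt.a = 0 := rfl
@[simp] theorem qt_b : qt.b = 1 := rfl
@[simp] theorem qt_s : qt.s = 1 := rfl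
@[simp] theorem qt_t : qt.t = 1 := by simp [O2.t]

theorem act_qt (z : V) : act qt z = (-z.2, z.1) := by
  rw [act_apply]
  simp

theorem act_qt_inv (z : V) : act qt⁻¹ z = (z.2, -z.1) := by
  rw [act_apply]
  simp

/-- The ring endomorphism of the group ring induced by `act h`. -/
def gm (h : O2) : AddMonoidAlgebra ℤ V →+* AddMonoidAlgebra ℤ V := mapDomainRingHom ℤ (act h)

@[simp] theorem gm_single (h : O2) (v : V) (a : ℤ) : gm h (single v a) = single (act h v) a := by
  simp [gm]

theorem gm_mul (h k : O2) (X : AddMonoidAlgebra ℤ V) : gm h (gm k X) = gm (h * k) X := by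
  have h1 : (gm h).comp (gm k) = gm (h * k) := by
    refine AddMonoidAlgebra.ringHom_ext (fun r => ?_) (fun m => ?_)
    · simp
    · simp [act_mul]
  exact congrArg (fun f => f X) h1

@[simp] theorem gm_one (X : AddMonoidAlgebra ℤ V) : gm 1 X = X := by
  have h1 : gm 1 = RingHom.id _ := by
    refine AddMonoidAlgebra.ringHom_ext (fun r => ?_) (fun m => ?_)
    · simp
    · simp
  exact congrArg (fun f => f X) h1

theorem act_inj (h : O2) : Function.Injective (act h) := fun x y hxy => by
  rw [← act_inv_act h x, hxy, act_inv_act]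

theorem gm_coeff_act (h : O2) (X : AddMonoidAlgebra ℤ V) (w : V) : (gm h X).coeff (act h w) = X.coeff w := by
  simp only [gm, mapDomainRingHom_apply, coeff_mapDomain]
  exact Finsupp.mapDomain_apply (act_inj h) _ _

theorem gm_coeff (h : O2) (X : AddMonoidAlgebra ℤ V) (w : V) : (gm h X).coeff w = X.coeff (act h⁻¹ w) := by
  rw [← gm_coeff_act h X (act h⁻¹ w), act_act_inv]

/-- The vertical corner functions. -/
def VV (F : O2 → AddMonoidAlgebra ℤ V) (h : O2) : AddMonoidAlgebra ℤ V := -(gm qt⁻¹ (F (qt * h)))

/-- The sum of the isometries `z ↦ g i z + c i` is no zero divisor. -/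
def Reg (p : ℕ) (g : Fin p → O2) (c : Fin p → V) : Prop :=
  ∀ Z : O2 → AddMonoidAlgebra ℤ V, {h | Z h ≠ 0}.Finite →
    (∀ h, ∑ i, single (act h (c i)) 1 * Z (h * g i) = 0) → ∀ h, Z h = 0

/-- The sum of the linear parts is no zero divisor over `ℤ`. -/
def InjZ (p : ℕ) (g : Fin p → O2) : Prop :=
  ∀ X : O2 →₀ ℤ, (∀ h, ∑ i, X (h * g i) = 0) → X = 0

/-- The horizontal and the vertical corner function of `W` are both `X`. -/
structure Cor (W : Set V) (X : AddMonoidAlgebra ℤ V) : Prop where
  hor : ∀ w, Crn (ind W) w (X.coeff w)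
  ver : ∀ w, Crn (ind (act qt '' W)) (act qt w) (-(X.coeff w))

open Classical in
/-- The sum of the coefficients at the points with `Q`. -/
def sm (Q : V → Prop) (X : AddMonoidAlgebra ℤ V) : ℤ := X.coeff.sum fun w a => if Q w then a else 0

theorem sm_add (Q : V → Prop) (X Y : AddMonoidAlgebra ℤ V) : sm Q (X + Y) = sm Q X + sm Q Y := by
  classical
  unfold sm
  rw [coeff_add, Finsupp.sum_add_index']
  · intro w
    simp
  · intro w a b
    split_ifs <;> simp

theorem sm_zero (Q : V → Prop) : sm Q 0 = 0 := by
  simp [sm]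

theorem sm_single (Q : V → Prop) (v : V) [Decidable (Q v)] (a : ℤ) : sm Q (single v a) = if Q v then a else 0 := by
  unfold sm
  rw [coeff_single, Finsupp.sum_single_index]
  · congr 1
  · simp

/-- `sm Q` as a homomorphism. -/
def smH (Q : V → Prop) : AddMonoidAlgebra ℤ V →+ ℤ where
  toFun := sm Q
  map_zero' := sm_zero Q
  map_add' := sm_add Q

theorem sm_neg (Q : V → Prop) (X : AddMonoidAlgebra ℤ V) : sm Q (-X) = -sm Q X := map_neg (smH Q) X

theorem sm_sub (Q : V → Prop) (X Y : AddMonoidAlgebra ℤ V) : sm Q (X - Y) = sm Q X - sm Q Y := map_sub (smH Q) X Y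

theorem sm_sum {ι : Type} (s : Finset ι) (Q : V → Prop) (X : ι → AddMonoidAlgebra ℤ V) :
    sm Q (∑ i ∈ s, X i) = ∑ i ∈ s, sm Q (X i) := map_sum (smH Q) X s

/-- Reindexing of the sum of coefficients by an automorphism. -/
theorem sm_gm (Q : V → Prop) (h : O2) (X : AddMonoidAlgebra ℤ V) : sm Q (gm h X) = sm (fun w => Q (act h w)) X := by
  classical
  induction X using AddMonoidAlgebra.induction_linear with
  | zero => simp [sm_zero]
  | add x y hx hy => rw [map_add, sm_add, sm_add, hx, hy]
  | single v a => rw [gm_single, sm_single, sm_single]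

/-- Reindexing of the sum of coefficients by a translation. -/
theorem sm_shift (Q : V → Prop) (v : V) (X : AddMonoidAlgebra ℤ V) :
    sm Q (single v 1 * X) = sm (fun w => Q (v + w)) X := by
  classical
  induction X using AddMonoidAlgebra.induction_linear with
  | zero => simp [sm_zero]
  | add x y hx hy => rw [mul_add, sm_add, sm_add, hx, hy]
  | single w a => rw [single_mul_single, sm_single, sm_single, one_mul]

open Classical in
theorem sm_eq (Q : V → Prop) (X : AddMonoidAlgebra ℤ V) (S : Finset V) (hS : X.coeff.support ⊆ S) :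
    sm Q X = ∑ w ∈ S, if Q w then X.coeff w else 0 := by
  unfold sm
  refine Finsupp.sum_of_support_subset _ hS _ fun w _ => ?_
  simp

theorem sm_congr {Q R : V → Prop} {X : AddMonoidAlgebra ℤ V} (h : ∀ w, X.coeff w ≠ 0 → (Q w ↔ R w)) :
    sm Q X = sm R X := by
  classical
  unfold sm Finsupp.sum
  refine Finset.sum_congr rfl fun w hw => ?_
  have h1 := h w (Finsupp.mem_support_iff.1 hw)
  show (if Q w then X.coeff w else 0) = if R w then X.coeff w else 0
  by_cases hq : Q w
  · rw [if_pos hq, if_pos (h1.1 hq)]
  · rw [if_neg hq, if_neg fun hr => hq (h1.2 hr)]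

/-- The sum of the coefficients over the open quadrant with the corner `x`. -/
def ph (X : AddMonoidAlgebra ℤ V) (x : V) : ℤ := sm (fun w => x.1 < w.1 ∧ x.2 < w.2) X

theorem ph_zero (x : V) : ph 0 x = 0 := sm_zero _

theorem ph_sum {ι : Type} (s : Finset ι) (X : ι → AddMonoidAlgebra ℤ V) (x : V) :
    ph (∑ i ∈ s, X i) x = ∑ i ∈ s, ph (X i) x := sm_sum s _ X

theorem ph_shift (v : V) (X : AddMonoidAlgebra ℤ V) (x : V) : ph (single v 1 * X) x = ph X (x - v) := by
  unfold ph
  rw [sm_shift]
  refine sm_congr fun w _ => ?_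
  simp only [Prod.fst_add, Prod.snd_add, Prod.fst_sub, Prod.snd_sub]
  constructor
  · rintro ⟨h1, h2⟩
    exact ⟨by linarith, by linarith⟩
  · rintro ⟨h1, h2⟩
    exact ⟨by linarith, by linarith⟩

/-- The union of the unbounded open connected sets which miss the closure of `W`. -/
def Out (W : Set V) : Set V :=
  {x | ∃ K : Set V, IsOpen K ∧ IsPreconnected K ∧ x ∈ K ∧ ¬ Bornology.IsBounded K ∧ Disjoint K (closure W)}

/-- Some open connected set is divided, up to a set without interior points, between `W` and the outside of `W`. -/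
def Nice (W : Set V) : Prop :=
  ∃ B L : Set V, IsOpen B ∧ IsPreconnected B ∧ (B ∩ W).Nonempty ∧ (B ∩ Out W).Nonempty ∧ interior L = ∅ ∧
    B ⊆ W ∪ Out W ∪ L

/-- The property `Q` holds outside a closed set without interior points. -/
def Gz (Q : V → Prop) : Prop := ∃ L : Set V, IsClosed L ∧ interior L = ∅ ∧ ∀ z, z ∉ L → Q z

/-- The convolution. -/
def cv (X : AddMonoidAlgebra ℤ V) (u : V → ℤ) (z : V) : ℤ := X.coeff.sum fun w a => a * u (z - w)

theorem cv_single (v : V) (a : ℤ) (u : V → ℤ) (z : V) : cv (single v a) u z = a * u (z - v) := by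
  unfold cv
  rw [coeff_single, Finsupp.sum_single_index]
  simp

theorem cv_zero (u : V → ℤ) (z : V) : cv 0 u z = 0 := by
  simp [cv]

theorem cv_add (X Y : AddMonoidAlgebra ℤ V) (u : V → ℤ) (z : V) : cv (X + Y) u z = cv X u z + cv Y u z := by
  unfold cv
  rw [coeff_add, Finsupp.sum_add_index']
  · intro w
    simp
  · intro w a b
    ring

theorem cv_sum {ι : Type} (s : Finset ι) (X : ι → AddMonoidAlgebra ℤ V) (u : V → ℤ) (z : V) :
    cv (∑ i ∈ s, X i) u z = ∑ i ∈ s, cv (X i) u z := by
  classical
  induction s using Finset.induction_on with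
  | empty => simp [cv_zero]
  | insert a s ha ih => rw [Finset.sum_insert ha, Finset.sum_insert ha, cv_add, ih]

theorem cv_shift (v : V) (X : AddMonoidAlgebra ℤ V) (u : V → ℤ) (z : V) :
    cv (single v 1 * X) u z = cv X u (z - v) := by
  induction X using AddMonoidAlgebra.induction_linear with
  | zero => simp [cv_zero]
  | add x y hx hy => rw [mul_add, cv_add, cv_add, hx, hy]
  | single w a =>
    rw [single_mul_single, cv_single, cv_single, one_mul, sub_sub]

theorem cv_mul (X Y : AddMonoidAlgebra ℤ V) (u : V → ℤ) (z : V) : cv (X * Y) u z = cv X (cv Y u) z := by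
  induction X using AddMonoidAlgebra.induction_linear with
  | zero => simp [cv_zero]
  | add x y hx hy => rw [add_mul, cv_add, cv_add, hx, hy]
  | single v a =>
    rw [cv_single]
    have h1 : (single v a : AddMonoidAlgebra ℤ V) * Y = a • (single v 1 * Y) := by
      rw [← smul_mul_assoc, smul_single]
      simp
    have h2 : ∀ Z : AddMonoidAlgebra ℤ V, cv (a • Z) u z = a * cv Z u z := by
      intro Z
      induction Z using AddMonoidAlgebra.induction_linear with
      | zero => simp [cv_zero]
      | add x y hx hy => rw [smul_add, cv_add, cv_add, hx, hy, mul_add]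
      | single w b => rw [smul_single, cv_single, cv_single, smul_eq_mul, mul_assoc]
    rw [h1, h2, cv_shift]

end Pool.Agent.SQH
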