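import Mathlib

/-!
# SQH module Dim: a surjective local linear map with a local kernel vector, on almost invariant sets

PROOF. `W = Finsupp.supported 𝔽 𝔽 (S : Set G)`, of dimension `S.card` (`Finsupp.supportedEquivFinsupp`,
`Module.finrank_finsupp_self`..., `Module.finrank` of functions on a finite type).  Let `T'` be the restriction of `T`
to `W` (`T.domRestrict W`).  Rank-nullity: `finrank (range T') + finrank (ker T') = S.card`.
For `k ∈ S₀` all `x` with `u k x ≠ 0` are `k * n`, `n ∈ N`, so in `S`: `u k ∈ W` and `Finsupp.single k 1` is in the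
range of `T'`: `S₀.card ≤ finrank (range T')` (the `single k 1` are linearly independent; `LinearIndependent.cardinalMk_le..`
or `LinearIndependent.fintype_card_le_finrank` in the subspace).
Let `S₁ ⊆ S₀` be a maximal subset such that the sets `k * N` (`k ∈ S₁`) are pairwise disjoint
(`Finset.exists_maximal` among the subsets of `S₀` with this property, or `zorn`-free: strong induction / choose one of
maximal cardinality with `Finset.exists_max_image` over `S₀.powerset.filter ..`).  Each `k ∈ S₀` has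
`k * n = k' * n'` with `k' ∈ S₁`, `n, n' ∈ N` (take `k' = k` if `k ∈ S₁`, `n = n' = n0`), so
`S₀ ⊆ image of S₁ ×ˢ N ×ˢ N` under `(k', n', n) ↦ k' * n' * n⁻¹` and `S₀.card ≤ S₁.card * N.card ^ 2`.
For `k ∈ S₁`: `z k ∈ W` is in the kernel of `T'`.  They are linearly independent: `z k (k * n0) ≠ 0`, and
`z k' (k * n0) = 0` for `k' ≠ k` in `S₁` (otherwise `k * n0 ∈ k' * N`).  So `S₁.card ≤ finrank (ker T')`.
Together `S₀.card + S₁.card ≤ S.card`; multiply by `N.card ^ 2`: contradiction to `hc`.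
-/

set_option autoImplicit false

open AddMonoidAlgebra Filter Topology

namespace Pool.Agent.SQH

private theorem dim_max {G : Type} [Group G] (N S₀ : Finset G) (n0 : G) (hn0 : n0 ∈ N) :
    ∃ S₁ : Finset G, S₁ ⊆ S₀ ∧
      (∀ k ∈ S₁, ∀ k' ∈ S₁, ∀ n ∈ N, ∀ n' ∈ N, k * n = k' * n' → k = k') ∧
      S₀.card ≤ S₁.card * N.card ^ 2 := by
  classical
  obtain ⟨P, hP⟩ : ∃ P : Finset G → Prop, ∀ S, P S ↔
      ∀ k ∈ S, ∀ k' ∈ S, ∀ n ∈ N, ∀ n' ∈ N, k * n = k' * n' → k = k' := ⟨_, fun _ => Iff.rfl⟩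
  have hne : (S₀.powerset.filter P).Nonempty := ⟨∅, by simp [hP]⟩
  obtain ⟨S₁, hS₁, hmax⟩ := Finset.exists_max_image (S₀.powerset.filter P) Finset.card hne
  rw [Finset.mem_filter, Finset.mem_powerset, hP] at hS₁
  refine ⟨S₁, hS₁.1, hS₁.2, ?_⟩
  have key : ∀ k ∈ S₀, ∃ k' ∈ S₁, ∃ n ∈ N, ∃ n' ∈ N, k * n = k' * n' := by
    intro k hk
    by_contra hcon
    push Not at hcon
    have hkS : k ∉ S₁ := fun h => hcon k h n0 hn0 n0 hn0 rfl
    have hins : insert k S₁ ∈ S₀.powerset.filter P := by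
      rw [Finset.mem_filter, Finset.mem_powerset, hP]
      refine ⟨Finset.insert_subset hk hS₁.1, ?_⟩
      intro a ha b hb n hn n' hn' hab
      rw [Finset.mem_insert] at ha hb
      rcases ha with rfl | ha <;> rcases hb with rfl | hb
      · rfl
      · exact absurd hab (hcon b hb n hn n' hn')
      · exact absurd hab.symm (hcon a ha n' hn' n hn)
      · exact hS₁.2 a ha b hb n hn n' hn' hab
    have h1 := hmax _ hins
    rw [Finset.card_insert_of_notMem hkS] at h1
    omega
  have hsub : S₀ ⊆ (S₁ ×ˢ (N ×ˢ N)).image (fun p => p.1 * p.2.1 * p.2.2⁻¹) := by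
    intro k hk
    obtain ⟨k', hk', n, hn, n', hn', h⟩ := key k hk
    rw [Finset.mem_image]
    exact ⟨(k', (n', n)), by simp [hk', hn, hn'], by simp [← h]⟩
  calc S₀.card ≤ _ := Finset.card_le_card hsub
    _ ≤ (S₁ ×ˢ (N ×ˢ N)).card := Finset.card_image_le
    _ = S₁.card * N.card ^ 2 := by rw [Finset.card_product, Finset.card_product]; ring

theorem dim {𝔽 : Type} [Field 𝔽] {G : Type} [Group G] (T : (G →₀ 𝔽) →ₗ[𝔽] (G →₀ 𝔽)) (N : Finset G)
    (u z : G → (G →₀ 𝔽)) (hu : ∀ k, T (u k) = Finsupp.single k 1) (hus : ∀ k x, u k x ≠ 0 → k⁻¹ * x ∈ N)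
    (hz : ∀ k, T (z k) = 0) (hzs : ∀ k x, z k x ≠ 0 → k⁻¹ * x ∈ N) (n0 : G) (hn0 : n0 ∈ N)
    (hzn : ∀ k, z k (k * n0) ≠ 0) (S₀ S : Finset G) (hS : ∀ k ∈ S₀, ∀ n ∈ N, k * n ∈ S)
    (hc : N.card ^ 2 * S.card < (N.card ^ 2 + 1) * S₀.card) : False := by
  classical
  obtain ⟨S₁, hS₁, hdis, hcard⟩ := dim_max N S₀ n0 hn0
  obtain ⟨A, hA⟩ : ∃ A : (S → 𝔽) →ₗ[𝔽] (G →₀ 𝔽),
      A = Fintype.linearCombination 𝔽 (fun y : S => T (Finsupp.single (y : G) 1)) := ⟨_, rfl⟩
  have hAv : ∀ v : G →₀ 𝔽, v.support ⊆ S → A (fun y : S => v (y : G)) = T v := by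
    intro v hv
    have h1 : v = ∑ y ∈ S, v y • Finsupp.single y (1 : 𝔽) := by
      conv_lhs => rw [← Finsupp.sum_single v]
      rw [Finsupp.sum_of_support_subset _ hv _ (fun _ _ => Finsupp.single_zero _)]
      refine Finset.sum_congr rfl fun y _ => ?_
      rw [Finsupp.smul_single', mul_one]
    have h2 : T v = ∑ y ∈ S, v y • T (Finsupp.single y (1 : 𝔽)) := by
      conv_lhs => rw [h1]
      rw [map_sum]
      refine Finset.sum_congr rfl fun y _ => ?_
      rw [map_smul]
    rw [h2, hA, Fintype.linearCombination_apply]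
    exact Finset.sum_coe_sort S (fun y => v y • T (Finsupp.single y (1 : 𝔽)))
  have hsupp : ∀ v : G → (G →₀ 𝔽), (∀ k x, v k x ≠ 0 → k⁻¹ * x ∈ N) → ∀ k ∈ S₀, (v k).support ⊆ S := by
    intro v hv k hk x hx
    rw [Finsupp.mem_support_iff] at hx
    have h1 := hS k hk _ (hv k x hx)
    rwa [mul_inv_cancel_left] at h1
  -- the kernel
  let f : S₁ → (S → 𝔽) := fun k y => z (k : G) (y : G)
  have hf : LinearIndependent 𝔽 f := by
    rw [Fintype.linearIndependent_iff]
    intro g hg k
    have hkS : (k : G) * n0 ∈ S := hS k (hS₁ k.2) n0 hn0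
    have h1 := congrFun hg ⟨(k : G) * n0, hkS⟩
    rw [Finset.sum_apply, Finset.sum_eq_single k] at h1
    · simp only [Pi.smul_apply, smul_eq_mul, Pi.zero_apply, f] at h1
      exact (mul_eq_zero.mp h1).resolve_right (hzn k)
    · intro b _ hb
      simp only [Pi.smul_apply, smul_eq_mul, f]
      have h2 : z (b : G) ((k : G) * n0) = 0 := by
        by_contra h
        have h3 := hzs _ _ h
        have h4 : (k : G) * n0 = (b : G) * ((b : G)⁻¹ * ((k : G) * n0)) := by
          rw [mul_inv_cancel_left]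
        exact hb (Subtype.ext (hdis k k.2 b b.2 n0 hn0 _ h3 h4)).symm
      rw [h2, mul_zero]
    · intro h
      exact absurd (Finset.mem_univ _) h
  have hker : ∀ k, f k ∈ LinearMap.ker A := by
    intro k
    rw [LinearMap.mem_ker]
    exact (hAv (z (k : G)) (hsupp z hzs k (hS₁ k.2))).trans (hz k)
  let f' : S₁ → LinearMap.ker A := fun k => ⟨f k, hker k⟩
  have hf' : LinearIndependent 𝔽 f' := by
    apply LinearIndependent.of_comp (Submodule.subtype _)
    exact hf
  have hle : S₁.card ≤ Module.finrank 𝔽 (LinearMap.ker A) := by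
    have h1 := hf'.fintype_card_le_finrank
    rwa [Fintype.card_coe] at h1
  -- the range
  have hran : ∀ k : S₀, Finsupp.single (k : G) (1 : 𝔽) ∈ LinearMap.range A := by
    intro k
    exact ⟨_, (hAv (u (k : G)) (hsupp u hus k k.2)).trans (hu k)⟩
  let e : S₀ → LinearMap.range A := fun k => ⟨_, hran k⟩
  have he : LinearIndependent 𝔽 e := by
    apply LinearIndependent.of_comp (Submodule.subtype _)
    have h1 := Finsupp.linearIndependent_single_one 𝔽 G
    exact h1.comp (fun k : S₀ => (k : G)) Subtype.val_injective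
  have hle2 : S₀.card ≤ Module.finrank 𝔽 (LinearMap.range A) := by
    have h1 := he.fintype_card_le_finrank
    rwa [Fintype.card_coe] at h1
  have hrn := LinearMap.finrank_range_add_finrank_ker A
  rw [Module.finrank_fintype_fun_eq_card, Fintype.card_coe] at hrn
  have h2 : S₀.card + S₁.card ≤ S.card := by omega
  have h3 : N.card ^ 2 * (S₀.card + S₁.card) ≤ N.card ^ 2 * S.card :=
    Nat.mul_le_mul_left _ h2
  nlinarith

end Pool.Agent.SQH
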