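import Mathlib

/-!
# SQH module Dmt: a local kernel vector gives a local left kernel vector

PROOF. `W = Finsupp.supported 𝔽 𝔽 (S : Set G)` (dimension `S.card`), `T'` the composition of the restriction of `T` to `W`
with the restriction of functions to `S₀` (a linear map to `S₀ → 𝔽`, dimension `S₀.card`).  As in module Dim
(Pool/Agent/SQH/Dim.lean, see its header; copy the argument or its lemmas): there is `S₁ ⊆ S₀` with
`S₀.card ≤ S₁.card * N.card ^ 2` such that the sets `k * N`, `k ∈ S₁`, are pairwise disjoint, the `z k`, `k ∈ S₁`, are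
linearly independent elements of `W` in the kernel of `T`.  So `finrank (ker T') ≥ S₁.card`, and
`finrank (range T') ≤ S.card - S₁.card < S₀.card` by `hc`.  So the range of `T'` is a proper subspace of `S₀ → 𝔽` and there
is a nonzero linear functional on `S₀ → 𝔽` which vanishes on it, i.e. a nonzero `a : G →₀ 𝔽` with support in `S₀` and
`∑ x ∈ S₀, a x * T w x = 0` for all `w ∈ W`.  For `y ∈ S` take `w = single y 1`.  For `y ∉ S`, and `x ∈ S₀`:
`T (single y 1) x = 0`, otherwise `x⁻¹ * y ∈ N` and `y = x * (x⁻¹ * y) ∈ S` by `hS`.  The sum over `a.support` equals the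
sum over `S₀`.
-/

set_option autoImplicit false

open AddMonoidAlgebra Filter Topology

namespace Pool.Agent.SQH

private theorem dmt_max {G : Type} [Group G] (N S₀ : Finset G) (n0 : G) (hn0 : n0 ∈ N) :
    ∃ S₁ : Finset G, S₁ ⊆ S₀ ∧
      (∀ k ∈ S₁, ∀ k' ∈ S₁, ∀ n ∈ N, ∀ n' ∈ N, k * n = k' * n' → k = k') ∧
      S₀.card ≤ S₁.card * N.card ^ 2 := by
  classical
  obtain ⟨P, hP⟩ : ∃ P : Finset G → Prop, ∀ S, P S ↔
      ∀ k ∈ S, ∀ k' ∈ S, ∀ n ∈ N, ∀ n' ∈ N, k * n = k' * n' → k = k' := ⟨_, fun _ => Iff.rfl⟩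
  have hne : (S₀.powerset.filter P).Nonempty := ⟨∅, by simp [hP]⟩
  obtain ⟨S₁, hS₁, hmax⟩ := Finset.exists_max_image (S₀.powerset.filter P) Finset.card hne
  rw [Finset.mem_filter, Finset.mem_powerset, hP] at hS₁
  refine ⟨S₁, hS₁.1, hS₁.2, ?_⟩
  have key : ∀ k ∈ S₀, ∃ k' ∈ S₁, ∃ n ∈ N, ∃ n' ∈ N, k * n = k' * n' := by
    intro k hk
    by_contra hcon
    push Not at hcon
    have hkS : k ∉ S₁ := fun h => hcon k h n0 hn0 n0 hn0 rfl
    have hins : insert k S₁ ∈ S₀.powerset.filter P := by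
      rw [Finset.mem_filter, Finset.mem_powerset, hP]
      refine ⟨Finset.insert_subset hk hS₁.1, ?_⟩
      intro a ha b hb n hn n' hn' hab
      rw [Finset.mem_insert] at ha hb
      rcases ha with rfl | ha <;> rcases hb with rfl | hb
      · rfl
      · exact absurd hab (hcon b hb n hn n' hn')
      · exact absurd hab.symm (hcon a ha n' hn' n hn)
      · exact hS₁.2 a ha b hb n hn n' hn' hab
    have h1 := hmax _ hins
    rw [Finset.card_insert_of_notMem hkS] at h1
    omega
  have hsub : S₀ ⊆ (S₁ ×ˢ (N ×ˢ N)).image (fun p => p.1 * p.2.1 * p.2.2⁻¹) := by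
    intro k hk
    obtain ⟨k', hk', n, hn, n', hn', h⟩ := key k hk
    rw [Finset.mem_image]
    exact ⟨(k', (n', n)), by simp [hk', hn, hn'], by simp [← h]⟩
  calc S₀.card ≤ _ := Finset.card_le_card hsub
    _ ≤ (S₁ ×ˢ (N ×ˢ N)).card := Finset.card_image_le
    _ = S₁.card * N.card ^ 2 := by rw [Finset.card_product, Finset.card_product]; ring

theorem dimt {𝔽 : Type} [Field 𝔽] {G : Type} [Group G] (T : (G →₀ 𝔽) →ₗ[𝔽] (G →₀ 𝔽)) (N : Finset G)
    (z : G → (G →₀ 𝔽)) (hz : ∀ k, T (z k) = 0) (hzs : ∀ k x, z k x ≠ 0 → k⁻¹ * x ∈ N) (n0 : G) (hn0 : n0 ∈ N)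
    (hzn : ∀ k, z k (k * n0) ≠ 0) (hT : ∀ x y, T (Finsupp.single y 1) x ≠ 0 → x⁻¹ * y ∈ N)
    (S₀ S : Finset G) (hS : ∀ k ∈ S₀, ∀ n ∈ N, k * n ∈ S)
    (hc : N.card ^ 2 * S.card < (N.card ^ 2 + 1) * S₀.card) :
    ∃ a : G →₀ 𝔽, a ≠ 0 ∧ ∀ y, ∑ x ∈ a.support, a x * T (Finsupp.single y 1) x = 0 := by
  classical
  obtain ⟨S₁, hS₁, hdis, hcard⟩ := dmt_max N S₀ n0 hn0
  let A : Matrix S₀ S 𝔽 := fun x y => T (Finsupp.single (y : G) 1) (x : G)
  have hsupp : ∀ k ∈ S₀, (z k).support ⊆ S := by
    intro k hk x hx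
    rw [Finsupp.mem_support_iff] at hx
    have h1 := hS k hk _ (hzs k x hx)
    rwa [mul_inv_cancel_left] at h1
  have hTz : ∀ k ∈ S₀, ∀ x : G, ∑ y ∈ S, z k y * T (Finsupp.single y 1) x = 0 := by
    intro k hk x
    have h1 : z k = ∑ y ∈ S, z k y • Finsupp.single y (1 : 𝔽) := by
      conv_lhs => rw [← Finsupp.sum_single (z k)]
      rw [Finsupp.sum_of_support_subset _ (hsupp k hk) _ (fun _ _ => Finsupp.single_zero _)]
      refine Finset.sum_congr rfl fun y _ => ?_
      rw [Finsupp.smul_single', mul_one]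
    have h2 := hz k
    rw [h1, map_sum] at h2
    have h3 := DFunLike.congr_fun h2 x
    rw [Finsupp.finsetSum_apply, Finsupp.zero_apply] at h3
    rw [← h3]
    refine Finset.sum_congr rfl fun y _ => ?_
    rw [map_smul, Finsupp.smul_apply, smul_eq_mul]
  -- kernel vectors of A
  let f : S₁ → (S → 𝔽) := fun k y => z (k : G) (y : G)
  have hf : LinearIndependent 𝔽 f := by
    rw [Fintype.linearIndependent_iff]
    intro g hg k
    have hkS : (k : G) * n0 ∈ S := hS k (hS₁ k.2) n0 hn0
    have h1 := congrFun hg ⟨(k : G) * n0, hkS⟩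
    rw [Finset.sum_apply, Finset.sum_eq_single k] at h1
    · simp only [Pi.smul_apply, smul_eq_mul, Pi.zero_apply, f] at h1
      exact (mul_eq_zero.mp h1).resolve_right (hzn k)
    · intro b _ hb
      simp only [Pi.smul_apply, smul_eq_mul, f]
      have h2 : z (b : G) ((k : G) * n0) = 0 := by
        by_contra h
        have h3 := hzs _ _ h
        have h4 : (k : G) * n0 = (b : G) * ((b : G)⁻¹ * ((k : G) * n0)) := by
          rw [mul_inv_cancel_left]
        exact hb (Subtype.ext (hdis k k.2 b b.2 n0 hn0 _ h3 h4)).symm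
      rw [h2, mul_zero]
    · intro h
      exact absurd (Finset.mem_univ _) h
  have hker : ∀ k, f k ∈ LinearMap.ker A.mulVecLin := by
    intro k
    rw [LinearMap.mem_ker, Matrix.mulVecLin_apply]
    funext x
    rw [Pi.zero_apply, Matrix.mulVec, dotProduct]
    have h1 := hTz k (hS₁ k.2) x
    rw [← Finset.sum_coe_sort] at h1
    rw [← h1]
    refine Finset.sum_congr rfl fun y _ => ?_
    simp only [A, f]
    ring
  let f' : S₁ → LinearMap.ker A.mulVecLin := fun k => ⟨f k, hker k⟩
  have hf' : LinearIndependent 𝔽 f' := by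
    apply LinearIndependent.of_comp (Submodule.subtype _)
    exact hf
  have hle : S₁.card ≤ Module.finrank 𝔽 (LinearMap.ker A.mulVecLin) := by
    have h1 := hf'.fintype_card_le_finrank
    rwa [Fintype.card_coe] at h1
  have hrn := LinearMap.finrank_range_add_finrank_ker A.mulVecLin
  rw [Module.finrank_fintype_fun_eq_card, Fintype.card_coe] at hrn
  have hrank : A.rank < S₀.card := by
    have h1 : A.rank = Module.finrank 𝔽 (LinearMap.range A.mulVecLin) := rfl
    rw [h1]
    by_contra hcon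
    push Not at hcon
    have h2 : S₀.card + S₁.card ≤ S.card := by omega
    have h3 : N.card ^ 2 * (S₀.card + S₁.card) ≤ N.card ^ 2 * S.card :=
      Nat.mul_le_mul_left _ h2
    nlinarith
  have hrn2 := LinearMap.finrank_range_add_finrank_ker A.transpose.mulVecLin
  rw [Module.finrank_fintype_fun_eq_card, Fintype.card_coe] at hrn2
  have hrank2 : A.transpose.rank = Module.finrank 𝔽 (LinearMap.range A.transpose.mulVecLin) := rfl
  rw [← hrank2, Matrix.rank_transpose] at hrn2
  have hne : LinearMap.ker A.transpose.mulVecLin ≠ ⊥ := by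
    intro h
    rw [h, finrank_bot] at hrn2
    omega
  obtain ⟨b, hb, hb0⟩ := Submodule.exists_mem_ne_zero_of_ne_bot hne
  rw [LinearMap.mem_ker, Matrix.mulVecLin_apply] at hb
  let a : G →₀ 𝔽 := Finsupp.onFinset S₀ (fun x => if h : x ∈ S₀ then b ⟨x, h⟩ else 0) (by
    intro x hx
    by_contra h
    exact hx (dif_neg h))
  have ha : ∀ x : S₀, a (x : G) = b x := by
    intro x
    show (if h : (x : G) ∈ S₀ then b ⟨x, h⟩ else 0) = b x
    rw [dif_pos x.2]
  refine ⟨a, ?_, ?_⟩
  · intro h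
    apply hb0
    funext x
    rw [← ha x, h]
    rfl
  · intro y
    have hsub : a.support ⊆ S₀ := Finsupp.support_onFinset_subset
    rw [Finset.sum_subset hsub (fun x _ hx => by
      rw [Finsupp.notMem_support_iff] at hx
      rw [hx, zero_mul])]
    by_cases hy : y ∈ S
    · have h1 := congrFun hb ⟨y, hy⟩
      rw [Pi.zero_apply, Matrix.mulVec, dotProduct] at h1
      rw [← Finset.sum_coe_sort, ← h1]
      refine Finset.sum_congr rfl fun x _ => ?_
      rw [ha x]
      simp only [Matrix.transpose_apply, A]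
      ring
    · refine Finset.sum_eq_zero fun x hx => ?_
      have h1 : T (Finsupp.single y 1) x = 0 := by
        by_contra h
        have h2 := hS x hx _ (hT x y h)
        rw [mul_inv_cancel_left] at h2
        exact hy h2
      rw [h1, mul_zero]

end Pool.Agent.SQH
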