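import Pool.Agent.SQH.Crl
import Pool.Agent.SQH.Crc
import Pool.Agent.SQH.Bas
import Pool.Agent.SQG.Gpt
import Pool.Agent.SQG.FDefs

/-!
# SQH module Dnb: the determinant does not vanish if the group contains no symmetry of the square

PROOF. `R = AddMonoidAlgebra ℤ V` is a domain (`V` is a `ℚ`-vector space).  If `DD = det (mm ..) = 0` there is
`a : Γ → R`, `a ≠ 0`, with `Matrix.vecMul a (mm ..) = 0` (`Matrix.exists_vecMul_eq_zero_iff`):
`∑ h, a h * mm h k = 0` for all `k`.  Let `a k0 ≠ 0` and `a' h = gm k0⁻¹ (a (k0 * h))`; again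
`∑ h, a' h * mm h k = 0` for all `k`, because `gm k0⁻¹ (mm (k0 * h) (k0 * k)) = mm h k`
(`mm h k = ∑ i, if h * g i = k then single (act h (c i)) 1 else 0`; reindex the sum over `h` by `h ↦ k0 * h`), and
`a' 1 = gm k0⁻¹ (a k0) ≠ 0` (`gm_mul`, `gm_one`: `gm` is injective).
Let `u k = ind (act k '' U)`, `b h = ind (act h '' sqo)`.  By `gpt`, `gz_fr`, `gz_all`, `gz_and` (the sets
`act h '' (mv (g i) (c i) '' U)` and `act h '' sqo` are open), outside a closed set without interior points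
`∑ i, u (h * g i) (z - act h (c i)) = b h z` for all `h`, i.e. `∑ k, cv (mm h k) (u k) z = b h z`; apply `cv (a' h)` and
sum over `h`: `∑ h, cv (a' h) (b h) z = ∑ k, cv (∑ h, a' h * mm h k) (u k) z = 0` (`gz_cv`, `cv_mul`, `cv_sum`).
The function `w z = ∑ h, cv (a' h) (b h) z` is `Lc` (`lc_sum`, `lc_cv`, `lc_sq`), so `Crn w x 0` for all `x`
(`crn_lc`).  By `crn_sq`, `crn_cv`, `crn_sum`: `Crn w x ((∑ h, a' h * BB h).coeff x)`.  So `∑ h, a' h * BB h = 0`
(`crn_uniq`, `coeff_injective`).  For `h ≠ 1`, `BB h = 0` (`hΓ`: not `Ax h`), so `a' 1 * BB 1 = 0`, but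
`BB 1 = single (shf 1) 1 * qq ℤ (1, 0) (0, 1) ≠ 0` (domain; `single v 1 ≠ 1` for `v ≠ 0`): contradiction.
-/

set_option autoImplicit false

open AddMonoidAlgebra Filter Topology

namespace Pool.Agent.SQH

open Pool.Agent.SQG

theorem Dnb_cvsum {ι : Type} (s : Finset ι) (X : AddMonoidAlgebra ℤ V) (f : ι → V → ℤ) (z : V) :
    cv X (fun z => ∑ k ∈ s, f k z) z = ∑ k ∈ s, cv X (f k) z := by
  induction X using AddMonoidAlgebra.induction_linear with
  | zero => simp [cv_zero]
  | add x y hx hy => simp only [cv_add, hx, hy, Finset.sum_add_distrib]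
  | single v a => simp only [cv_single, Finset.mul_sum]

open Classical in
theorem Dnb_mm {p : ℕ} (Γ : Subgroup O2) (g : Fin p → Γ) (c : Fin p → V) (h k : Γ) :
    mm p (fun h : Γ => act (h : O2)) g c h k =
      ∑ i, if h * g i = k then single (act (h : O2) (c i)) (1 : ℤ) else 0 := by
  unfold mm
  refine Finset.sum_congr rfl fun i _ => ?_
  by_cases hi : h * g i = k
  · rw [if_pos hi, if_pos hi]
  · rw [if_neg hi, if_neg hi]

theorem Dnb_inv {p : ℕ} (Γ : Subgroup O2) (g : Fin p → Γ) (c : Fin p → V) (k0 h k : Γ) :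
    gm ((k0 : O2)⁻¹) (mm p (fun h : Γ => act (h : O2)) g c (k0 * h) (k0 * k)) =
      mm p (fun h : Γ => act (h : O2)) g c h k := by
  classical
  rw [Dnb_mm, Dnb_mm, map_sum]
  refine Finset.sum_congr rfl fun i _ => ?_
  by_cases hi : h * g i = k
  · have h1 : k0 * h * g i = k0 * k := by rw [mul_assoc, hi]
    rw [if_pos hi, if_pos h1, gm_single, Subgroup.coe_mul, act_mul, act_inv_act]
  · have h1 : ¬ k0 * h * g i = k0 * k := by
      intro h2
      rw [mul_assoc] at h2
      exact hi (mul_left_cancel h2)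
    rw [if_neg hi, if_neg h1, map_zero]

theorem Dnb_sum {p : ℕ} (Γ : Subgroup O2) [Fintype Γ] (g : Fin p → Γ) (c : Fin p → V) (u : Γ → V → ℤ) (h : Γ)
    (z : V) : ∑ k, cv (mm p (fun h : Γ => act (h : O2)) g c h k) (u k) z =
      ∑ i, u (h * g i) (z - act (h : O2) (c i)) := by
  classical
  have h1 : ∀ k, cv (mm p (fun h : Γ => act (h : O2)) g c h k) (u k) z =
      ∑ i, if h * g i = k then u k (z - act (h : O2) (c i)) else 0 := by
    intro k
    rw [Dnb_mm, cv_sum]
    refine Finset.sum_congr rfl fun i _ => ?_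
    by_cases hi : h * g i = k
    · rw [if_pos hi, if_pos hi, cv_single, one_mul]
    · rw [if_neg hi, if_neg hi, cv_zero]
  rw [Finset.sum_congr rfl fun k _ => h1 k, Finset.sum_comm]
  refine Finset.sum_congr rfl fun i _ => ?_
  rw [Finset.sum_ite_eq Finset.univ (h * g i) fun k => u k (z - act (h : O2) (c i))]
  simp

theorem Dnb_gz {p : ℕ} (Γ : Subgroup O2) (g : Fin p → Γ) (c : Fin p → V) {U : Set V}
    (hT : Til p U (fun i => (g i : O2)) c) (h : Γ) :
    Gz (fun z => ∑ i, ind (act ((h : O2) * (g i : O2)) '' U) (z - act (h : O2) (c i)) =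
      ind (act (h : O2) '' sqo) z) := by
  have h1 : ∀ i, Gz (fun z => z ∉ frontier (act (h : O2) '' (mv (g i : O2) (c i) '' U))) := by
    intro i
    apply gz_fr
    rw [act_mv_image]
    exact mv_image_open hT.opn _ _
  have h2 : Gz (fun z => z ∉ frontier (act (h : O2) '' sqo)) := by
    apply gz_fr
    rw [act_eq_mv]
    exact mv_image_open isOpen_sqo _ _
  refine gz_mono (gz_and (gz_all h1) h2) fun z hz => ?_
  exact gpt hT (h : O2) z hz.1 hz.2

theorem Dnb_BB1 : BB 1 ≠ 0 := by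
  have hA : Ax 1 := by
    unfold Ax
    simp
  have h1 : BB 1 = single (shf 1) 1 * qq ℤ ((1, 0) : V) (0, 1) := if_pos hA
  have h2 : ∀ v : V, v ≠ 0 → (single v (1 : ℤ) - 1 : AddMonoidAlgebra ℤ V) ≠ 0 := by
    intro v hv h0
    have h3 : (single v (1 : ℤ) : AddMonoidAlgebra ℤ V) = single 0 1 := sub_eq_zero.1 h0
    have h4 := congrArg (fun X : AddMonoidAlgebra ℤ V => X.coeff v) h3
    simp only [coeff_single] at h4
    rw [Finsupp.single_eq_same, Finsupp.single_apply, if_neg (fun h => hv h.symm)] at h4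
    exact one_ne_zero h4
  rw [h1]
  unfold qq
  refine mul_ne_zero ?_ (mul_ne_zero (h2 _ ?_) (h2 _ ?_))
  · intro h0
    have h4 := congrArg (fun X : AddMonoidAlgebra ℤ V => X.coeff (shf 1)) h0
    simp at h4
  · intro h0
    have h4 := congrArg Prod.fst h0
    simp at h4
  · intro h0
    have h4 := congrArg Prod.snd h0
    simp at h4

theorem dd_ax {p : ℕ} (Γ : Subgroup O2) [Fintype Γ] (g : Fin p → Γ) (c : Fin p → V) {U : Set V}
    (hT : Til p U (fun i => (g i : O2)) c) (hΓ : ∀ h ∈ Γ, Ax h → h = 1) :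
    DD p (fun h : Γ => act (h : O2)) g c ≠ 0 := by
  classical
  intro hD
  have hD' : (mm p (fun h : Γ => act (h : O2)) g c).det = 0 := by
    rw [← hD]
    unfold DD
    exact congrArg (fun d : DecidableEq Γ => @Matrix.det Γ d _ (AddMonoidAlgebra ℤ V) _
      (mm p (fun h : Γ => act (h : O2)) g c)) (Subsingleton.elim _ _)
  obtain ⟨a, ha0, ha⟩ := Matrix.exists_vecMul_eq_zero_iff.2 hD'
  obtain ⟨k0, hk0⟩ := Function.ne_iff.1 ha0
  have ha1 : ∀ k, ∑ h, a h * mm p (fun h : Γ => act (h : O2)) g c h k = 0 := by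
    intro k
    have h1 := congrFun ha k
    exact h1
  set a' : Γ → AddMonoidAlgebra ℤ V := fun h => gm ((k0 : O2)⁻¹) (a (k0 * h)) with ha'
  have h2 : ∀ k, ∑ h, a' h * mm p (fun h : Γ => act (h : O2)) g c h k = 0 := by
    intro k
    have h3 : ∀ h, a' h * mm p (fun h : Γ => act (h : O2)) g c h k =
        gm ((k0 : O2)⁻¹) (a (k0 * h) * mm p (fun h : Γ => act (h : O2)) g c (k0 * h) (k0 * k)) := by
      intro h
      rw [map_mul, Dnb_inv]
    rw [Finset.sum_congr rfl fun h _ => h3 h, ← map_sum]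
    have h4 : ∑ h, a (k0 * h) * mm p (fun h : Γ => act (h : O2)) g c (k0 * h) (k0 * k) =
        ∑ h, a h * mm p (fun h : Γ => act (h : O2)) g c h (k0 * k) :=
      Equiv.sum_comp (Equiv.mulLeft k0) fun h => a h * mm p (fun h : Γ => act (h : O2)) g c h (k0 * k)
    rw [h4, ha1, map_zero]
  have h5 : a' 1 ≠ 0 := by
    intro h0
    apply hk0
    have h6 : gm (k0 : O2) (a' 1) = a k0 := by
      rw [ha']
      simp only [mul_one]
      rw [gm_mul, mul_inv_cancel, gm_one]
    rw [← h6, h0, map_zero]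
    rfl
  have h7 : Gz (fun z => ∑ h, cv (a' h) (ind (act ((h : Γ) : O2) '' sqo)) z = 0) := by
    have h8 : ∀ h : Γ, Gz (fun z => cv (a' h) (fun z => ∑ k, cv (mm p (fun h : Γ => act (h : O2)) g c h k)
        (ind (act ((k : Γ) : O2) '' U)) z) z = cv (a' h) (ind (act (h : O2) '' sqo)) z) := by
      intro h
      refine gz_cv (a' h) (gz_mono (Dnb_gz Γ g c hT h) fun z hz => ?_)
      rw [Dnb_sum Γ g c (fun k => ind (act ((k : Γ) : O2) '' U)) h z, ← hz]
      refine Finset.sum_congr rfl fun i _ => ?_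
      rw [Subgroup.coe_mul]
    refine gz_mono (gz_all h8) fun z hz => ?_
    rw [← Finset.sum_congr rfl fun h _ => hz h]
    have h9 : ∀ h : Γ, cv (a' h) (fun z => ∑ k, cv (mm p (fun h : Γ => act (h : O2)) g c h k)
        (ind (act ((k : Γ) : O2) '' U)) z) z = ∑ k, cv (a' h * mm p (fun h : Γ => act (h : O2)) g c h k)
        (ind (act ((k : Γ) : O2) '' U)) z := by
      intro h
      rw [Dnb_cvsum]
      refine Finset.sum_congr rfl fun k _ => ?_
      rw [cv_mul]
    rw [Finset.sum_congr rfl fun h _ => h9 h, Finset.sum_comm]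
    refine Finset.sum_eq_zero fun k _ => ?_
    rw [← cv_sum, h2, cv_zero]
  have h10 : Lc (fun z => ∑ h, cv (a' h) (ind (act ((h : Γ) : O2) '' sqo)) z) :=
    lc_sum Finset.univ _ fun h _ => lc_cv _ (lc_sq _)
  have h11 : ∑ h, a' h * BB ((h : Γ) : O2) = 0 := by
    apply coeff_injective
    ext x
    have h12 := crn_lc h10 h7 x
    have h13 : Crn (fun z => ∑ h, cv (a' h) (ind (act ((h : Γ) : O2) '' sqo)) z) x
        (∑ h, (a' h * BB ((h : Γ) : O2)).coeff x) :=
      crn_sum Finset.univ _ x _ fun h _ => crn_cv (a' h) (fun w => crn_sq _ w) x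
    have h14 := crn_uniq h13 h12
    have h15 : (∑ h, a' h * BB ((h : Γ) : O2)).coeff x = ∑ h, (a' h * BB ((h : Γ) : O2)).coeff x := by
      rw [coeff_sum, Finsupp.finsetSum_apply]
    rw [h15, h14]
    rfl
  have h16 : ∑ h, a' h * BB ((h : Γ) : O2) = a' 1 * BB 1 := by
    rw [Finset.sum_eq_single (1 : Γ)]
    · rfl
    · intro h _ hh
      have h17 : ¬ Ax (h : O2) := by
        intro hA
        apply hh
        apply Subtype.ext
        exact hΓ h h.2 hA
      have h18 : BB (h : O2) = 0 := if_neg h17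
      rw [h18, mul_zero]
    · intro h0
      exact absurd (Finset.mem_univ _) h0
  rw [h16] at h11
  rcases mul_eq_zero.1 h11 with h | h
  · exact h5 h
  · exact Dnb_BB1 h

end Pool.Agent.SQH
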