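import Pool.Agent.SQH.Defs
import Pool.Agent.SQG.FDefs

/-!
# SQH module Dnc: the determinant does not vanish if the sum of the isometries is no zero divisor
-/

set_option autoImplicit false

open AddMonoidAlgebra Filter Topology

namespace Pool.Agent.SQH

open Pool.Agent.SQG

theorem dd_reg {p : ℕ} (Γ : Subgroup O2) [Fintype Γ] (g : Fin p → Γ) (c : Fin p → V)
    (h : Reg p (fun i => (g i : O2)) c) : DD p (fun h : Γ => act (h : O2)) g c ≠ 0 := by
  classical
  intro h0
  have h1 : (mm p (fun h : Γ => act (h : O2)) g c).det = 0 := by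
    rw [← h0]
    unfold DD
    exact congrArg (fun d => @Matrix.det Γ d _ (AddMonoidAlgebra ℤ V) _ (mm p (fun h : Γ => act (h : O2)) g c))
      (Subsingleton.elim _ _)
  obtain ⟨v, hv, hv0⟩ := Matrix.exists_mulVec_eq_zero_iff.2 h1
  have h2 : ∀ k : Γ, ∑ i, single (act (k : O2) (c i)) (1 : ℤ) * v (k * g i) = 0 := by
    intro k
    have h3 := congrFun hv0 k
    simp only [Matrix.mulVec, dotProduct, mm, Finset.sum_mul, Pi.zero_apply] at h3
    rw [Finset.sum_comm] at h3
    rw [← h3]
    refine Finset.sum_congr rfl fun i _ => ?_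
    rw [Finset.sum_eq_single (k * g i)]
    · simp
    · intro b _ hb
      rw [if_neg (fun e => hb e.symm), zero_mul]
    · intro hb
      exact absurd (Finset.mem_univ _) hb
  let Z : O2 → AddMonoidAlgebra ℤ V := fun x => if hx : x ∈ Γ then v ⟨x, hx⟩ else 0
  have hZ1 : ∀ x (hx : x ∈ Γ), Z x = v ⟨x, hx⟩ := fun x hx => dif_pos hx
  have hZ0 : ∀ x, x ∉ Γ → Z x = 0 := fun x hx => dif_neg hx
  have hZ := h Z ?_ ?_
  · apply hv
    funext k
    have h4 := hZ k
    rw [hZ1 k k.2] at h4
    exact h4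
  · refine (Set.toFinite (Γ : Set O2)).subset ?_
    intro x hx
    by_contra hc
    exact hx (hZ0 x hc)
  · intro x
    by_cases hx : x ∈ Γ
    · rw [← h2 ⟨x, hx⟩]
      refine Finset.sum_congr rfl fun i _ => ?_
      rw [hZ1 _ (Γ.mul_mem hx (g i).2)]
      rfl
    · refine Finset.sum_eq_zero fun i _ => ?_
      rw [hZ0, mul_zero]
      intro hc
      apply hx
      have := Γ.mul_mem hc (Γ.inv_mem (g i).2)
      rwa [mul_inv_cancel_right] at this

end Pool.Agent.SQH
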