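import Pool.Agent.SQH.Lan
import Pool.Agent.SQH.Crl
import Pool.Agent.SQH.Crc
import Pool.Agent.SQH.Bas
import Pool.Agent.SQG.Gpt
import Pool.Agent.SQG.FDefs
import Pool.Agent.SQH.Dnb

/-!
# SQH module Dnl: left annihilators if the determinant vanishes

PROOF. (Compare the header of Pool/Agent/SQH/Dnb.lean.)  `R = AddMonoidAlgebra ℤ V` is a domain.  As
`DD = det (mm ..) = 0` there is `a₀ : Γ → R`, `a₀ ≠ 0`, with `Matrix.vecMul a₀ (mm ..) = 0`
(`Matrix.exists_vecMul_eq_zero_iff`): `∑ x, a₀ x * mm x y = 0` for all `y : Γ`, and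
`mm x y = ∑ i, if x * g i = y then single (act x (c i)) 1 else 0`, i.e.
`∑ i, a₀ (y * (g i)⁻¹) * single (act (y * (g i)⁻¹) (c i)) 1 = 0`.  Let `a : O2 → R` be `a₀` extended by `0`: the first
relation (for `y ∉ Γ` all terms vanish).
Second relation: if `k ∉ Γ` all `k * s ∉ Γ`, so the sum is `0`.  Let `k ∈ Γ`, `a' h = gm k⁻¹ (a₀ (k * h))` for `h : Γ`;
again `∑ h, a' h * mm h y = 0` for all `y`, because `gm k⁻¹ (mm (k * h) (k * y)) = mm h y`.
Let `u y = ind (act y '' U)`, `b h = ind (act h '' sqo)`.  By `gpt`, `gz_fr`, `gz_all`, `gz_and`, outside a closed set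
without interior points `∑ y, cv (mm h y) (u y) z = b h z` for all `h`; apply `cv (a' h)` and sum over `h`:
`∑ h, cv (a' h) (b h) z = ∑ y, cv (∑ h, a' h * mm h y) (u y) z = 0` (`gz_cv`, `cv_mul`, `cv_sum`).  The function
`w z = ∑ h, cv (a' h) (b h) z` is `Lc` (`lc_sum`, `lc_cv`, `lc_sq`), so `Crn w x 0` for all `x` (`crn_lc`); and
`Crn w x ((∑ h, a' h * BB h).coeff x)` (`crn_sq`, `crn_cv`, `crn_sum`).  So `∑ h, a' h * BB h = 0`.  Only `h ∈ H`
contributes, `BB s = single (shf s) 1 * qq ℤ (1, 0) (0, 1)`; cancel the nonzero factor `qq ℤ (1, 0) (0, 1)` (domain):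
`∑ s ∈ H, a' s * single (shf s) 1 = 0`.  Apply `gm k`: `∑ s ∈ H, a (k * s) * single (act k (shf s)) 1 = 0`.
-/

set_option autoImplicit false

open AddMonoidAlgebra Filter Topology

namespace Pool.Agent.SQH

open Pool.Agent.SQG

theorem Dnl_qq : qq ℤ ((1, 0) : V) (0, 1) ≠ 0 := by
  intro h0
  apply Dnb_BB1
  have hA : Ax 1 := by
    unfold Ax
    simp
  have h1 : BB 1 = single (shf 1) 1 * qq ℤ ((1, 0) : V) (0, 1) := if_pos hA
  rw [h1, h0, mul_zero]

theorem Dnl_rel {p : ℕ} (Γ : Subgroup O2) [Fintype Γ] (g : Fin p → Γ) (c : Fin p → V) (a : Γ → AddMonoidAlgebra ℤ V)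
    (y : Γ) : ∑ h, a h * mm p (fun h : Γ => act (h : O2)) g c h y =
      ∑ i, single (act ((y : O2) * (g i : O2)⁻¹) (c i)) 1 * a (y * (g i)⁻¹) := by
  classical
  have h1 : ∀ h, a h * mm p (fun h : Γ => act (h : O2)) g c h y =
      ∑ i, if h = y * (g i)⁻¹ then single (act ((y : O2) * (g i : O2)⁻¹) (c i)) 1 * a (y * (g i)⁻¹) else 0 := by
    intro h
    rw [Dnb_mm, Finset.mul_sum]
    refine Finset.sum_congr rfl fun i _ => ?_
    by_cases hi : h * g i = y
    · have h2 : h = y * (g i)⁻¹ := by rw [← hi, mul_inv_cancel_right]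
      have h3 : (h : O2) = (y : O2) * (g i : O2)⁻¹ := by
        rw [h2]
        simp
      rw [if_pos hi, if_pos h2, ← h3, ← h2, mul_comm]
    · have h2 : ¬ h = y * (g i)⁻¹ := by
        intro h3
        apply hi
        rw [h3, inv_mul_cancel_right]
      rw [if_neg hi, if_neg h2, mul_zero]
  rw [Finset.sum_congr rfl fun h _ => h1 h, Finset.sum_comm]
  refine Finset.sum_congr rfl fun i _ => ?_
  rw [Finset.sum_ite_eq']
  simp

theorem Dnl_key {p : ℕ} (Γ : Subgroup O2) [Fintype Γ] (g : Fin p → Γ) (c : Fin p → V) {U : Set V}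
    (hT : Til p U (fun i => (g i : O2)) c) (a' : Γ → AddMonoidAlgebra ℤ V)
    (h2 : ∀ k, ∑ h, a' h * mm p (fun h : Γ => act (h : O2)) g c h k = 0) :
    ∑ h, a' h * BB ((h : Γ) : O2) = 0 := by
  have h7 : Gz (fun z => ∑ h, cv (a' h) (ind (act ((h : Γ) : O2) '' sqo)) z = 0) := by
    have h8 : ∀ h : Γ, Gz (fun z => cv (a' h) (fun z => ∑ k, cv (mm p (fun h : Γ => act (h : O2)) g c h k)
        (ind (act ((k : Γ) : O2) '' U)) z) z = cv (a' h) (ind (act (h : O2) '' sqo)) z) := by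
      intro h
      refine gz_cv (a' h) (gz_mono (Dnb_gz Γ g c hT h) fun z hz => ?_)
      rw [Dnb_sum Γ g c (fun k => ind (act ((k : Γ) : O2) '' U)) h z, ← hz]
      refine Finset.sum_congr rfl fun i _ => ?_
      rw [Subgroup.coe_mul]
    refine gz_mono (gz_all h8) fun z hz => ?_
    rw [← Finset.sum_congr rfl fun h _ => hz h]
    have h9 : ∀ h : Γ, cv (a' h) (fun z => ∑ k, cv (mm p (fun h : Γ => act (h : O2)) g c h k)
        (ind (act ((k : Γ) : O2) '' U)) z) z = ∑ k, cv (a' h * mm p (fun h : Γ => act (h : O2)) g c h k)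
        (ind (act ((k : Γ) : O2) '' U)) z := by
      intro h
      rw [Dnb_cvsum]
      refine Finset.sum_congr rfl fun k _ => ?_
      rw [cv_mul]
    rw [Finset.sum_congr rfl fun h _ => h9 h, Finset.sum_comm]
    refine Finset.sum_eq_zero fun k _ => ?_
    rw [← cv_sum, h2, cv_zero]
  have h10 : Lc (fun z => ∑ h, cv (a' h) (ind (act ((h : Γ) : O2) '' sqo)) z) :=
    lc_sum Finset.univ _ fun h _ => lc_cv _ (lc_sq _)
  apply coeff_injective
  ext x
  have h12 := crn_lc h10 h7 x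
  have h13 : Crn (fun z => ∑ h, cv (a' h) (ind (act ((h : Γ) : O2) '' sqo)) z) x
      (∑ h, (a' h * BB ((h : Γ) : O2)).coeff x) :=
    crn_sum Finset.univ _ x _ fun h _ => crn_cv (a' h) (fun w => crn_sq _ w) x
  have h14 := crn_uniq h13 h12
  have h15 : (∑ h, a' h * BB ((h : Γ) : O2)).coeff x = ∑ h, (a' h * BB ((h : Γ) : O2)).coeff x := by
    rw [coeff_sum, Finsupp.finsetSum_apply]
  rw [h15, h14]
  rfl

theorem dann {p : ℕ} (Γ : Subgroup O2) [Fintype Γ] (g : Fin p → Γ) (c : Fin p → V) {U : Set V}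
    (hT : Til p U (fun i => (g i : O2)) c) (H : Finset O2) (hH : ∀ s, s ∈ H ↔ s ∈ Γ ∧ Ax s)
    (hD : DD p (fun h : Γ => act (h : O2)) g c = 0) : Lann p (fun i => (g i : O2)) c H := by
  classical
  have hD' : (mm p (fun h : Γ => act (h : O2)) g c).det = 0 := by
    rw [← hD]
    unfold DD
    exact congrArg (fun d : DecidableEq Γ => @Matrix.det Γ d _ (AddMonoidAlgebra ℤ V) _
      (mm p (fun h : Γ => act (h : O2)) g c)) (Subsingleton.elim _ _)
  obtain ⟨a, ha0, ha⟩ := Matrix.exists_vecMul_eq_zero_iff.2 hD'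
  obtain ⟨k1, hk1⟩ := Function.ne_iff.1 ha0
  have ha1 : ∀ k, ∑ h, a h * mm p (fun h : Γ => act (h : O2)) g c h k = 0 := by
    intro k
    have h1 := congrFun ha k
    exact h1
  have hin : ∀ (b : O2 → AddMonoidAlgebra ℤ V), (b = fun h => if hh : h ∈ Γ then a ⟨h, hh⟩ else 0) →
      (∀ h : Γ, b (h : O2) = a h) ∧ ∀ h, h ∉ Γ → b h = 0 := by
    intro b hb
    constructor
    · intro h
      rw [hb]
      exact dif_pos h.2
    · intro h hh
      rw [hb]
      exact dif_neg hh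
  obtain ⟨b, hb⟩ : ∃ b : O2 → AddMonoidAlgebra ℤ V, b = fun h => if hh : h ∈ Γ then a ⟨h, hh⟩ else 0 := ⟨_, rfl⟩
  obtain ⟨hb1, hb2⟩ := hin b hb
  refine ⟨b, ?_, ⟨k1, ?_⟩, ?_, ?_⟩
  · refine (Set.toFinite (Γ : Set O2)).subset fun h hh => ?_
    by_contra h0
    exact hh (hb2 h h0)
  · rw [hb1]
    exact hk1
  · intro y
    by_cases hy : y ∈ Γ
    · have h1 := Dnl_rel Γ g c a ⟨y, hy⟩
      rw [ha1] at h1
      refine Eq.trans ?_ h1.symm
      refine Finset.sum_congr rfl fun i _ => ?_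
      have h2 : y * (g i : O2)⁻¹ = ((⟨y, hy⟩ * (g i)⁻¹ : Γ) : O2) := by simp
      have h3 : b (y * (g i : O2)⁻¹) = a (⟨y, hy⟩ * (g i)⁻¹) := by rw [h2, hb1]
      show single (act (y * (g i : O2)⁻¹) (c i)) 1 * b (y * (g i : O2)⁻¹) = _
      rw [h3]
    · refine Finset.sum_eq_zero fun i _ => ?_
      have h1 : y * (g i : O2)⁻¹ ∉ Γ := by
        intro h2
        apply hy
        have h3 := Γ.mul_mem h2 (g i).2
        rwa [inv_mul_cancel_right] at h3
      rw [hb2 _ h1, mul_zero]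
  · intro k
    by_cases hk : k ∈ Γ
    · obtain ⟨k0, hk0⟩ : ∃ k0 : Γ, (k0 : O2) = k := ⟨⟨k, hk⟩, rfl⟩
      set a' : Γ → AddMonoidAlgebra ℤ V := fun h => gm ((k0 : O2)⁻¹) (a (k0 * h)) with ha'
      have h2 : ∀ y, ∑ h, a' h * mm p (fun h : Γ => act (h : O2)) g c h y = 0 := by
        intro y
        have h3 : ∀ h, a' h * mm p (fun h : Γ => act (h : O2)) g c h y =
            gm ((k0 : O2)⁻¹) (a (k0 * h) * mm p (fun h : Γ => act (h : O2)) g c (k0 * h) (k0 * y)) := by
          intro h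
          rw [map_mul, Dnb_inv]
        rw [Finset.sum_congr rfl fun h _ => h3 h, ← map_sum]
        have h4 : ∑ h, a (k0 * h) * mm p (fun h : Γ => act (h : O2)) g c (k0 * h) (k0 * y) =
            ∑ h, a h * mm p (fun h : Γ => act (h : O2)) g c h (k0 * y) :=
          Equiv.sum_comp (Equiv.mulLeft k0) fun h => a h * mm p (fun h : Γ => act (h : O2)) g c h (k0 * y)
        rw [h4, ha1, map_zero]
      have h11 := Dnl_key Γ g c hT a' h2
      have h12 : ∑ h, a' h * BB ((h : Γ) : O2) =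
          (∑ h : Γ, if Ax (h : O2) then a' h * single (shf (h : O2)) 1 else 0) * qq ℤ ((1, 0) : V) (0, 1) := by
        rw [Finset.sum_mul]
        refine Finset.sum_congr rfl fun h _ => ?_
        by_cases hA : Ax (h : O2)
        · have h13 : BB (h : O2) = single (shf (h : O2)) 1 * qq ℤ ((1, 0) : V) (0, 1) := if_pos hA
          rw [if_pos hA, h13, mul_assoc]
        · have h13 : BB (h : O2) = 0 := if_neg hA
          rw [if_neg hA, h13, mul_zero, zero_mul]
      rw [h12] at h11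
      have h14 : (∑ h : Γ, if Ax (h : O2) then a' h * single (shf (h : O2)) 1 else 0) = 0 :=
        (mul_eq_zero.1 h11).resolve_right Dnl_qq
      have h15 := congrArg (gm (k0 : O2)) h14
      rw [map_zero, map_sum] at h15
      have hHm : H = (Finset.filter (fun h : Γ => Ax (h : O2)) Finset.univ).map
          ⟨Subtype.val, Subtype.val_injective⟩ := by
        ext s
        simp only [hH, Finset.mem_map, Finset.mem_filter, Finset.mem_univ, true_and, Function.Embedding.coeFn_mk]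
        constructor
        · rintro ⟨h16, h17⟩
          exact ⟨⟨s, h16⟩, h17, rfl⟩
        · rintro ⟨h16, h17, rfl⟩
          exact ⟨h16.2, h17⟩
      rw [hHm, Finset.sum_map, Finset.sum_filter]
      refine Eq.trans ?_ h15
      refine Finset.sum_congr rfl fun h _ => ?_
      by_cases hA : Ax (h : O2)
      · rw [if_pos hA, if_pos hA, ha', map_mul, gm_single]
        show single (act k (shf (h : O2))) 1 * b (k * (h : O2)) = _
        rw [gm_mul, mul_inv_cancel, gm_one, ← hk0, ← Subgroup.coe_mul, hb1, mul_comm]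
      · rw [if_neg hA, if_neg hA, map_zero]
    · refine Finset.sum_eq_zero fun s hs => ?_
      have h1 : k * s ∉ Γ := by
        intro h2
        apply hk
        have h3 := Γ.mul_mem h2 (Γ.inv_mem ((hH s).1 hs).1)
        rwa [mul_inv_cancel_right] at h3
      rw [hb2 _ h1, mul_zero]

end Pool.Agent.SQH
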