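import Pool.Agent.SQH.Top
import Pool.Agent.SQG.Fin2

/-!
# SQH: transport to `EuclideanSpace ℝ (Fin 2)`
-/

set_option autoImplicit false

namespace Pool.Agent.SQH

open Pool.Agent.SQG
open SQR (eV eV_apply mem_sq)

/-- The pieces in coordinates. -/
theorem top_til0 (p : ℕ) (A : Set (EuclideanSpace ℝ (Fin 2))) (γ : Fin p → O2)
    (c : Fin p → EuclideanSpace ℝ (Fin 2)) (P : Fin p → Set (EuclideanSpace ℝ (Fin 2)))
    (hP : ∀ i, P i = {x | ∃ a ∈ A, ∀ k, x k = (∑ l, toM (γ i) k l * a l) + c i k})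
    (hreg : ∀ i, closure (interior (P i)) = P i)
    (hconn : ∀ i, IsConnected (interior (P i)))
    (hdisj : ∀ i j, i ≠ j → Disjoint (interior (P i)) (interior (P j)))
    (hcov : (⋃ i, P i) = {x : EuclideanSpace ℝ (Fin 2) | ∀ c, 0 ≤ x c ∧ x c ≤ 1})
    (i0 : Fin p) :
    ∃ (U : Set V),
      Til p U (fun i => γ i * (γ i0)⁻¹) (fun i => eV (c i) - act (γ i * (γ i0)⁻¹) (eV (c i0))) ∧
      IsConnected U ∧ closure U = eV '' P i0 ∧
      (∀ i, eV '' P i = mv (γ i * (γ i0)⁻¹) (eV (c i) - act (γ i * (γ i0)⁻¹) (eV (c i0))) '' (eV '' P i0)) ∧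
      U = mv (γ i0) (eV (c i0)) '' interior (eV '' A) := by
  set A' : Set V := eV '' A with hA'
  have hP' : ∀ i, eV '' P i = mv (γ i) (eV (c i)) '' A' := by
    intro i
    rw [hP i]
    ext z
    constructor
    · rintro ⟨x, ⟨a, ha, hx⟩, rfl⟩
      refine ⟨eV a, ⟨a, ha, rfl⟩, ?_⟩
      exact ((mv_toM (γ i) a (c i) x).1 hx).symm
    · rintro ⟨_, ⟨a, ha, rfl⟩, rfl⟩
      refine ⟨eV.symm (mv (γ i) (eV (c i)) (eV a)), ⟨a, ha, ?_⟩, by simp⟩
      rw [mv_toM, Homeomorph.apply_symm_apply]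
  have him : ∀ i (B : Set V), mv (γ i) (eV (c i)) '' B = mvH (γ i) (eV (c i)) '' B := fun i B => rfl
  have hA1 : closure (interior A') = A' := by
    have h1 : eV '' closure (interior (P i0)) = eV '' P i0 := by rw [hreg]
    rw [eV.image_closure, eV.image_interior, hP', him, ← Homeomorph.image_interior,
      ← Homeomorph.image_closure] at h1
    exact (mvH (γ i0) (eV (c i0))).injective.image_injective h1
  have hInt : ∀ i, eV '' interior (P i) = mv (γ i) (eV (c i)) '' interior A' := by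
    intro i
    rw [eV.image_interior, hP', him, him, ← Homeomorph.image_interior]
  set U : Set V := mv (γ i0) (eV (c i0)) '' interior A' with hU
  set g' : Fin p → O2 := fun i => γ i * (γ i0)⁻¹ with hg'
  set c' : Fin p → V := fun i => eV (c i) - act (g' i) (eV (c i0)) with hc'
  have hmv : ∀ i z, mv (g' i) (c' i) (mv (γ i0) (eV (c i0)) z) = mv (γ i) (eV (c i)) z := by
    intro i z
    rw [mv_mul]
    congr 1
    · rw [hg']
      simp only [inv_mul_cancel_right]
    · rw [hc']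
      simp only
      abel
  have hmv' : ∀ i (B : Set V), mv (g' i) (c' i) '' (mv (γ i0) (eV (c i0)) '' B) = mv (γ i) (eV (c i)) '' B := by
    intro i B
    rw [← Set.image_comp]
    exact Set.image_congr fun z _ => hmv i z
  have hcl : closure U = eV '' P i0 := by
    rw [hU, him, ← Homeomorph.image_closure, hA1, hP', him]
  have hT : Til p U g' c' := by
    refine ⟨?_, ?_, ?_, ?_⟩
    · rw [hU, him]
      exact (Homeomorph.isOpen_image _).2 isOpen_interior
    · rw [hcl, ← eV.image_interior, hInt]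
    · intro i j hij
      rw [hU, hmv', hmv', ← hInt, ← hInt]
      exact (Set.disjoint_image_iff eV.injective).2 (hdisj i j hij)
    · rw [hcl]
      have h1 : ⋃ i, mv (g' i) (c' i) '' (eV '' P i0) = eV '' ⋃ i, P i := by
        rw [Set.image_iUnion]
        simp only [hP', hmv']
      rw [h1, hcov]
      ext z
      constructor
      · rintro ⟨x, hx, rfl⟩
        exact (mem_sq x).1 hx
      · intro hz
        refine ⟨eV.symm z, ?_, by simp⟩
        rw [Set.mem_ofPred_eq, mem_sq, Homeomorph.apply_symm_apply]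
        exact hz
  refine ⟨U, hT, ?_, hcl, fun i => ?_, rfl⟩
  swap
  · have h3 := hmv' i A'
    rw [← hP' i0, ← hP' i] at h3
    exact h3.symm
  have h2 : U = eV '' interior (P i0) := by rw [hInt, hU]
  rw [h2]
  exact (hconn i0).image _ eV.continuous.continuousOn

theorem top_tb (A C : Set (EuclideanSpace ℝ (Fin 2))) (hC : IsClosed C)
    (hCl : ∀ l : ℝ × ℝ × ℝ, (l.1 ≠ 0 ∨ l.2.1 ≠ 0) → (C ∩ {x | l.1 * x 0 + l.2.1 * x 1 = l.2.2}).Finite)
    (T : Finset (ℝ × ℝ × ℝ)) (hTn : ∀ l ∈ T, l.1 ≠ 0 ∨ l.2.1 ≠ 0)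
    (hfr : frontier A ⊆ C ∪ ⋃ l ∈ T, {x | l.1 * x 0 + l.2.1 * x 1 = l.2.2}) (g : O2) (v : V) :
    ∃ T' C', TB (mv g v '' interior (eV '' A)) T' C' := by
  have hTB : TB (interior (eV '' A)) T (eV '' C) := by
    refine ⟨(Homeomorph.isClosed_image _).2 hC, ?_, hTn, ?_⟩
    · intro l hl
      have h1 : eV '' C ∩ Ln l = eV '' (C ∩ {x | l.1 * x 0 + l.2.1 * x 1 = l.2.2}) := by
        ext z
        constructor
        · rintro ⟨⟨x, hx, rfl⟩, h2⟩
          exact ⟨x, ⟨hx, h2⟩, rfl⟩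
        · rintro ⟨x, ⟨hx, h2⟩, rfl⟩
          exact ⟨⟨x, hx, rfl⟩, h2⟩
      rw [h1]
      exact (hCl l hl).image _
    · refine frontier_interior_subset.trans ?_
      rw [← Homeomorph.image_frontier]
      rintro _ ⟨x, hx, rfl⟩
      rcases hfr hx with h1 | h1
      · exact Or.inl ⟨x, h1, rfl⟩
      · right
        rw [Set.mem_iUnion₂] at h1 ⊢
        obtain ⟨l, hl, h2⟩ := h1
        exact ⟨l, hl, h2⟩
  exact tb_mv hTB g v

theorem ax_ent (k : O2) (h : Ax k) (x y : Fin 2) : toM k x y = 0 ∨ toM k x y = 1 ∨ toM k x y = -1 := by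
  obtain ⟨a, b, ha, hb, h0, h1⟩ := ax_int k h
  have hs : k.t = 1 ∨ k.t = -1 := by
    rcases Int.units_eq_one_or k.s with h2 | h2 <;> simp [O2.t, h2]
  have hab : (a = 0 ∨ a = 1 ∨ a = -1) ∧ (b = 0 ∨ b = 1 ∨ b = -1) := by
    rcases mul_eq_zero.1 h0 with h2 | h2
    · rw [h2, mul_zero, zero_add] at h1
      rcases mul_self_eq_one_iff.1 h1 with h3 | h3 <;> simp [h2, h3]
    · rw [h2, mul_zero, add_zero] at h1
      rcases mul_self_eq_one_iff.1 h1 with h3 | h3 <;> simp [h2, h3]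
  have ha' : k.a = 0 ∨ k.a = 1 ∨ k.a = -1 := by
    rw [← ha]
    rcases hab.1 with h | h | h <;> simp [h]
  have hb' : k.b = 0 ∨ k.b = 1 ∨ k.b = -1 := by
    rw [← hb]
    rcases hab.2 with h | h | h <;> simp [h]
  fin_cases x <;> fin_cases y <;> simp only [toM, Matrix.of_apply, Matrix.cons_val', Matrix.cons_val_zero,
    Matrix.cons_val_one, Matrix.cons_val_fin_one, Fin.zero_eta, Fin.isValue, Fin.mk_one]
  · exact ha'
  · rcases hs with h | h <;> rcases hb' with h' | h' | h' <;> rw [h, h'] <;> norm_num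
  · exact hb'
  · rcases hs with h | h <;> rcases ha' with h' | h' | h' <;> rw [h, h'] <;> norm_num

theorem ent_ax (k : O2) (h : ∀ x y, toM k x y = 0 ∨ toM k x y = 1 ∨ toM k x y = -1) : Ax k := by
  have h1 := k.h
  have ha := h 0 0
  have hb := h 1 0
  simp only [toM, Matrix.of_apply, Matrix.cons_val', Matrix.cons_val_zero,
    Matrix.cons_val_one, Matrix.cons_val_fin_one] at ha hb
  unfold Ax
  rcases ha with h2 | h2 | h2
  · rw [h2, zero_mul]
  · rcases hb with h3 | h3 | h3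
    · rw [h3, mul_zero]
    · exfalso
      rw [h2, h3] at h1
      norm_num at h1
    · exfalso
      rw [h2, h3] at h1
      norm_num at h1
  · rcases hb with h3 | h3 | h3
    · rw [h3, mul_zero]
    · exfalso
      rw [h2, h3] at h1
      norm_num at h1
    · exfalso
      rw [h2, h3] at h1
      norm_num at h1

end Pool.Agent.SQH
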