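import Pool.Agent.SQH.Fin

/-!
# SQH: the main theorem for matrices
-/

set_option autoImplicit false

namespace Pool.Agent.SQH

open Pool.Agent.SQG
open SQR (eV eV_apply mem_sq)

theorem iM_det_cast {p : ℕ} (g' : Fin p → O2) (x y : Fin p → ℤ) (hx : ∀ i, (x i : ℝ) = (g' i).a)
    (hy : ∀ i, (y i : ℝ) = (g' i).b) :
    (((∑ i, iM (x i) (y i) ((g' i).s : ℤ)).det : ℤ) : ℝ) = (∑ i, toM (g' i)).det := by
  have h1 : (∑ i, toM (g' i)) = (∑ i, iM (x i) (y i) ((g' i).s : ℤ)).map (fun z : ℤ => (z : ℝ)) := by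
    ext k l
    rw [Matrix.map_apply, Matrix.sum_apply, Matrix.sum_apply, Int.cast_sum]
    exact Finset.sum_congr rfl fun i _ => (iM_cast (g' i) _ _ (hx i) (hy i) k l).symm
  rw [h1, Matrix.det_fin_two, Matrix.det_fin_two]
  simp only [Matrix.map_apply]
  push_cast
  ring

theorem iM_tr_cast (g h : O2) (x y x' y' : ℤ) (hx : (x : ℝ) = g.a) (hy : (y : ℝ) = g.b) (hx' : (x' : ℝ) = h.a)
    (hy' : (y' : ℝ) = h.b) (k l : Fin 2) :
    ((((iM x y (g.s : ℤ)).transpose * iM x' y' (h.s : ℤ)) k l : ℤ) : ℝ) = ((toM g).transpose * toM h) k l := by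
  rw [Matrix.mul_apply, Matrix.mul_apply, Int.cast_sum]
  refine Finset.sum_congr rfl fun j _ => ?_
  rw [Int.cast_mul, Matrix.transpose_apply, Matrix.transpose_apply, iM_cast g x y hx hy, iM_cast h x' y' hx' hy']

theorem fin_h0 (p : ℕ) (hp : p.Prime) (hp2 : p ≠ 2) (A : Set (EuclideanSpace ℝ (Fin 2)))
    (γ : Fin p → O2)
    (c : Fin p → EuclideanSpace ℝ (Fin 2)) (P : Fin p → Set (EuclideanSpace ℝ (Fin 2)))
    (hP : ∀ i, P i = {x | ∃ a ∈ A, ∀ k, x k = (∑ l, toM (γ i) k l * a l) + c i k})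
    (hreg : ∀ i, closure (interior (P i)) = P i)
    (hconn : ∀ i, IsConnected (interior (P i)))
    (hdisj : ∀ i j, i ≠ j → Disjoint (interior (P i)) (interior (P j)))
    (hcov : (⋃ i, P i) = {x : EuclideanSpace ℝ (Fin 2) | ∀ c, 0 ≤ x c ∧ x c ≤ 1})
    (i0 : Fin p) (Γ' : Subgroup O2) (hΓ' : Γ' = Subgroup.closure (Set.range fun i => γ i * (γ i0)⁻¹))
    (hshape : (Γ' : Set O2).Finite ∨
      ∃ (C : Set (EuclideanSpace ℝ (Fin 2))) (T : Finset (ℝ × ℝ × ℝ)), IsClosed C ∧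
        (∀ l : ℝ × ℝ × ℝ, (l.1 ≠ 0 ∨ l.2.1 ≠ 0) → (C ∩ {x | l.1 * x 0 + l.2.1 * x 1 = l.2.2}).Finite) ∧
        (∀ l ∈ T, l.1 ≠ 0 ∨ l.2.1 ≠ 0) ∧
        frontier A ⊆ C ∪ ⋃ l ∈ T, {x | l.1 * x 0 + l.2.1 * x 1 = l.2.2})
    (hyp : HypH p (fun i => γ i * (γ i0)⁻¹) (fun i => eV (c i) - act (γ i * (γ i0)⁻¹) (eV (c i0))) Γ') :
    (∃ σ : Equiv.Perm (Fin p),
      (∀ k : Fin p, P (σ k) =
        {x : EuclideanSpace ℝ (Fin 2) | (∀ c, 0 ≤ x c ∧ x c ≤ 1) ∧
          ((k : ℕ) : ℝ) / p ≤ x 1 ∧ x 1 ≤ (((k : ℕ) : ℝ) + 1) / p}) ∨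
      (∀ k : Fin p, P (σ k) =
        {x : EuclideanSpace ℝ (Fin 2) | (∀ c, 0 ≤ x c ∧ x c ≤ 1) ∧
          ((k : ℕ) : ℝ) / p ≤ x 0 ∧ x 0 ≤ (((k : ℕ) : ℝ) + 1) / p})) ∨
    ((∀ i j x y, (toM (γ i) * (toM (γ j)).transpose) x y = 0 ∨ (toM (γ i) * (toM (γ j)).transpose) x y = 1 ∨
        (toM (γ i) * (toM (γ j)).transpose) x y = -1) ∧
      (∃ i j, ((toM (γ i)).transpose * toM (γ j)).transpose ≠ (toM (γ i)).transpose * toM (γ j)) ∧
      (∃ n : ℤ, (∑ i, toM (γ i)).det = p * n) ∧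
      (p % 4 = 3 → ∃ i j, (toM (γ i)).det ≠ (toM (γ j)).det) ∧
      ∃ S : Finset ℝ, ∀ i, frontier (P i) ⊆ {x | x 0 ∈ S ∨ x 1 ∈ S}) := by
  classical
  obtain ⟨U, hT, hUc, hcl, hPi, hU⟩ := top_til0 p A γ c P hP hreg hconn hdisj hcov i0
  set c' : Fin p → V := fun i => eV (c i) - act (γ i * (γ i0)⁻¹) (eV (c i0)) with hc'
  set g' : Fin p → O2 := fun i => γ i * (γ i0)⁻¹ with hg'
  have hsh : (Γ' : Set O2).Finite ∨ ∃ T C, TB U T C := by
    rcases hshape with h | ⟨C, T, h1, h2, h3, h4⟩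
    · exact Or.inl h
    · right
      obtain ⟨T', C', h5⟩ := top_tb A C h1 h2 T h3 h4 (γ i0) (eV (c i0))
      rw [← hU] at h5
      exact ⟨T', C', h5⟩
  obtain ⟨hAx2, hfr⟩ := main hT hUc Γ' (fun i => by rw [hΓ']; exact Subgroup.subset_closure ⟨i, rfl⟩) hyp hsh
  have hAx : ∀ i, Ax (g' i) := by
    intro i
    have h1 := hAx2 i i0
    have h2 : (γ i * (γ i0)⁻¹) * (γ i0 * (γ i0)⁻¹)⁻¹ = g' i := by
      rw [mul_inv_cancel, inv_one, mul_one]
    rwa [h2] at h1
  choose x y hx hy h0 h11 using fun i => ax_int (g' i) (hAx i)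
  by_cases H : (∀ i j, ((iM (x i) (y i) ((g' i).s : ℤ)).transpose * iM (x j) (y j) ((g' j).s : ℤ)).transpose =
      (iM (x i) (y i) ((g' i).s : ℤ)).transpose * iM (x j) (y j) ((g' j).s : ℤ)) ∨
      ¬ (p : ℤ) ∣ (∑ i, iM (x i) (y i) ((g' i).s : ℤ)).det
  · left
    refine SQR.fin_main p hp hp2 (P i0) (fun i => iM (x i) (y i) ((g' i).s : ℤ))
      (fun i => iM_orth _ _ _ (h11 i) ?_) (fun i => eV.symm (c' i)) P ?_ hreg hconn hdisj hcov H
    · rw [← Units.val_mul, Int.units_mul_self]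
      rfl
    · intro i
      have h2 : eV '' P i = mv (g' i) (c' i) '' (eV '' P i0) := hPi i
      have h3 : P i = eV ⁻¹' (mv (g' i) (c' i) '' (eV '' P i0)) := by
        rw [← h2, Set.preimage_image_eq _ eV.injective]
      rw [h3]
      ext z
      simp only [Set.mem_preimage, Set.mem_ofPred_eq, iM_cast (g' i) _ _ (hx i) (hy i)]
      constructor
      · rintro ⟨_, ⟨a, ha, rfl⟩, h4⟩
        refine ⟨a, ha, ?_⟩
        rw [mv_toM, Homeomorph.apply_symm_apply]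
        exact h4.symm
      · rintro ⟨a, ha, h4⟩
        rw [mv_toM, Homeomorph.apply_symm_apply] at h4
        exact ⟨_, ⟨a, ha, rfl⟩, h4.symm⟩
  · right
    have H' := not_or.1 H
    obtain ⟨H1, H2⟩ := H'
    rw [not_not] at H2
    have hq : ∀ i j, toM (γ i) * (toM (γ j)).transpose = toM (g' i * (g' j)⁻¹) := by
      intro i j
      rw [← toM_tr, ← toM_mul]
      congr 1
      simp only [hg', mul_inv_rev, inv_inv]
      group
    refine ⟨?_, ?_, ?_, ?_, ?_⟩
    · intro i j k l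
      rw [hq]
      exact ax_ent _ (hAx2 i j) k l
    · by_contra hcon
      push Not at hcon
      apply H1
      intro i j
      have h1 : (toM (g' i)).transpose * toM (g' j) =
          toM (γ i0) * ((toM (γ i)).transpose * toM (γ j)) * (toM (γ i0)).transpose := by
        simp only [hg', toM_mul, toM_tr, Matrix.transpose_mul, Matrix.transpose_transpose, Matrix.mul_assoc]
      have h2 : ((toM (g' i)).transpose * toM (g' j)).transpose = (toM (g' i)).transpose * toM (g' j) := by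
        rw [h1, Matrix.transpose_mul, Matrix.transpose_mul, Matrix.transpose_transpose, hcon i j]
        simp only [Matrix.mul_assoc]
      ext k l
      have h3 : ((((iM (x i) (y i) ((g' i).s : ℤ)).transpose * iM (x j) (y j) ((g' j).s : ℤ)).transpose k l : ℤ) : ℝ) =
          ((((iM (x i) (y i) ((g' i).s : ℤ)).transpose * iM (x j) (y j) ((g' j).s : ℤ)) k l : ℤ) : ℝ) := by
        rw [Matrix.transpose_apply, iM_tr_cast (g' i) (g' j) _ _ _ _ (hx i) (hy i) (hx j) (hy j),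
          iM_tr_cast (g' i) (g' j) _ _ _ _ (hx i) (hy i) (hx j) (hy j)]
        have h4 := congrFun (congrFun h2 k) l
        rw [Matrix.transpose_apply] at h4
        exact h4
      exact_mod_cast h3
    · obtain ⟨n, hn⟩ := H2
      have h1 : (∑ i, toM (γ i)) = (∑ i, toM (g' i)) * toM (γ i0) := by
        rw [Finset.sum_mul]
        refine Finset.sum_congr rfl fun i _ => ?_
        rw [← toM_mul]
        simp only [hg', inv_mul_cancel_right]
      have h2 : (∑ i, toM (γ i)).det = ((∑ i, iM (x i) (y i) ((g' i).s : ℤ)).det : ℤ) * (((γ i0).s : ℤ) : ℝ) := by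
        rw [h1, Matrix.det_mul, iM_det_cast g' x y hx hy, toM_det]
        rfl
      refine ⟨n * ((γ i0).s : ℤ), ?_⟩
      rw [h2, hn]
      push_cast
      ring
    · intro hp4
      by_contra hcon
      push Not at hcon
      refine H (sqr_hyp hp hp2 x y (fun i => ((g' i).s : ℤ)) h0 h11 (Or.inr ⟨hp4, fun i => ?_⟩))
      have h1 : (g' i).s = 1 := by
        apply t_one
        have h5 := hcon i i0
        simp only [toM_det] at h5
        rw [O2.mul_t, O2.inv_t, h5, O2.t_sq]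
      simp [h1]
    · choose S hS using hfr
      refine ⟨Finset.univ.biUnion S, fun i => ?_⟩
      intro z hz
      have h1 : eV z ∈ frontier (mv (g' i) (c' i) '' U) := by
        have h2 : eV z ∈ eV '' frontier (P i) := ⟨z, hz, rfl⟩
        rw [eV.image_frontier, hPi i, ← hcl, mv_image_closure] at h2
        exact frontier_closure_subset h2
      have h3 := hS i h1
      rcases h3 with h3 | h3
      · left
        exact Finset.mem_biUnion.2 ⟨i, Finset.mem_univ _, h3⟩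
      · right
        exact Finset.mem_biUnion.2 ⟨i, Finset.mem_univ _, h3⟩

end Pool.Agent.SQH
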