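import Pool.Agent.SQH.Defs
import Pool.Agent.SQG.Fin2

/-!
# SQH module Iso: the group of isometries of the plane
-/

set_option autoImplicit false

open AddMonoidAlgebra

namespace Pool.Agent.SQH

open Pool.Agent.SQG
open SQR (eV eV_apply)

/-- The isometry `x ↦ h x + v` of the Euclidean plane. -/
noncomputable def isoE (h : O2) (v : V) : EuclideanSpace ℝ (Fin 2) ≃ᵢ EuclideanSpace ℝ (Fin 2) :=
  IsometryEquiv.mk' (fun x => eV.symm (mv h v (eV x))) (fun x => eV.symm (mv h⁻¹ (-(act h⁻¹ v)) (eV x)))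
    (fun x => by
      rw [Homeomorph.apply_symm_apply, mv_mv_inv, Homeomorph.symm_apply_apply])
    (by
      refine Isometry.of_dist_eq fun x y => ?_
      have hk : ∀ z : V, (eV.symm z) 0 = z.1 ∧ (eV.symm z) 1 = z.2 := by
        intro z
        have h1 : eV (eV.symm z) = z := Homeomorph.apply_symm_apply _ _
        rw [eV_apply] at h1
        exact ⟨congrArg Prod.fst h1, congrArg Prod.snd h1⟩
      have h3 := h.h
      have h4 := h.t_sq
      rw [EuclideanSpace.dist_eq, EuclideanSpace.dist_eq]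
      congr 1
      simp only [Fin.sum_univ_two, (hk _).1, (hk _).2, Real.dist_eq, sq_abs, mv, act_apply, Prod.fst_add,
        Prod.snd_add, eV_apply]
      linear_combination ((x 0 - y 0) ^ 2) * h3 + ((x 1 - y 1) ^ 2) * (h.a * h.a + h.b * h.b) * h4 +
        ((x 1 - y 1) ^ 2) * h3)

theorem isoE_apply (h : O2) (v : V) (x : EuclideanSpace ℝ (Fin 2)) : isoE h v x = eV.symm (mv h v (eV x)) := rfl

theorem isoE_mul (h g : O2) (v c : V) : isoE h v * isoE g c = isoE (h * g) (act h c + v) := by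
  ext1 x
  rw [IsometryEquiv.mul_apply, isoE_apply, isoE_apply, isoE_apply, Homeomorph.apply_symm_apply, mv_mul]

theorem isoE_one : isoE 1 0 = 1 := by
  ext1 x
  have h1 : mv 1 0 (eV x) = eV x := by
    unfold mv
    rw [act_one, add_zero]
  rw [isoE_apply, h1, Homeomorph.symm_apply_apply]
  rfl

theorem isoE_inv (h : O2) (v : V) : (isoE h v)⁻¹ = isoE h⁻¹ (-(act h⁻¹ v)) := by
  symm
  apply eq_inv_of_mul_eq_one_left
  rw [isoE_mul, inv_mul_cancel, add_neg_cancel, isoE_one]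

theorem isoE_inj {h g : O2} {v c : V} (hh : isoE h v = isoE g c) : h = g ∧ v = c := by
  have h1 : ∀ z : V, mv h v z = mv g c z := by
    intro z
    have h2 := congrArg (fun f => eV (f (eV.symm z))) hh
    simpa only [isoE_apply, Homeomorph.apply_symm_apply] using h2
  have h2 : v = c := by
    have := h1 0
    simpa [mv] using this
  refine ⟨?_, h2⟩
  have h3 := h1 (1, 0)
  have h4 := h1 (0, 1)
  simp only [mv, act_apply, h2, add_left_inj, Prod.mk.injEq, mul_one, mul_zero, sub_zero, add_zero, zero_sub,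
    zero_add, neg_inj] at h3 h4
  have ht : h.t = g.t := by
    have h5 := h.h
    have e1 : h.t = (h.t * h.a) * h.a + (h.t * h.b) * h.b := by linear_combination (-h.t) * h5
    have h6 := g.h
    have e2 : g.t = (g.t * g.a) * g.a + (g.t * g.b) * g.b := by linear_combination (-g.t) * h6
    rw [e1, e2, h4.1, h4.2, h3.1, h3.2]
  apply toM_inj
  ext i j
  fin_cases i <;> fin_cases j <;> simp [toM, h3.1, h3.2, ht]

theorem reg_iso {p : ℕ} (γ : Fin p → O2) (c : Fin p → V)
    (f : Fin p → (EuclideanSpace ℝ (Fin 2) ≃ᵢ EuclideanSpace ℝ (Fin 2))) (hf : ∀ i, f i = isoE (γ i) (c i))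
    (i0 : Fin p)
    (h : ∀ X : (EuclideanSpace ℝ (Fin 2) ≃ᵢ EuclideanSpace ℝ (Fin 2)) →₀ ℤ,
      (∀ φ, ∑ i, X (φ * f i) = 0) → X = 0) :
    Reg p (fun i => γ i * (γ i0)⁻¹) (fun i => c i - act (γ i * (γ i0)⁻¹) (c i0)) := by
  classical
  intro Z hZ hrel
  by_contra hne
  push Not at hne
  obtain ⟨h0, hh0⟩ := hne
  obtain ⟨v0, hv0⟩ : ∃ v, (Z h0).coeff v ≠ 0 := by
    by_contra hc
    push Not at hc
    apply hh0
    apply AddMonoidAlgebra.coeff_injective
    exact Finsupp.ext hc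
  let y : O2 × V → ℤ := fun q => (Z q.1).coeff (-q.2)
  have hy : (Function.support y).Finite := by
    have h1 : (⋃ k ∈ {k | Z k ≠ 0}, (fun v : V => (k, -v)) '' ((Z k).coeff.support : Set V)).Finite :=
      hZ.biUnion fun k _ => (Finset.finite_toSet _).image _
    refine h1.subset ?_
    rintro ⟨k, v⟩ hq
    have hq' : (Z k).coeff (-v) ≠ 0 := hq
    have hk : Z k ≠ 0 := by
      intro hk
      rw [hk] at hq'
      exact hq' rfl
    exact Set.mem_biUnion (show k ∈ {k | Z k ≠ 0} from hk) ⟨-v, Finsupp.mem_support_iff.2 hq', by simp⟩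
  let Y : O2 × V →₀ ℤ := Finsupp.ofSupportFinite y hy
  have hY : ∀ k v, Y (k, v) = (Z k).coeff (-v) := fun k v => rfl
  let Φ : O2 × V ↪ (EuclideanSpace ℝ (Fin 2) ≃ᵢ EuclideanSpace ℝ (Fin 2)) :=
    ⟨fun q => isoE q.1 q.2, fun q r hqr => Prod.ext (isoE_inj hqr).1 (isoE_inj hqr).2⟩
  let X : (EuclideanSpace ℝ (Fin 2) ≃ᵢ EuclideanSpace ℝ (Fin 2)) →₀ ℤ := Finsupp.embDomain Φ Y
  have hX1 : ∀ k v, X (isoE k v) = (Z k).coeff (-v) := by
    intro k v
    have h1 : X (Φ (k, v)) = Y (k, v) := Finsupp.embDomain_apply_self Φ Y (k, v)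
    exact h1
  have hX0 : ∀ φ, (∀ k v, isoE k v ≠ φ) → X φ = 0 := by
    intro φ hφ
    refine Finsupp.embDomain_of_notMem_range Φ Y φ ?_
    rintro ⟨⟨k, v⟩, hq⟩
    exact hφ k v hq
  let X' : (EuclideanSpace ℝ (Fin 2) ≃ᵢ EuclideanSpace ℝ (Fin 2)) →₀ ℤ :=
    X.comapDomain (fun φ => φ * (f i0)⁻¹) (mul_left_injective _).injOn
  have hX' : ∀ φ, X' φ = X (φ * (f i0)⁻¹) := fun φ => rfl
  have hff : ∀ i, f i * (f i0)⁻¹ = isoE (γ i * (γ i0)⁻¹) (c i - act (γ i * (γ i0)⁻¹) (c i0)) := by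
    intro i
    rw [hf, hf, isoE_inv, isoE_mul, map_neg, ← act_mul]
    congr 1
    abel
  have key : X' = 0 := by
    apply h
    intro φ
    by_cases hφ : ∃ k v, isoE k v = φ
    · obtain ⟨k, v, rfl⟩ := hφ
      have h1 := congrArg (fun W : AddMonoidAlgebra ℤ V => W.coeff (-v)) (hrel k)
      simp only [coeff_sum, Finsupp.coe_finsetSum, Finset.sum_apply, coeff_zero, Finsupp.coe_zero,
        Pi.zero_apply, AddMonoidAlgebra.coeff_single_mul_apply, one_mul] at h1
      rw [← h1]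
      refine Finset.sum_congr rfl fun i _ => ?_
      rw [hX', mul_assoc, hff, isoE_mul, hX1]
      congr 1
      abel
    · push Not at hφ
      refine Finset.sum_eq_zero fun i _ => ?_
      rw [hX', mul_assoc, hff]
      apply hX0
      intro k v hkv
      refine hφ (k * (γ i * (γ i0)⁻¹)⁻¹)
        (act k (-(act (γ i * (γ i0)⁻¹)⁻¹ (c i - act (γ i * (γ i0)⁻¹) (c i0)))) + v) ?_
      rw [← isoE_mul, hkv, ← isoE_inv, mul_inv_cancel_right]
  apply hv0
  have h1 := DFunLike.congr_fun key (isoE h0 (-v0) * f i0)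
  rw [hX', mul_inv_cancel_right, hX1, neg_neg] at h1
  exact h1

end Pool.Agent.SQH
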