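import Pool.Agent.SQH.Fin2
import Pool.Agent.SQH.Iso

/-!
# SQH: the main theorem
-/

set_option autoImplicit false

namespace Pool.Agent.SQH

open Pool.Agent.SQG
open SQR (eV eV_apply)

/-- Transfer of the condition on annihilators. -/
theorem fin_u {p : ℕ} (γ : Fin p → O2) (i0 : Fin p) (Γ : Submonoid (Matrix (Fin 2) (Fin 2) ℝ))
    (hΓ : Γ = Submonoid.closure {m | ∃ i j, m = toM (γ i) * (toM (γ j)).transpose})
    (h : ∀ X : Matrix (Fin 2) (Fin 2) ℝ →₀ ℤ, (∀ k, k ∉ Γ → X k = 0) →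
      (∀ k ∈ Γ, ∑ i, X (k * (toM (γ i0) * (toM (γ i)).transpose)) = 0) →
      (∀ k ∈ Γ, ∑ᶠ s ∈ {s | s ∈ Γ ∧ ∀ x y, s x y = 0 ∨ s x y = 1 ∨ s x y = -1}, X (k * s) = 0) → X = 0)
    (H : Finset O2) (hH : ∀ s, s ∈ H ↔ s ∈ Subgroup.closure (Set.range fun i => γ i * (γ i0)⁻¹) ∧ Ax s)
    (X : O2 →₀ ℤ) (hX : ∀ k, ∑ i, X (k * (γ i * (γ i0)⁻¹)⁻¹) = 0) (hX2 : ∀ k, ∑ s ∈ H, X (k * s) = 0) :
    X = 0 := by
  classical
  by_contra hne
  obtain ⟨k0, hk0⟩ : ∃ k0, X k0 ≠ 0 := by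
    by_contra hc
    push Not at hc
    exact hne (Finsupp.ext hc)
  let f : Matrix (Fin 2) (Fin 2) ℝ → ℤ := fun m =>
    if hm : ∃ x : O2, toM x = m ∧ m ∈ Γ then X (k0 * Classical.choose hm) else 0
  have hf : ∀ x : O2, toM x ∈ Γ → f (toM x) = X (k0 * x) := by
    intro x hx
    have hm : ∃ y : O2, toM y = toM x ∧ toM x ∈ Γ := ⟨x, rfl, hx⟩
    have h1 : f (toM x) = X (k0 * Classical.choose hm) := dif_pos hm
    rw [h1, toM_inj (Classical.choose_spec hm).1]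
  have hf0 : ∀ m, m ∉ Γ → f m = 0 := by
    intro m hm
    exact dif_neg fun ⟨x, _, h2⟩ => hm h2
  let Y : Matrix (Fin 2) (Fin 2) ℝ →₀ ℤ :=
    Finsupp.onFinset (X.support.image (fun k => toM (k0⁻¹ * k))) f (by
      intro m hm
      by_cases h1 : ∃ x : O2, toM x = m ∧ m ∈ Γ
      · obtain ⟨x, rfl, h2⟩ := h1
        rw [hf x h2] at hm
        rw [Finset.mem_image]
        exact ⟨k0 * x, Finsupp.mem_support_iff.2 hm, by rw [inv_mul_cancel_left]⟩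
      · exact absurd (dif_neg h1) hm)
  have hex : ∀ k ∈ Γ, ∃ x : O2, x ∈ Subgroup.closure (Set.range fun i => γ i * (γ i0)⁻¹) ∧ toM x = k := by
    intro k hk
    have hk' := hk
    have ho : k * k.transpose = 1 := by
      rw [hΓ] at hk'
      refine Submonoid.closure_induction ?_ ?_ ?_ hk'
      · rintro _ ⟨i, j, rfl⟩
        rw [← toM_tr, ← toM_mul, ← toM_tr, ← toM_mul, mul_inv_cancel, toM_one]
      · simp
      · intro a b _ _ ha hb
        rw [Matrix.transpose_mul]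
        calc a * b * (b.transpose * a.transpose) = a * (b * b.transpose) * a.transpose := by
              simp only [Matrix.mul_assoc]
          _ = 1 := by rw [hb, mul_one, ha]
    obtain ⟨x, rfl⟩ := ex_toM k ho
    exact ⟨x, (mem_gen γ i0 Γ hΓ x).2 hk, rfl⟩
  have hY : Y = 0 := by
    apply h
    · intro k hk
      exact hf0 k hk
    · intro k hk
      obtain ⟨x, hx, rfl⟩ := hex k hk
      have h2 : ∀ i, Y (toM x * (toM (γ i0) * (toM (γ i)).transpose)) = X (k0 * x * (γ i * (γ i0)⁻¹)⁻¹) := by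
        intro i
        have e : toM (γ i0) * (toM (γ i)).transpose = toM (γ i * (γ i0)⁻¹)⁻¹ := by
          rw [← toM_tr, ← toM_mul, mul_inv_rev, inv_inv]
        rw [e, ← toM_mul, mul_assoc]
        apply hf
        rw [← mem_gen γ i0 Γ hΓ]
        exact Subgroup.mul_mem _ hx (Subgroup.inv_mem _ (Subgroup.subset_closure ⟨i, rfl⟩))
      rw [Finset.sum_congr rfl fun i _ => h2 i]
      exact hX (k0 * x)
    · intro k hk
      obtain ⟨x, hx, rfl⟩ := hex k hk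
      have h3 : {s | s ∈ Γ ∧ ∀ x y, s x y = 0 ∨ s x y = 1 ∨ s x y = -1} = toM '' (H : Set O2) := by
        ext m
        constructor
        · rintro ⟨hm, hm2⟩
          obtain ⟨y, hy, rfl⟩ := hex m hm
          exact ⟨y, (hH y).2 ⟨hy, ent_ax y hm2⟩, rfl⟩
        · rintro ⟨y, hy, rfl⟩
          obtain ⟨h5, h6⟩ := (hH y).1 hy
          exact ⟨(mem_gen γ i0 Γ hΓ y).1 h5, ax_ent y h6⟩
      rw [h3, finsum_mem_image (fun a _ b _ hab => toM_inj hab), finsum_mem_coe_finset, ← hX2 (k0 * x)]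
      refine Finset.sum_congr rfl fun s hs => ?_
      rw [← toM_mul, mul_assoc]
      apply hf
      rw [← mem_gen γ i0 Γ hΓ]
      exact Subgroup.mul_mem _ hx ((hH s).1 hs).1
  apply hk0
  have h3 : Y (toM 1) = 0 := by rw [hY]; rfl
  have h4 : Y (toM 1) = X (k0 * 1) := hf 1 (by rw [toM_one]; exact Γ.one_mem)
  rw [mul_one] at h4
  rw [← h4, h3]

theorem fin_h (p : ℕ) (hp : p.Prime) (hp2 : p ≠ 2) (A : Set (EuclideanSpace ℝ (Fin 2)))
    (g : Fin p → Matrix (Fin 2) (Fin 2) ℝ) (hg : ∀ i, g i * (g i).transpose = 1)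
    (c : Fin p → EuclideanSpace ℝ (Fin 2)) (P : Fin p → Set (EuclideanSpace ℝ (Fin 2)))
    (hP : ∀ i, P i = {x | ∃ a ∈ A, ∀ k, x k = (∑ l, g i k l * a l) + c i k})
    (hreg : ∀ i, closure (interior (P i)) = P i)
    (hconn : ∀ i, IsConnected (interior (P i)))
    (hdisj : ∀ i j, i ≠ j → Disjoint (interior (P i)) (interior (P j)))
    (hcov : (⋃ i, P i) = {x : EuclideanSpace ℝ (Fin 2) | ∀ c, 0 ≤ x c ∧ x c ≤ 1})
    (Γ : Submonoid (Matrix (Fin 2) (Fin 2) ℝ))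
    (hΓ : Γ = Submonoid.closure {m | ∃ i j, m = g i * (g j).transpose})
    (hshape : (Γ : Set (Matrix (Fin 2) (Fin 2) ℝ)).Finite ∨
      ∃ (C : Set (EuclideanSpace ℝ (Fin 2))) (T : Finset (ℝ × ℝ × ℝ)), IsClosed C ∧
        (∀ l : ℝ × ℝ × ℝ, (l.1 ≠ 0 ∨ l.2.1 ≠ 0) → (C ∩ {x | l.1 * x 0 + l.2.1 * x 1 = l.2.2}).Finite) ∧
        (∀ l ∈ T, l.1 ≠ 0 ∨ l.2.1 ≠ 0) ∧
        frontier A ⊆ C ∪ ⋃ l ∈ T, {x | l.1 * x 0 + l.2.1 * x 1 = l.2.2})
    (hyp : (∃ q : ℕ, q.Prime ∧ (¬ ∃ n : ℤ, (p : ℝ) * ∑ i, (g i).det = q * n) ∧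
        ∀ k ∈ Γ, k.det = 1 → (∃ n : ℕ, 0 < n ∧ k ^ n = 1) → ∃ a : ℕ, k ^ (q ^ a) = 1) ∨
      (∃ i0, ∀ X : Matrix (Fin 2) (Fin 2) ℝ →₀ ℤ, (∀ k, k ∉ Γ → X k = 0) →
        (∀ k ∈ Γ, ∑ i, X (k * (g i0 * (g i).transpose)) = 0) →
        (∀ k ∈ Γ, ∑ᶠ s ∈ {s | s ∈ Γ ∧ ∀ x y, s x y = 0 ∨ s x y = 1 ∨ s x y = -1}, X (k * s) = 0) → X = 0) ∨
      (∃ f : Fin p → (EuclideanSpace ℝ (Fin 2) ≃ᵢ EuclideanSpace ℝ (Fin 2)),
        (∀ i x k, f i x k = (∑ l, g i k l * x l) + c i k) ∧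
        ∀ X : (EuclideanSpace ℝ (Fin 2) ≃ᵢ EuclideanSpace ℝ (Fin 2)) →₀ ℤ,
          (∀ φ, ∑ i, X (φ * f i) = 0) → X = 0)) :
    (∃ σ : Equiv.Perm (Fin p),
      (∀ k : Fin p, P (σ k) =
        {x : EuclideanSpace ℝ (Fin 2) | (∀ c, 0 ≤ x c ∧ x c ≤ 1) ∧
          ((k : ℕ) : ℝ) / p ≤ x 1 ∧ x 1 ≤ (((k : ℕ) : ℝ) + 1) / p}) ∨
      (∀ k : Fin p, P (σ k) =
        {x : EuclideanSpace ℝ (Fin 2) | (∀ c, 0 ≤ x c ∧ x c ≤ 1) ∧
          ((k : ℕ) : ℝ) / p ≤ x 0 ∧ x 0 ≤ (((k : ℕ) : ℝ) + 1) / p})) ∨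
    ((∀ i j x y, (g i * (g j).transpose) x y = 0 ∨ (g i * (g j).transpose) x y = 1 ∨
        (g i * (g j).transpose) x y = -1) ∧
      (∃ i j, ((g i).transpose * g j).transpose ≠ (g i).transpose * g j) ∧
      (∃ n : ℤ, (∑ i, g i).det = p * n) ∧
      (p % 4 = 3 → ∃ i j, (g i).det ≠ (g j).det) ∧
      ∃ S : Finset ℝ, ∀ i, frontier (P i) ⊆ {x | x 0 ∈ S ∨ x 1 ∈ S}) := by
  choose γ hγ using fun i => ex_toM (g i) (hg i)
  obtain rfl : (fun i => toM (γ i)) = g := funext hγ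
  have key : ∀ i0 : Fin p, HypH p (fun i => γ i * (γ i0)⁻¹)
      (fun i => eV (c i) - act (γ i * (γ i0)⁻¹) (eV (c i0)))
      (Subgroup.closure (Set.range fun i => γ i * (γ i0)⁻¹)) → _ := fun i0 h => fin_h0 p hp hp2 A γ c P hP hreg hconn hdisj hcov i0 _ rfl ?_ h
  · rcases hyp with ⟨q, hq, hn, ht⟩ | ⟨i0, h⟩ | ⟨f, hf, h⟩
    · let i0 : Fin p := ⟨0, hp.pos⟩
      refine key i0 (Or.inl ⟨q, hq, ?_, ?_⟩)
      · rintro ⟨n, hn'⟩
        apply hn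
        refine ⟨n * ((γ i0).s : ℤ), ?_⟩
        have h1 : ∀ i, ((((γ i * (γ i0)⁻¹).s : ℤ)) : ℝ) = (toM (γ i)).det * (((γ i0).s : ℤ) : ℝ) := by
          intro i
          rw [toM_det, O2.mul_s, O2.inv_s]
          simp [O2.t]
        have h2 : (p : ℝ) * ((∑ i, (toM (γ i)).det) * (((γ i0).s : ℤ) : ℝ)) = q * n := by
          rw [Finset.sum_mul, ← Finset.sum_congr rfl fun i _ => h1 i]
          exact_mod_cast hn'
        have h3 : (((γ i0).s : ℤ) : ℝ) * (((γ i0).s : ℤ) : ℝ) = 1 := (γ i0).t_sq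
        push_cast
        calc (p : ℝ) * ∑ i, (toM (γ i)).det =
            ((p : ℝ) * ((∑ i, (toM (γ i)).det) * (((γ i0).s : ℤ) : ℝ))) * (((γ i0).s : ℤ) : ℝ) := by
              linear_combination (-((p : ℝ) * ∑ i, (toM (γ i)).det)) * h3
          _ = q * (n * (((γ i0).s : ℤ) : ℝ)) := by
              rw [h2]
              ring
      · intro k hk hs hfo
        have hdet : (toM k).det = 1 := by
          rw [toM_det]
          simp [O2.t, hs]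
        obtain ⟨a, ha⟩ := ht (toM k) ((mem_gen γ i0 Γ hΓ k).1 hk) hdet (fin_ord k hfo)
        refine ⟨a, toM_inj ?_⟩
        rw [toM_pow, toM_one, ha]
    · classical
      obtain ⟨S, -, hS⟩ := ax_card
      refine key i0 (Or.inr (Or.inl
        ⟨S.filter (fun s => s ∈ Subgroup.closure (Set.range fun i => γ i * (γ i0)⁻¹)), fun s => ?_, ?_⟩))
      · rw [Finset.mem_filter, hS, and_comm]
      · intro A h1 h2
        refine fin_u γ i0 Γ hΓ h _ (fun s => ?_) A h1 h2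
        rw [Finset.mem_filter, hS, and_comm]
    · let i0 : Fin p := ⟨0, hp.pos⟩
      refine key i0 (Or.inr (Or.inr ?_))
      refine reg_iso γ (fun i => eV (c i)) f (fun i => ?_) i0 h
      ext1 x
      apply eV.injective
      rw [isoE_apply, Homeomorph.apply_symm_apply]
      exact (mv_toM (γ i) x (c i) (f i x)).1 (hf i x)
  · rcases hshape with h1 | h1
    · left
      have h2 : (toM ⁻¹' (Γ : Set (Matrix (Fin 2) (Fin 2) ℝ))).Finite :=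
        h1.preimage fun a _ b _ hab => toM_inj hab
      refine h2.subset ?_
      intro k hk
      exact (mem_gen γ i0 Γ hΓ k).1 hk
    · exact Or.inr h1

end Pool.Agent.SQH
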