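import Pool.Agent.SQH.Grw
import Pool.Agent.SQH.Defs

/-!
# SQH module Fol: almost invariant finite sets of orthogonal maps

PROOF. Let `σ = ⟨1, 0, -1, _⟩ : O2` (a reflection, `σ * σ = 1`) and for `x : O2` let `rt x = x` if `x.s = 1` and
`rt x = x * σ` if `x.s = -1`: `(rt x).s = 1`, `x = rt x` or `x = rt x * σ`.  Rotations commute, `σ * r = r⁻¹ * σ` for
`r.s = 1` (see `refl_sq`, `refl_comm`, `rot_comm` in Pool/Agent/SQG/Inja.lean; copy them or import that file).
For `v : N → ℤ` (`N` as a finite type) let `R v = ∏ x : N, (rt x) ^ (v x)` (a product of commuting elements: use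
`Finset.noncommProd`, or the commutative subgroup of all rotations, or a list product; a convenient way is the
homomorphism from `Multiplicative (N → ℤ)`-like into the commutative group `{r : O2 // r.s = 1}`).  Let
`A n = {R v | ∀ x, |v x| ≤ n}` and `B n = A n ∪ A n * σ`, finite sets with at most `2 * (2 * n + 1) ^ N.card`
elements, containing `1` (images of `Fintype.piFinset fun _ => Finset.Icc (-n) n`).  For `k ∈ B n`, `x ∈ N`:
`k * x ∈ B (n + 1)`: if `k = R v * σ ^ ε` and `x = rt x * σ ^ δ` then `k * x = R (v ± e_x) * σ ^ (ε + δ)`.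
`grw` for `a n = (B n).card`, `k = N.card`, `C = 2` gives `n`; take `S₀ = B n`, `S = B (n + 1)`.
-/

set_option autoImplicit false

open AddMonoidAlgebra Filter Topology

namespace Pool.Agent.SQH

open Pool.Agent.SQG

theorem fol_refl_sq (σ : O2) (hs : σ.s = -1) : σ * σ = 1 := by
  have ht : σ.t = -1 := by simp [O2.t, hs]
  have h := σ.h
  apply O2.ext'
  · simp only [O2.mul_a, O2.one_a, ht]
    linear_combination h
  · simp only [O2.mul_b, O2.one_b, ht]
    ring
  · simp [hs]

theorem fol_refl_comm (σ x : O2) (hs : σ.s = -1) (hx : x.s = 1) : σ * x = x⁻¹ * σ := by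
  have ht : σ.t = -1 := by simp [O2.t, hs]
  have hu : x.t = 1 := by simp [O2.t, hx]
  apply O2.ext'
  · simp only [O2.mul_a, O2.inv_a, O2.inv_b, O2.inv_t, ht, hu]
    ring
  · simp only [O2.mul_b, O2.inv_a, O2.inv_b, O2.inv_t, ht, hu]
    ring
  · simp only [O2.mul_s, O2.inv_s, hs, hx]
    rfl

theorem fol_rot_comm (x y : O2) (hx : x.s = 1) (hy : y.s = 1) : x * y = y * x := by
  have ht : x.t = 1 := by simp [O2.t, hx]
  have hu : y.t = 1 := by simp [O2.t, hy]
  apply O2.ext'
  · simp only [O2.mul_a, ht, hu]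
    ring
  · simp only [O2.mul_b, ht, hu]
    ring
  · simp only [O2.mul_s, hx, hy]

theorem fol_gen {ι : Type} [Fintype ι] [DecidableEq ι] {Λ : Type} [CommGroup Λ] (ρ : ι → Λ) (f : Λ →* O2)
    (σ : O2) (hσ : σ * σ = 1) (hf : ∀ x, σ * f x = (f x)⁻¹ * σ) (g : ι → O2)
    (hg : ∀ i, g i = f (ρ i) ∨ g i = f (ρ i) * σ) (m : ℕ) :
    ∃ S₀ S : Finset O2, (∀ k ∈ S₀, ∀ i, k * g i ∈ S) ∧ m * S.card < (m + 1) * S₀.card := by
  classical
  let R : (ι → ℤ) → Λ := fun v => ∏ x, ρ x ^ v x
  have hadd : ∀ v i, R (v + Pi.single i 1) = R v * ρ i := by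
    intro v i
    show ∏ x, ρ x ^ (v + Pi.single i (1 : ℤ) : ι → ℤ) x = (∏ x, ρ x ^ v x) * ρ i
    have h1 : ∀ x, ρ x ^ (v + Pi.single i (1 : ℤ) : ι → ℤ) x = ρ x ^ v x * (if x = i then ρ i else 1) := by
      intro x
      by_cases hx : x = i
      · subst hx
        rw [if_pos rfl, Pi.add_apply, Pi.single_eq_same, zpow_add, zpow_one]
      · rw [if_neg hx, Pi.add_apply, Pi.single_eq_of_ne hx, add_zero, mul_one]
    rw [Finset.prod_congr rfl fun x _ => h1 x, Finset.prod_mul_distrib, Finset.prod_ite_eq' Finset.univ i]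
    simp
  have hsub : ∀ v i, R (v - Pi.single i 1) = R v * (ρ i)⁻¹ := by
    intro v i
    have h1 := hadd (v - Pi.single i 1) i
    rw [sub_add_cancel] at h1
    rw [h1, mul_assoc, mul_inv_cancel, mul_one]
  let P : ℕ → Finset (ι → ℤ) := fun n => Fintype.piFinset fun _ => Finset.Icc (-(n : ℤ)) n
  have hPc : ∀ n, (P n).card = (2 * n + 1) ^ Fintype.card ι := by
    intro n
    show (Fintype.piFinset fun _ : ι => Finset.Icc (-(n : ℤ)) n).card = _
    rw [Fintype.card_piFinset, Finset.prod_const, Int.card_Icc, Finset.card_univ]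
    congr 1
    omega
  have hPm : ∀ n v, v ∈ P n ↔ ∀ x, -(n : ℤ) ≤ v x ∧ v x ≤ n := by
    intro n v
    show v ∈ Fintype.piFinset (fun _ : ι => Finset.Icc (-(n : ℤ)) n) ↔ _
    rw [Fintype.mem_piFinset]
    exact forall_congr' fun x => Finset.mem_Icc
  have hPadd : ∀ n v i, v ∈ P n → v + Pi.single i 1 ∈ P (n + 1) := by
    intro n v i hv
    rw [hPm] at hv ⊢
    intro x
    have h1 := hv x
    rw [Pi.add_apply]
    by_cases hx : x = i
    · subst hx
      rw [Pi.single_eq_same]
      push_cast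
      constructor <;> linarith [h1.1, h1.2]
    · rw [Pi.single_eq_of_ne hx]
      push_cast
      constructor <;> linarith [h1.1, h1.2]
  have hPsub : ∀ n v i, v ∈ P n → v - Pi.single i 1 ∈ P (n + 1) := by
    intro n v i hv
    rw [hPm] at hv ⊢
    intro x
    have h1 := hv x
    rw [Pi.sub_apply]
    by_cases hx : x = i
    · subst hx
      rw [Pi.single_eq_same]
      push_cast
      constructor <;> linarith [h1.1, h1.2]
    · rw [Pi.single_eq_of_ne hx]
      push_cast
      constructor <;> linarith [h1.1, h1.2]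
  let A : ℕ → Finset O2 := fun n => (P n).image fun v => f (R v)
  let B : ℕ → Finset O2 := fun n => A n ∪ (A n).image fun x => x * σ
  have hA : ∀ n v, v ∈ P n → f (R v) ∈ A n := fun n v hv => Finset.mem_image_of_mem _ hv
  have hB1 : ∀ n v, v ∈ P n → f (R v) ∈ B n := fun n v hv => Finset.mem_union_left _ (hA n v hv)
  have hB2 : ∀ n v, v ∈ P n → f (R v) * σ ∈ B n := fun n v hv =>
    Finset.mem_union_right _ (Finset.mem_image_of_mem _ (hA n v hv))
  have hBm : ∀ n k, k ∈ B n → ∃ v ∈ P n, k = f (R v) ∨ k = f (R v) * σ := by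
    intro n k hk
    rcases Finset.mem_union.1 hk with h | h
    · obtain ⟨v, hv, h2⟩ := Finset.mem_image.1 h
      exact ⟨v, hv, Or.inl h2.symm⟩
    · obtain ⟨y, hy, h2⟩ := Finset.mem_image.1 h
      obtain ⟨v, hv, h3⟩ := Finset.mem_image.1 hy
      exact ⟨v, hv, Or.inr (by rw [← h2, ← h3])⟩
  have hpos : ∀ n, 0 < (B n).card := by
    intro n
    refine Finset.card_pos.2 ⟨f (R 0), hB1 n 0 ?_⟩
    rw [hPm]
    intro x
    rw [Pi.zero_apply]
    constructor
    · exact neg_nonpos.2 (Int.natCast_nonneg n)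
    · exact Int.natCast_nonneg n
  have hcard : ∀ n, (B n).card ≤ 2 * (2 * n + 1) ^ Fintype.card ι := by
    intro n
    have h1 : (A n).card ≤ (2 * n + 1) ^ Fintype.card ι := by
      rw [← hPc n]
      exact Finset.card_image_le
    have h2 : ((A n).image fun x => x * σ).card ≤ (2 * n + 1) ^ Fintype.card ι :=
      Finset.card_image_le.trans h1
    calc (B n).card ≤ (A n).card + ((A n).image fun x => x * σ).card := Finset.card_union_le _ _
      _ ≤ _ := by linarith
  obtain ⟨n, hn⟩ := grw (fun n => (B n).card) (Fintype.card ι) 2 m hpos hcard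
  refine ⟨B n, B (n + 1), ?_, hn⟩
  intro k hk i
  obtain ⟨v, hv, h1⟩ := hBm n k hk
  have e1 : f (R v) * f (ρ i) = f (R (v + Pi.single i 1)) := by rw [hadd, map_mul]
  have e2 : f (R v) * (f (ρ i))⁻¹ = f (R (v - Pi.single i 1)) := by rw [hsub, map_mul, map_inv]
  rcases h1 with h1 | h1 <;> rcases hg i with h2 | h2
  · rw [h1, h2, e1]
    exact hB1 _ _ (hPadd n v i hv)
  · rw [h1, h2, ← mul_assoc, e1]
    exact hB2 _ _ (hPadd n v i hv)
  · rw [h1, h2, mul_assoc, hf, ← mul_assoc, e2]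
    exact hB2 _ _ (hPsub n v i hv)
  · rw [h1, h2]
    have h3 : f (R v) * σ * (f (ρ i) * σ) = f (R (v - Pi.single i 1)) := by
      rw [← e2, mul_assoc, ← mul_assoc σ, hf, mul_assoc _ σ σ, hσ, mul_one]
    rw [h3]
    exact hB1 _ _ (hPsub n v i hv)

/-- The group of rotations. -/
def folRot : Subgroup O2 where
  carrier := {r | r.s = 1}
  mul_mem' := by
    intro a b ha hb
    show (a * b).s = 1
    rw [O2.mul_s, show a.s = 1 from ha, show b.s = 1 from hb, mul_one]
  one_mem' := rfl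
  inv_mem' := by
    intro a ha
    show (a⁻¹).s = 1
    rw [O2.inv_s]
    exact ha

theorem fol (N : Finset O2) (m : ℕ) :
    ∃ S₀ S : Finset O2, (∀ k ∈ S₀, ∀ n ∈ N, k * n ∈ S) ∧ m * S.card < (m + 1) * S₀.card := by
  classical
  let σ : O2 := ⟨1, 0, -1, by norm_num⟩
  have hs : σ.s = -1 := rfl
  let CG : CommGroup folRot :=
    { (inferInstance : Group folRot) with
      mul_comm := fun a b => Subtype.ext (fol_rot_comm a.1 b.1 a.2 b.2) }
  have hρ : ∀ x : O2, ∃ r : folRot, x = r.1 ∨ x = r.1 * σ := by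
    intro x
    by_cases h : x.s = 1
    · exact ⟨⟨x, h⟩, Or.inl rfl⟩
    · have h1 : x.s = -1 := (Int.units_eq_one_or x.s).resolve_left h
      refine ⟨⟨x * σ, ?_⟩, Or.inr ?_⟩
      · show (x * σ).s = 1
        rw [O2.mul_s, h1, hs]
        rfl
      · show x = x * σ * σ
        rw [mul_assoc, fol_refl_sq σ hs, mul_one]
  choose r hr using hρ
  obtain ⟨S₀, S, h1, h2⟩ := @fol_gen N _ _ folRot CG (fun x => r x.1) (Subgroup.subtype folRot) σ
    (fol_refl_sq σ hs) (fun x => fol_refl_comm σ x.1 hs x.2) (fun x => x.1) (fun x => hr x.1) m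
  exact ⟨S₀, S, fun k hk n hn => h1 k hk ⟨n, hn⟩, h2⟩

end Pool.Agent.SQH
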