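import Pool.Agent.SQH.Defs

/-!
# SQH module Frb: a high power of an element of the group ring isolates a function of bounded support

PROOF. Let `v0` be in the support of `D`, `a0 = D.coeff v0 ≠ 0`, and `l` a prime which does not divide `a0`.  For
`n = l ^ k`: `D ^ n ≡ ∑ w ∈ supp D, single (n • w) (D.coeff w ^ n)` modulo `l` (all coefficients of the difference are
divisible by `l`): work in the ring `AddMonoidAlgebra (ZMod l) V` of characteristic `l` with the homomorphism
`mapRingHom V (Int.castRingHom (ZMod l))` (compare `Onz_red` in Pool/Agent/SQG/Onz.lean) and `sum_pow_char_pow`.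
So for every `u`, `l ∣ cv (D ^ n) u y - ∑ w ∈ supp D, D.coeff w ^ n * u (y - n • w)`.  Take `y = z + n • v0`: the term
`w = v0` is `a0 ^ n * u z`; for `w ≠ v0`, `y - n • w = z + n • (v0 - w)` has a coordinate of absolute value
`> R` if `n` is large (`v0 - w ≠ 0`, finitely many `w`; `l ^ k → ∞`), so `u` vanishes there.  `v = n • v0`,
`a = a0 ^ n` (not divisible by `l`).
-/

set_option autoImplicit false

open AddMonoidAlgebra Filter Topology

namespace Pool.Agent.SQH

open Pool.Agent.SQG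

private noncomputable def Frb_red (p : ℕ) : AddMonoidAlgebra ℤ V →+* AddMonoidAlgebra (ZMod p) V :=
  mapRingHom V (Int.castRingHom (ZMod p))

private theorem Frb_red_single (p : ℕ) (v : V) (a : ℤ) :
    Frb_red p (single v a) = single v (a : ZMod p) := by
  simp [Frb_red]

private theorem Frb_red_coeff (p : ℕ) (X : AddMonoidAlgebra ℤ V) (v : V) :
    (Frb_red p X).coeff v = ((X.coeff v : ℤ) : ZMod p) := by
  simp [Frb_red]

private theorem Frb_sum (D : AddMonoidAlgebra ℤ V) : ∑ w ∈ D.coeff.support, single w (D.coeff w) = D := by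
  apply coeff_injective
  have h1 := Finsupp.sum_single D.coeff
  rw [Finsupp.sum] at h1
  rw [coeff_sum]
  simpa using h1

private theorem Frb_cong (D : AddMonoidAlgebra ℤ V) (l : ℕ) (hl : l.Prime) (k : ℕ) (u : V → ℤ) (y : V) :
    (l : ℤ) ∣ cv (D ^ (l ^ k)) u y - ∑ w ∈ D.coeff.support, D.coeff w ^ (l ^ k) * u (y - (l ^ k) • w) := by
  have : Fact l.Prime := ⟨hl⟩
  have : CharP (AddMonoidAlgebra (ZMod l) V) l :=
    charP_of_injective_algebraMap (R := ZMod l) (A := AddMonoidAlgebra (ZMod l) V)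
      (algebraMap (ZMod l) (AddMonoidAlgebra (ZMod l) V)).injective l
  set n := l ^ k with hn
  set S : AddMonoidAlgebra ℤ V := ∑ w ∈ D.coeff.support, single (n • w) (D.coeff w ^ n) with hS
  set E : AddMonoidAlgebra ℤ V := D ^ n - S with hE
  have h1 : Frb_red l E = 0 := by
    rw [hE, map_sub, map_pow, hS, map_sum]
    conv_lhs => rw [← Frb_sum D]
    rw [map_sum, hn, sum_pow_char_pow, ← hn]
    rw [Frb_sum D, sub_eq_zero]
    refine Finset.sum_congr rfl fun w _ => ?_
    rw [Frb_red_single, Frb_red_single, single_pow]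
    push_cast
    rfl
  have h2 : ∀ w, (l : ℤ) ∣ E.coeff w := by
    intro w
    have h3 := Frb_red_coeff l E w
    rw [h1] at h3
    exact (ZMod.intCast_zmod_eq_zero_iff_dvd _ _).1 (by simpa using h3.symm)
  have h4 : cv (D ^ n) u y = cv E u y + ∑ w ∈ D.coeff.support, D.coeff w ^ n * u (y - n • w) := by
    have h5 : D ^ n = E + S := by rw [hE]; ring
    rw [h5, cv_add, hS, cv_sum]
    congr 1
    exact Finset.sum_congr rfl fun w _ => cv_single _ _ _ _
  rw [h4, add_sub_cancel_right]
  unfold cv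
  exact Finset.dvd_sum fun w _ => Dvd.dvd.mul_right (h2 w) _

theorem frb (D : AddMonoidAlgebra ℤ V) (hD : D ≠ 0) (R : ℝ) :
    ∃ (l n : ℕ) (v : V) (a : ℤ), l.Prime ∧ 0 < n ∧ ¬ (l : ℤ) ∣ a ∧
      ∀ u : V → ℤ, (∀ z, u z ≠ 0 → |z.1| ≤ R ∧ |z.2| ≤ R) → ∀ z : V, |z.1| ≤ R + 1 → |z.2| ≤ R + 1 →
        (l : ℤ) ∣ cv (D ^ n) u (z + v) - a * u z := by
  classical
  have h0 : D.coeff.support.Nonempty := by
    rw [Finsupp.support_nonempty_iff]
    intro h
    exact hD (coeff_injective (by simpa using h))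
  obtain ⟨v0, hv0⟩ := h0
  have ha0 : D.coeff v0 ≠ 0 := Finsupp.mem_support_iff.1 hv0
  obtain ⟨l, hl1, hl⟩ := Nat.exists_infinite_primes ((D.coeff v0).natAbs + 1)
  have hnd : ¬ (l : ℤ) ∣ D.coeff v0 := by
    intro h
    have h1 := Int.natAbs_dvd_natAbs.2 h
    rw [Int.natAbs_natCast] at h1
    have h2 := Nat.le_of_dvd (Int.natAbs_pos.2 ha0) h1
    omega
  have hlt : Tendsto (fun k : ℕ => (l : ℝ) ^ k) atTop atTop :=
    tendsto_pow_atTop_atTop_of_one_lt (by exact_mod_cast hl.one_lt)
  have hev : ∀ᶠ k : ℕ in atTop, ∀ w ∈ D.coeff.support.erase v0,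
      2 * R + 1 < (l : ℝ) ^ k * max |(v0 - w).1| |(v0 - w).2| := by
    rw [eventually_all_finset]
    intro w hw
    have hpos : 0 < max |(v0 - w).1| |(v0 - w).2| := by
      rw [lt_max_iff, abs_pos, abs_pos]
      by_contra hc
      push Not at hc
      exact (Finset.mem_erase.1 hw).1 (sub_eq_zero.1 (Prod.ext hc.1 hc.2)).symm
    exact (hlt.atTop_mul_const hpos).eventually_gt_atTop _
  obtain ⟨k, hk⟩ := hev.exists
  refine ⟨l, l ^ k, (l ^ k) • v0, D.coeff v0 ^ (l ^ k), hl, pow_pos hl.pos _, ?_, ?_⟩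
  · intro h
    exact hnd ((Nat.prime_iff_prime_int.1 hl).dvd_of_dvd_pow h)
  · intro u hu z hz1 hz2
    have h1 := Frb_cong D l hl k u (z + (l ^ k) • v0)
    have h2 : ∑ w ∈ D.coeff.support, D.coeff w ^ (l ^ k) * u (z + (l ^ k) • v0 - (l ^ k) • w) =
        D.coeff v0 ^ (l ^ k) * u z := by
      rw [Finset.sum_eq_single v0]
      · rw [add_sub_cancel_right]
      · intro w hw hne
        have h3 := hk w (Finset.mem_erase.2 ⟨hne, hw⟩)
        have h4 : z + (l ^ k) • v0 - (l ^ k) • w = z + (l ^ k) • (v0 - w) := by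
          rw [smul_sub]; abel
        rw [h4]
        by_contra hc
        have hun : u (z + (l ^ k) • (v0 - w)) ≠ 0 := fun h => hc (by rw [h, mul_zero])
        obtain ⟨b1, b2⟩ := hu _ hun
        have e1 : (z + (l ^ k) • (v0 - w)).1 = z.1 + (l : ℝ) ^ k * (v0 - w).1 := by
          simp
        have e2 : (z + (l ^ k) • (v0 - w)).2 = z.2 + (l : ℝ) ^ k * (v0 - w).2 := by
          simp
        rw [e1] at b1
        rw [e2] at b2
        have hlk : (0 : ℝ) ≤ (l : ℝ) ^ k := by positivity
        have c1 : (l : ℝ) ^ k * |(v0 - w).1| ≤ 2 * R + 1 := by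
          have e3 : |(l : ℝ) ^ k * (v0 - w).1| = (l : ℝ) ^ k * |(v0 - w).1| := by
            rw [abs_mul, abs_of_nonneg hlk]
          have h5 : |(l : ℝ) ^ k * (v0 - w).1| ≤ |z.1 + (l : ℝ) ^ k * (v0 - w).1| + |z.1| := by
            have := abs_sub (z.1 + (l : ℝ) ^ k * (v0 - w).1) z.1
            rwa [add_sub_cancel_left] at this
          rw [← e3]
          linarith
        have c2 : (l : ℝ) ^ k * |(v0 - w).2| ≤ 2 * R + 1 := by
          have e3 : |(l : ℝ) ^ k * (v0 - w).2| = (l : ℝ) ^ k * |(v0 - w).2| := by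
            rw [abs_mul, abs_of_nonneg hlk]
          have h5 : |(l : ℝ) ^ k * (v0 - w).2| ≤ |z.2 + (l : ℝ) ^ k * (v0 - w).2| + |z.2| := by
            have := abs_sub (z.2 + (l : ℝ) ^ k * (v0 - w).2) z.2
            rwa [add_sub_cancel_left] at this
          rw [← e3]
          linarith
        rcases le_total |(v0 - w).1| |(v0 - w).2| with h6 | h6
        · rw [max_eq_right h6] at h3; linarith
        · rw [max_eq_left h6] at h3; linarith
      · intro h
        exact absurd hv0 h
    rwa [h2] at h1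

end Pool.Agent.SQH
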