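import Pool.Agent.SQG.Geo

/-!
# SQH module Geh: the corner functions and their relation
-/

set_option autoImplicit false

open AddMonoidAlgebra Filter Topology

namespace Pool.Agent.SQH

open Pool.Agent.SQG

private theorem Geh_open {U : Set V} (hU : IsOpen U) (h : O2) : IsOpen (act h '' U) := by
  have h1 : act h '' U = act h⁻¹ ⁻¹' U := by
    ext z
    exact mem_act_image h U z
  rw [h1]
  exact hU.preimage (continuous_act h⁻¹)

theorem geh {p : ℕ} {U : Set V} {g : Fin p → O2} {c : Fin p → V} (hT : Til p U g c)
    {T : Finset (ℝ × ℝ × ℝ)} {C : Set V} (hB : TB U T C) :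
    ∃ F, Dat p g c F ∧ ∀ h w, Crn (ind (act h '' U)) w ((F h).coeff w) := by
  classical
  have hex : ∀ (h : O2) (w : V), ∃ k, Crn (ind (act h '' U)) w k := fun h w =>
    crn_ex (Geh_open hT.opn h) (tb_act hB h) w
  choose k hk using hex
  have hfw : ∀ h : O2, (Function.support (k h)).Finite := by
    intro h
    refine (crn_fin (Geh_open hT.opn h) (tb_act hB h)).subset ?_
    intro w hw h0
    exact hw (crn_uniq (hk h w) h0)
  let F : O2 → AddMonoidAlgebra ℤ V := fun h => AddMonoidAlgebra.ofCoeff (Finsupp.ofSupportFinite (k h) (hfw h))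
  have hF : ∀ h w, (F h).coeff w = k h w := fun h w => rfl
  refine ⟨F, ⟨?_, ?_⟩, fun h w => by rw [hF]; exact hk h w⟩
  · intro h
    apply AddMonoidAlgebra.coeff_injective
    apply Finsupp.ext
    intro w
    have h1 : (∑ i, single (act h (c i)) (1 : ℤ) * F (h * g i)).coeff w =
        ∑ i, k (h * g i) (w - act h (c i)) := by
      rw [AddMonoidAlgebra.coeff_sum, Finsupp.finsetSum_apply]
      apply Finset.sum_congr rfl
      intro i _
      rw [AddMonoidAlgebra.coeff_single_mul_apply, one_mul, hF]
      congr 1
      abel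
    rw [h1]
    have h2 : Crn (fun z => ∑ i, ind (act (h * g i) '' U) (z - act h (c i))) w
        (∑ i, k (h * g i) (w - act h (c i))) := by
      apply crn_sum
      intro i _
      exact crn_shift (hk (h * g i) (w - act h (c i)))
    have h3 : Pts (fun z => ∑ i, ind (act (h * g i) '' U) (z - act h (c i)) = ind (act h '' sqo) z) w := by
      have h4 : Pts (fun z => ∀ i, z ∉ frontier (act h '' (mv (g i) (c i) '' U))) w := by
        apply pts_all
        intro i
        obtain ⟨T', C', hTB⟩ := tb_mv hB (g i) (c i)
        exact off_fr (tb_act hTB h) w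
      have h5 : Pts (fun z => z ∉ frontier (act h '' sqo)) w := off_fr (tb_act tb_sqo h) w
      exact pts_mono (pts_and h4 h5) fun z hz => gpt hT h z hz.1 hz.2
    exact crn_uniq (crn_congr h3 h2) (crn_sq h w)
  · have h6 : (⋃ l ∈ T, {h : O2 | (rl h l).1 = 0}).Finite :=
      Set.Finite.biUnion T.finite_toSet fun l hl => hfin l (hB.nd l hl)
    refine h6.subset ?_
    intro h hh
    by_contra hno
    apply hh
    apply AddMonoidAlgebra.coeff_injective
    apply Finsupp.ext
    intro w
    rw [hF]
    change k h w = 0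
    refine crn_uniq (hk h w) (crn_hor (Geh_open hT.opn h) (tb_act hB h) w ?_)
    intro l hl hl0
    exfalso
    apply hno
    obtain ⟨l', hl', rfl⟩ := Finset.mem_image.mp hl
    exact Set.mem_biUnion hl' hl0

end Pool.Agent.SQH
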