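import Mathlib

/-!
# SQH module Grw: a sequence of polynomial growth does not grow by a factor at each step

PROOF. By contradiction: `(m + 1) * a n ≤ m * a (n + 1)` for all `n`.  `m = 0` contradicts `h0`.  For `m > 0`, over
`ℝ`, with `r = (m + 1) / m > 1`: `r ^ n ≤ a n` by induction, so `r ^ n ≤ C * (2 * n + 1) ^ k` for all `n`.  But
`n ^ k / r ^ n → 0` (`tendsto_pow_const_div_const_pow_of_one_lt`), and `(2 * n + 1) ^ k ≤ (3 * n) ^ k` for `n ≥ 1`:
contradiction for large `n`.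
-/

set_option autoImplicit false

open AddMonoidAlgebra Filter Topology

namespace Pool.Agent.SQH

theorem grw (a : ℕ → ℕ) (k C m : ℕ) (h0 : ∀ n, 0 < a n) (hb : ∀ n, a n ≤ C * (2 * n + 1) ^ k) :
    ∃ n, m * a (n + 1) < (m + 1) * a n := by
  by_contra hcon
  push Not at hcon
  rcases Nat.eq_zero_or_pos m with hm | hm
  · have h1 := hcon 0
    have h2 := h0 0
    subst hm
    omega
  have hmr : (0 : ℝ) < m := by exact_mod_cast hm
  obtain ⟨r, hr⟩ : ∃ r : ℝ, r = (m + 1) / m := ⟨_, rfl⟩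
  have hr1 : 1 < r := by
    rw [hr, lt_div_iff₀ hmr]
    linarith
  have hgrow : ∀ n, r ^ n ≤ (a n : ℝ) := by
    intro n
    induction n with
    | zero =>
      rw [pow_zero]
      exact_mod_cast h0 0
    | succ n ih =>
      have h1 : ((m + 1) * a n : ℝ) ≤ m * a (n + 1) := by exact_mod_cast hcon n
      have h2 : r * a n ≤ a (n + 1) := by
        rw [hr, div_mul_eq_mul_div, div_le_iff₀ hmr]
        linarith
      calc r ^ (n + 1) = r * r ^ n := by ring
        _ ≤ r * a n := mul_le_mul_of_nonneg_left ih (by linarith)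
        _ ≤ _ := h2
  have ht := tendsto_pow_const_div_const_pow_of_one_lt k hr1
  have ht2 : Tendsto (fun n : ℕ => (C * 3 ^ k : ℝ) * ((n : ℝ) ^ k / r ^ n)) atTop (𝓝 0) := by
    have h1 := ht.const_mul (C * 3 ^ k : ℝ)
    rwa [mul_zero] at h1
  have hev := (ht2.eventually (gt_mem_nhds one_pos)).and (eventually_ge_atTop 1)
  obtain ⟨n, h1, h2⟩ := hev.exists
  have hrn : 0 < r ^ n := by positivity
  have h3 : (C * 3 ^ k : ℝ) * (n : ℝ) ^ k < r ^ n := by
    rw [← mul_div_assoc, div_lt_one hrn] at h1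
    exact h1
  have h4 : (a n : ℝ) ≤ C * (2 * n + 1) ^ k := by exact_mod_cast hb n
  have h5 : ((2 * n + 1 : ℝ)) ^ k ≤ (3 * n) ^ k := by
    apply pow_le_pow_left₀ (by positivity)
    have : (1 : ℝ) ≤ n := by exact_mod_cast h2
    linarith
  have h6 : (C : ℝ) * (2 * n + 1) ^ k ≤ C * (3 * n) ^ k :=
    mul_le_mul_of_nonneg_left h5 (Nat.cast_nonneg C)
  have h7 := hgrow n
  rw [mul_pow] at h6
  linarith

end Pool.Agent.SQH
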