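import Pool.Agent.SQH.Defs

/-!
# SQH module Gzb: properties which hold outside a closed set without interior points

PROOF. The union of two (hence of finitely many) closed sets with empty interior is closed with empty interior
(`interior_union_isClosed_of_interior_empty`); translates of such sets are such (`Homeomorph.addRight`);
`gz_fr`: the frontier of an open set is closed with empty interior (`interior_frontier`-type lemma: a point of the
interior of `frontier U` is in `closure U`, so a neighbourhood inside `frontier U` meets `U`, but `U` is open and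
disjoint from its frontier).  `gz_ex`: `O` is not contained in `L` (otherwise `O ⊆ interior L = ∅`).
`gz_cv`: `cv X u z` only involves the values `u (z - w)` for `w` in the finite support of `X`: `gz_all` over the support
and `gz_shift`.
-/

set_option autoImplicit false

open AddMonoidAlgebra Filter Topology

namespace Pool.Agent.SQH

open Pool.Agent.SQG

theorem gz_mono {Q R : V → Prop} (h : Gz Q) (h1 : ∀ z, Q z → R z) : Gz R := by
  obtain ⟨L, hL, hi, hQ⟩ := h
  exact ⟨L, hL, hi, fun z hz => h1 z (hQ z hz)⟩

theorem gz_and {Q R : V → Prop} (h : Gz Q) (h1 : Gz R) : Gz (fun z => Q z ∧ R z) := by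
  obtain ⟨L, hL, hi, hQ⟩ := h
  obtain ⟨M, hM, hj, hR⟩ := h1
  refine ⟨L ∪ M, hL.union hM, ?_, fun z hz => ⟨hQ z fun h => hz (Or.inl h), hR z fun h => hz (Or.inr h)⟩⟩
  rw [interior_union_isClosed_of_interior_empty hL hj, hi]

theorem gzb_true : Gz (fun _ => True) := ⟨∅, isClosed_empty, interior_empty, fun _ _ => trivial⟩

theorem gzb_finset {ι : Type} (s : Finset ι) {Q : ι → V → Prop} (h : ∀ i ∈ s, Gz (Q i)) :
    Gz (fun z => ∀ i ∈ s, Q i z) := by
  classical
  induction s using Finset.induction_on with
  | empty => exact gz_mono gzb_true fun z _ i hi => absurd hi (Finset.notMem_empty i)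
  | insert a s ha ih =>
    have h1 := gz_and (h a (Finset.mem_insert_self a s))
      (ih fun i hi => h i (Finset.mem_insert_of_mem hi))
    refine gz_mono h1 fun z hz i hi => ?_
    rcases Finset.mem_insert.1 hi with rfl | hi
    · exact hz.1
    · exact hz.2 i hi

theorem gz_all {ι : Type} [Finite ι] {Q : ι → V → Prop} (h : ∀ i, Gz (Q i)) : Gz (fun z => ∀ i, Q i z) := by
  have := Fintype.ofFinite ι
  exact gz_mono (gzb_finset Finset.univ fun i _ => h i) fun z hz i => hz i (Finset.mem_univ i)

theorem gz_shift {Q : V → Prop} (h : Gz Q) (v : V) : Gz (fun z => Q (z - v)) := by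
  obtain ⟨L, hL, hi, hQ⟩ := h
  refine ⟨(Homeomorph.subRight v) ⁻¹' L, hL.preimage (Homeomorph.subRight v).continuous, ?_,
    fun z hz => hQ _ hz⟩
  rw [← (Homeomorph.subRight v).preimage_interior, hi, Set.preimage_empty]

theorem gz_fr {U : Set V} (hU : IsOpen U) : Gz (fun z => z ∉ frontier U) := by
  refine ⟨frontier U, isClosed_frontier, ?_, fun z hz => hz⟩
  rw [Set.eq_empty_iff_forall_notMem]
  intro z hz
  have h1 : z ∈ closure U := frontier_subset_closure (interior_subset hz)
  obtain ⟨w, hw, hwU⟩ := mem_closure_iff.1 h1 _ isOpen_interior hz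
  have h2 : w ∈ frontier U := interior_subset hw
  rw [hU.frontier_eq] at h2
  exact h2.2 hwU

theorem gz_ex {Q : V → Prop} (h : Gz Q) {O : Set V} (hO : IsOpen O) (hne : O.Nonempty) : ∃ z ∈ O, Q z := by
  obtain ⟨L, hL, hi, hQ⟩ := h
  by_contra hcon
  push Not at hcon
  have h1 : O ⊆ interior L := by
    refine interior_maximal (fun z hz => ?_) hO
    by_contra hzL
    exact hcon z hz (hQ z hzL)
  rw [hi] at h1
  obtain ⟨z, hz⟩ := hne
  exact h1 hz

theorem gz_cv (X : AddMonoidAlgebra ℤ V) {u v : V → ℤ} (h : Gz (fun z => u z = v z)) :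
    Gz (fun z => cv X u z = cv X v z) := by
  have h1 := gzb_finset X.coeff.support (Q := fun w z => u (z - w) = v (z - w)) fun w _ => gz_shift h w
  refine gz_mono h1 fun z hz => ?_
  unfold cv Finsupp.sum
  refine Finset.sum_congr rfl fun w hw => ?_
  show X.coeff w * u (z - w) = X.coeff w * v (z - w)
  rw [hz w hw]

end Pool.Agent.SQH
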