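import Mathlib

/-!
# SQH module Jmp: the jumps of a step function

PROOF. Choose `m x`, `n x` for all `x` from `hJ`.  Put `Φ x = m x + ∑ w ∈ S.filter (x < ·), f w`.  `Φ` is locally
constant: given `x` there is `δ > 0` with `J (x + a) = m x`, `J (x - a) = n x` for `0 < a < δ` and
`x ± a ∉ S` for `0 < a < δ`.  For `x' ∈ (x, x + δ)`: `m x' = m x` (both are the value of `J` at points slightly
larger than `x'`) and the filtered sums agree; for `x' ∈ (x - δ, x)`: `m x' = n x` and the sum for `x'` is the sum for
`x` plus `f x` (`f x = 0` if `x ∉ S`), so `Φ x' = n x + f x + .. = Φ x`.  `ℝ` is connected, so `Φ` is constant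
(`IsLocallyConstant.apply_eq_of_isPreconnected` or `PreconnectedSpace` lemmas; or the argument
`isPreconnected_univ.constant` with `Φ` continuous).  For `x` large (larger than all elements of `S` and `J = 0` to
the right of `x`), `Φ x = 0`.  So `∑ .. = - m x`, and `m x = m` (`𝓝[>] 0` is `NeBot`: two eventual values agree).
-/

set_option autoImplicit false

open AddMonoidAlgebra Filter Topology

namespace Pool.Agent.SQH

theorem jmp_ev_eq {α : Type*} {l : Filter α} [l.NeBot] {g : α → ℤ} {m n : ℤ}
    (h1 : ∀ᶠ a in l, g a = m) (h2 : ∀ᶠ a in l, g a = n) : m = n := by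
  obtain ⟨a, ha, hb⟩ := (h1.and h2).exists
  rw [← ha, hb]

theorem jmp_loc (J f : ℝ → ℤ) (S : Finset ℝ) (hS : ∀ x, x ∉ S → f x = 0) (M N : ℝ → ℤ)
    (hM : ∀ x, ∀ᶠ a in 𝓝[>] (0 : ℝ), J (x + a) = M x)
    (hN : ∀ x, ∀ᶠ a in 𝓝[>] (0 : ℝ), J (x - a) = N x)
    (hMN : ∀ x, M x - N x = f x) :
    IsLocallyConstant (fun x : ℝ => M x + ∑ w ∈ S.filter (fun w => x < w), f w) := by
  rw [IsLocallyConstant.iff_eventually_eq]
  intro x
  have hfin : ∀ᶠ a in 𝓝[>] (0 : ℝ), x + a ∉ S ∧ x - a ∉ S := by
    have h1 : ∀ᶠ y in 𝓝[≠] x, y ∉ S := by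
      have hc : IsClosed ((S.erase x : Finset ℝ) : Set ℝ) := (S.erase x).finite_toSet.isClosed
      have ho : ((S.erase x : Finset ℝ) : Set ℝ)ᶜ ∈ 𝓝 x :=
        hc.isOpen_compl.mem_nhds (by simp)
      have h2 : ∀ᶠ y in 𝓝[≠] x, y ∈ ((S.erase x : Finset ℝ) : Set ℝ)ᶜ :=
        mem_nhdsWithin_of_mem_nhds ho
      filter_upwards [h2, self_mem_nhdsWithin] with y hy hyx hyS
      exact hy (Finset.mem_coe.2 (Finset.mem_erase.2 ⟨hyx, hyS⟩))
    have t1 : Tendsto (fun a : ℝ => x + a) (𝓝[>] (0 : ℝ)) (𝓝[≠] x) := by
      refine tendsto_nhdsWithin_iff.2 ⟨?_, ?_⟩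
      · have : Tendsto (fun a : ℝ => x + a) (𝓝 0) (𝓝 (x + 0)) := (continuous_const.add continuous_id).tendsto 0
        rw [add_zero] at this
        exact this.mono_left nhdsWithin_le_nhds
      · filter_upwards [self_mem_nhdsWithin] with a ha
        have : (0 : ℝ) < a := ha
        simp only [Set.mem_compl_iff, Set.mem_singleton_iff]
        intro h; linarith
    have t2 : Tendsto (fun a : ℝ => x - a) (𝓝[>] (0 : ℝ)) (𝓝[≠] x) := by
      refine tendsto_nhdsWithin_iff.2 ⟨?_, ?_⟩
      · have : Tendsto (fun a : ℝ => x - a) (𝓝 0) (𝓝 (x - 0)) := (continuous_const.sub continuous_id).tendsto 0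
        rw [sub_zero] at this
        exact this.mono_left nhdsWithin_le_nhds
      · filter_upwards [self_mem_nhdsWithin] with a ha
        have : (0 : ℝ) < a := ha
        simp only [Set.mem_compl_iff, Set.mem_singleton_iff]
        intro h; linarith
    exact (t1.eventually h1).and (t2.eventually h1)
  have hall := (hM x).and ((hN x).and hfin)
  obtain ⟨δ, hδ, hsub⟩ := (mem_nhdsGT_iff_exists_Ioo_subset).1 hall
  have hδ0 : (0 : ℝ) < δ := hδ
  have key : ∀ a : ℝ, 0 < a → a < δ → J (x + a) = M x ∧ J (x - a) = N x ∧ x + a ∉ S ∧ x - a ∉ S :=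
    fun a h1 h2 => hsub ⟨h1, h2⟩
  filter_upwards [Ioo_mem_nhds (show x - δ < x by linarith) (show x < x + δ by linarith)] with y hy
  obtain ⟨hy1, hy2⟩ := hy
  rcases lt_trichotomy y x with hlt | heq | hgt
  · -- y < x
    have hMy : M y = N x := by
      have h1 : ∀ᶠ a in 𝓝[>] (0 : ℝ), J (y + a) = N x := by
        filter_upwards [self_mem_nhdsWithin, Ioo_mem_nhdsGT (show (0 : ℝ) < x - y by linarith)] with a _ ha
        have h2 := (key (x - y - a) (by linarith [ha.2]) (by linarith [ha.1])).2.1
        have h3 : x - (x - y - a) = y + a := by ring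
        rwa [h3] at h2
      exact jmp_ev_eq (hM y) h1
    have hsum : ∑ w ∈ S.filter (fun w => y < w), f w =
        f x + ∑ w ∈ S.filter (fun w => x < w), f w := by
      by_cases hx : x ∈ S
      · have hins : S.filter (fun w => y < w) = insert x (S.filter (fun w => x < w)) := by
          ext w
          simp only [Finset.mem_filter, Finset.mem_insert]
          constructor
          · rintro ⟨hw, hyw⟩
            rcases lt_trichotomy w x with h | h | h
            · exfalso
              have h2 := (key (x - w) (by linarith) (by linarith)).2.2.2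
              apply h2
              have h3 : x - (x - w) = w := by ring
              rwa [h3]
            · exact Or.inl h
            · exact Or.inr ⟨hw, h⟩
          · rintro (h | ⟨hw, h⟩)
            · rw [h]; exact ⟨hx, hlt⟩
            · exact ⟨hw, hlt.trans h⟩
        rw [hins, Finset.sum_insert (by simp)]
      · have heqf : S.filter (fun w => y < w) = S.filter (fun w => x < w) := by
          ext w
          simp only [Finset.mem_filter]
          constructor
          · rintro ⟨hw, hyw⟩
            rcases lt_trichotomy w x with h | h | h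
            · exfalso
              have h2 := (key (x - w) (by linarith) (by linarith)).2.2.2
              apply h2
              have h3 : x - (x - w) = w := by ring
              rwa [h3]
            · exact absurd (h ▸ hw) hx
            · exact ⟨hw, h⟩
          · rintro ⟨hw, h⟩
            exact ⟨hw, hlt.trans h⟩
        rw [heqf, hS x hx, zero_add]
    show M y + _ = M x + _
    rw [hsum, hMy]
    have := hMN x
    linarith
  · rw [heq]
  · -- x < y
    have hMy : M y = M x := by
      have h1 : ∀ᶠ a in 𝓝[>] (0 : ℝ), J (y + a) = M x := by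
        filter_upwards [Ioo_mem_nhdsGT (show (0 : ℝ) < x + δ - y by linarith)] with a ha
        have h2 := (key (y - x + a) (by linarith [ha.1]) (by linarith [ha.2])).1
        have h3 : x + (y - x + a) = y + a := by ring
        rwa [h3] at h2
      exact jmp_ev_eq (hM y) h1
    have heqf : S.filter (fun w => y < w) = S.filter (fun w => x < w) := by
      ext w
      simp only [Finset.mem_filter]
      constructor
      · rintro ⟨hw, hyw⟩
        exact ⟨hw, hgt.trans hyw⟩
      · rintro ⟨hw, h⟩
        refine ⟨hw, ?_⟩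
        by_contra hcon
        push Not at hcon
        have h2 := (key (w - x) (by linarith) (by linarith)).2.2.1
        apply h2
        have h3 : x + (w - x) = w := by ring
        rwa [h3]
    show M y + _ = M x + _
    rw [heqf, hMy]

theorem jmp (J f : ℝ → ℤ) (S : Finset ℝ) (hS : ∀ x, x ∉ S → f x = 0)
    (hJ : ∀ x, ∃ m n : ℤ, (∀ᶠ a in 𝓝[>] (0 : ℝ), J (x + a) = m) ∧ (∀ᶠ a in 𝓝[>] (0 : ℝ), J (x - a) = n) ∧
      m - n = f x)
    (hR : ∀ᶠ x in atTop, J x = 0) (x : ℝ) (m : ℤ) (hm : ∀ᶠ a in 𝓝[>] (0 : ℝ), J (x + a) = m) :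
    ∑ w ∈ S.filter (fun w => x < w), f w = -m := by
  choose M N hM hN hMN using hJ
  have hloc := jmp_loc J f S hS M N hM hN hMN
  have hmx : M x = m := jmp_ev_eq (hM x) hm
  obtain ⟨R, hR'⟩ := eventually_atTop.1 hR
  obtain ⟨B, hB⟩ := S.finite_toSet.bddAbove
  have hc := hloc.apply_eq_of_preconnectedSpace x (max R B)
  have hM0 : M (max R B) = 0 := by
    have h1 : ∀ᶠ a in 𝓝[>] (0 : ℝ), J (max R B + a) = 0 := by
      filter_upwards [self_mem_nhdsWithin] with a ha
      have ha' : (0 : ℝ) < a := ha
      exact hR' _ (by linarith [le_max_left R B])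
    exact jmp_ev_eq (hM _) h1
  have hF : S.filter (fun w => max R B < w) = ∅ := by
    rw [Finset.filter_eq_empty_iff]
    intro w hw hlt
    have h1 : w ≤ B := hB (by exact_mod_cast hw)
    have h2 := le_max_right R B
    linarith
  simp only [hF, Finset.sum_empty, hM0, hmx, add_zero] at hc
  linarith

end Pool.Agent.SQH
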