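import Mathlib

/-!
# SQH module Kda: elements with nonzero sum of coefficients are no zero divisors modulo q

PROOF. `K = ZMod q` (a field), `R = MonoidAlgebra K Λ` is commutative of characteristic `q`.  `Λ` is a finitely
generated abelian group, so its torsion subgroup is finite (`CommGroup.torsion`, e.g. via
`CommGroup.equiv_free_prod_prod_multiplicative_zmod` as in Pool/Agent/SQG/Spl.lean, or Noetherian `ℤ`-modules) and by
`htor` there is one `a` with `x ^ (q ^ a) = 1` for all `x` of finite order.  Let `n = q ^ a`.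
`e ^ n = ∑ x, single (x ^ n) (e.coeff x ^ n)` (Frobenius: `sum_pow_char_pow`/`add_pow_char_pow` and
`MonoidAlgebra.single_pow`; induction over `e`).  `Λ₁ = {x ^ n}` is a subgroup (the range of the `n`-th power map)
which is torsion free: if `(x ^ n) ^ m = 1`, `m > 0`, then `x` has finite order, so `x ^ n = 1`.  `Λ₁` is finitely
generated, so `MonoidAlgebra K Λ₁` is a domain (`AffineMonoid.to_twoUniqueProds`, instance `NoZeroDivisors`).
`e ^ n` is the image of an element `y ∈ MonoidAlgebra K Λ₁` with sum of coefficients `(∑ coefficients of e) ^ n ≠ 0`,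
so `y ≠ 0`.  From `e * X = 0` get `e ^ n * X = 0`.  If `X.coeff x0 ≠ 0`, let `X'` be the element of
`MonoidAlgebra K Λ₁` with coefficients `X'(z) = X.coeff (z * x0)`: then `y * X' = 0` (compare coefficients: the
coefficient of `e ^ n * X` at `z * x0` only involves elements of `Λ₁ * x0`), so `X' = 0`, a contradiction.
(Reduce `0 < n` steps as you like.)
-/

set_option autoImplicit false

open AddMonoidAlgebra Filter Topology

namespace Pool.Agent.SQH

private theorem kda_exp {q : ℕ} {Λ : Type} [CommGroup Λ] [Group.FG Λ]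
    (htor : ∀ x : Λ, IsOfFinOrder x → ∃ a : ℕ, x ^ (q ^ a) = 1) :
    ∃ a : ℕ, ∀ x : Λ, IsOfFinOrder x → x ^ (q ^ a) = 1 := by
  classical
  have hfin : Module.Finite ℤ (Additive Λ) := Module.Finite.iff_addGroup_fg.mpr inferInstance
  let T : Submodule ℤ (Additive Λ) := AddSubgroup.toIntSubmodule (AddCommGroup.torsion (Additive Λ))
  have hT : T.FG := IsNoetherian.noetherian T
  obtain ⟨S, hS⟩ := hT
  have h1 : ∀ s ∈ S, ∃ a : ℕ, (q ^ a) • s = 0 := by
    intro s hs
    have h2 : s ∈ T := by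
      rw [← hS]
      exact Submodule.subset_span hs
    have h3 : IsOfFinAddOrder s := h2
    obtain ⟨a, ha⟩ := htor s.toMul ((isOfFinAddOrder_ofMul_iff (x := s.toMul)).1 h3)
    exact ⟨a, by simpa using congrArg Additive.ofMul ha⟩
  choose! A hA using h1
  refine ⟨∑ s ∈ S, A s, fun x hx => ?_⟩
  have hx' : Additive.ofMul x ∈ T := by
    have : IsOfFinAddOrder (Additive.ofMul x) := (isOfFinAddOrder_ofMul_iff (x := x)).2 hx
    exact this
  rw [← hS] at hx'
  have key : ∀ y ∈ Submodule.span ℤ (S : Set (Additive Λ)), (q ^ (∑ s ∈ S, A s)) • y = 0 := by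
    intro y hy
    induction hy using Submodule.span_induction with
    | mem z hz =>
      have hle : A z ≤ ∑ s ∈ S, A s := Finset.single_le_sum (fun _ _ => Nat.zero_le _) hz
      obtain ⟨b, hb⟩ := Nat.exists_eq_add_of_le hle
      rw [hb, pow_add, mul_comm, mul_smul, hA z hz, smul_zero]
    | zero => rw [smul_zero]
    | add z w _ _ hz hw => rw [smul_add, hz, hw, add_zero]
    | smul c z _ hz => rw [smul_comm, hz, smul_zero]
  have := key _ hx'
  simpa using congrArg Additive.toMul this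

private theorem kda_pow {q : ℕ} [Fact q.Prime] {Λ : Type} [CommGroup Λ] (a : ℕ)
    (e : MonoidAlgebra (ZMod q) Λ) :
    e ^ (q ^ a) = MonoidAlgebra.mapDomainRingHom (ZMod q) (powMonoidHom (q ^ a) : Λ →* Λ) e := by
  have : CharP (MonoidAlgebra (ZMod q) Λ) q :=
    charP_of_injective_algebraMap (algebraMap (ZMod q) (MonoidAlgebra (ZMod q) Λ)).injective q
  have h : iterateFrobenius (MonoidAlgebra (ZMod q) Λ) q a =
      MonoidAlgebra.mapDomainRingHom (ZMod q) (powMonoidHom (q ^ a) : Λ →* Λ) := by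
    apply MonoidAlgebra.ringHom_ext
    · intro r
      rw [iterateFrobenius_def, MonoidAlgebra.single_pow, ZMod.pow_card_pow]
      simp [MonoidAlgebra.mapDomain_single]
    · intro m
      rw [iterateFrobenius_def, MonoidAlgebra.single_pow]
      simp [MonoidAlgebra.mapDomain_single]
  have h2 := congrArg (fun f => f e) h
  exact h2

theorem kda {q : ℕ} (hq : q.Prime) {Λ : Type} [CommGroup Λ] [Group.FG Λ]
    (htor : ∀ x : Λ, IsOfFinOrder x → ∃ a : ℕ, x ^ (q ^ a) = 1) (e X : MonoidAlgebra (ZMod q) Λ)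
    (he : (e.coeff.sum fun _ a => a) ≠ 0) (h : e * X = 0) : X = 0 := by
  classical
  have : Fact q.Prime := ⟨hq⟩
  obtain ⟨a, ha⟩ := kda_exp htor
  set n : ℕ := q ^ a with hn
  have hn0 : 0 < n := pow_pos hq.pos a
  let φ : Λ →* Λ := powMonoidHom n
  let Λ₁ : Subgroup Λ := φ.range
  have : Group.FG Λ₁ := Group.fg_range φ
  have : IsMulTorsionFree Λ₁ := by
    refine ⟨fun m hm => ?_⟩
    rintro ⟨x, x', rfl⟩ ⟨y, y', rfl⟩ hxy
    have h1 : (x' ^ n) ^ m = (y' ^ n) ^ m := congrArg Subtype.val hxy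
    have h2 : IsOfFinOrder (x' / y') := by
      rw [isOfFinOrder_iff_pow_eq_one]
      refine ⟨n * m, Nat.mul_pos hn0 (Nat.pos_of_ne_zero hm), ?_⟩
      rw [div_pow, pow_mul, pow_mul, h1, div_self']
    have h3 := ha _ h2
    rw [div_pow, div_eq_one] at h3
    exact Subtype.ext h3
  let ψ : Λ →* Λ₁ := φ.rangeRestrict
  let y : MonoidAlgebra (ZMod q) Λ₁ := MonoidAlgebra.mapDomainRingHom (ZMod q) ψ e
  have hy : MonoidAlgebra.mapDomainRingHom (ZMod q) Λ₁.subtype y = e ^ n := by
    rw [hn, kda_pow a e]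
    show (MonoidAlgebra.mapDomainRingHom (ZMod q) Λ₁.subtype).comp
      (MonoidAlgebra.mapDomainRingHom (ZMod q) ψ) e = _
    rw [← MonoidAlgebra.mapDomainRingHom_comp]
    rfl
  have hy0 : y ≠ 0 := by
    intro h0
    apply he
    have h1 : (y.coeff.sum fun _ a => a) = e.coeff.sum fun _ a => a := by
      show ((Finsupp.mapDomain ψ e.coeff).sum fun _ a => a) = _
      rw [Finsupp.sum_mapDomain_index] <;> simp
    rw [← h1, h0]
    simp
  have hX : e ^ n * X = 0 := by
    obtain ⟨k, hk⟩ := Nat.exists_eq_succ_of_ne_zero hn0.ne'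
    rw [hk, pow_succ, mul_assoc, h, mul_zero]
  by_contra hne
  obtain ⟨x0, hx0⟩ : ∃ x0, X.coeff x0 ≠ 0 := by
    by_contra hcon
    push Not at hcon
    apply hne
    ext x
    simpa using hcon x
  let X' : MonoidAlgebra (ZMod q) Λ₁ :=
    MonoidAlgebra.ofCoeff (X.coeff.comapDomain (fun z : Λ₁ => (z : Λ) * x0)
      (fun z _ w _ hzw => Subtype.ext (mul_right_cancel hzw)))
  have hX' : ∀ z : Λ₁, X'.coeff z = X.coeff ((z : Λ) * x0) := fun z => rfl
  have hmul : y * X' = 0 := by
    ext z
    have h1 : (MonoidAlgebra.mapDomainRingHom (ZMod q) Λ₁.subtype y * X).coeff ((z : Λ) * x0) = 0 := by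
      rw [hy, hX]
      rfl
    rw [MonoidAlgebra.coeff_mul_apply_left] at h1
    have h2 : ((Finsupp.mapDomain Λ₁.subtype y.coeff).sum
        fun h r => r * X.coeff (h⁻¹ * ((z : Λ) * x0))) = 0 := h1
    rw [Finsupp.sum_mapDomain_index (by simp) (by intros; ring)] at h2
    rw [MonoidAlgebra.coeff_mul_apply_left]
    refine Eq.trans ?_ h2
    refine Finsupp.sum_congr fun w _ => ?_
    rw [hX']
    simp [mul_assoc]
  rcases mul_eq_zero.1 hmul with h1 | h1
  · exact hy0 h1
  · apply hx0
    have := hX' 1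
    rw [h1] at this
    simpa using this.symm

end Pool.Agent.SQH
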