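import Pool.Agent.SQH.Kda
import Pool.Agent.SQH.Defs

/-!
# SQH module Kdb: the sum of the linear parts modulo q

PROOF. Suppose `X h0 ≠ 0`.  Let `I = {i | (g i).s = 1}`, `J = {i | (g i).s = -1}` (every unit of `ℤ` is `1` or `-1`).
From `hX` at `h * (g j)⁻¹`: `∑ i, X (h * (g j)⁻¹ * g i) = 0` for all `j`; sum over `j ∈ I` minus the sum over
`j ∈ J`.  The mixed terms cancel: `∑ j ∈ I, ∑ i ∈ J, X (h * ((g j)⁻¹ * g i)) = ∑ j ∈ J, ∑ i ∈ I, X (h * ((g j)⁻¹ * g i))`
because `r = (g j)⁻¹ * g i` has `r.s = -1`, so `r⁻¹ = r` (`r.s = -1` gives `r * r = 1`, see `refl_sq` in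
Pool/Agent/SQG/Inja.lean), i.e. `(g j)⁻¹ * g i = (g i)⁻¹ * g j`, and exchange the sums.  So for all `h`:
`∑ i ∈ I, ∑ j ∈ I, X (h * ((g j)⁻¹ * g i)) = ∑ i ∈ J, ∑ j ∈ J, X (h * ((g j)⁻¹ * g i))`.
Let `Λ` be the subgroup of `O2` generated by the finitely many `(g j)⁻¹ * g i` with `(g i).s = (g j).s`: finitely
generated, contained in the subgroup of `htor`, all its elements have `s = 1`, so it is commutative (`rot_comm` in
Inja.lean; make it a `CommGroup`).  Let `e = ∑ i ∈ I, ∑ j ∈ I, single ⟨(g j)⁻¹ * g i, _⟩ 1 - ∑ i ∈ J, ∑ j ∈ J, single .. 1`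
in `MonoidAlgebra (ZMod q) Λ` and `Y = ∑ x, single x⁻¹ (X (h0 * x))` (finite sum over the `x : Λ` with
`X (h0 * x) ≠ 0`; e.g. `MonoidAlgebra.ofCoeff`/`Finsupp.ofSupportFinite (fun x => X (h0 * x⁻¹))`).  Then `e * Y = 0`:
the coefficient of `single y 1 * Y` at `z⁻¹` is `X (h0 * z * y)`.  The sum of the coefficients of `e` is
`|I| ^ 2 - |J| ^ 2 = (|I| + |J|) * (|I| - |J|) = p * ∑ i, (g i).s`, not `0` modulo `q` (`hn`).  `kda` gives `Y = 0`, but
`Y.coeff 1 = X h0 ≠ 0`.
-/

set_option autoImplicit false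

open AddMonoidAlgebra Filter Topology

namespace Pool.Agent.SQH

open Pool.Agent.SQG

private theorem kdb_refl_sq (σ : O2) (hs : σ.s = -1) : σ * σ = 1 := by
  have ht : σ.t = -1 := by simp [O2.t, hs]
  have h := σ.h
  apply O2.ext'
  · simp only [O2.mul_a, O2.one_a, ht]
    linear_combination h
  · simp only [O2.mul_b, O2.one_b, ht]
    ring
  · simp [hs]

private theorem kdb_rot_comm (x y : O2) (hx : x.s = 1) (hy : y.s = 1) : x * y = y * x := by
  have ht : x.t = 1 := by simp [O2.t, hx]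
  have hu : y.t = 1 := by simp [O2.t, hy]
  apply O2.ext'
  · simp only [O2.mul_a, ht, hu]
    ring
  · simp only [O2.mul_b, ht, hu]
    ring
  · simp only [O2.mul_s, hx, hy]

private theorem kdb_count {p : ℕ} (s : Fin p → ℤˣ) :
    ∑ j, ∑ i, (if s i = s j then ((s j : ℤˣ) : ℤ) else 0) = p * ∑ i, ((s i : ℤˣ) : ℤ) := by
  have h1 : ∀ j i, 2 * (if s i = s j then ((s j : ℤˣ) : ℤ) else 0) = ((s j : ℤˣ) : ℤ) + ((s i : ℤˣ) : ℤ) := by
    intro j i
    have hne : (-1 : ℤˣ) ≠ 1 := by decide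
    have hne' : (1 : ℤˣ) ≠ -1 := by decide
    rcases Int.units_eq_one_or (s i) with hi | hi <;> rcases Int.units_eq_one_or (s j) with hj | hj <;>
      simp [hi, hj, hne, hne']
  have h2 : 2 * ∑ j, ∑ i, (if s i = s j then ((s j : ℤˣ) : ℤ) else 0) = 2 * (p * ∑ i, ((s i : ℤˣ) : ℤ)) := by
    simp only [Finset.mul_sum, h1, Finset.sum_add_distrib, Finset.sum_const, Finset.card_univ, Fintype.card_fin,
      nsmul_eq_mul]
    rw [← Finset.mul_sum, ← Finset.mul_sum, ← Finset.mul_sum]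
    ring
  exact mul_left_cancel₀ two_ne_zero h2

theorem kdb {p : ℕ} (g : Fin p → O2) (q : ℕ) (hq : q.Prime) (hn : ¬ (q : ℤ) ∣ p * ∑ i, ((g i).s : ℤ))
    (htor : ∀ k ∈ Subgroup.closure (Set.range fun x : Fin p × Fin p => (g x.1)⁻¹ * g x.2), k.s = 1 → IsOfFinOrder k →
      ∃ a : ℕ, k ^ (q ^ a) = 1)
    (X : O2 →₀ ZMod q) (hX : ∀ h, ∑ i, X (h * g i) = 0) : X = 0 := by
  classical
  by_contra hX0
  obtain ⟨h0, hh0⟩ : ∃ h0, X h0 ≠ 0 := by
    by_contra hcon
    push Not at hcon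
    exact hX0 (Finsupp.ext hcon)
  have hs : ∀ i, (g i).s = 1 ∨ (g i).s = -1 := fun i => Int.units_eq_one_or _
  have hchi : ∀ i, (((g i).s : ℤ) : ZMod q) = if (g i).s = 1 then 1 else -1 := by
    intro i
    rcases hs i with h | h
    · simp [h]
    · simp [h]
  -- the signed sum over the pairs of equal sign
  have key : ∀ h : O2, ∑ j, ∑ i, (if (g i).s = (g j).s then (((g j).s : ℤ) : ZMod q) * X (h * ((g j)⁻¹ * g i)) else 0) = 0 := by
    intro h
    have hsw : ∀ i j, (g i).s = -1 → (g j).s = 1 → (g i)⁻¹ * g j = (g j)⁻¹ * g i := by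
      intro i j hi hj
      have h1 : ((g j)⁻¹ * g i).s = -1 := by simp [hi, hj]
      have h2 := kdb_refl_sq _ h1
      have h3 : ((g j)⁻¹ * g i)⁻¹ = (g j)⁻¹ * g i := inv_eq_of_mul_eq_one_right h2
      rw [← h3, mul_inv_rev, inv_inv]
    have e1 : ∑ j, ∑ i, (((g j).s : ℤ) : ZMod q) * X (h * ((g j)⁻¹ * g i)) = 0 := by
      refine Finset.sum_eq_zero fun j _ => ?_
      rw [← Finset.mul_sum]
      have := hX (h * (g j)⁻¹)
      simp only [mul_assoc] at this
      rw [this, mul_zero]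
    have e2 : ∀ j i, (((g j).s : ℤ) : ZMod q) * X (h * ((g j)⁻¹ * g i)) =
        (if (g i).s = (g j).s then (((g j).s : ℤ) : ZMod q) * X (h * ((g j)⁻¹ * g i)) else 0) +
        ((if (g j).s = 1 ∧ (g i).s = -1 then X (h * ((g j)⁻¹ * g i)) else 0) -
        (if (g j).s = -1 ∧ (g i).s = 1 then X (h * ((g j)⁻¹ * g i)) else 0)) := by
      intro j i
      have hne : (-1 : ℤˣ) ≠ 1 := by decide
      have hne' : (1 : ℤˣ) ≠ -1 := by decide
      rcases hs i with hi | hi <;> rcases hs j with hj | hj <;> simp [hi, hj, hne, hne']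
    have e3 : ∑ j, ∑ i, (if (g j).s = -1 ∧ (g i).s = 1 then X (h * ((g j)⁻¹ * g i)) else 0) =
        ∑ j, ∑ i, (if (g j).s = 1 ∧ (g i).s = -1 then X (h * ((g j)⁻¹ * g i)) else 0) := by
      rw [Finset.sum_comm]
      refine Finset.sum_congr rfl fun j _ => Finset.sum_congr rfl fun i _ => ?_
      by_cases hc : (g j).s = 1 ∧ (g i).s = -1
      · rw [if_pos hc, if_pos ⟨hc.2, hc.1⟩, hsw i j hc.2 hc.1]
      · rw [if_neg hc, if_neg (fun hc' => hc ⟨hc'.2, hc'.1⟩)]
    have e4 : ∑ j, ∑ i, (((g j).s : ℤ) : ZMod q) * X (h * ((g j)⁻¹ * g i)) =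
        ∑ j, ∑ i, (if (g i).s = (g j).s then (((g j).s : ℤ) : ZMod q) * X (h * ((g j)⁻¹ * g i)) else 0) +
        ((∑ j, ∑ i, (if (g j).s = 1 ∧ (g i).s = -1 then X (h * ((g j)⁻¹ * g i)) else 0)) -
        (∑ j, ∑ i, (if (g j).s = -1 ∧ (g i).s = 1 then X (h * ((g j)⁻¹ * g i)) else 0))) := by
      rw [← Finset.sum_sub_distrib, ← Finset.sum_add_distrib]
      refine Finset.sum_congr rfl fun j _ => ?_
      rw [← Finset.sum_sub_distrib, ← Finset.sum_add_distrib]
      exact Finset.sum_congr rfl fun i _ => e2 j i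
    rw [e1, e3, sub_self, add_zero] at e4
    exact e4.symm
  -- the commutative group
  let S : Set O2 := {x | ∃ j i, (g i).s = (g j).s ∧ x = (g j)⁻¹ * g i}
  have hSfin : S.Finite := by
    refine (Set.finite_range fun x : Fin p × Fin p => (g x.1)⁻¹ * g x.2).subset ?_
    rintro x ⟨j, i, -, rfl⟩
    exact ⟨(j, i), rfl⟩
  have hS1 : ∀ x ∈ S, x.s = 1 := by
    rintro x ⟨j, i, h, rfl⟩
    rw [O2.mul_s, O2.inv_s, h]
    exact Int.units_mul_self _
  have hcl1 : ∀ x ∈ Subgroup.closure S, x.s = 1 := by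
    intro x hx
    induction hx using Subgroup.closure_induction with
    | mem y hy => exact hS1 y hy
    | one => rfl
    | mul y z _ _ hy hz => rw [O2.mul_s, hy, hz, mul_one]
    | inv y _ hy => rw [O2.inv_s, hy]
  have hle : Subgroup.closure S ≤ Subgroup.closure (Set.range fun x : Fin p × Fin p => (g x.1)⁻¹ * g x.2) := by
    refine Subgroup.closure_mono ?_
    rintro x ⟨j, i, -, rfl⟩
    exact ⟨(j, i), rfl⟩
  let inst : CommGroup (Subgroup.closure S) :=
    { (inferInstance : Group (Subgroup.closure S)) with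
      mul_comm := fun x y => Subtype.ext (kdb_rot_comm _ _ (hcl1 _ x.2) (hcl1 _ y.2)) }
  have hfg : Group.FG (Subgroup.closure S) := by
    have : Finite S := hSfin
    exact Group.closure_finite_fg S
  have hT : ∀ j i, (g i).s = (g j).s → (g j)⁻¹ * g i ∈ Subgroup.closure S :=
    fun j i h => Subgroup.subset_closure ⟨j, i, h, rfl⟩
  let e : MonoidAlgebra (ZMod q) (Subgroup.closure S) := ∑ j, ∑ i,
    if h : (g i).s = (g j).s then MonoidAlgebra.single (⟨(g j)⁻¹ * g i, hT j i h⟩ : Subgroup.closure S)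
      (((g j).s : ℤ) : ZMod q) else 0
  have hinj : Function.Injective fun x : Subgroup.closure S => h0 * (x : O2)⁻¹ := by
    intro x y hxy
    exact Subtype.ext (inv_injective (mul_left_cancel hxy))
  let Y : MonoidAlgebra (ZMod q) (Subgroup.closure S) :=
    MonoidAlgebra.ofCoeff (X.comapDomain (fun x : Subgroup.closure S => h0 * (x : O2)⁻¹) hinj.injOn)
  have hY : ∀ x : Subgroup.closure S, Y.coeff x = X (h0 * (x : O2)⁻¹) := fun x => rfl
  let f : MonoidAlgebra (ZMod q) (Subgroup.closure S) →+ ZMod q :=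
    { toFun := fun x => x.coeff.sum fun _ a => a
      map_zero' := by simp
      map_add' := fun x y => by
        rw [MonoidAlgebra.coeff_add, Finsupp.sum_add_index'] <;> simp }
  have hf1 : ∀ (x : Subgroup.closure S) (a : ZMod q), f (MonoidAlgebra.single x a) = a := by
    intro x a
    show ((MonoidAlgebra.single x a).coeff.sum fun _ a => a) = a
    rw [MonoidAlgebra.coeff_single, Finsupp.sum_single_index rfl]
  have hsumc : (e.coeff.sum fun _ a => a) ≠ 0 := by
    show f e ≠ 0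
    have h1 : f e = ((∑ j, ∑ i, (if (g i).s = (g j).s then (((g j).s : ℤˣ) : ℤ) else 0) : ℤ) : ZMod q) := by
      simp only [e, map_sum, Int.cast_sum]
      refine Finset.sum_congr rfl fun j _ => Finset.sum_congr rfl fun i _ => ?_
      by_cases hc : (g i).s = (g j).s
      · rw [dif_pos hc, if_pos hc, hf1]
      · rw [dif_neg hc, if_neg hc, map_zero, Int.cast_zero]
    rw [h1, kdb_count fun i => (g i).s]
    intro h2
    exact hn ((ZMod.intCast_zmod_eq_zero_iff_dvd _ _).1 h2)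
  have hmul : e * Y = 0 := by
    ext z
    have h1 := key (h0 * (z : O2)⁻¹)
    simp only [e, Finset.sum_mul, MonoidAlgebra.coeff_sum, Finsupp.finsetSum_apply]
    rw [MonoidAlgebra.coeff_zero, Finsupp.zero_apply, ← h1]
    refine Finset.sum_congr rfl fun j _ => Finset.sum_congr rfl fun i _ => ?_
    by_cases hc : (g i).s = (g j).s
    · rw [dif_pos hc, if_pos hc, MonoidAlgebra.coeff_mul_apply_left, MonoidAlgebra.coeff_single,
        Finsupp.sum_single_index (by simp), hY]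
      congr 2
      simp [mul_assoc]
    · rw [dif_neg hc, if_neg hc, zero_mul]
      simp
  have hY0 : Y = 0 := by
    refine kda hq ?_ e Y hsumc hmul
    intro x hx
    have hx' : IsOfFinOrder (x : O2) := by
      exact (Subgroup.closure S).subtype.isOfFinOrder hx
    obtain ⟨a, ha⟩ := htor x (hle x.2) (hcl1 _ x.2) hx'
    exact ⟨a, Subtype.ext ha⟩
  apply hh0
  have := hY 1
  rw [hY0] at this
  simpa using this.symm

end Pool.Agent.SQH
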