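import Pool.Agent.SQH.Kdb

/-!
# SQH module Kdc: from modulo q to the integers

If `X` is killed by the sum of the linear parts then all values of `X` are divisible by `q` (module `Kdb`), and `X / q`
is killed too; so all values are divisible by all powers of `q` and vanish.
-/

set_option autoImplicit false

open AddMonoidAlgebra Filter Topology

namespace Pool.Agent.SQH

open Pool.Agent.SQG

theorem inj_q {p : ℕ} (g : Fin p → O2) (q : ℕ) (hq : q.Prime) (hn : ¬ (q : ℤ) ∣ p * ∑ i, ((g i).s : ℤ))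
    (htor : ∀ k ∈ Subgroup.closure (Set.range fun x : Fin p × Fin p => (g x.1)⁻¹ * g x.2), k.s = 1 → IsOfFinOrder k →
      ∃ a : ℕ, k ^ (q ^ a) = 1) : InjZ p g := by
  intro X hX
  have hq0 : (q : ℤ) ≠ 0 := by exact_mod_cast hq.ne_zero
  have key : ∀ n : ℕ, ∃ Y : O2 →₀ ℤ, (∀ h, ∑ i, Y (h * g i) = 0) ∧ ∀ h, X h = (q : ℤ) ^ n * Y h := by
    intro n
    induction n with
    | zero => exact ⟨X, hX, fun h => by simp⟩
    | succ n ih =>
      obtain ⟨Y, hY, hXY⟩ := ih
      have h1 : Y.mapRange (Int.cast : ℤ → ZMod q) Int.cast_zero = 0 := by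
        refine kdb g q hq hn htor _ fun h => ?_
        simp only [Finsupp.mapRange_apply]
        rw [← Int.cast_sum, hY h, Int.cast_zero]
      have h2 : ∀ h, (q : ℤ) ∣ Y h := by
        intro h
        have h3 : ((Y h : ℤ) : ZMod q) = 0 := by
          have := DFunLike.congr_fun h1 h
          rwa [Finsupp.mapRange_apply] at this
        exact (ZMod.intCast_zmod_eq_zero_iff_dvd _ _).1 h3
      have h4 : ∀ h, Y h = q * Y.mapRange (fun a : ℤ => a / q) (Int.zero_ediv _) h := by
        intro h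
        rw [Finsupp.mapRange_apply, Int.mul_ediv_cancel' (h2 h)]
      refine ⟨Y.mapRange (fun a : ℤ => a / q) (Int.zero_ediv _), fun h => ?_, fun h => ?_⟩
      · have h5 := hY h
        simp only [h4 (h * g _)] at h5
        rw [← Finset.mul_sum] at h5
        exact (mul_eq_zero.1 h5).resolve_left hq0
      · rw [hXY h, pow_succ, mul_assoc, ← h4 h]
  ext h
  by_contra h0
  have h0' : X h ≠ 0 := h0
  obtain ⟨Y, -, hXY⟩ := key (X h).natAbs
  have h1 : (q : ℤ) ^ (X h).natAbs ∣ X h := ⟨Y h, hXY h⟩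
  have h2 : q ^ (X h).natAbs ∣ (X h).natAbs := by
    have := Int.natAbs_dvd_natAbs.2 h1
    rwa [Int.natAbs_pow, Int.natAbs_natCast] at this
  have h3 := Nat.le_of_dvd (Int.natAbs_pos.2 h0') h2
  exact absurd (Nat.lt_pow_self hq.one_lt) (not_lt.2 h3)

end Pool.Agent.SQH
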