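import Pool.Agent.SQH.Fol
import Pool.Agent.SQH.Dmt
import Pool.Agent.SQH.Defs

/-!
# SQH module Lan: left annihilators of the sum of the isometries

PROOF. (Compare the header of Pool/Agent/SQH/Rgc.lean; parts of its proof may be copied.)  Let
`R = AddMonoidAlgebra ℤ V`, a commutative domain (`V` is a `ℚ`-vector space: `TwoUniqueSums`), `𝔽 = FractionRing R`,
`j = algebraMap R 𝔽` injective.  Let `T` be the `𝔽`-linear map on `O2 →₀ 𝔽` with
`(T X) h = ∑ i, j (single (act h (c i)) 1) * X (h * g i)`, so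
`T (single y 1) x = ∑ i, if x * g i = y then j (single (act x (c i)) 1) else 0`.
`tr k Y h = gm k (Y (k⁻¹ * h))`: if `∑ i, single (act h (c i)) 1 * Y (h * g i) = B h` for all `h` then
`∑ i, single (act h (c i)) 1 * tr k Y (h * g i) = gm k (B (k⁻¹ * h))`.
`hR` gives `Z` with finite support, `Z n0 ≠ 0` and `∑ i, single (act h (c i)) 1 * Z (h * g i) = 0` for all `h`; let
`z k h = j (tr k Z h)`.  `N` is the finite set of all `x` with `Z x ≠ 0` and of all `g i`.  `fol N (N.card ^ 2)` and `dimt`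
give `a₀ : O2 →₀ 𝔽`, `a₀ ≠ 0`, with `∑ x, a₀ x * T (single y 1) x = 0` for all `y`, i.e.
`∑ i, a₀ (y * (g i)⁻¹) * j (single (act (y * (g i)⁻¹) (c i)) 1) = 0`.  Multiply by a common denominator
(`IsLocalization.exist_integer_multiples_of_finset`): `a : O2 → R` with finite support, nonzero, with the same relation:
this is the first relation.
Second relation: let `F' h = F h` if `h ∈ Γ` and `0` otherwise; `∑ i, single (act h (c i)) 1 * F' (h * g i) = BB' h` with
`BB' h = BB h` for `h ∈ Γ` and `0` otherwise (`D.rel`, `hg`).  For `k : O2`: multiply the relation for `tr k F'` at `x` by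
`a x` and sum over `x` (finite): `∑ x, a x * gm k (BB' (k⁻¹ * x)) = ∑ y, (∑ i, a (y * (g i)⁻¹) *
single (act (y * (g i)⁻¹) (c i)) 1) * tr k F' y = 0`.  Only the `x = k * s` with `s ∈ H` contribute (`BB s = 0` if not
`Ax s`), and `gm k (BB s) = single (act k (shf s)) 1 * gm k (qq ℤ (1, 0) (0, 1))`, and
`gm k (qq ℤ (1, 0) (0, 1)) = qq ℤ (act k (1, 0)) (act k (0, 1)) ≠ 0` can be cancelled.
-/

set_option autoImplicit false

open AddMonoidAlgebra Filter Topology

namespace Pool.Agent.SQH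

open Pool.Agent.SQG

/-- Left annihilators of the sum of the isometries which annihilate the square. -/
def Lann (p : ℕ) (g : Fin p → O2) (c : Fin p → V) (H : Finset O2) : Prop :=
  ∃ a : O2 → AddMonoidAlgebra ℤ V, {h | a h ≠ 0}.Finite ∧ (∃ h, a h ≠ 0) ∧
    (∀ y, ∑ i, single (act (y * (g i)⁻¹) (c i)) 1 * a (y * (g i)⁻¹) = 0) ∧
    ∀ k, ∑ s ∈ H, single (act k (shf s)) 1 * a (k * s) = 0

theorem Lan_inj : Function.Injective
    (algebraMap (AddMonoidAlgebra ℤ V) (FractionRing (AddMonoidAlgebra ℤ V))) := IsFractionRing.injective _ _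

theorem Lan_gm0 (k : O2) {X : AddMonoidAlgebra ℤ V} (h : gm k X = 0) : X = 0 := by
  have h1 := congrArg (gm k⁻¹) h
  rwa [gm_mul, inv_mul_cancel, gm_one, map_zero] at h1

theorem Lan_qq : qq ℤ ((1, 0) : V) (0, 1) ≠ 0 := by
  have h2 : ∀ v : V, v ≠ 0 → (single v (1 : ℤ) - 1 : AddMonoidAlgebra ℤ V) ≠ 0 := by
    intro v hv h0
    have h3 : (single v (1 : ℤ) : AddMonoidAlgebra ℤ V) = single 0 1 := sub_eq_zero.1 h0
    have h4 := congrArg (fun X : AddMonoidAlgebra ℤ V => X.coeff v) h3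
    simp only [coeff_single] at h4
    rw [Finsupp.single_eq_same, Finsupp.single_apply, if_neg (fun h => hv h.symm)] at h4
    exact one_ne_zero h4
  unfold qq
  refine mul_ne_zero (h2 _ ?_) (h2 _ ?_)
  · intro h0
    have h4 := congrArg Prod.fst h0
    simp at h4
  · intro h0
    have h4 := congrArg Prod.snd h0
    simp at h4

/-- The translated relation. -/
theorem Lan_tr {p : ℕ} {g : Fin p → O2} {c : Fin p → V} {Y B : O2 → AddMonoidAlgebra ℤ V}
    (h : ∀ h, ∑ i, single (act h (c i)) 1 * Y (h * g i) = B h) (k h' : O2) :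
    ∑ i, single (act h' (c i)) 1 * gm k (Y (k⁻¹ * (h' * g i))) = gm k (B (k⁻¹ * h')) := by
  rw [← h, map_sum]
  refine Finset.sum_congr rfl fun i _ => ?_
  rw [map_mul, gm_single, ← act_mul, mul_inv_cancel_left, mul_assoc]

/-- The linear map. -/
noncomputable def LanT (p : ℕ) (g : Fin p → O2) (c : Fin p → V) :
    (O2 →₀ FractionRing (AddMonoidAlgebra ℤ V)) →ₗ[FractionRing (AddMonoidAlgebra ℤ V)]
      (O2 →₀ FractionRing (AddMonoidAlgebra ℤ V)) :=
  Finsupp.linearCombination _ fun x => ∑ i, Finsupp.single (x * (g i)⁻¹)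
    (algebraMap (AddMonoidAlgebra ℤ V) (FractionRing (AddMonoidAlgebra ℤ V)) (single (act (x * (g i)⁻¹) (c i)) 1))

open Classical in
theorem LanT_single (p : ℕ) (g : Fin p → O2) (c : Fin p → V) (y : O2) (b : FractionRing (AddMonoidAlgebra ℤ V))
    (x : O2) : LanT p g c (Finsupp.single y b) x =
      ∑ i, if x = y * (g i)⁻¹ then
        b * algebraMap (AddMonoidAlgebra ℤ V) (FractionRing (AddMonoidAlgebra ℤ V)) (single (act x (c i)) 1) else 0 := by
  unfold LanT
  rw [Finsupp.linearCombination_single, Finsupp.smul_apply, Finsupp.finsetSum_apply, Finset.smul_sum]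
  refine Finset.sum_congr rfl fun i _ => ?_
  by_cases h : x = y * (g i)⁻¹
  · rw [if_pos h, ← h, Finsupp.single_eq_same, smul_eq_mul]
  · rw [if_neg h, Finsupp.single_apply, if_neg (fun h' => h h'.symm), smul_zero]

theorem LanT_apply (p : ℕ) (g : Fin p → O2) (c : Fin p → V) (X : O2 →₀ FractionRing (AddMonoidAlgebra ℤ V))
    (h : O2) : LanT p g c X h = ∑ i, algebraMap (AddMonoidAlgebra ℤ V) (FractionRing (AddMonoidAlgebra ℤ V))
      (single (act h (c i)) 1) * X (h * g i) := by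
  classical
  induction X using Finsupp.induction_linear with
  | zero => simp
  | add X Y hX hY =>
    rw [map_add, Finsupp.add_apply, hX, hY, ← Finset.sum_add_distrib]
    refine Finset.sum_congr rfl fun i _ => ?_
    rw [Finsupp.add_apply, mul_add]
  | single y b =>
    rw [LanT_single]
    refine Finset.sum_congr rfl fun i _ => ?_
    by_cases h1 : h = y * (g i)⁻¹
    · have h2 : h * g i = y := by rw [h1, inv_mul_cancel_right]
      rw [if_pos h1, h2, Finsupp.single_eq_same, mul_comm]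
    · have h2 : ¬ y = h * g i := by
        intro h3
        apply h1
        rw [h3, mul_inv_cancel_right]
      rw [if_neg h1, Finsupp.single_apply, if_neg h2, mul_zero]

/-- A left annihilator over the group ring. -/
theorem Lan_ann {p : ℕ} {g : Fin p → O2} {c : Fin p → V} (hR : ¬ Reg p g c) :
    ∃ a : O2 → AddMonoidAlgebra ℤ V, {h | a h ≠ 0}.Finite ∧ (∃ h, a h ≠ 0) ∧
      ∀ y, ∑ i, single (act (y * (g i)⁻¹) (c i)) 1 * a (y * (g i)⁻¹) = 0 := by
  classical
  unfold Reg at hR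
  push Not at hR
  obtain ⟨Z, hZf, hZ, n0, hn0⟩ := hR
  set j := algebraMap (AddMonoidAlgebra ℤ V) (FractionRing (AddMonoidAlgebra ℤ V)) with hj
  have hj0 : ∀ x, j x = 0 → x = 0 := fun x hx => Lan_inj (by rw [← hj, hx, map_zero])
  have hzf : ∀ k : O2, (Function.support fun h => j (gm k (Z (k⁻¹ * h)))).Finite := by
    intro k
    refine (hZf.image fun h => k * h).subset fun h hh => ⟨k⁻¹ * h, ?_, mul_inv_cancel_left _ _⟩
    intro h0
    apply hh
    show j (gm k (Z (k⁻¹ * h))) = 0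
    rw [h0, map_zero, map_zero]
  set z : O2 → (O2 →₀ FractionRing (AddMonoidAlgebra ℤ V)) :=
    fun k => Finsupp.ofSupportFinite (fun h => j (gm k (Z (k⁻¹ * h)))) (hzf k) with hz
  have hz1 : ∀ k h, z k h = j (gm k (Z (k⁻¹ * h))) := fun k h => rfl
  set N : Finset O2 := hZf.toFinset ∪ Finset.univ.image g with hN
  have hN1 : ∀ x, Z x ≠ 0 → x ∈ N := by
    intro x hx
    rw [hN, Finset.mem_union]
    exact Or.inl (hZf.mem_toFinset.2 hx)
  have hN2 : ∀ i, g i ∈ N := by
    intro i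
    rw [hN, Finset.mem_union]
    exact Or.inr (Finset.mem_image_of_mem g (Finset.mem_univ i))
  obtain ⟨S₀, S, hS, hc⟩ := fol N (N.card ^ 2)
  obtain ⟨a₀, ha0, ha⟩ := dimt (LanT p g c) N z (by
      intro k
      ext h
      rw [LanT_apply]
      have h1 := congrArg j (Lan_tr (B := fun _ => 0) hZ k h)
      rw [map_sum, map_zero, map_zero] at h1
      rw [← hj, Finsupp.zero_apply, ← h1]
      refine Finset.sum_congr rfl fun i _ => ?_
      rw [hz1, map_mul j]) (by
      intro k x hx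
      apply hN1
      intro h0
      apply hx
      rw [hz1, h0, map_zero, map_zero]) n0 (hN1 n0 hn0) (by
      intro k h0
      apply hn0
      rw [hz1, inv_mul_cancel_left] at h0
      exact Lan_gm0 k (hj0 _ h0)) (by
      intro x y hx
      rw [LanT_single] at hx
      obtain ⟨i, _, hi⟩ := Finset.exists_ne_zero_of_sum_ne_zero hx
      by_cases h1 : x = y * (g i)⁻¹
      · have h2 : x⁻¹ * y = g i := by
          rw [h1]
          group
        rw [h2]
        exact hN2 i
      · exact absurd (if_neg h1) hi) S₀ S hS hc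
  -- the relation for `a₀`
  have h1 : ∀ y, ∑ i, j (single (act (y * (g i)⁻¹) (c i)) 1) * a₀ (y * (g i)⁻¹) = 0 := by
    intro y
    rw [← ha y]
    have h2 : ∀ x, a₀ x * LanT p g c (Finsupp.single y 1) x =
        ∑ i, if x = y * (g i)⁻¹ then j (single (act (y * (g i)⁻¹) (c i)) 1) * a₀ (y * (g i)⁻¹) else 0 := by
      intro x
      rw [LanT_single, Finset.mul_sum]
      refine Finset.sum_congr rfl fun i _ => ?_
      by_cases h3 : x = y * (g i)⁻¹
      · rw [if_pos h3, if_pos h3, ← h3, one_mul, mul_comm]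
      · rw [if_neg h3, if_neg h3, mul_zero]
    rw [Finset.sum_congr rfl fun x _ => h2 x, Finset.sum_comm]
    refine Finset.sum_congr rfl fun i _ => ?_
    rw [Finset.sum_ite_eq']
    by_cases h3 : y * (g i)⁻¹ ∈ a₀.support
    · rw [if_pos h3]
    · rw [if_neg h3, Finsupp.notMem_support_iff.1 h3, mul_zero]
  obtain ⟨b, hb⟩ := IsLocalization.exist_integer_multiples_of_finset (nonZeroDivisors (AddMonoidAlgebra ℤ V))
    (a₀.support.image a₀)
  have hb' : ∀ x, ∃ r, j r = j (b : AddMonoidAlgebra ℤ V) * a₀ x := by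
    intro x
    by_cases h3 : x ∈ a₀.support
    · obtain ⟨r, hr⟩ := hb (a₀ x) (Finset.mem_image_of_mem _ h3)
      refine ⟨r, ?_⟩
      rw [← Algebra.smul_def]
      exact hr
    · exact ⟨0, by rw [Finsupp.notMem_support_iff.1 h3, mul_zero, map_zero]⟩
  choose a haj using hb'
  have hb0 : j (b : AddMonoidAlgebra ℤ V) ≠ 0 := by
    intro h0
    exact nonZeroDivisors.ne_zero b.2 (hj0 _ h0)
  refine ⟨a, ?_, ?_, ?_⟩
  · refine (a₀.support.finite_toSet).subset fun x hx => ?_
    by_contra h3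
    apply hx
    apply hj0
    rw [haj, Finsupp.notMem_support_iff.1 h3, mul_zero]
  · obtain ⟨x, hx⟩ := Finsupp.ne_iff.1 ha0
    refine ⟨x, fun h0 => hx ?_⟩
    have h3 := haj x
    rw [h0, map_zero] at h3
    rcases mul_eq_zero.1 h3.symm with h4 | h4
    · exact absurd h4 hb0
    · exact h4
  · intro y
    apply hj0
    rw [map_sum]
    have h3 : ∀ i, j (single (act (y * (g i)⁻¹) (c i)) 1 * a (y * (g i)⁻¹)) =
        j (b : AddMonoidAlgebra ℤ V) * (j (single (act (y * (g i)⁻¹) (c i)) 1) * a₀ (y * (g i)⁻¹)) := by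
      intro i
      rw [map_mul, haj]
      ring
    rw [Finset.sum_congr rfl fun i _ => h3 i, ← Finset.mul_sum, h1, mul_zero]

/-- Pairing of a left annihilator with a relation. -/
theorem Lan_pair {p : ℕ} {g : Fin p → O2} {c : Fin p → V} {a Y B : O2 → AddMonoidAlgebra ℤ V}
    (haf : {h | a h ≠ 0}.Finite)
    (ha : ∀ y, ∑ i, single (act (y * (g i)⁻¹) (c i)) 1 * a (y * (g i)⁻¹) = 0)
    (hY : ∀ h, ∑ i, single (act h (c i)) 1 * Y (h * g i) = B h) : ∑ x ∈ haf.toFinset, a x * B x = 0 := by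
  classical
  set S := haf.toFinset with hS
  have hS0 : ∀ x, x ∉ S → a x = 0 := by
    intro x hx
    by_contra h0
    exact hx (haf.mem_toFinset.2 h0)
  set W : Finset O2 := Finset.univ.biUnion fun i => S.map (Equiv.mulRight (g i)).toEmbedding with hW
  have h1 : ∀ i, ∑ x ∈ S, a x * (single (act x (c i)) 1 * Y (x * g i)) =
      ∑ y ∈ W, Y y * (single (act (y * (g i)⁻¹) (c i)) 1 * a (y * (g i)⁻¹)) := by
    intro i
    have h2 : ∑ y ∈ S.map (Equiv.mulRight (g i)).toEmbedding,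
        Y y * (single (act (y * (g i)⁻¹) (c i)) 1 * a (y * (g i)⁻¹)) =
        ∑ y ∈ W, Y y * (single (act (y * (g i)⁻¹) (c i)) 1 * a (y * (g i)⁻¹)) := by
      refine Finset.sum_subset ?_ fun y _ hy => ?_
      · rw [hW]
        exact Finset.subset_biUnion_of_mem (fun i => S.map (Equiv.mulRight (g i)).toEmbedding) (Finset.mem_univ i)
      · have h3 : y * (g i)⁻¹ ∉ S := by
          intro h4
          apply hy
          rw [Finset.mem_map]
          exact ⟨_, h4, by simp⟩
        rw [hS0 _ h3, mul_zero, mul_zero]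
    rw [← h2, Finset.sum_map]
    refine Finset.sum_congr rfl fun x _ => ?_
    simp only [Equiv.coe_toEmbedding, Equiv.coe_mulRight, mul_inv_cancel_right]
    ring
  have h2 : ∀ x, a x * B x = ∑ i, a x * (single (act x (c i)) 1 * Y (x * g i)) := by
    intro x
    rw [← hY, Finset.mul_sum]
  rw [Finset.sum_congr rfl fun x _ => h2 x, Finset.sum_comm, Finset.sum_congr rfl fun i _ => h1 i, Finset.sum_comm]
  refine Finset.sum_eq_zero fun y _ => ?_
  rw [← Finset.mul_sum, ha, mul_zero]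

theorem lann {p : ℕ} {g : Fin p → O2} {c : Fin p → V} {F : O2 → AddMonoidAlgebra ℤ V} (D : Dat p g c F)
    (Γ : Subgroup O2) (hg : ∀ i, g i ∈ Γ) (H : Finset O2) (hH : ∀ s, s ∈ H ↔ s ∈ Γ ∧ Ax s)
    (hR : ¬ Reg p g c) : Lann p g c H := by
  classical
  obtain ⟨a, haf, hne, ha⟩ := Lan_ann hR
  refine ⟨a, haf, hne, ha, fun k => ?_⟩
  obtain ⟨F', hF'⟩ : ∃ F' : O2 → AddMonoidAlgebra ℤ V, ∀ h, F' h = if h ∈ Γ then F h else 0 := ⟨_, fun _ => rfl⟩
  obtain ⟨B', hB'⟩ : ∃ B' : O2 → AddMonoidAlgebra ℤ V, ∀ h, B' h = if h ∈ Γ then BB h else 0 := ⟨_, fun _ => rfl⟩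
  have hF : ∀ h, ∑ i, single (act h (c i)) 1 * F' (h * g i) = B' h := by
    intro h
    by_cases h1 : h ∈ Γ
    · rw [hB', if_pos h1, ← D.rel h]
      refine Finset.sum_congr rfl fun i _ => ?_
      rw [hF', if_pos (Γ.mul_mem h1 (hg i))]
    · rw [hB', if_neg h1]
      refine Finset.sum_eq_zero fun i _ => ?_
      have h2 : h * g i ∉ Γ := by
        intro h3
        apply h1
        have h4 := Γ.mul_mem h3 (Γ.inv_mem (hg i))
        rwa [mul_inv_cancel_right] at h4
      rw [hF', if_neg h2, mul_zero]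
  have h1 : ∑ x ∈ haf.toFinset, a x * gm k (B' (k⁻¹ * x)) = 0 :=
    Lan_pair (Y := fun h => gm k (F' (k⁻¹ * h))) haf ha (fun h => Lan_tr hF k h)
  obtain ⟨T, hT⟩ : ∃ T : Finset O2, T = H.map (Equiv.mulLeft k).toEmbedding := ⟨_, rfl⟩
  have h2 : ∀ x, x ∉ T → gm k (B' (k⁻¹ * x)) = 0 := by
    intro x hx
    rw [hB']
    by_cases h3 : k⁻¹ * x ∈ Γ
    · have h4 : ¬ Ax (k⁻¹ * x) := by
        intro h5
        apply hx
        rw [hT, Finset.mem_map]
        exact ⟨k⁻¹ * x, (hH _).2 ⟨h3, h5⟩, by simp⟩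
      have h5 : BB (k⁻¹ * x) = 0 := if_neg h4
      rw [if_pos h3, h5, map_zero]
    · rw [if_neg h3, map_zero]
  have h3 : ∑ x ∈ T, a x * gm k (B' (k⁻¹ * x)) = 0 := by
    have h4 : ∑ x ∈ haf.toFinset, a x * gm k (B' (k⁻¹ * x)) =
        ∑ x ∈ haf.toFinset ∪ T, a x * gm k (B' (k⁻¹ * x)) := by
      refine Finset.sum_subset Finset.subset_union_left fun x _ hx => ?_
      have h5 : a x = 0 := by
        by_contra h0
        exact hx (haf.mem_toFinset.2 h0)
      rw [h5, zero_mul]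
    have h5 : ∑ x ∈ T, a x * gm k (B' (k⁻¹ * x)) =
        ∑ x ∈ haf.toFinset ∪ T, a x * gm k (B' (k⁻¹ * x)) := by
      refine Finset.sum_subset Finset.subset_union_right fun x _ hx => ?_
      rw [h2 x hx, mul_zero]
    rw [h5, ← h4]
    exact h1
  have h4 : ∑ x ∈ T, a x * gm k (B' (k⁻¹ * x)) =
      (∑ s ∈ H, single (act k (shf s)) 1 * a (k * s)) * gm k (qq ℤ ((1, 0) : V) (0, 1)) := by
    rw [hT, Finset.sum_map, Finset.sum_mul]
    refine Finset.sum_congr rfl fun s hs => ?_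
    obtain ⟨h5, h6⟩ := (hH s).1 hs
    have h7 : BB s = single (shf s) 1 * qq ℤ ((1, 0) : V) (0, 1) := if_pos h6
    have h8 : B' (k⁻¹ * (k * s)) = single (shf s) 1 * qq ℤ ((1, 0) : V) (0, 1) := by
      rw [inv_mul_cancel_left, hB', if_pos h5, h7]
    show a (k * s) * gm k (B' (k⁻¹ * (k * s))) = _
    rw [h8, map_mul, gm_single, ← mul_assoc, mul_comm (a (k * s))]
  rw [h4] at h3
  rcases mul_eq_zero.1 h3 with h5 | h5
  · exact h5
  · exact absurd (Lan_gm0 k h5) Lan_qq

end Pool.Agent.SQH
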