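import Pool.Agent.SQH.Defs

/-!
# SQH module Led: leading coefficients of a family of elements of the group ring

PROOF. Let `a h0 ≠ 0`.  There is `G : V →+ ℚ` with `G (v - w) ≠ 0` for all `v ≠ w` in the support of `a h0`
(`Module.exists_dual_forall_apply_ne_zero` over `ℚ`, as in Pool/Agent/SQG/Onz.lean, for the finite family of
differences; use a finite index type such as `{q : V × V // q.1 ∈ S ∧ q.2 ∈ S ∧ q.1 ≠ q.2}`).
Let `φ : AddMonoidAlgebra ℤ V →+* PowerSeries ℚ` be the ring homomorphism with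
`φ (single v c) = c * PowerSeries.rescale (G v) (PowerSeries.exp ℚ)` (`AddMonoidAlgebra.lift` as for `aug` / `ev` in
Pool/Agent/SQG/Defs.lean, FDefs.lean; multiplicativity: `PowerSeries.exp_mul_exp_eq_exp_add`).  The coefficient of
`X ^ m` in `φ a` is `(∑ w ∈ supp a, a.coeff w * (G w) ^ m) / m!` (`PowerSeries.coeff_rescale`, `PowerSeries.coeff_exp`).
`φ (a h0) ≠ 0`: otherwise all sums `∑ w, (a h0).coeff w * (G w) ^ m` vanish, and as `G` is injective on the support, all
coefficients vanish (`Matrix.eq_zero_of_forall_index_sum_pow_mul_eq_zero` or its variants, Vandermonde).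
Let `e` be the least `m` such that the coefficient of `X ^ m` in some `φ (a h)` is not zero (`Nat.find`), and
`A h = PowerSeries.coeff e (φ (a h))`, finitely supported (`ha`), `A ≠ 0`.  If `∑ i ∈ s, single (v i) 1 * a (γ i) = 0`,
apply `φ` and take the coefficient of `X ^ e`: all `φ (a (γ i))` have vanishing coefficients below `e` and the constant
coefficient of `rescale _ (exp ℚ)` is `1`, so the coefficient of `X ^ e` of the product is `A (γ i)`
(`PowerSeries.coeff_mul`, only the pair `(0, e)` contributes): `∑ i ∈ s, A (γ i) = 0`.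
-/

set_option autoImplicit false

open AddMonoidAlgebra Filter Topology

namespace Pool.Agent.SQH

open Pool.Agent.SQG

private noncomputable def Led_exp (G : V →+ ℚ) : Multiplicative V →* PowerSeries ℚ where
  toFun v := PowerSeries.rescale (G v.toAdd) (PowerSeries.exp ℚ)
  map_one' := by
    ext n
    rcases n with _ | n
    · simp
    · simp [PowerSeries.coeff_one]
  map_mul' x y := by
    rw [PowerSeries.exp_mul_exp_eq_exp_add, toAdd_mul, map_add]

private noncomputable def Led_phi (G : V →+ ℚ) : AddMonoidAlgebra ℤ V →+* PowerSeries ℚ :=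
  ((AddMonoidAlgebra.lift ℤ (PowerSeries ℚ) V) (Led_exp G) : AddMonoidAlgebra ℤ V →ₐ[ℤ] PowerSeries ℚ).toRingHom

private theorem Led_phi_single (G : V →+ ℚ) (v : V) (c : ℤ) :
    Led_phi G (single v c) = c • PowerSeries.rescale (G v) (PowerSeries.exp ℚ) := by
  have h1 : Led_phi G (single v c) = (AddMonoidAlgebra.lift ℤ (PowerSeries ℚ) V) (Led_exp G) (single v c) := rfl
  rw [h1, AddMonoidAlgebra.lift_single]
  rfl

private theorem Led_coeff (G : V →+ ℚ) (m : ℕ) (a : AddMonoidAlgebra ℤ V) :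
    PowerSeries.coeff m (Led_phi G a) =
      (∑ w ∈ a.coeff.support, (a.coeff w : ℚ) * (G w) ^ m) * (1 / (m.factorial : ℚ)) := by
  have h1 : a = ∑ w ∈ a.coeff.support, single w (a.coeff w) := by
    apply coeff_injective
    ext x
    simp [Finsupp.single_apply]
  conv_lhs => rw [h1]
  rw [map_sum, map_sum, Finset.sum_mul]
  refine Finset.sum_congr rfl fun w _ => ?_
  rw [Led_phi_single, map_zsmul, PowerSeries.coeff_rescale, PowerSeries.coeff_exp]
  simp only [zsmul_eq_mul, one_div, Algebra.algebraMap_self, RingHom.id_apply]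
  ring

private theorem Led_van (S : Finset V) (c : V → ℚ) (G : V → ℚ) (hG : ∀ v ∈ S, ∀ w ∈ S, v ≠ w → G v ≠ G w)
    (h : ∀ m : ℕ, ∑ w ∈ S, c w * (G w) ^ m = 0) : ∀ w ∈ S, c w = 0 := by
  classical
  intro w0 hw0
  let P : Polynomial ℚ := ∏ w ∈ S.erase w0, (Polynomial.X - Polynomial.C (G w))
  have h1 : ∑ w ∈ S, c w * P.eval (G w) = 0 := by
    have h2 : ∀ w ∈ S, c w * P.eval (G w) = ∑ m ∈ Finset.range (P.natDegree + 1), P.coeff m * (c w * (G w) ^ m) := by
      intro w _
      rw [Polynomial.eval_eq_sum_range, Finset.mul_sum]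
      refine Finset.sum_congr rfl fun m _ => ?_
      ring
    rw [Finset.sum_congr rfl h2, Finset.sum_comm]
    refine Finset.sum_eq_zero fun m _ => ?_
    rw [← Finset.mul_sum, h m, mul_zero]
  have h3 : ∑ w ∈ S, c w * P.eval (G w) = c w0 * P.eval (G w0) := by
    refine Finset.sum_eq_single_of_mem w0 hw0 fun w hw hne => ?_
    have h4 : P.eval (G w) = 0 := by
      simp only [P, Polynomial.eval_prod]
      exact Finset.prod_eq_zero (Finset.mem_erase.2 ⟨hne, hw⟩) (by simp)
    rw [h4, mul_zero]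
  have h5 : P.eval (G w0) ≠ 0 := by
    simp only [P, Polynomial.eval_prod]
    refine Finset.prod_ne_zero_iff.2 fun w hw => ?_
    rw [Finset.mem_erase] at hw
    simpa [sub_ne_zero] using hG w0 hw0 w hw.2 (Ne.symm hw.1)
  rw [h3] at h1
  exact (mul_eq_zero.1 h1).resolve_right h5

private theorem Led_G (S : Finset V) : ∃ G : V →+ ℚ, ∀ v ∈ S, ∀ w ∈ S, v ≠ w → G v ≠ G w := by
  classical
  have hfin : Finite {q : V × V // q.1 ∈ S ∧ q.2 ∈ S ∧ q.1 ≠ q.2} := by
    refine Set.Finite.subset (S ×ˢ S).finite_toSet ?_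
    rintro ⟨x, y⟩ ⟨hx, hy, -⟩
    exact Finset.mem_coe.2 (Finset.mem_product.2 ⟨hx, hy⟩)
  obtain ⟨g, hg⟩ := Module.exists_dual_forall_apply_ne_zero (K := ℚ) (M := V)
    (fun q : {q : V × V // q.1 ∈ S ∧ q.2 ∈ S ∧ q.1 ≠ q.2} => q.1.1 - q.1.2) (fun q => sub_ne_zero.2 q.2.2.2)
  refine ⟨g.toAddMonoidHom, fun v hv w hw hne h => hg ⟨(v, w), hv, hw, hne⟩ ?_⟩
  have h' : g v = g w := h
  simp [map_sub, h']

theorem lead {a : O2 → AddMonoidAlgebra ℤ V} (ha : {h | a h ≠ 0}.Finite) (hne : ∃ h, a h ≠ 0) :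
    ∃ A : O2 →₀ ℚ, A ≠ 0 ∧ ∀ (ι : Type) (s : Finset ι) (γ : ι → O2) (v : ι → V),
      ∑ i ∈ s, single (v i) 1 * a (γ i) = 0 → ∑ i ∈ s, A (γ i) = 0 := by
  classical
  obtain ⟨h0, hh0⟩ := hne
  obtain ⟨G, hG⟩ := Led_G (a h0).coeff.support
  have hex : ∃ m : ℕ, ∃ h, PowerSeries.coeff m (Led_phi G (a h)) ≠ 0 := by
    by_contra hc
    push Not at hc
    apply hh0
    have h1 : ∀ w ∈ (a h0).coeff.support, ((a h0).coeff w : ℚ) = 0 := by
      refine Led_van _ (fun w => ((a h0).coeff w : ℚ)) G hG fun m => ?_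
      have h2 := hc m h0
      rw [Led_coeff] at h2
      exact (mul_eq_zero.1 h2).resolve_right (by positivity)
    apply coeff_injective
    ext w
    by_cases hw : w ∈ (a h0).coeff.support
    · simpa using h1 w hw
    · simpa using Finsupp.notMem_support_iff.1 hw
  obtain ⟨h1, hh1⟩ := Nat.find_spec hex
  set e := Nat.find hex with he
  have hlow : ∀ m, m < e → ∀ h, PowerSeries.coeff m (Led_phi G (a h)) = 0 := by
    intro m hm h
    by_contra hc
    exact Nat.find_min hex hm ⟨h, hc⟩
  refine ⟨Finsupp.ofSupportFinite (fun h => PowerSeries.coeff e (Led_phi G (a h)))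
    (ha.subset fun h hh hc => hh ?_), ?_, ?_⟩
  · simp [hc]
  · intro hc
    exact hh1 (DFunLike.congr_fun hc h1)
  · intro ι s γ v hs
    have h2 := congrArg (fun x => PowerSeries.coeff e (Led_phi G x)) hs
    simp only [map_sum, map_mul, map_zero, Led_phi_single, one_smul] at h2
    refine (Finset.sum_congr rfl fun i _ => ?_).trans h2
    symm
    rw [PowerSeries.coeff_mul, Finset.sum_eq_single_of_mem (0, e) (by simp)]
    · simp [Finsupp.ofSupportFinite]
    · rintro ⟨p, q⟩ hpq hne'
      have hpq' : p + q = e := by simpa using hpq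
      have hq : q < e := by
        have h3 : p ≠ 0 := by
          intro hp
          apply hne'
          have h4 : q = e := by omega
          rw [hp, h4]
        omega
      rw [hlow q hq, mul_zero]

end Pool.Agent.SQH
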