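import Pool.Agent.SQH.Led

/-!
# SQH module Lfn: no left annihilator

PROOF. Take `A : O2 →₀ ℚ` from `lead`.  `h1 y` gives `∑ i, A (y * (g i)⁻¹) = 0`, `h2 k` gives `∑ s ∈ H, A (k * s) = 0`.
Let `d > 0` be a common denominator of the finitely many values of `A` (e.g. the product of the denominators over the
support) and `B : O2 →₀ ℤ` with `(B h : ℚ) = d * A h` (e.g. `Finsupp.mapRange` of `q ↦ ⌊d * q⌋`, or
`Finsupp.onFinset`).  Then `B` satisfies the same two relations (cast to `ℚ`), `B = 0` by `hU`, so `A = 0`: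
contradiction.
-/

set_option autoImplicit false

open AddMonoidAlgebra Filter Topology

namespace Pool.Agent.SQH

open Pool.Agent.SQG

theorem Lfn_den (A : O2 →₀ ℚ) : ∃ d : ℕ, d ≠ 0 ∧ ∃ B : O2 →₀ ℤ, ∀ h, (B h : ℚ) = d * A h := by
  classical
  have h1 : ∀ h, ∃ z : ℤ, (z : ℚ) = ((∏ x ∈ A.support, (A x).den : ℕ) : ℚ) * A h := by
    intro h
    by_cases hh : h ∈ A.support
    · obtain ⟨e, he⟩ : (A h).den ∣ ∏ x ∈ A.support, (A x).den := Finset.dvd_prod_of_mem (fun x => (A x).den) hh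
      refine ⟨e * (A h).num, ?_⟩
      rw [he]
      push_cast
      have h2 := Rat.mul_den_eq_num (A h)
      rw [← h2]
      ring
    · exact ⟨0, by rw [Finsupp.notMem_support_iff.1 hh, mul_zero, Int.cast_zero]⟩
  choose z hz using h1
  refine ⟨∏ x ∈ A.support, (A x).den, ?_, ?_⟩
  · exact Finset.prod_ne_zero_iff.2 fun x _ => (A x).den_ne_zero
  · refine ⟨Finsupp.onFinset A.support z fun h hh => ?_, fun h => hz h⟩
    rw [Finsupp.mem_support_iff]
    intro h0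
    apply hh
    have h2 := hz h
    rw [h0, mul_zero] at h2
    exact_mod_cast h2

theorem lfin {p : ℕ} {g : Fin p → O2} {c : Fin p → V} (H : Finset O2)
    (hU : ∀ A : O2 →₀ ℤ, (∀ k, ∑ i, A (k * (g i)⁻¹) = 0) → (∀ k, ∑ s ∈ H, A (k * s) = 0) → A = 0)
    {a : O2 → AddMonoidAlgebra ℤ V} (ha : {h | a h ≠ 0}.Finite) (hne : ∃ h, a h ≠ 0)
    (h1 : ∀ y, ∑ i, single (act (y * (g i)⁻¹) (c i)) 1 * a (y * (g i)⁻¹) = 0)
    (h2 : ∀ k, ∑ s ∈ H, single (act k (shf s)) 1 * a (k * s) = 0) : False := by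
  obtain ⟨A, hA, hl⟩ := lead ha hne
  obtain ⟨d, hd, B, hB⟩ := Lfn_den A
  have hd' : (d : ℚ) ≠ 0 := Nat.cast_ne_zero.2 hd
  have hB0 : B = 0 := by
    apply hU
    · intro k
      have h3 := hl (Fin p) Finset.univ (fun i => k * (g i)⁻¹) (fun i => act (k * (g i)⁻¹) (c i)) (h1 k)
      have h4 : ((∑ i, B (k * (g i)⁻¹) : ℤ) : ℚ) = 0 := by
        rw [Int.cast_sum, Finset.sum_congr rfl fun i _ => hB (k * (g i)⁻¹), ← Finset.mul_sum, h3, mul_zero]
      exact_mod_cast h4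
    · intro k
      have h3 := hl O2 H (fun s => k * s) (fun s => act k (shf s)) (h2 k)
      have h4 : ((∑ s ∈ H, B (k * s) : ℤ) : ℚ) = 0 := by
        rw [Int.cast_sum, Finset.sum_congr rfl fun s _ => hB (k * s), ← Finset.mul_sum, h3, mul_zero]
      exact_mod_cast h4
  apply hA
  ext h
  have h3 := hB h
  rw [hB0] at h3
  have h4 : (d : ℚ) * A h = 0 := by rw [← h3]; simp
  rcases mul_eq_zero.1 h4 with h5 | h5
  · exact absurd h5 hd'
  · exact h5

end Pool.Agent.SQH
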