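import Pool.Agent.SQG.Defs

/-!
# SQH module Orz: orders at 1 over the integers

PROOF. The same proof as for `ord_fam` in Pool/Agent/SQG/Ord.lean (its lemmas `T_dvd_nat`, `single_neg_sub`,
`T_dvd_int`, `dvd_aug` and `ord_fam`, copy and adapt) with `ℤ` in place of `ZMod p`: `T = single 1 1 - 1`;
`T ∣ f - single 0 (aug f)`; `AddMonoidAlgebra ℤ ℤ = LaurentPolynomial ℤ` is Noetherian and a domain and `T` is not a
unit (`aug T = 0`), so for `f i0 ≠ 0` there is a largest `e` with `T ^ e ∣ f i` for all `i`; with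
`f i = T ^ e * f' i`, if all `aug (f' i) = 0` then `T ^ (e + 1)` divides all `f i`.
-/

set_option autoImplicit false

open AddMonoidAlgebra Filter Topology

namespace Pool.Agent.SQH

open Pool.Agent.SQG

private theorem orz_dvd_nat (n : ℕ) :
    (single (1 : ℤ) (1 : ℤ) - 1 : AddMonoidAlgebra ℤ ℤ) ∣ single (n : ℤ) (1 : ℤ) - 1 := by
  have h1 : (single (n : ℤ) (1 : ℤ) : AddMonoidAlgebra ℤ ℤ) = (single (1 : ℤ) (1 : ℤ)) ^ n := by
    rw [AddMonoidAlgebra.single_pow, one_pow]
    simp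
  have h2 := sub_dvd_pow_sub_pow (single (1 : ℤ) (1 : ℤ) : AddMonoidAlgebra ℤ ℤ) 1 n
  rw [one_pow] at h2
  rw [h1]
  exact h2

private theorem orz_neg_sub (a : ℤ) :
    (single (-a) (1 : ℤ) - 1 : AddMonoidAlgebra ℤ ℤ) =
      (-single (-a) (1 : ℤ)) * (single a (1 : ℤ) - 1) := by
  rw [mul_sub, mul_one, neg_mul, AddMonoidAlgebra.single_mul_single, neg_add_cancel, mul_one,
    ← AddMonoidAlgebra.one_def]
  ring

private theorem orz_dvd_int (a : ℤ) :
    (single (1 : ℤ) (1 : ℤ) - 1 : AddMonoidAlgebra ℤ ℤ) ∣ single a (1 : ℤ) - 1 := by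
  obtain ⟨n, rfl | rfl⟩ := Int.eq_nat_or_neg a
  · exact orz_dvd_nat n
  · rw [orz_neg_sub]
    exact Dvd.dvd.mul_left (orz_dvd_nat n) _

private theorem orz_dvd_aug (f : AddMonoidAlgebra ℤ ℤ) (h : aug ℤ f = 0) :
    ∃ f', f = (single (1 : ℤ) (1 : ℤ) - 1) * f' := by
  have key : ∀ f : AddMonoidAlgebra ℤ ℤ,
      (single (1 : ℤ) (1 : ℤ) - 1) ∣ f - single 0 (aug ℤ f) := by
    intro f
    induction f using AddMonoidAlgebra.induction_linear with
    | zero => simp
    | add x y hx hy =>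
      have h1 := dvd_add hx hy
      rw [map_add, AddMonoidAlgebra.single_add]
      have e : x + y - (single 0 (aug ℤ x) + single 0 (aug ℤ y)) =
          x - single 0 (aug ℤ x) + (y - single 0 (aug ℤ y)) := by ring
      rw [e]
      exact h1
    | single a c =>
      rw [aug_single]
      have h1 : (single a c - single 0 c : AddMonoidAlgebra ℤ ℤ) =
          single 0 c * (single a (1 : ℤ) - 1) := by
        rw [mul_sub, AddMonoidAlgebra.single_mul_single, zero_add, mul_one, mul_one]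
      rw [h1]
      exact Dvd.dvd.mul_left (orz_dvd_int a) _
  have h1 := key f
  rw [h, AddMonoidAlgebra.single_zero, sub_zero] at h1
  exact h1

theorem ordz {ι : Type} (f : ι → AddMonoidAlgebra ℤ ℤ) (hf : {i | f i ≠ 0}.Finite) (h0 : ∃ i, f i ≠ 0) :
    ∃ (e : ℕ) (f' : ι → AddMonoidAlgebra ℤ ℤ), (∀ i, f i = (single (1 : ℤ) (1 : ℤ) - 1) ^ e * f' i) ∧
      {i | f' i ≠ 0}.Finite ∧ ∃ i, aug ℤ (f' i) ≠ 0 := by
  classical
  obtain ⟨i0, hi0⟩ := h0
  set T : AddMonoidAlgebra ℤ ℤ := single (1 : ℤ) (1 : ℤ) - 1 with hT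
  have hTaug : aug ℤ T = 0 := by
    rw [hT, map_sub, aug_single, map_one, sub_self]
  have hTu : ¬ IsUnit T := by
    intro h
    have h1 := h.map (aug ℤ)
    rw [hTaug] at h1
    exact not_isUnit_zero h1
  have hnoeth : IsNoetherianRing (AddMonoidAlgebra ℤ ℤ) :=
    IsLocalization.isNoetherianRing (Submonoid.powers (Polynomial.X : Polynomial ℤ))
      (LaurentPolynomial ℤ) inferInstance
  have hfm : FiniteMultiplicity T (f i0) := FiniteMultiplicity.of_not_isUnit hTu hi0
  have hex : ∃ n, ¬ ∀ i, T ^ n ∣ f i := by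
    obtain ⟨n, hn⟩ := hfm
    exact ⟨n + 1, fun h => hn (h i0)⟩
  have hn0 : Nat.find hex ≠ 0 := by
    intro h
    have h1 := Nat.find_spec hex
    rw [h] at h1
    exact h1 fun i => by rw [pow_zero]; exact one_dvd _
  obtain ⟨e, he⟩ := Nat.exists_eq_succ_of_ne_zero hn0
  have h2 : ∀ i, T ^ e ∣ f i := by
    have h3 := Nat.find_min hex (m := e) (by omega)
    exact not_not.mp h3
  choose f' hf' using h2
  refine ⟨e, f', hf', hf.subset fun i hi => ?_, ?_⟩
  · have hT0 : T ≠ 0 := by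
      intro h
      have h1 : single (1 : ℤ) (1 : ℤ) = (single (0 : ℤ) (1 : ℤ)) := by
        rw [← AddMonoidAlgebra.one_def]
        exact sub_eq_zero.mp h
      have h3 := congrArg (fun a : AddMonoidAlgebra ℤ ℤ => a.coeff 0) h1
      simp only [coeff_single, Finsupp.single_apply] at h3
      simp at h3
    intro h
    have h4 := hf' i
    rw [h] at h4
    rcases mul_eq_zero.mp h4.symm with h5 | h5
    · exact pow_ne_zero e hT0 h5
    · exact hi h5
  · by_contra hcon
    push Not at hcon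
    apply Nat.find_spec hex
    intro i
    obtain ⟨g, hg⟩ := orz_dvd_aug (f' i) (hcon i)
    rw [he, hf' i, hg, pow_succ, ← mul_assoc]
    exact dvd_mul_right _ _

end Pool.Agent.SQH
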