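import Pool.Agent.SQH.Otb

/-!
# SQH module Otd: the position of a connected set with respect to the outside

PROOF. `out_dich`: `A` is open and disjoint from `W`, so disjoint from `closure W`.  If `A` meets `Out W` at a point
`y ∈ K`, then `A ∪ K` is open, preconnected (`IsPreconnected.union y`), unbounded (contains `K`,
`Bornology.IsBounded.subset`) and disjoint from `closure W`, so `A ⊆ Out W`.
`out_sub`: let `x ∈ K` (`K` from the definition).  All points of `K` are in `Out W` (same `K`), so `K` is disjoint
from `A`, and as `K` is open, from `closure A` (`Disjoint.closure_right`).  So `x ∈ Out A`.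
`out_eq`: take `B, L` from `hN`.  `A ∩ B ⊆ W ∪ Out W ∪ L`, `A` is disjoint from `W` and from `Out W = Out A`
(`out_disj`, `subset_closure`), so `A ∩ B ⊆ L` is open, hence contained in `interior L = ∅`.  So `B` is disjoint from
`A`, hence from `closure A`.  Take `y ∈ B ∩ Out W = B ∩ Out A`, `y ∈ K`; `B ∪ K` shows `B ⊆ Out A = Out W`.  But `B`
meets `W`, and `Out W` is disjoint from `W`: contradiction.
-/

set_option autoImplicit false

open AddMonoidAlgebra Filter Topology

namespace Pool.Agent.SQH

open Pool.Agent.SQG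

private theorem otd_join {A W : Set V} (hA : IsOpen A) (hc : IsPreconnected A) (hd : Disjoint A (closure W)) {y : V}
    (hy : y ∈ A) (hyO : y ∈ Out W) : A ⊆ Out W := by
  obtain ⟨K, hKo, hKc, hyK, hKb, hKd⟩ := hyO
  intro x hx
  refine ⟨A ∪ K, hA.union hKo, IsPreconnected.union y hy hyK hc hKc, Or.inl hx, ?_, ?_⟩
  · intro hb
    exact hKb (hb.subset Set.subset_union_right)
  · exact Set.disjoint_union_left.2 ⟨hd, hKd⟩

theorem out_dich {A W : Set V} (hA : IsOpen A) (hc : IsPreconnected A) (hd : Disjoint A W) :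
    A ⊆ Out W ∨ Disjoint A (Out W) := by
  have hd' : Disjoint A (closure W) := hd.closure_right hA
  by_cases h : Disjoint A (Out W)
  · exact Or.inr h
  · left
    obtain ⟨y, hy, hyO⟩ := Set.not_disjoint_iff.1 h
    exact otd_join hA hc hd' hy hyO

theorem out_sub {A W : Set V} (h : Disjoint A (Out W)) : Out W ⊆ Out A := by
  rintro x ⟨K, hKo, hKc, hxK, hKb, hKd⟩
  refine ⟨K, hKo, hKc, hxK, hKb, ?_⟩
  have h1 : K ⊆ Out W := fun y hy => ⟨K, hKo, hKc, hy, hKb, hKd⟩
  have h2 : Disjoint K A := (h.mono_right h1).symm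
  exact h2.closure_right hKo

theorem out_eq {A W : Set V} (hA : IsOpen A) (hd : Disjoint A W) (hN : Nice W) (he : Out W = Out A) : False := by
  obtain ⟨B, L, hBo, hBc, ⟨w, hwB, hwW⟩, ⟨y, hyB, hyO⟩, hL, hBL⟩ := hN
  have hAO : Disjoint A (Out W) := by
    rw [he]
    exact ((out_disj A).mono_right subset_closure).symm
  have hAB : A ∩ B ⊆ L := by
    rintro z ⟨hzA, hzB⟩
    rcases hBL hzB with (h1 | h1) | h1
    · exact absurd h1 (Set.disjoint_left.1 hd hzA)
    · exact absurd h1 (Set.disjoint_left.1 hAO hzA)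
    · exact h1
  have hE : A ∩ B = ∅ := by
    have h1 : A ∩ B ⊆ interior L := interior_maximal hAB (hA.inter hBo)
    rw [hL] at h1
    exact Set.subset_empty_iff.1 h1
  have hBA : Disjoint B (closure A) := by
    have h1 : Disjoint B A := by
      rw [Set.disjoint_iff_inter_eq_empty, Set.inter_comm]
      exact hE
    exact h1.closure_right hBo
  have hsub : B ⊆ Out A := otd_join hBo hBc hBA hyB (by rw [← he]; exact hyO)
  have hwO : w ∈ Out W := by
    rw [he]
    exact hsub hwB
  exact Set.disjoint_left.1 (out_disj W) hwO (subset_closure hwW)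

end Pool.Agent.SQH
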