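import Pool.Agent.SQH.Defs

/-!
# SQH module Phv: the cumulative function

PROOF. `ph_ver`: `ph X (x, y) - ph X (x, y')` is the sum of `X.coeff w` over the `w` in the support with `x < w.1` and
`y < w.2 ≤ y'`; group them by `c = w.2` (`Finset.sum_fiberwise_of_maps_to` with the image of the support under
`Prod.snd`): each group is `sm (fun w => w.2 = c ∧ x < w.1) X = 0` (only the `c` with `y < c ≤ y'` occur).
`ph_hor`: symmetric.
`ph_far`: let `R` bound `|w.1|`, `|w.2|` for `w` in the support.  If `R < x.1` or `R < x.2` there are no terms.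
If `x.1 < -R`: all `w` in the support have `x.1 < w.1`, so `ph X x = sm (fun w => x.2 < w.2) X`, the sum over the
`c > x.2` of the full row sums, `= 0`.  If `x.2 < -R`: the same with columns.
`ph_loc`: the support is finite; take `ε` at most all `|w.1 - x.1|`, `|w.2 - x.2|`: then
`y.1 < w.1 ↔ x.1 < w.1` and `y.2 < w.2 ↔ x.2 < w.2` for all `w` in the support (`sm_congr`).
-/

set_option autoImplicit false

open AddMonoidAlgebra Filter Topology

namespace Pool.Agent.SQH

open Pool.Agent.SQG

private theorem Phv_false (Q : V → Prop) (X : AddMonoidAlgebra ℤ V) (h : ∀ w, X.coeff w ≠ 0 → ¬ Q w) :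
    sm Q X = 0 := by
  classical
  unfold sm Finsupp.sum
  refine Finset.sum_eq_zero fun w hw => ?_
  exact if_neg (h w (Finsupp.mem_support_iff.1 hw))

private theorem Phv_diff (A B : V → Prop) (X : AddMonoidAlgebra ℤ V) (h : ∀ w, B w → A w) :
    sm A X = sm B X + sm (fun w => A w ∧ ¬ B w) X := by
  classical
  unfold sm Finsupp.sum
  rw [← Finset.sum_add_distrib]
  refine Finset.sum_congr rfl fun w _ => ?_
  beta_reduce
  by_cases hb : B w
  · rw [if_pos hb, if_pos (h w hb), if_neg (fun hh => hh.2 hb), add_zero]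
  · by_cases ha : A w
    · rw [if_pos ha, if_neg hb, if_pos ⟨ha, hb⟩, zero_add]
    · rw [if_neg ha, if_neg hb, if_neg (fun hh => ha hh.1), add_zero]

private theorem Phv_group (X : AddMonoidAlgebra ℤ V) (Q : V → Prop) (f : V → ℝ)
    (h : ∀ c, sm (fun w => f w = c ∧ Q w) X = 0) : sm Q X = 0 := by
  classical
  have h1 : ∀ c, ∑ w ∈ X.coeff.support, (if f w = c ∧ Q w then X.coeff w else 0) = 0 := by
    intro c
    refine Eq.trans ?_ (h c)
    unfold sm Finsupp.sum
    refine Finset.sum_congr rfl fun w _ => ?_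
    beta_reduce
    by_cases hq : f w = c ∧ Q w
    · rw [if_pos hq, if_pos hq]
    · rw [if_neg hq, if_neg hq]
  have h3 : ∑ w ∈ X.coeff.support, (if Q w then X.coeff w else 0) = 0 := by
    rw [← Finset.sum_fiberwise_of_maps_to (t := X.coeff.support.image f) (g := f)
      (fun w hw => Finset.mem_image_of_mem f hw)]
    refine Finset.sum_eq_zero fun c _ => ?_
    refine Eq.trans ?_ (h1 c)
    rw [Finset.sum_filter]
    refine Finset.sum_congr rfl fun w _ => ?_
    by_cases hc : f w = c
    · by_cases hq : Q w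
      · rw [if_pos hc, if_pos hq, if_pos ⟨hc, hq⟩]
      · rw [if_pos hc, if_neg hq, if_neg (fun hh => hq hh.2)]
    · rw [if_neg hc, if_neg (fun hh => hc hh.1)]
  refine Eq.trans ?_ h3
  unfold sm Finsupp.sum
  refine Finset.sum_congr rfl fun w _ => ?_
  beta_reduce
  by_cases hq : Q w
  · rw [if_pos hq]
  · rw [if_neg hq]

theorem ph_ver (X : AddMonoidAlgebra ℤ V) (x y y' : ℝ) (h : y ≤ y')
    (hz : ∀ c, y < c → c ≤ y' → sm (fun w => w.2 = c ∧ x < w.1) X = 0) : ph X (x, y) = ph X (x, y') := by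
  unfold ph
  rw [Phv_diff (fun w => x < w.1 ∧ y < w.2) (fun w => x < w.1 ∧ y' < w.2) X
    (fun w hw => ⟨hw.1, lt_of_le_of_lt h hw.2⟩)]
  rw [add_eq_left]
  refine Phv_group X _ Prod.snd fun c => ?_
  by_cases hc : y < c ∧ c ≤ y'
  · rw [← hz c hc.1 hc.2]
    refine sm_congr fun w _ => ?_
    constructor
    · rintro ⟨h1, h2, h3⟩
      exact ⟨h1, h2.1⟩
    · rintro ⟨h1, h2⟩
      refine ⟨h1, ⟨h2, ?_⟩, ?_⟩
      · show y < w.2
        rw [h1]
        exact hc.1
      · rintro ⟨h3, h4⟩
        have h5 : w.2 = c := h1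
        have h6 : y' < w.2 := h4
        linarith [hc.2]
  · refine Phv_false _ X fun w _ => ?_
    rintro ⟨h1, h2, h3⟩
    have h5 : w.2 = c := h1
    have h6 : y < w.2 := h2.2
    refine hc ⟨by linarith, ?_⟩
    by_contra h7
    push Not at h7
    refine h3 ⟨h2.1, ?_⟩
    show y' < w.2
    linarith

theorem ph_hor (X : AddMonoidAlgebra ℤ V) (x x' y : ℝ) (h : x ≤ x')
    (hz : ∀ c, x < c → c ≤ x' → sm (fun w => w.1 = c ∧ y < w.2) X = 0) : ph X (x, y) = ph X (x', y) := by
  unfold ph
  rw [Phv_diff (fun w => x < w.1 ∧ y < w.2) (fun w => x' < w.1 ∧ y < w.2) X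
    (fun w hw => ⟨lt_of_le_of_lt h hw.1, hw.2⟩)]
  rw [add_eq_left]
  refine Phv_group X _ Prod.fst fun c => ?_
  by_cases hc : x < c ∧ c ≤ x'
  · rw [← hz c hc.1 hc.2]
    refine sm_congr fun w _ => ?_
    constructor
    · rintro ⟨h1, h2, h3⟩
      exact ⟨h1, h2.2⟩
    · rintro ⟨h1, h2⟩
      refine ⟨h1, ⟨?_, h2⟩, ?_⟩
      · show x < w.1
        rw [h1]
        exact hc.1
      · rintro ⟨h3, h4⟩
        have h5 : w.1 = c := h1
        have h6 : x' < w.1 := h3
        linarith [hc.2]
  · refine Phv_false _ X fun w _ => ?_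
    rintro ⟨h1, h2, h3⟩
    have h5 : w.1 = c := h1
    have h6 : x < w.1 := h2.1
    refine hc ⟨by linarith, ?_⟩
    by_contra h7
    push Not at h7
    refine h3 ⟨?_, h2.2⟩
    show x' < w.1
    linarith

theorem ph_far (X : AddMonoidAlgebra ℤ V) (hr : ∀ c, sm (fun w => w.2 = c) X = 0)
    (hc : ∀ c, sm (fun w => w.1 = c) X = 0) : ∃ R : ℝ, ∀ x : V, (R < |x.1| ∨ R < |x.2|) → ph X x = 0 := by
  classical
  obtain ⟨R, hR⟩ := (X.coeff.support.image (fun w => max |w.1| |w.2|)).bddAbove
  have hR2 : ∀ w, X.coeff w ≠ 0 → |w.1| ≤ R ∧ |w.2| ≤ R := by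
    intro w hw
    have h1 : max |w.1| |w.2| ≤ R := hR (by
      rw [Finset.mem_coe]
      exact Finset.mem_image_of_mem (fun w => max |w.1| |w.2|) (Finsupp.mem_support_iff.2 hw))
    exact ⟨(le_max_left _ _).trans h1, (le_max_right _ _).trans h1⟩
  refine ⟨R, fun x hx => ?_⟩
  unfold ph
  rcases hx with hx | hx
  · rcases lt_abs.1 hx with h1 | h1
    · refine Phv_false _ X fun w hw hh => ?_
      have h2 := (abs_le.1 (hR2 w hw).1).2
      have h3 : x.1 < w.1 := hh.1
      linarith
    · refine Phv_group X _ Prod.snd fun c => ?_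
      by_cases h4 : x.2 < c
      · rw [← hr c]
        refine sm_congr fun w hw => ?_
        constructor
        · rintro ⟨h5, _⟩
          exact h5
        · intro h5
          have h2 := (abs_le.1 (hR2 w hw).1).1
          refine ⟨h5, ?_, ?_⟩
          · linarith
          · rw [h5]
            exact h4
      · refine Phv_false _ X fun w _ hh => ?_
        have h5 : w.2 = c := hh.1
        have h6 : x.2 < w.2 := hh.2.2
        exact h4 (by linarith)
  · rcases lt_abs.1 hx with h1 | h1
    · refine Phv_false _ X fun w hw hh => ?_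
      have h2 := (abs_le.1 (hR2 w hw).2).2
      have h3 : x.2 < w.2 := hh.2
      linarith
    · refine Phv_group X _ Prod.fst fun c => ?_
      by_cases h4 : x.1 < c
      · rw [← hc c]
        refine sm_congr fun w hw => ?_
        constructor
        · rintro ⟨h5, _⟩
          exact h5
        · intro h5
          have h2 := (abs_le.1 (hR2 w hw).2).1
          refine ⟨h5, ?_, ?_⟩
          · rw [h5]
            exact h4
          · linarith
      · refine Phv_false _ X fun w _ hh => ?_
        have h5 : w.1 = c := hh.1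
        have h6 : x.1 < w.1 := hh.2.1
        exact h4 (by linarith)

private theorem Phv_eps (s : Finset V) (d : V → ℝ) (hd : ∀ w ∈ s, 0 < d w) : ∃ ε > 0, ∀ w ∈ s, ε ≤ d w := by
  classical
  induction s using Finset.induction_on with
  | empty => exact ⟨1, one_pos, fun w hw => absurd hw (Finset.notMem_empty w)⟩
  | insert a s ha ih =>
    obtain ⟨ε, hε, h1⟩ := ih fun w hw => hd w (Finset.mem_insert_of_mem hw)
    refine ⟨min ε (d a), lt_min hε (hd a (Finset.mem_insert_self a s)), fun w hw => ?_⟩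
    rcases Finset.mem_insert.1 hw with rfl | hw
    · exact min_le_right _ _
    · exact (min_le_left _ _).trans (h1 w hw)

private theorem Phv_iff {a b c ε : ℝ} (h : |b - a| < ε) (h2 : ε ≤ |c - a|) : b < c ↔ a < c := by
  rw [abs_lt] at h
  rcases le_abs.1 h2 with h3 | h3
  · constructor
    · intro _
      linarith [h.1, h.2]
    · intro _
      linarith [h.1, h.2]
  · constructor
    · intro _
      linarith [h.1, h.2]
    · intro _
      linarith [h.1, h.2]

theorem ph_loc (X : AddMonoidAlgebra ℤ V) (x : V) (h : ∀ w, X.coeff w ≠ 0 → w.1 ≠ x.1 ∧ w.2 ≠ x.2) :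
    ∃ ε > 0, ∀ y : V, |y.1 - x.1| < ε → |y.2 - x.2| < ε → ph X y = ph X x := by
  obtain ⟨ε, hε, h1⟩ := Phv_eps X.coeff.support (fun w => min |w.1 - x.1| |w.2 - x.2|) (fun w hw => by
    have h2 := h w (Finsupp.mem_support_iff.1 hw)
    exact lt_min (abs_pos.2 (sub_ne_zero.2 h2.1)) (abs_pos.2 (sub_ne_zero.2 h2.2)))
  refine ⟨ε, hε, fun y hy1 hy2 => ?_⟩
  unfold ph
  refine sm_congr fun w hw => ?_
  have h3 := h1 w (Finsupp.mem_support_iff.2 hw)
  have h4 : ε ≤ |w.1 - x.1| := h3.trans (min_le_left _ _)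
  have h5 : ε ≤ |w.2 - x.2| := h3.trans (min_le_right _ _)
  exact and_congr (Phv_iff hy1 h4) (Phv_iff hy2 h5)

end Pool.Agent.SQH
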