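import Pool.Agent.SQH.Clz
import Pool.Agent.SQH.Phv

/-!
# SQH module Phc: the cumulative function is constant off the frontier

PROOF. `ph_conn`: `ph X` is locally constant on `O`: for `x ∈ O` there is `ε > 0` with the box
`|y.1 - x.1| < ε, |y.2 - x.2| < ε` inside `O` (`Metric.isOpen_iff`, `Prod.dist_eq`), so without points of
`frontier W`.  For `y` in the box: `ph X (x.1, x.2) = ph X (y.1, x.2)` by `ph_hor` (in the direction given by
`le_total x.1 y.1`) and `col_off` (the points `(c, x.2)` with `c` between are in the box), and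
`ph X (y.1, x.2) = ph X (y.1, y.2)` by `ph_ver` and `row_off`.  Conclude with `IsPreconnected.constant`
(`ph X` is `ContinuousOn O`: it is eventually constant near each point; compare the end of `SQG.qd`).
`ph_out`: `x ∈ K` open, preconnected, unbounded, disjoint from `closure W ⊇ frontier W`.  Take `R` from `ph_far`
(with `row_tot`, `col_tot`).  As `K` is unbounded there is `y ∈ K` with `R < |y.1| ∨ R < |y.2|` (otherwise `K` is
contained in the bounded set `{y | |y.1| ≤ R ∧ |y.2| ≤ R}`: e.g. `Metric.isBounded_closedBall`).  So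
`ph X x = ph X y = 0` by `ph_conn`.
-/

set_option autoImplicit false

open AddMonoidAlgebra Filter Topology

namespace Pool.Agent.SQH

open Pool.Agent.SQG

private theorem Phc_loc {W : Set V} {T : Finset (ℝ × ℝ × ℝ)} {C : Set V} (hW : IsOpen W) (hB : TB W T C)
    (hb : Bornology.IsBounded W) {X : AddMonoidAlgebra ℤ V} (hX : Cor W X) {O : Set V} (hO : IsOpen O)
    (hd : Disjoint O (frontier W)) {x : V} (hx : x ∈ O) : ∃ ε > 0, ∀ y : V, dist y x < ε → ph X y = ph X x := by
  obtain ⟨ε, hε, hball⟩ := Metric.isOpen_iff.1 hO x hx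
  have hfr : ∀ a b : ℝ, |a - x.1| < ε → |b - x.2| < ε → ((a, b) : V) ∉ frontier W := by
    intro a b ha hb2
    have h1 : ((a, b) : V) ∈ O := hball (by
      rw [Metric.mem_ball, Prod.dist_eq]
      exact max_lt (by rw [Real.dist_eq]; exact ha) (by rw [Real.dist_eq]; exact hb2))
    exact Set.disjoint_left.1 hd h1
  refine ⟨ε, hε, fun y hy => ?_⟩
  rw [Prod.dist_eq] at hy
  have hy1 : |y.1 - x.1| < ε := by
    have := (le_max_left (dist y.1 x.1) (dist y.2 x.2)).trans_lt hy
    rwa [Real.dist_eq] at this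
  have hy2 : |y.2 - x.2| < ε := by
    have := (le_max_right (dist y.1 x.1) (dist y.2 x.2)).trans_lt hy
    rwa [Real.dist_eq] at this
  have h0 : |x.2 - x.2| < ε := by rw [sub_self, abs_zero]; exact hε
  have hh : ph X (y.1, x.2) = ph X (x.1, x.2) := by
    rcases le_total x.1 y.1 with h | h
    · symm
      refine ph_hor X x.1 y.1 x.2 h fun c hc1 hc2 => ?_
      refine col_off hW hB hb hX x.2 c (hfr c x.2 ?_ h0)
      rw [abs_lt] at hy1 ⊢
      constructor <;> linarith [hy1.1, hy1.2]
    · refine ph_hor X y.1 x.1 x.2 h fun c hc1 hc2 => ?_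
      refine col_off hW hB hb hX x.2 c (hfr c x.2 ?_ h0)
      rw [abs_lt] at hy1 ⊢
      constructor <;> linarith [hy1.1, hy1.2]
  have hv : ph X (y.1, y.2) = ph X (y.1, x.2) := by
    rcases le_total x.2 y.2 with h | h
    · symm
      refine ph_ver X y.1 x.2 y.2 h fun c hc1 hc2 => ?_
      refine row_off hW hB hb hX.hor y.1 c (hfr y.1 c hy1 ?_)
      rw [abs_lt] at hy2 ⊢
      constructor <;> linarith [hy2.1, hy2.2]
    · refine ph_ver X y.1 y.2 x.2 h fun c hc1 hc2 => ?_
      refine row_off hW hB hb hX.hor y.1 c (hfr y.1 c hy1 ?_)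
      rw [abs_lt] at hy2 ⊢
      constructor <;> linarith [hy2.1, hy2.2]
  exact hv.trans hh

theorem ph_conn {W : Set V} {T : Finset (ℝ × ℝ × ℝ)} {C : Set V} (hW : IsOpen W) (hB : TB W T C)
    (hb : Bornology.IsBounded W) {X : AddMonoidAlgebra ℤ V} (hX : Cor W X) {O : Set V} (hO : IsOpen O)
    (hOc : IsPreconnected O) (hd : Disjoint O (frontier W)) : ∀ x ∈ O, ∀ y ∈ O, ph X x = ph X y := by
  intro x hx y hy
  refine hOc.constant (f := ph X) ?_ hx hy
  intro z hz
  obtain ⟨ε, hε, h1⟩ := Phc_loc hW hB hb hX hO hd hz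
  refine ContinuousAt.continuousWithinAt ?_
  have h2 : ph X =ᶠ[𝓝 z] fun _ => ph X z := by
    filter_upwards [Metric.ball_mem_nhds z hε] with w hw
    exact h1 w hw
  exact (continuousAt_const (y := ph X z)).congr h2.symm

theorem ph_out {W : Set V} {T : Finset (ℝ × ℝ × ℝ)} {C : Set V} (hW : IsOpen W) (hB : TB W T C)
    (hb : Bornology.IsBounded W) {X : AddMonoidAlgebra ℤ V} (hX : Cor W X) : ∀ x ∈ Out W, ph X x = 0 := by
  rintro x ⟨K, hKo, hKp, hxK, hKb, hKd⟩
  obtain ⟨R, hR⟩ := ph_far X (row_tot hW hB hb hX.hor) (col_tot hW hB hb hX)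
  have h1 : ∃ y ∈ K, R < |y.1| ∨ R < |y.2| := by
    by_contra hcon
    push Not at hcon
    refine hKb ?_
    refine (Metric.isBounded_closedBall (x := (0 : V)) (r := R)).subset fun y hy => ?_
    have h2 := hcon y hy
    rw [Metric.mem_closedBall, dist_zero_right, Prod.norm_def]
    exact max_le h2.1 h2.2
  obtain ⟨y, hyK, hy⟩ := h1
  have h3 : Disjoint K (frontier W) := hKd.mono_right frontier_subset_closure
  rw [ph_conn hW hB hb hX hKo hKp h3 x hxK y hyK]
  exact hR y hy

end Pool.Agent.SQH
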