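import Pool.Agent.SQG.Defs

/-!
# SQH module Psz: from real to integer exponents

PROOF. As in Pool/Agent/SQG/Onz.lean (copy and adapt `Onz_den`, `Onz_fun`, `Onz_md`), without the reduction modulo
`p`.  Let `Z h0 ≠ 0`.  Let `T ⊆ V` be the finite set of the `act h (c i)` with `Z (h * g i) ≠ 0` and of the points of the
supports of the finitely many nonzero `Z h`.  There is a homomorphism `G : V →+ ℚ` with `(⌊G t⌋ : ℚ) = G t` for all
`t ∈ T` and `G (v - w) ≠ 0` for all `v ≠ w` in the support of `Z h0`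
(`Module.exists_dual_forall_apply_ne_zero` over `ℚ` for the finite family of these nonzero differences - use the
finite type `{q : V × V // q.1 ∈ supp ∧ q.2 ∈ supp ∧ q.1 ≠ q.2}` as index type - then multiply by the product of the
denominators of the values on `T`).  Put `f h = mapDomain (fun v => ⌊G v⌋) (Z h)`, `k h i = ⌊G (act h (c i))⌋`.
`f h0 ≠ 0` as `⌊G ·⌋` is injective on the support of `Z h0` (`Finsupp.mapDomain_support_of_injOn` or evaluate at
`⌊G v⌋` for `v` in the support).  Relation: check it after the injective ring homomorphism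
`AddMonoidAlgebra ℤ ℤ → AddMonoidAlgebra ℤ ℚ` induced by `Int.cast`, where it is the image of `hr h` under
`mapDomainRingHom ℤ G` (terms with `Z (h * g i) = 0` vanish on both sides).
-/

set_option autoImplicit false

open AddMonoidAlgebra Filter Topology

namespace Pool.Agent.SQH

open Pool.Agent.SQG

private theorem Psz_den (T : Finset V) (G : V → ℚ) :
    ∃ D : ℕ, 0 < D ∧ ∀ t ∈ T, ∃ n : ℤ, (n : ℚ) = D * G t := by
  refine ⟨∏ t ∈ T, (G t).den, Finset.prod_pos fun t _ => (G t).den_pos, fun t ht => ?_⟩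
  obtain ⟨k, hk⟩ := Finset.dvd_prod_of_mem (fun t => (G t).den) ht
  refine ⟨k * (G t).num, ?_⟩
  rw [hk]
  push_cast
  rw [← Rat.mul_den_eq_num (G t)]
  ring

private theorem Psz_fun (T S : Finset V) :
    ∃ G : V →+ ℚ, Set.InjOn G S ∧ ∀ t ∈ T, ((⌊G t⌋ : ℤ) : ℚ) = G t := by
  have hfin : {q : V × V | q.1 ∈ S ∧ q.2 ∈ S ∧ q.1 ≠ q.2}.Finite := by
    refine (S ×ˢ S).finite_toSet.subset fun q hq => ?_
    simp only [Finset.coe_product, Set.mem_prod, Finset.mem_coe]
    exact ⟨hq.1, hq.2.1⟩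
  have : Finite {q : V × V | q.1 ∈ S ∧ q.2 ∈ S ∧ q.1 ≠ q.2} := hfin.to_subtype
  obtain ⟨g, hg⟩ := Module.exists_dual_forall_apply_ne_zero (K := ℚ) (M := V)
    (fun q : {q : V × V | q.1 ∈ S ∧ q.2 ∈ S ∧ q.1 ≠ q.2} => q.1.1 - q.1.2) (fun q =>
      sub_ne_zero.2 q.2.2.2)
  obtain ⟨D, hD, hDT⟩ := Psz_den T g
  have hD' : (D : ℚ) ≠ 0 := by
    exact_mod_cast hD.ne'
  have h3 : ∀ x, (D • g.toAddMonoidHom) x = (D : ℚ) * g x := by
    intro x
    simp
  refine ⟨D • g.toAddMonoidHom, ?_, fun t ht => ?_⟩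
  · intro v hv w hw hvw
    by_contra hne
    rw [h3, h3] at hvw
    have h4 := mul_left_cancel₀ hD' hvw
    exact hg ⟨(v, w), hv, hw, hne⟩ (by rw [map_sub, h4, sub_self])
  · obtain ⟨n, hn⟩ := hDT t ht
    rw [h3, ← hn, Int.floor_intCast]

private theorem Psz_md (G : V →+ ℚ) (X : AddMonoidAlgebra ℤ V)
    (h : ∀ w ∈ X.coeff.support, ((⌊G w⌋ : ℤ) : ℚ) = G w) :
    mapDomainRingHom ℤ (Int.castAddHom ℚ) (mapDomain (fun v => ⌊G v⌋) X) =
      mapDomainRingHom ℤ G X := by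
  simp only [mapDomainRingHom_apply]
  apply coeff_injective
  simp only [coeff_mapDomain]
  rw [← Finsupp.mapDomain_comp]
  exact Finsupp.mapDomain_congr h

theorem psz {p : ℕ} {g : Fin p → O2} {c : Fin p → V} (Z : O2 → AddMonoidAlgebra ℤ V) (hZ : {h | Z h ≠ 0}.Finite)
    (hr : ∀ h, ∑ i, single (act h (c i)) 1 * Z (h * g i) = 0) (hne : ∃ h, Z h ≠ 0) :
    ∃ (f : O2 → AddMonoidAlgebra ℤ ℤ) (k : O2 → Fin p → ℤ), {h | f h ≠ 0}.Finite ∧ (∃ h, f h ≠ 0) ∧
      ∀ h, ∑ i, single (k h i) 1 * f (h * g i) = 0 := by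
  classical
  obtain ⟨h0, hh0⟩ := hne
  have hfi : ∀ i, {h | Z (h * g i) ≠ 0}.Finite := fun i =>
    hZ.preimage (mul_left_injective (g i)).injOn
  have hT : ((⋃ i, (fun h => act h (c i)) '' {h | Z (h * g i) ≠ 0}) ∪
      (⋃ h ∈ {h | Z h ≠ 0}, ((Z h).coeff.support : Set V)) : Set V).Finite := by
    refine Set.Finite.union ?_ ?_
    · exact Set.finite_iUnion fun i => (hfi i).image _
    · exact hZ.biUnion fun h _ => Finset.finite_toSet _
  obtain ⟨G, hGi, hGT⟩ := Psz_fun hT.toFinset (Z h0).coeff.support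
  have hfl : ∀ t, t ∈ ((⋃ i, (fun h => act h (c i)) '' {h | Z (h * g i) ≠ 0}) ∪
      (⋃ h ∈ {h | Z h ≠ 0}, ((Z h).coeff.support : Set V)) : Set V) → ((⌊G t⌋ : ℤ) : ℚ) = G t :=
    fun t ht => hGT t (hT.mem_toFinset.2 ht)
  have e4 : ∀ h i, Z (h * g i) ≠ 0 → ((⌊G (act h (c i))⌋ : ℤ) : ℚ) = G (act h (c i)) := fun h i hh =>
    hfl _ (Or.inl (Set.mem_iUnion.2 ⟨i, h, hh, rfl⟩))
  have e5 : ∀ h, ∀ w ∈ (Z h).coeff.support, ((⌊G w⌋ : ℤ) : ℚ) = G w := by
    intro h w hw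
    refine hfl _ (Or.inr (Set.mem_iUnion₂.2 ⟨h, ?_, hw⟩))
    intro h0
    rw [h0] at hw
    simp at hw
  let ι : AddMonoidAlgebra ℤ ℤ →+* AddMonoidAlgebra ℤ ℚ :=
    mapDomainRingHom ℤ (Int.castAddHom ℚ)
  let φ : AddMonoidAlgebra ℤ V →+* AddMonoidAlgebra ℤ ℚ := mapDomainRingHom ℤ G
  let f : O2 → AddMonoidAlgebra ℤ ℤ := fun h => mapDomain (fun v => ⌊G v⌋) (Z h)
  have hι : Function.Injective ι := mapDomain_injective (f := (Int.castAddHom ℚ)) Int.cast_injective
  have hιs : ∀ (n : ℤ) (a : ℤ), ι (single n a) = single (n : ℚ) a := by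
    intro n a
    simp only [ι, mapDomainRingHom_apply, mapDomain_single]
    rfl
  have hφs : ∀ (v : V) (a : ℤ), φ (single v a) = single (G v) a := by
    intro v a
    simp only [φ, mapDomainRingHom_apply, mapDomain_single]
  have hf : ∀ h, ι (f h) = φ (Z h) := fun h => Psz_md G _ fun w hw => e5 h w hw
  have hf0 : ∀ h, Z h = 0 → f h = 0 := by
    intro h h0
    apply hι
    rw [hf, h0, map_zero, map_zero]
  refine ⟨f, fun h i => ⌊G (act h (c i))⌋, hZ.subset fun h hh h0 => hh (hf0 h h0), ⟨h0, ?_⟩, ?_⟩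
  · intro hc
    have h1 : φ (Z h0) = 0 := by rw [← hf, hc, map_zero]
    have h2 : (Z h0).coeff.support.Nonempty := by
      rw [Finsupp.support_nonempty_iff]
      intro h3
      apply hh0
      apply coeff_injective
      rw [h3]
      rfl
    obtain ⟨v, hv⟩ := h2
    have h3 : (φ (Z h0)).coeff (G v) = (Z h0).coeff v := by
      simp only [φ, mapDomainRingHom_apply, coeff_mapDomain]
      exact Finsupp.mapDomain_apply' _ _ (subset_refl _) hGi hv
    rw [h1] at h3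
    exact (Finsupp.mem_support_iff.1 hv) h3.symm
  · intro h
    apply hι
    rw [map_sum, map_zero]
    have h1 : φ (∑ i, single (act h (c i)) 1 * Z (h * g i)) = 0 := by rw [hr h, map_zero]
    rw [map_sum] at h1
    refine Eq.trans (Finset.sum_congr rfl fun i _ => ?_) h1
    rw [map_mul, map_mul, hf, hιs, hφs]
    by_cases h0 : Z (h * g i) = 0
    · rw [h0, map_zero, mul_zero, mul_zero]
    · rw [e4 h i h0]

end Pool.Agent.SQH
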