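import Pool.Agent.SQH.Defs
import Pool.Agent.SQH.Orz
import Pool.Agent.SQH.Psz

/-!
# SQH module Rga: regularity from the linear parts

PROOF. By contradiction: take `f, k` from `psz`, `e, f'` from `ordz`, `T = single 1 1 - 1`.  Cancel `T ^ e` in
`0 = ∑ i, single (k h i) 1 * f (h * g i) = T ^ e * ∑ i, single (k h i) 1 * f' (h * g i)` (`T ≠ 0`, domain) and apply
`aug ℤ`: `∑ i, aug (f' (h * g i)) = 0` for all `h`.  So `X = Finsupp.ofSupportFinite (fun h => aug ℤ (f' h))` is `0` by
`h`, a contradiction.  (Compare Pool/Agent/SQG/Inf.lean, case `e < E`.)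
-/

set_option autoImplicit false

open AddMonoidAlgebra Filter Topology

namespace Pool.Agent.SQH

open Pool.Agent.SQG

theorem reg_inj {p : ℕ} {g : Fin p → O2} (c : Fin p → V) (h : InjZ p g) : Reg p g c := by
  classical
  intro Z hZ hr
  by_contra hcon
  push Not at hcon
  obtain ⟨f, k, hfin, hex, hrel⟩ := psz Z hZ hr hcon
  obtain ⟨e, f', hf', hf'fin, h0, hh0⟩ := ordz f hfin hex
  obtain ⟨T, hT⟩ : ∃ T : AddMonoidAlgebra ℤ ℤ, T = single (1 : ℤ) (1 : ℤ) - 1 := ⟨_, rfl⟩
  rw [← hT] at hf'
  have hT0 : T ≠ 0 := by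
    intro h
    rw [hT] at h
    have h1 : single (1 : ℤ) (1 : ℤ) = (single (0 : ℤ) (1 : ℤ)) := by
      rw [← AddMonoidAlgebra.one_def]
      exact sub_eq_zero.mp h
    have h3 := congrArg (fun a : AddMonoidAlgebra ℤ ℤ => a.coeff 0) h1
    simp only [coeff_single, Finsupp.single_apply] at h3
    simp at h3
  have key : ∀ h, ∑ i, single (k h i) 1 * f' (h * g i) = 0 := by
    intro h
    have hs : ∑ i, single (k h i) 1 * f (h * g i) = T ^ e * ∑ i, single (k h i) 1 * f' (h * g i) := by
      rw [Finset.mul_sum]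
      refine Finset.sum_congr rfl fun i _ => ?_
      rw [hf']
      ring
    apply mul_left_cancel₀ (pow_ne_zero e hT0)
    rw [← hs, hrel h, mul_zero]
  have key2 : ∀ h, ∑ i, aug ℤ (f' (h * g i)) = 0 := by
    intro h
    have h3 := congrArg (aug ℤ) (key h)
    rw [map_sum, map_zero] at h3
    simpa only [map_mul, aug_single, one_mul] using h3
  have hXfin : (Function.support fun h => aug ℤ (f' h)).Finite := by
    refine hf'fin.subset fun h hh hz => hh ?_
    show aug ℤ (f' h) = 0
    rw [hz, map_zero]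
  have hX := h (Finsupp.ofSupportFinite (fun h => aug ℤ (f' h)) hXfin) (fun h => by
    simpa only [Finsupp.ofSupportFinite_coe] using key2 h)
  apply hh0
  have h3 := DFunLike.congr_fun hX h0
  simpa only [Finsupp.ofSupportFinite_coe, Finsupp.coe_zero, Pi.zero_apply] using h3

end Pool.Agent.SQH
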