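import Pool.Agent.SQH.Fol
import Pool.Agent.SQH.Dim
import Pool.Agent.SQH.Defs
import Pool.Agent.SQH.Lan

/-!
# SQH module Rgc: regularity if the group contains no symmetry of the square

PROOF. Let `R = AddMonoidAlgebra ℤ V`, a commutative domain (`V` is a `ℚ`-vector space: `TwoUniqueSums`), `𝔽` its field
of fractions (`FractionRing R`, `j = algebraMap R 𝔽` injective).  Define the `𝔽`-linear map `T` on `O2 →₀ 𝔽` by
`(T X) h = ∑ i, j (single (act h (c i)) 1) * X (h * g i)` (finite support; e.g. as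
`T = ∑ i, Finsupp.mapRange`-like; or `T = Finsupp.lift`/`Finsupp.linearCombination`: `T (single x a) =
∑ i, single (x * (g i)⁻¹) (j (single (act (x * (g i)⁻¹) (c i)) 1) * a)`, and prove the formula for `(T X) h`).
For `Y : O2 → R` with finite support and `k : O2` let `tr k Y h = gm k (Y (k⁻¹ * h))`.  If
`∑ i, single (act h (c i)) 1 * Y (h * g i) = B h` for all `h`, then
`∑ i, single (act h (c i)) 1 * tr k Y (h * g i) = gm k (B (k⁻¹ * h))`
(`gm k (single (act (k⁻¹ * h) (c i)) 1) = single (act h (c i)) 1`).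
Let `F' h = F h` if `h ∈ Γ`, `0` otherwise: `∑ i, single (act h (c i)) 1 * F' (h * g i)` is `BB h` for `h ∈ Γ`, which is
`0` unless `h = 1` (`hΓ`), and `0` for `h ∉ Γ` (then `h * g i ∉ Γ`); for `h = 1` it is
`q0 = single (shf 1) 1 * qq ℤ (1, 0) (0, 1) ≠ 0` (domain; `single v 1 ≠ 1` for `v ≠ 0`; `Ax 1`).
So with `u k h = (j (gm k q0))⁻¹ * j (tr k F' h)`: `T (u k) = single k 1` (`gm k` is injective, so
`gm k q0 ≠ 0`).  If `Z` is as in `Reg` with `Z n0 ≠ 0`: `z k h = j (tr k Z h)`, `T (z k) = 0`,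
`z k (k * n0) = j (gm k (Z n0)) ≠ 0`.  `N` is the finite set of all `x` with `F' x ≠ 0` or `Z x ≠ 0`.
Take `S₀, S` from `fol N (N.card ^ 2)` and apply `dim`.
-/

set_option autoImplicit false

open AddMonoidAlgebra Filter Topology

namespace Pool.Agent.SQH

open Pool.Agent.SQG

theorem Rgc_bb {h : O2} (h1 : Ax h) : BB h ≠ 0 := by
  have h2 : BB h = single (shf h) 1 * qq ℤ ((1, 0) : V) (0, 1) := if_pos h1
  rw [h2]
  refine mul_ne_zero ?_ Lan_qq
  intro h0
  have h4 := congrArg (fun X : AddMonoidAlgebra ℤ V => X.coeff (shf h)) h0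
  simp only [coeff_single] at h4
  rw [Finsupp.single_eq_same] at h4
  exact one_ne_zero h4

theorem reg_c {p : ℕ} {g : Fin p → O2} {c : Fin p → V} {F : O2 → AddMonoidAlgebra ℤ V} (D : Dat p g c F)
    (Γ : Subgroup O2) (hg : ∀ i, g i ∈ Γ) (hΓ : ∀ h ∈ Γ, Ax h → h = 1) : Reg p g c := by
  classical
  by_contra hR
  unfold Reg at hR
  push Not at hR
  obtain ⟨Z, hZf, hZ, n0, hn0⟩ := hR
  obtain ⟨F', hF'⟩ : ∃ F' : O2 → AddMonoidAlgebra ℤ V, ∀ h, F' h = if h ∈ Γ then F h else 0 := ⟨_, fun _ => rfl⟩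
  obtain ⟨B', hB'⟩ : ∃ B' : O2 → AddMonoidAlgebra ℤ V, ∀ h, B' h = if h = 1 then BB 1 else 0 := ⟨_, fun _ => rfl⟩
  have hF : ∀ h, ∑ i, single (act h (c i)) 1 * F' (h * g i) = B' h := by
    intro h
    by_cases h1 : h ∈ Γ
    · have h2 : BB h = B' h := by
        rw [hB']
        by_cases h3 : h = 1
        · rw [if_pos h3, h3]
        · rw [if_neg h3]
          exact if_neg (fun h4 => h3 (hΓ h h1 h4))
      rw [← h2, ← D.rel h]
      refine Finset.sum_congr rfl fun i _ => ?_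
      rw [hF', if_pos (Γ.mul_mem h1 (hg i))]
    · have h3 : h ≠ 1 := fun h4 => h1 (h4 ▸ Γ.one_mem)
      rw [hB', if_neg h3]
      refine Finset.sum_eq_zero fun i _ => ?_
      have h2 : h * g i ∉ Γ := by
        intro h3
        apply h1
        have h4 := Γ.mul_mem h3 (Γ.inv_mem (hg i))
        rwa [mul_inv_cancel_right] at h4
      rw [hF', if_neg h2, mul_zero]
  have hax1 : Ax (1 : O2) := by simp [Ax]
  have hq0 : BB 1 ≠ 0 := Rgc_bb hax1
  obtain ⟨q0, hq⟩ : ∃ q0 : AddMonoidAlgebra ℤ V, q0 = BB 1 := ⟨_, rfl⟩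
  rw [← hq] at hq0 hB'
  set j := algebraMap (AddMonoidAlgebra ℤ V) (FractionRing (AddMonoidAlgebra ℤ V)) with hj
  have hj0 : ∀ x, j x = 0 → x = 0 := fun x hx => Lan_inj (by rw [← hj, hx, map_zero])
  have hjq : ∀ k : O2, j (gm k q0) ≠ 0 := fun k h0 => hq0 (Lan_gm0 k (hj0 _ h0))
  have hzf : ∀ k : O2, (Function.support fun h => j (gm k (Z (k⁻¹ * h)))).Finite := by
    intro k
    refine (hZf.image fun h => k * h).subset fun h hh => ⟨k⁻¹ * h, ?_, mul_inv_cancel_left _ _⟩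
    intro h0
    apply hh
    show j (gm k (Z (k⁻¹ * h))) = 0
    rw [h0, map_zero, map_zero]
  have huf : ∀ k : O2, (Function.support fun h => (j (gm k q0))⁻¹ * j (gm k (F' (k⁻¹ * h)))).Finite := by
    intro k
    refine (D.fin.image fun h => k * h).subset fun h hh => ⟨k⁻¹ * h, ?_, mul_inv_cancel_left _ _⟩
    intro h0
    apply hh
    show (j (gm k q0))⁻¹ * j (gm k (F' (k⁻¹ * h))) = 0
    have h1 : F' (k⁻¹ * h) = 0 := by
      rw [hF', h0]
      exact ite_self _
    rw [h1, map_zero, map_zero, mul_zero]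
  set z : O2 → (O2 →₀ FractionRing (AddMonoidAlgebra ℤ V)) :=
    fun k => Finsupp.ofSupportFinite (fun h => j (gm k (Z (k⁻¹ * h)))) (hzf k) with hz
  have hz1 : ∀ k h, z k h = j (gm k (Z (k⁻¹ * h))) := fun k h => rfl
  set u : O2 → (O2 →₀ FractionRing (AddMonoidAlgebra ℤ V)) :=
    fun k => Finsupp.ofSupportFinite (fun h => (j (gm k q0))⁻¹ * j (gm k (F' (k⁻¹ * h)))) (huf k) with hu
  have hu1 : ∀ k h, u k h = (j (gm k q0))⁻¹ * j (gm k (F' (k⁻¹ * h))) := fun k h => rfl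
  set N : Finset O2 := hZf.toFinset ∪ D.fin.toFinset with hN
  have hN1 : ∀ x, Z x ≠ 0 → x ∈ N := by
    intro x hx
    rw [hN, Finset.mem_union]
    exact Or.inl (hZf.mem_toFinset.2 hx)
  have hN2 : ∀ x, F' x ≠ 0 → x ∈ N := by
    intro x hx
    rw [hN, Finset.mem_union]
    refine Or.inr (D.fin.mem_toFinset.2 ?_)
    intro h0
    apply hx
    rw [hF', h0]
    exact ite_self _
  obtain ⟨S₀, S, hS, hc⟩ := fol N (N.card ^ 2)
  refine dim (LanT p g c) N u z ?_ ?_ ?_ ?_ n0 (hN1 n0 hn0) ?_ S₀ S hS hc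
  · intro k
    ext h
    rw [LanT_apply]
    have h1 := congrArg j (Lan_tr hF k h)
    rw [map_sum] at h1
    have h2 : ∑ i, j (single (act h (c i)) 1) * u k (h * g i) = (j (gm k q0))⁻¹ * j (gm k (B' (k⁻¹ * h))) := by
      rw [← h1, Finset.mul_sum]
      refine Finset.sum_congr rfl fun i _ => ?_
      rw [hu1, map_mul j]
      ring
    rw [← hj, h2, hB']
    by_cases h3 : k = h
    · rw [h3, Finsupp.single_eq_same, inv_mul_cancel, if_pos rfl]
      exact inv_mul_cancel₀ (hjq h)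
    · have h4 : ¬ k⁻¹ * h = 1 := fun h5 => h3 (inv_mul_eq_one.1 h5)
      rw [if_neg h4, map_zero, map_zero, mul_zero, Finsupp.single_apply, if_neg h3]
  · intro k x hx
    apply hN2
    intro h0
    apply hx
    rw [hu1, h0, map_zero, map_zero, mul_zero]
  · intro k
    ext h
    rw [LanT_apply]
    have h1 := congrArg j (Lan_tr (B := fun _ => 0) hZ k h)
    rw [map_sum, map_zero, map_zero] at h1
    rw [← hj, Finsupp.zero_apply, ← h1]
    refine Finset.sum_congr rfl fun i _ => ?_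
    rw [hz1, map_mul j]
  · intro k x hx
    apply hN1
    intro h0
    apply hx
    rw [hz1, h0, map_zero, map_zero]
  · intro k h0
    apply hn0
    rw [hz1, inv_mul_cancel_left] at h0
    exact Lan_gm0 k (hj0 _ h0)

end Pool.Agent.SQH
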