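import Pool.Agent.SQH.Defs
import Pool.Agent.SQH.Jmp
import Pool.Agent.SQG.Qd
import Pool.Agent.SQG.Cal

/-!
# SQH module Row: sums along half rows of the corner function

PROOF. Let `J t = k` if `∀ᶠ b in 𝓝[>] 0, ind W (t, c + b) - ind W (t, c - b) = k` for some (unique) `k`, and `J t = 0`
if there is no such `k` (classical choice).  For each `t`, `qd` (for `w = (t, c)` and the four signs) gives the
eventual values `n1, n2, n3, n4` of `ind W` in the four quadrants (`∀ᶠ a, ∀ᶠ b`), so `∀ᶠ a, J (t + a) = n1 - n2` and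
`∀ᶠ a, J (t - a) = n3 - n4`, and `(n1 - n2) - (n3 - n4) = X.coeff (t, c)` by `crn_uniq` and `hX (t, c)`
(`md` is this combination).  `W` is bounded: for large `t` all `ind W (t, _) = 0`, so `J t = 0`.  Apply `jmp` with
`f t = X.coeff (t, c)` and `S = X.coeff.support.image Prod.fst`; by `hm`, `hn`, `∀ᶠ a, J (x + a) = m - n`, so
`∑ t ∈ S.filter (x < ·), X.coeff (t, c) = - (m - n)`.  The left side is `sm (fun w => w.2 = c ∧ x < w.1) X`
(`sm` is a sum over `X.coeff.support`; e.g. reindex by `t ↦ (t, c)`: `Finset.sum_bij`, `Finset.sum_nbij'` or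
`Finset.sum_filter`; terms with `X.coeff (t, c) = 0` vanish).
-/

set_option autoImplicit false

open AddMonoidAlgebra Filter Topology

namespace Pool.Agent.SQH

open Pool.Agent.SQG

/-- The jump across the line `y = c` at `(t, c)` is `k`. -/
private def Row_P (W : Set V) (c t : ℝ) (k : ℤ) : Prop :=
  ∀ᶠ b in 𝓝[>] (0 : ℝ), ind W (t, c + b) - ind W (t, c - b) = k

open Classical in
private noncomputable def Row_J (W : Set V) (c t : ℝ) : ℤ :=
  if h : ∃ k, Row_P W c t k then h.choose else 0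

private theorem Row_Jval {W : Set V} {c t : ℝ} {k : ℤ} (h : Row_P W c t k) : Row_J W c t = k := by
  have h1 : ∃ k, Row_P W c t k := ⟨k, h⟩
  have h2 : Row_J W c t = h1.choose := by
    unfold Row_J
    rw [dif_pos h1]
  rw [h2]
  have h3 : Row_P W c t h1.choose := h1.choose_spec
  obtain ⟨b, hb1, hb2⟩ := (h3.and h).exists
  rw [← hb1, hb2]

private theorem Row_jump {W : Set V} {T : Finset (ℝ × ℝ × ℝ)} {C : Set V} (hW : IsOpen W) (hB : TB W T C)
    {X : AddMonoidAlgebra ℤ V} (hX : ∀ w, Crn (ind W) w (X.coeff w)) (c t : ℝ) :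
    ∃ m n : ℤ, (∀ᶠ a in 𝓝[>] (0 : ℝ), Row_J W c (t + a) = m) ∧ (∀ᶠ a in 𝓝[>] (0 : ℝ), Row_J W c (t - a) = n) ∧
      m - n = X.coeff (t, c) := by
  obtain ⟨n1, h1⟩ := qd hW hB (t, c) 1 1 (Or.inl rfl) (Or.inl rfl)
  obtain ⟨n2, h2⟩ := qd hW hB (t, c) 1 (-1) (Or.inl rfl) (Or.inr rfl)
  obtain ⟨n3, h3⟩ := qd hW hB (t, c) (-1) 1 (Or.inr rfl) (Or.inl rfl)
  obtain ⟨n4, h4⟩ := qd hW hB (t, c) (-1) (-1) (Or.inr rfl) (Or.inr rfl)
  simp only [one_mul, neg_one_mul, ← sub_eq_add_neg] at h1 h2 h3 h4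
  refine ⟨n1 - n2, n3 - n4, ?_, ?_, ?_⟩
  · filter_upwards [h1, h2] with a ha1 ha2
    refine Row_Jval ?_
    unfold Row_P
    filter_upwards [ha1, ha2] with b hb1 hb2
    rw [hb1, hb2]
  · filter_upwards [h3, h4] with a ha1 ha2
    refine Row_Jval ?_
    unfold Row_P
    filter_upwards [ha1, ha2] with b hb1 hb2
    rw [hb1, hb2]
  · refine crn_uniq (u := ind W) (w := (t, c)) ?_ (hX (t, c))
    unfold Crn
    filter_upwards [h1, h2, h3, h4] with a ha1 ha2 ha3 ha4
    filter_upwards [ha1, ha2, ha3, ha4] with b hb1 hb2 hb3 hb4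
    unfold md
    rw [hb1, hb2, hb3, hb4]
    ring

private theorem Row_far {W : Set V} (hb : Bornology.IsBounded W) (c : ℝ) :
    ∀ᶠ t in atTop, Row_J W c t = 0 := by
  obtain ⟨R, hR⟩ := hb.subset_closedBall (0 : V)
  filter_upwards [eventually_gt_atTop R] with t ht
  refine Row_Jval ?_
  have h1 : ∀ y : ℝ, ind W (t, y) = 0 := by
    intro y
    unfold ind
    rw [if_neg]
    intro h2
    have h3 := hR h2
    rw [Metric.mem_closedBall, dist_zero_right, Prod.norm_def] at h3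
    have h4 : ‖t‖ ≤ R := le_trans (le_max_left _ _) h3
    have h5 : t ≤ ‖t‖ := le_abs_self t
    linarith
  unfold Row_P
  refine Eventually.of_forall fun b => ?_
  rw [h1, h1, sub_zero]

private theorem Row_sum (X : AddMonoidAlgebra ℤ V) (x c : ℝ) :
    sm (fun w => w.2 = c ∧ x < w.1) X =
      ∑ t ∈ (X.coeff.support.image Prod.fst).filter (fun t => x < t), X.coeff (t, c) := by
  classical
  have h0 : sm (fun w => w.2 = c ∧ x < w.1) X = ∑ w ∈ X.coeff.support.filter (fun w => w.2 = c ∧ x < w.1),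
      X.coeff w := by
    rw [sm_eq _ X X.coeff.support (Finset.Subset.refl _), Finset.sum_filter]
    refine Finset.sum_congr rfl fun w _ => ?_
    by_cases h : w.2 = c ∧ x < w.1
    · rw [if_pos h, if_pos h]
    · rw [if_neg h, if_neg h]
  rw [h0]
  have h1 : ∑ t ∈ (X.coeff.support.image Prod.fst).filter (fun t => x < t), X.coeff (t, c) =
      ∑ w ∈ ((X.coeff.support.image Prod.fst).filter (fun t => x < t)).image (fun t => (t, c)), X.coeff w := by
    rw [Finset.sum_image]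
    intro a _ b _ hab
    exact (Prod.mk.inj hab).1
  rw [h1]
  refine Finset.sum_subset ?_ ?_
  · rintro ⟨w1, w2⟩ hw
    rw [Finset.mem_filter] at hw
    obtain ⟨h2, h3, h4⟩ := hw
    simp only at h3 h4
    subst h3
    refine Finset.mem_image.2 ⟨w1, ?_, rfl⟩
    exact Finset.mem_filter.2 ⟨Finset.mem_image.2 ⟨(w1, w2), h2, rfl⟩, h4⟩
  · intro w hw hw2
    obtain ⟨t, ht, rfl⟩ := Finset.mem_image.1 hw
    by_contra h2
    refine hw2 (Finset.mem_filter.2 ⟨Finsupp.mem_support_iff.2 h2, rfl, ?_⟩)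
    exact (Finset.mem_filter.1 ht).2

theorem row {W : Set V} {T : Finset (ℝ × ℝ × ℝ)} {C : Set V} (hW : IsOpen W) (hB : TB W T C)
    (hb : Bornology.IsBounded W) (X : AddMonoidAlgebra ℤ V) (hX : ∀ w, Crn (ind W) w (X.coeff w)) (x c : ℝ)
    (m n : ℤ) (hm : ∀ᶠ a in 𝓝[>] (0 : ℝ), ∀ᶠ b in 𝓝[>] (0 : ℝ), ind W (x + a, c + b) = m)
    (hn : ∀ᶠ a in 𝓝[>] (0 : ℝ), ∀ᶠ b in 𝓝[>] (0 : ℝ), ind W (x + a, c - b) = n) :
    sm (fun w => w.2 = c ∧ x < w.1) X = n - m := by
  have h1 : ∀ᶠ a in 𝓝[>] (0 : ℝ), Row_J W c (x + a) = m - n := by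
    filter_upwards [hm, hn] with a ha1 ha2
    refine Row_Jval ?_
    unfold Row_P
    filter_upwards [ha1, ha2] with b hb1 hb2
    rw [hb1, hb2]
  have h2 : ∀ t, t ∉ X.coeff.support.image Prod.fst → X.coeff (t, c) = 0 := by
    intro t ht
    by_contra h3
    exact ht (Finset.mem_image.2 ⟨(t, c), Finsupp.mem_support_iff.2 h3, rfl⟩)
  have h3 := jmp (Row_J W c) (fun t => X.coeff (t, c)) (X.coeff.support.image Prod.fst) h2
    (Row_jump hW hB hX c) (Row_far hb c) x (m - n) h1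
  rw [Row_sum, h3]
  ring

end Pool.Agent.SQH
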