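import Pool.Agent.SQH.Row

/-!
# SQH module Rwz: row sums vanish off the frontier

PROOF. If `w ∉ frontier W` then `W` or the complement of its closure is a neighbourhood of `w`
(`frontier W = closure W \ interior W`), so `ind W` is constant, `= m`, on a box around `w`
(`Metric.isOpen_iff`, `Prod.dist_eq`, `Real.dist_eq`).
`row_at`: the four values in `md` agree for small `a, b`, so `Crn (ind W) w 0`, and `crn_uniq`.
`row_off`: `row` with `m = n`.
`row_tot`: `W` is bounded; take `x` smaller than all first coordinates of points of `closure W` and of the support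
of `X`: `(x, c) ∉ frontier W`, `row_off`, and `sm_congr` (all `w` in the support satisfy `x < w.1`).
-/

set_option autoImplicit false

open AddMonoidAlgebra Filter Topology

namespace Pool.Agent.SQH

open Pool.Agent.SQG

private theorem Rwz_loc {W : Set V} (hW : IsOpen W) {w : V} (h : w ∉ frontier W) :
    ∃ (k : ℤ) (e : ℝ), 0 < e ∧ ∀ z : V, |z.1 - w.1| < e → |z.2 - w.2| < e → ind W z = k := by
  by_cases h1 : w ∈ W
  · obtain ⟨e, he, hb⟩ := Metric.isOpen_iff.1 hW w h1
    refine ⟨1, e, he, fun z h2 h3 => ?_⟩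
    have h4 : z ∈ W := by
      apply hb
      rw [Metric.mem_ball, Prod.dist_eq, Real.dist_eq, Real.dist_eq]
      exact max_lt h2 h3
    unfold ind
    rw [if_pos h4]
  · have h2 : w ∉ closure W := by
      intro h3
      refine h ⟨h3, ?_⟩
      rw [hW.interior_eq]
      exact h1
    obtain ⟨e, he, hb⟩ := Metric.isOpen_iff.1 isClosed_closure.isOpen_compl w h2
    refine ⟨0, e, he, fun z h3 h4 => ?_⟩
    have h5 : z ∉ W := by
      intro h6
      have h7 : z ∈ (closure W)ᶜ := by
        apply hb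
        rw [Metric.mem_ball, Prod.dist_eq, Real.dist_eq, Real.dist_eq]
        exact max_lt h3 h4
      exact h7 (subset_closure h6)
    unfold ind
    rw [if_neg h5]

private theorem Rwz_ev {e : ℝ} (he : 0 < e) {Q : ℝ → Prop} (h : ∀ a, 0 < a → a < e → Q a) :
    ∀ᶠ a in 𝓝[>] (0 : ℝ), Q a := by
  filter_upwards [Ioo_mem_nhdsGT he] with a ha
  exact h a ha.1 ha.2

theorem row_at {W : Set V} (hW : IsOpen W) {X : AddMonoidAlgebra ℤ V} (hX : ∀ w, Crn (ind W) w (X.coeff w)) (w : V)
    (h : w ∉ frontier W) : X.coeff w = 0 := by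
  obtain ⟨k, e, he, hk⟩ := Rwz_loc hW h
  refine crn_uniq (hX w) ?_
  refine Rwz_ev he fun a ha1 ha2 => Rwz_ev he fun b hb1 hb2 => ?_
  have e1 : |w.1 + a - w.1| < e := by
    rw [add_sub_cancel_left, abs_of_pos ha1]
    exact ha2
  have e2 : |w.1 - a - w.1| < e := by
    rw [sub_sub_cancel_left, abs_neg, abs_of_pos ha1]
    exact ha2
  have e3 : |w.2 + b - w.2| < e := by
    rw [add_sub_cancel_left, abs_of_pos hb1]
    exact hb2
  have e4 : |w.2 - b - w.2| < e := by
    rw [sub_sub_cancel_left, abs_neg, abs_of_pos hb1]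
    exact hb2
  unfold md
  rw [hk _ e1 e3, hk _ e1 e4, hk _ e2 e3, hk _ e2 e4]
  ring

theorem row_off {W : Set V} {T : Finset (ℝ × ℝ × ℝ)} {C : Set V} (hW : IsOpen W) (hB : TB W T C)
    (hb : Bornology.IsBounded W) {X : AddMonoidAlgebra ℤ V} (hX : ∀ w, Crn (ind W) w (X.coeff w)) (x c : ℝ)
    (h : ((x, c) : V) ∉ frontier W) : sm (fun w => w.2 = c ∧ x < w.1) X = 0 := by
  obtain ⟨k, e, he, hk⟩ := Rwz_loc hW h
  have h1 := row hW hB hb X hX x c k k
    (Rwz_ev he fun a ha1 ha2 => Rwz_ev he fun b hb1 hb2 => hk _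
      (by
        show |x + a - x| < e
        rw [add_sub_cancel_left, abs_of_pos ha1]
        exact ha2)
      (by
        show |c + b - c| < e
        rw [add_sub_cancel_left, abs_of_pos hb1]
        exact hb2))
    (Rwz_ev he fun a ha1 ha2 => Rwz_ev he fun b hb1 hb2 => hk _
      (by
        show |x + a - x| < e
        rw [add_sub_cancel_left, abs_of_pos ha1]
        exact ha2)
      (by
        show |c - b - c| < e
        rw [sub_sub_cancel_left, abs_neg, abs_of_pos hb1]
        exact hb2))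
  rw [h1, sub_self]

theorem row_tot {W : Set V} {T : Finset (ℝ × ℝ × ℝ)} {C : Set V} (hW : IsOpen W) (hB : TB W T C)
    (hb : Bornology.IsBounded W) {X : AddMonoidAlgebra ℤ V} (hX : ∀ w, Crn (ind W) w (X.coeff w)) (c : ℝ) :
    sm (fun w => w.2 = c) X = 0 := by
  obtain ⟨R, hR⟩ := hb.subset_closedBall (0 : V)
  obtain ⟨m, hm⟩ := (X.coeff.support.image Prod.fst).bddBelow
  have h1 : ((min (-R) m - 1, c) : V) ∉ frontier W := by
    intro h2
    have h3 := closure_minimal hR Metric.isClosed_closedBall (frontier_subset_closure h2)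
    rw [Metric.mem_closedBall, dist_zero_right, Prod.norm_def] at h3
    have h4 : ‖min (-R) m - 1‖ ≤ R := le_trans (le_max_left _ _) h3
    have h5 : -(min (-R) m - 1) ≤ ‖min (-R) m - 1‖ := neg_le_abs _
    have h6 := min_le_left (-R) m
    linarith
  rw [← row_off hW hB hb hX (min (-R) m - 1) c h1]
  refine sm_congr fun w hw => ⟨fun h2 => ⟨h2, ?_⟩, fun h2 => h2.1⟩
  have h3 : m ≤ w.1 := hm (Finset.mem_coe.2 (Finset.mem_image.2 ⟨w, Finsupp.mem_support_iff.2 hw, rfl⟩))
  have h4 := min_le_right (-R) m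
  linarith

end Pool.Agent.SQH
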