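import Pool.Agent.SQH.Gzb
import Pool.Agent.SQH.Lcb

/-!
# SQH module Tmf: a set whose indicator function agrees with a piecewise constant function is tame

PROOF. `T` is the set of lines of `hP`.  Let `x ∈ frontier U`; show that `x` lies on a line of `T`.  Otherwise there is
an open neighbourhood `B` of `x` on which `P` is constant, `= P x`, and we may take it inside `|z.1| < R + 1`,
`|z.2| < R + 1` (`x ∈ closure U`, so `|x.1| ≤ R`, `|x.2| ≤ R`).  `x ∈ closure U`, so `B ∩ U` is open and nonempty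
and by `gz_ex` contains `z` with `l ∣ P z - a * 1`; so `l ∣ P x - a`.  If `B ⊄ closure U`, then `B \ closure U` is
open and nonempty and contains `z` with `l ∣ P z - a * 0 = P x`, so `l ∣ a`, a contradiction.  So `B ⊆ closure U` and
`x ∈ interior (closure U) ⊆ U`, but the open set `U` is disjoint from its frontier.
-/

set_option autoImplicit false

open AddMonoidAlgebra Filter Topology

namespace Pool.Agent.SQH

open Pool.Agent.SQG

theorem tmf {U : Set V} (hU : IsOpen U) (hr : interior (closure U) ⊆ U) (R : ℝ)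
    (hb : ∀ z ∈ U, |z.1| ≤ R ∧ |z.2| ≤ R) (P : V → ℤ) (hP : Lc P) (l : ℕ) (a : ℤ) (ha : ¬ (l : ℤ) ∣ a)
    (h : Gz (fun z => |z.1| ≤ R + 1 → |z.2| ≤ R + 1 → (l : ℤ) ∣ P z - a * ind U z)) : ∃ T, TB U T ∅ := by
  obtain ⟨T, hT, hTl⟩ := hP
  refine ⟨T, isClosed_empty, fun l hl => by simp, hT, ?_⟩
  intro x hx
  rw [Set.empty_union]
  by_contra hno
  have hx' : ∀ l ∈ T, x ∉ Ln l := by
    intro l hl hxl
    exact hno (Set.mem_biUnion hl hxl)
  have hxc : x ∈ closure U := frontier_subset_closure hx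
  have hb1 : closure U ⊆ {z : V | |z.1| ≤ R ∧ |z.2| ≤ R} := by
    apply closure_minimal (fun z hz => hb z hz)
    have c1 : Continuous fun y : V => |y.1| := by fun_prop
    have c2 : Continuous fun y : V => |y.2| := by fun_prop
    exact (isClosed_le c1 continuous_const).inter (isClosed_le c2 continuous_const)
  have hxR := hb1 hxc
  have h1 : ∀ᶠ y : V in 𝓝 x, |y.1| < R + 1 := by
    have hc : Continuous fun y : V => |y.1| := by fun_prop
    exact hc.continuousAt.eventually (Iio_mem_nhds (by linarith [hxR.1]))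
  have h2 : ∀ᶠ y : V in 𝓝 x, |y.2| < R + 1 := by
    have hc : Continuous fun y : V => |y.2| := by fun_prop
    exact hc.continuousAt.eventually (Iio_mem_nhds (by linarith [hxR.2]))
  have h3 : ∀ᶠ y in 𝓝 x, P y = P x ∧ |y.1| < R + 1 ∧ |y.2| < R + 1 := (hTl x hx').and (h1.and h2)
  obtain ⟨B, hB, hBo, hxB⟩ := eventually_nhds_iff.1 h3
  have h4 : (B ∩ U).Nonempty := mem_closure_iff.1 hxc B hBo hxB
  obtain ⟨z, hz, hz1⟩ := gz_ex h (hBo.inter hU) h4
  have h5 : (l : ℤ) ∣ P x - a := by
    have h6 := hz1 (hB z hz.1).2.1.le (hB z hz.1).2.2.le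
    rw [(hB z hz.1).1] at h6
    have h7 : ind U z = 1 := by
      unfold ind
      rw [if_pos hz.2]
    rwa [h7, mul_one] at h6
  have h6 : B ⊆ closure U := by
    by_contra hcon
    obtain ⟨w, hwB, hwU⟩ := Set.not_subset.1 hcon
    obtain ⟨z, hz, hz1⟩ := gz_ex h (hBo.inter isClosed_closure.isOpen_compl) ⟨w, hwB, hwU⟩
    have h7 := hz1 (hB z hz.1).2.1.le (hB z hz.1).2.2.le
    rw [(hB z hz.1).1] at h7
    have h8 : ind U z = 0 := by
      unfold ind
      rw [if_neg fun hzU => hz.2 (subset_closure hzU)]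
    rw [h8, mul_zero, sub_zero] at h7
    apply ha
    have h9 := dvd_sub h7 h5
    rwa [sub_sub_cancel] at h9
  have h7 : x ∈ interior (closure U) := mem_interior.2 ⟨B, h6, hBo, hxB⟩
  have h8 : x ∈ U := hr h7
  rw [hU.frontier_eq] at hx
  exact hx.2 h8

end Pool.Agent.SQH
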