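import Pool.Agent.SQH.Adj
import Pool.Agent.SQH.Frb
import Pool.Agent.SQH.Tmf

/-!
# SQH module Tam: pieces of arbitrary shape are tame if the linear parts lie in a finite group

PROOF. `U` is bounded: `Γ` is a group, `U = mv (g i)⁻¹ .. '' (mv (g i) (c i) '' U)` for some `i` (if `p = 0` then
`sq = ∅` by `hT.cover`, impossible), `til_bdd`, `mv_bdd` (`mv_inv_mv`); so `U` is contained in a box with some `R`.
`frb` for `D = DD ..` and `R` gives `l, n, v, a`.  By `adj` and `gz_cv` (with `D ^ (n - 1)`; `D ^ n = D ^ (n - 1) * D`,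
`cv_mul`) and `gz_shift`: for `z` outside a closed set without interior points,
`cv (D ^ n) (ind U) (z + v) = ∑ k, cv (D ^ (n - 1) * Y k) (ind (act k '' sqo)) (z + v)`.  Call the right side `P z`; it is
`Lc` (`lc_sum`, `lc_cv`, `lc_sq`, `lc_shift` by `-v`).  Apply `tmf`.
-/

set_option autoImplicit false

open AddMonoidAlgebra Filter Topology

namespace Pool.Agent.SQH

open Pool.Agent.SQG

private theorem cv_fsum' {κ : Type} (s : Finset κ) (X : AddMonoidAlgebra ℤ V) (v : κ → V → ℤ) (z : V) :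
    cv X (fun y => ∑ k ∈ s, v k y) z = ∑ k ∈ s, cv X (v k) z := by
  unfold cv Finsupp.sum
  simp only [Finset.mul_sum]
  exact Finset.sum_comm

private theorem til_idx {p : ℕ} {U : Set V} {g : Fin p → O2} {c : Fin p → V} (hT : Til p U g c) : Nonempty (Fin p) := by
  by_contra hne
  rw [not_nonempty_iff] at hne
  have h1 : ((0, 0) : V) ∈ sq := ⟨⟨le_refl _, zero_le_one⟩, ⟨le_refl _, zero_le_one⟩⟩
  rw [← hT.cover, Set.mem_iUnion] at h1
  obtain ⟨i, _⟩ := h1
  exact hne.elim i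

private theorem til_U_bdd {p : ℕ} {U : Set V} {g : Fin p → O2} {c : Fin p → V} (hT : Til p U g c) :
    Bornology.IsBounded U := by
  obtain ⟨i⟩ := til_idx hT
  have h1 := mv_bdd (til_bdd hT i) (g i)⁻¹ (-(act (g i)⁻¹ (c i)))
  have h2 : mv (g i)⁻¹ (-(act (g i)⁻¹ (c i))) '' (mv (g i) (c i) '' U) = U := by
    rw [← Set.image_comp]
    have h3 : mv (g i)⁻¹ (-(act (g i)⁻¹ (c i))) ∘ mv (g i) (c i) = id := by
      funext z
      exact mv_inv_mv (g i) (c i) z
    rw [h3, Set.image_id]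
  rw [h2] at h1
  exact h1

theorem tam {p : ℕ} (Γ : Subgroup O2) [Fintype Γ] (g : Fin p → Γ) (c : Fin p → V) {U : Set V}
    (hT : Til p U (fun i => (g i : O2)) c) (hD : DD p (fun h : Γ => act (h : O2)) g c ≠ 0) : ∃ T, TB U T ∅ := by
  have hB : Bornology.IsBounded U := til_U_bdd hT
  obtain ⟨R, hR⟩ := (Metric.isBounded_iff_subset_closedBall (0 : V)).1 hB
  have hb : ∀ z ∈ U, |z.1| ≤ R ∧ |z.2| ≤ R := by
    intro z hz
    have h1 : ‖z‖ ≤ R := by
      have h2 := hR hz
      rwa [mem_closedBall_zero_iff] at h2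
    exact ⟨(norm_fst_le z).trans h1, (norm_snd_le z).trans h1⟩
  set D := DD p (fun h : Γ => act (h : O2)) g c with hDdef
  obtain ⟨l, n, v, a, _, hn, ha, hf⟩ := frb D hD R
  obtain ⟨Y, hY⟩ := adj Γ g c hT
  rw [← hDdef] at hY
  have h1 := gz_shift (gz_cv (D ^ (n - 1)) hY) (-v)
  have hP : Lc (fun z => ∑ k : Γ, cv (D ^ (n - 1) * Y k) (ind (act (k : O2) '' sqo)) (z - -v)) :=
    lc_sum Finset.univ _ fun k _ => lc_shift (lc_cv _ (lc_sq (k : O2))) (-v)
  refine tmf hT.opn hT.reg R hb _ hP l a ha (gz_mono h1 fun z hz hz1 hz2 => ?_)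
  have h2 := hf (ind U) (fun y hy => ?_) z hz1 hz2
  · have h3 : cv (D ^ n) (ind U) (z + v) =
        ∑ k : Γ, cv (D ^ (n - 1) * Y k) (ind (act (k : O2) '' sqo)) (z - -v) := by
      have h4 : D ^ n = D ^ (n - 1) * D := by
        rw [← pow_succ, Nat.sub_add_cancel hn]
      rw [h4, cv_mul, ← sub_neg_eq_add z v]
      refine Eq.trans hz ?_
      rw [cv_fsum']
      refine Finset.sum_congr rfl fun k _ => ?_
      rw [cv_mul]
    rw [h3] at h2
    exact h2
  · refine hb y ?_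
    by_contra hyU
    apply hy
    unfold ind
    rw [if_neg hyU]

end Pool.Agent.SQH
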