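import Pool.Agent.SQH.Cre
import Pool.Agent.SQH.Rga
import Pool.Agent.SQH.Kdc
import Pool.Agent.SQH.Tam
import Pool.Agent.SQH.Dnc
import Pool.Agent.SQH.Lan
import Pool.Agent.SQH.Lfn
import Pool.Agent.SQH.Dnl

/-!
# SQH: the main theorem in coordinates
-/

set_option autoImplicit false

open AddMonoidAlgebra Filter Topology

namespace Pool.Agent.SQH

open Pool.Agent.SQG

/-- The hypothesis on the linear parts. -/
def HypH (p : ℕ) (g : Fin p → O2) (c : Fin p → V) (Γ : Subgroup O2) : Prop :=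
  (∃ q : ℕ, q.Prime ∧ (¬ (q : ℤ) ∣ p * ∑ i, ((g i).s : ℤ)) ∧
    ∀ k ∈ Γ, k.s = 1 → IsOfFinOrder k → ∃ a : ℕ, k ^ (q ^ a) = 1) ∨
  (∃ H : Finset O2, (∀ s, s ∈ H ↔ s ∈ Γ ∧ Ax s) ∧
    ∀ A : O2 →₀ ℤ, (∀ k, ∑ i, A (k * (g i)⁻¹) = 0) → (∀ k, ∑ s ∈ H, A (k * s) = 0) → A = 0) ∨ Reg p g c

theorem hyp_or {p : ℕ} {g : Fin p → O2} {c : Fin p → V} (Γ : Subgroup O2) (hg : ∀ i, g i ∈ Γ)
    (hyp : HypH p g c Γ) : (∃ H : Finset O2, (∀ s, s ∈ H ↔ s ∈ Γ ∧ Ax s) ∧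
    ∀ A : O2 →₀ ℤ, (∀ k, ∑ i, A (k * (g i)⁻¹) = 0) → (∀ k, ∑ s ∈ H, A (k * s) = 0) → A = 0) ∨ Reg p g c := by
  rcases hyp with ⟨q, hq, hn, ht⟩ | h | h
  · right
    refine reg_inj c (inj_q g q hq hn fun k hk => ht k ?_)
    refine (Subgroup.closure_le Γ).2 ?_ hk
    rintro _ ⟨x, rfl⟩
    exact Γ.mul_mem (Γ.inv_mem (hg _)) (hg _)
  · exact Or.inl h
  · exact Or.inr h

theorem reg_all {p : ℕ} {U : Set V} {g : Fin p → O2} {c : Fin p → V} (hT : Til p U g c) (Γ : Subgroup O2)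
    (hg : ∀ i, g i ∈ Γ) (hyp : HypH p g c Γ) {T : Finset (ℝ × ℝ × ℝ)} {C : Set V} (hB : TB U T C) :
    Reg p g c := by
  rcases hyp_or Γ hg hyp with ⟨H, hH, hU⟩ | h
  · obtain ⟨F, D, -⟩ := geh hT hB
    by_contra hR
    obtain ⟨a, h1, h2, h3, h4⟩ := lann D Γ hg H hH hR
    exact lfin H hU h1 h2 h3 h4
  · exact h

theorem tam_all {p : ℕ} {U : Set V} {g : Fin p → O2} {c : Fin p → V} (hT : Til p U g c) (Γ : Subgroup O2)
    (hfin : (Γ : Set O2).Finite) (hg : ∀ i, g i ∈ Γ) (hyp : HypH p g c Γ) : ∃ T, TB U T ∅ := by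
  have : Fintype Γ := hfin.fintype
  have hT' : Til p U (fun i => ((⟨g i, hg i⟩ : Γ) : O2)) c := hT
  refine tam Γ (fun i => ⟨g i, hg i⟩) c hT' ?_
  rcases hyp_or Γ hg hyp with ⟨H, hH, hU⟩ | h
  · intro hD
    obtain ⟨a, h1, h2, h3, h4⟩ := dann Γ _ c hT' H hH hD
    exact lfin H hU h1 h2 h3 h4
  · exact dd_reg Γ _ c h

theorem main {p : ℕ} {U : Set V} {g : Fin p → O2} {c : Fin p → V} (hT : Til p U g c) (hc : IsConnected U)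
    (Γ : Subgroup O2) (hg : ∀ i, g i ∈ Γ) (hyp : HypH p g c Γ)
    (hshape : (Γ : Set O2).Finite ∨ ∃ T C, TB U T C) :
    (∀ i j, Ax (g i * (g j)⁻¹)) ∧ ∀ i, ∃ S : Finset ℝ, frontier (mv (g i) (c i) '' U) ⊆ {z | z.1 ∈ S ∨ z.2 ∈ S} := by
  obtain ⟨T, C, hB⟩ : ∃ T C, TB U T C := by
    rcases hshape with h | h
    · obtain ⟨T, hB⟩ := tam_all hT Γ h hg hyp
      exact ⟨T, ∅, hB⟩
    · exact h
  obtain ⟨h1, i, S, hS⟩ := core hT hc hB (reg_all hT Γ hg hyp hB)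
  refine ⟨h1, fun j => ?_⟩
  have h2 : mv (g j) (c j) '' U = mv (g j * (g i)⁻¹) (c j - act (g j * (g i)⁻¹) (c i)) '' (mv (g i) (c i) '' U) := by
    rw [← Set.image_comp]
    refine Set.image_congr fun z _ => ?_
    simp only [Function.comp]
    rw [mv_mul, inv_mul_cancel_right]
    congr 1
    abel
  rw [h2]
  exact rec2 hS _ (h1 j i) _

end Pool.Agent.SQH
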